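import Mathlib

/-! ES, row R3: the additive large sieve (discrete Gallagher inequality). -/

open Finset

namespace Pool.Agent.ES

/-- the additive character `exp (2 pi i x)` -/
noncomputable def e (x : ℝ) : ℂ := Complex.exp (2 * Real.pi * x * Complex.I)

theorem e_add (x y : ℝ) : e (x + y) = e x * e y := by
  unfold e
  rw [← Complex.exp_add]
  congr 1
  push_cast
  ring

theorem e_zero : e 0 = 1 := by simp [e]

theorem norm_e (x : ℝ) : ‖e x‖ = 1 := by
  have : (2 * Real.pi * x * Complex.I : ℂ) = ((2 * Real.pi * x : ℝ) : ℂ) * Complex.I := by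
    push_cast; ring
  unfold e
  rw [this]
  exact Complex.norm_exp_ofReal_mul_I _

theorem e_nat (n : ℕ) : e n = 1 := by
  unfold e
  rw [Complex.exp_eq_one_iff]
  refine ⟨n, ?_⟩
  push_cast
  ring

theorem e_neg (x : ℝ) : e (-x) = (starRingEnd ℂ) (e x) := by
  unfold e
  rw [← Complex.exp_conj]
  congr 1
  simp only [map_mul, Complex.conj_I, Complex.conj_ofReal, map_ofNat]
  push_cast
  ring

theorem e_nat_mul (n : ℕ) (x : ℝ) : e (n * x) = e x ^ n := by
  unfold e
  rw [← Complex.exp_nat_mul]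
  congr 1
  push_cast
  ring

theorem e_eq_one_iff (x : ℝ) : e x = 1 ↔ ∃ m : ℤ, x = m := by
  unfold e
  rw [Complex.exp_eq_one_iff]
  constructor
  · rintro ⟨m, hm⟩
    refine ⟨m, ?_⟩
    have h2 : (2 * Real.pi * Complex.I : ℂ) ≠ 0 := Complex.two_pi_I_ne_zero
    have h3 : (x : ℂ) * (2 * Real.pi * Complex.I) = (m : ℂ) * (2 * Real.pi * Complex.I) := by
      rw [← hm]; ring
    have h4 := mul_right_cancel₀ h2 h3
    exact_mod_cast h4
  · rintro ⟨m, rfl⟩
    refine ⟨m, ?_⟩
    push_cast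
    ring

/-- orthogonality -/
theorem sum_e (L : ℕ) (hL : 0 < L) (n m : ℕ) (hn : n < L) (hm : m < L) :
    ∑ t ∈ range L, e ((n : ℝ) * t / L) * (starRingEnd ℂ) (e ((m : ℝ) * t / L)) =
      if n = m then (L : ℂ) else 0 := by
  have hL' : (L : ℝ) ≠ 0 := by positivity
  have h1 : ∀ t ∈ range L, e ((n : ℝ) * t / L) * (starRingEnd ℂ) (e ((m : ℝ) * t / L)) =
      (e (((n : ℝ) - m) / L)) ^ t := by
    intro t _
    rw [← e_neg, ← e_add, ← e_nat_mul]
    congr 1
    field_simp
    ring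
  rw [sum_congr rfl h1]
  split_ifs with h
  · subst h
    simp [e_zero]
  · set z := e (((n : ℝ) - m) / L) with hz
    have hz1 : z ≠ 1 := by
      intro h2
      rw [hz, e_eq_one_iff] at h2
      obtain ⟨k, hk⟩ := h2
      have h3 : ((n : ℝ) - m) = k * L := by
        field_simp at hk
        linarith
      have h4 : ((n : ℤ) - m) = k * L := by exact_mod_cast h3
      have h5 : k = 0 := by
        by_contra h6
        have h7 : 1 ≤ |k| := Int.one_le_abs h6
        have h8 : |((n : ℤ) - m)| = |k| * L := by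
          rw [h4, abs_mul, Nat.abs_cast]
        have h9 : |((n : ℤ) - m)| < L := by
          rw [abs_lt]
          constructor <;> omega
        nlinarith
      rw [h5] at h4
      apply h
      have : (n : ℤ) = m := by linarith
      exact_mod_cast this
    have hzL : z ^ L = 1 := by
      rw [hz, ← e_nat_mul]
      rw [e_eq_one_iff]
      refine ⟨(n : ℤ) - m, ?_⟩
      push_cast
      field_simp
    have h2 := mul_neg_geom_sum z L
    rw [hzL, sub_self] at h2
    rcases mul_eq_zero.mp h2 with h3 | h3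
    · exact absurd (sub_eq_zero.mp h3).symm hz1
    · exact h3

/-- Parseval on the grid `t / L` -/
theorem parseval (K L : ℕ) (hL : 0 < L) (hKL : K ≤ L) (b : ℕ → ℂ) :
    ∑ t ∈ range L, ‖∑ n ∈ range K, b n * e ((n : ℝ) * t / L)‖ ^ 2 =
      L * ∑ n ∈ range K, ‖b n‖ ^ 2 := by
  have h1 : ((∑ t ∈ range L, ‖∑ n ∈ range K, b n * e ((n : ℝ) * t / L)‖ ^ 2 : ℝ) : ℂ) =
      ((L * ∑ n ∈ range K, ‖b n‖ ^ 2 : ℝ) : ℂ) := by
    push_cast
    have h2 : ∀ t ∈ range L, ((‖∑ n ∈ range K, b n * e ((n : ℝ) * t / L)‖ : ℂ)) ^ 2 =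
        ∑ n ∈ range K, ∑ m ∈ range K, (b n * (starRingEnd ℂ) (b m)) *
          (e ((n : ℝ) * t / L) * (starRingEnd ℂ) (e ((m : ℝ) * t / L))) := by
      intro t _
      rw [← Complex.mul_conj', map_sum, sum_mul_sum]
      refine sum_congr rfl fun n _ => sum_congr rfl fun m _ => ?_
      rw [map_mul]
      ring
    rw [sum_congr rfl h2, sum_comm]
    rw [mul_sum]
    refine sum_congr rfl fun n hn => ?_
    rw [sum_comm]
    have h3 : ∀ m ∈ range K, ∑ t ∈ range L, (b n * (starRingEnd ℂ) (b m)) *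
          (e ((n : ℝ) * t / L) * (starRingEnd ℂ) (e ((m : ℝ) * t / L))) =
          if n = m then (L : ℂ) * (b n * (starRingEnd ℂ) (b n)) else 0 := by
      intro m hm
      rw [← mul_sum, sum_e L hL n m (lt_of_lt_of_le (mem_range.mp hn) hKL)
        (lt_of_lt_of_le (mem_range.mp hm) hKL)]
      split_ifs with h
      · rw [h]; ring
      · ring
    rw [sum_congr rfl h3, sum_ite_eq, if_pos hn, Complex.mul_conj']
  exact_mod_cast h1

/-- `|e x - 1| <= 2 pi |x|` -/
theorem norm_e_sub_one_le (x : ℝ) : ‖e x - 1‖ ≤ 2 * Real.pi * |x| := by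
  have h : (2 * Real.pi * x * Complex.I : ℂ) = Complex.I * ((2 * Real.pi * x : ℝ) : ℂ) := by
    push_cast; ring
  unfold e
  rw [h]
  refine le_trans (Real.norm_exp_I_mul_ofReal_sub_one_le (x := 2 * Real.pi * x)) ?_
  rw [Real.norm_eq_abs, abs_mul, abs_of_pos (by positivity : (0 : ℝ) < 2 * Real.pi)]

/-- the discrete Gallagher inequality at one point -/
theorem gallagher_pt (g : ℕ → ℝ) (x W : ℕ) :
    (W : ℝ) * g x ≤ ∑ y ∈ Ico x (x + W), g y + W * ∑ t ∈ Ico x (x + W), |g (t + 1) - g t| := by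
  have h1 : ∀ y ∈ Ico x (x + W), g x ≤ g y + ∑ t ∈ Ico x (x + W), |g (t + 1) - g t| := by
    intro y hy
    rw [mem_Ico] at hy
    have h2 : g y - g x = ∑ t ∈ Ico x y, (g (t + 1) - g t) := by
      rw [sum_Ico_eq_sub _ hy.1, sum_range_sub, sum_range_sub]
      ring
    have h3 : |∑ t ∈ Ico x y, (g (t + 1) - g t)| ≤ ∑ t ∈ Ico x y, |g (t + 1) - g t| :=
      abs_sum_le_sum_abs _ _
    have h4 : ∑ t ∈ Ico x y, |g (t + 1) - g t| ≤ ∑ t ∈ Ico x (x + W), |g (t + 1) - g t| := by
      refine sum_le_sum_of_subset_of_nonneg ?_ fun _ _ _ => abs_nonneg _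
      intro t ht
      rw [mem_Ico] at ht ⊢
      omega
    have h5 := neg_abs_le (∑ t ∈ Ico x y, (g (t + 1) - g t))
    rw [← h2] at h5 h3
    linarith
  have h6 := sum_le_sum h1
  rw [sum_const, Nat.card_Ico, Nat.add_sub_cancel_left, sum_add_distrib, sum_const, Nat.card_Ico,
    Nat.add_sub_cancel_left, nsmul_eq_mul, nsmul_eq_mul] at h6
  exact h6

/-- the index set of the reduced fractions with denominator at most `R` -/
noncomputable def frac (R : ℕ) : Finset (Σ _ : ℕ, ℕ) :=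
  (Icc 1 R).sigma fun q => (range q).filter fun h => Nat.Coprime h q

/-- **Row R3**: the additive large sieve. -/
theorem large_sieve (K R : ℕ) (hR : 1 ≤ R) (b : ℕ → ℂ) :
    ∑ q ∈ Icc 1 R, ∑ h ∈ (range q).filter (fun h => Nat.Coprime h q),
      ‖∑ n ∈ range K, b n * e ((n : ℝ) * h / q)‖ ^ 2 ≤
    (16 * K + (R : ℝ) ^ 2) * ∑ n ∈ range K, ‖b n‖ ^ 2 := by
  rcases Nat.eq_zero_or_pos K with hK | hK
  · subst hK
    simp
  set W : ℕ := R.factorial * K with hW
  set L : ℕ := R ^ 2 * W with hL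
  have hWpos : 0 < W := Nat.mul_pos (Nat.factorial_pos R) hK
  have hR2 : 0 < R ^ 2 := by positivity
  have hLpos : 0 < L := Nat.mul_pos hR2 hWpos
  have hKL : K ≤ L := by
    have h1 : 1 ≤ R.factorial := Nat.factorial_pos R
    calc K = 1 * (1 * K) := by ring
      _ ≤ R ^ 2 * (R.factorial * K) := Nat.mul_le_mul hR2 (Nat.mul_le_mul h1 le_rfl)
  have hLr : (0 : ℝ) < L := by exact_mod_cast hLpos
  have hWr : (0 : ℝ) < W := by exact_mod_cast hWpos
  have hKr : (0 : ℝ) < K := by exact_mod_cast hK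
  set F : ℕ → ℂ := fun t => ∑ n ∈ range K, b n * e ((n : ℝ) * t / L) with hF
  set g : ℕ → ℝ := fun t => ‖F t‖ ^ 2 with hg
  set S : ℝ := ∑ n ∈ range K, ‖b n‖ ^ 2 with hS
  have hS0 : 0 ≤ S := sum_nonneg fun _ _ => by positivity
  -- the position of a fraction on the grid
  have hdiv : ∀ q ∈ Icc 1 R, q ∣ L := by
    intro q hq
    rw [mem_Icc] at hq
    have h1 : q ∣ R.factorial := Nat.dvd_factorial hq.1 hq.2
    exact Dvd.dvd.mul_left (Dvd.dvd.mul_right h1 K) (R ^ 2)
  set pos : (Σ _ : ℕ, ℕ) → ℕ := fun p => p.2 * (L / p.1) with hpos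
  have hposq : ∀ p ∈ frac R, pos p * p.1 = p.2 * L := by
    intro p hp
    rw [frac, mem_sigma] at hp
    simp only [hpos]
    rw [mul_assoc, Nat.div_mul_cancel (hdiv _ hp.1)]
  have hmem : ∀ p ∈ frac R, 1 ≤ p.1 ∧ p.1 ≤ R ∧ p.2 < p.1 ∧ Nat.Coprime p.2 p.1 := by
    intro p hp
    rw [frac, mem_sigma, mem_Icc, mem_filter, mem_range] at hp
    exact ⟨hp.1.1, hp.1.2, hp.2.1, hp.2.2⟩
  have hval : ∀ p ∈ frac R, ‖∑ n ∈ range K, b n * e ((n : ℝ) * p.2 / p.1)‖ ^ 2 = g (pos p) := by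
    intro p hp
    have h1 := hmem p hp
    have h2 := hposq p hp
    have hq : (p.1 : ℝ) ≠ 0 := by
      have : 0 < p.1 := h1.1
      positivity
    simp only [hg, hF]
    congr 2
    refine sum_congr rfl fun n _ => ?_
    congr 2
    have h3 : (pos p : ℝ) * p.1 = p.2 * L := by exact_mod_cast h2
    field_simp
    linear_combination (-(n : ℝ)) * h3
  -- spacing
  have hsp : ∀ p ∈ frac R, ∀ p' ∈ frac R, p ≠ p' → pos p < pos p' → pos p + W ≤ pos p' := by
    intro p hp p' hp' hne hlt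
    obtain ⟨a1, a2, a3, a4⟩ := hmem p hp
    obtain ⟨c1, c2, c3, c4⟩ := hmem p' hp'
    have e1 := hposq p hp
    have e2 := hposq p' hp'
    have h1 : (pos p' - pos p) * (p.1 * p'.1) = (p'.2 * p.1 - p.2 * p'.1) * L := by
      zify [hlt.le]
      have h2 : p.2 * p'.1 ≤ p'.2 * p.1 := by
        by_contra h3
        rw [not_le] at h3
        have h4 : pos p' * p'.1 * p.1 < pos p * p.1 * p'.1 := by
          rw [e1, e2]
          calc p'.2 * L * p.1 = p'.2 * p.1 * L := by ring
            _ < p.2 * p'.1 * L := Nat.mul_lt_mul_of_pos_right h3 hLpos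
            _ = p.2 * L * p'.1 := by ring
        have h5 : pos p' * (p'.1 * p.1) < pos p * (p'.1 * p.1) := by
          calc pos p' * (p'.1 * p.1) = pos p' * p'.1 * p.1 := by ring
            _ < pos p * p.1 * p'.1 := h4
            _ = pos p * (p'.1 * p.1) := by ring
        have h6 := lt_of_mul_lt_mul_right h5 (Nat.zero_le _)
        omega
      rw [Nat.cast_sub h2]
      have e1' : (pos p : ℤ) * p.1 = p.2 * L := by exact_mod_cast e1
      have e2' : (pos p' : ℤ) * p'.1 = p'.2 * L := by exact_mod_cast e2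
      push_cast
      linear_combination (p.1 : ℤ) * e2' - (p'.1 : ℤ) * e1'
    have h2 : 1 ≤ p'.2 * p.1 - p.2 * p'.1 := by
      by_contra h3
      have h4 : p'.2 * p.1 - p.2 * p'.1 = 0 := by omega
      rw [h4, zero_mul] at h1
      rcases Nat.mul_eq_zero.mp h1 with h5 | h5
      · omega
      · rcases Nat.mul_eq_zero.mp h5 with h6 | h6 <;> omega
    have h3 : L ≤ (pos p' - pos p) * (R * R) := by
      calc L = 1 * L := by ring
        _ ≤ (p'.2 * p.1 - p.2 * p'.1) * L := Nat.mul_le_mul h2 le_rfl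
        _ = (pos p' - pos p) * (p.1 * p'.1) := h1.symm
        _ ≤ _ := Nat.mul_le_mul le_rfl (Nat.mul_le_mul a2 c2)
    have h4 : W * (R * R) ≤ (pos p' - pos p) * (R * R) := by
      calc W * (R * R) = L := by rw [hL]; ring
        _ ≤ _ := h3
    have h5 : W ≤ pos p' - pos p := Nat.le_of_mul_le_mul_right h4 (by positivity)
    omega
  have hinj : ∀ p ∈ frac R, ∀ p' ∈ frac R, pos p = pos p' → p = p' := by
    intro p hp p' hp' heq
    obtain ⟨a1, a2, a3, a4⟩ := hmem p hp
    obtain ⟨c1, c2, c3, c4⟩ := hmem p' hp'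
    have e1 := hposq p hp
    have e2 := hposq p' hp'
    have h1 : p.2 * p'.1 = p'.2 * p.1 := by
      have h2 : p.2 * p'.1 * L = p'.2 * p.1 * L := by
        calc p.2 * p'.1 * L = (p.2 * L) * p'.1 := by ring
          _ = pos p * p.1 * p'.1 := by rw [e1]
          _ = (pos p' * p'.1) * p.1 := by rw [heq]; ring
          _ = (p'.2 * L) * p.1 := by rw [e2]
          _ = _ := by ring
      exact Nat.eq_of_mul_eq_mul_right hLpos h2
    have h3 : p.1 ∣ p'.1 := by
      have h4 : p.1 ∣ p.2 * p'.1 := ⟨p'.2, by rw [h1]; ring⟩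
      exact (Nat.Coprime.dvd_of_dvd_mul_left a4.symm h4)
    have h4 : p'.1 ∣ p.1 := by
      have h5 : p'.1 ∣ p'.2 * p.1 := ⟨p.2, by rw [← h1]; ring⟩
      exact (Nat.Coprime.dvd_of_dvd_mul_left c4.symm h5)
    have h5 : p.1 = p'.1 := Nat.dvd_antisymm h3 h4
    have h6 : p.2 = p'.2 := by
      rw [h5] at h1
      exact Nat.eq_of_mul_eq_mul_right (by omega) h1
    cases p; cases p'
    simp only at h5 h6
    subst h5; subst h6; rfl
  have hdisj : ∀ p ∈ frac R, ∀ p' ∈ frac R, p ≠ p' →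
      Disjoint (Ico (pos p) (pos p + W)) (Ico (pos p') (pos p' + W)) := by
    intro p hp p' hp' hne
    rw [Finset.disjoint_left]
    intro y hy hy'
    rw [mem_Ico] at hy hy'
    rcases lt_trichotomy (pos p) (pos p') with h | h | h
    · have := hsp p hp p' hp' hne h
      omega
    · exact hne (hinj p hp p' hp' h)
    · have := hsp p' hp' p hp hne.symm h
      omega
  have hsub : ∀ p ∈ frac R, pos p + W ≤ L := by
    intro p hp
    obtain ⟨a1, a2, a3, a4⟩ := hmem p hp
    have e1 := hposq p hp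
    have h1 : (pos p + W) * p.1 ≤ L * p.1 := by
      calc (pos p + W) * p.1 = p.2 * L + W * p.1 := by rw [add_mul, e1]
        _ ≤ p.2 * L + W * (R * R) := by
            have : p.1 ≤ R * R := le_trans a2 (Nat.le_mul_of_pos_right R (by omega))
            exact Nat.add_le_add_left (Nat.mul_le_mul le_rfl this) _
        _ = (p.2 + 1) * L := by rw [hL]; ring
        _ ≤ p.1 * L := Nat.mul_le_mul (by omega) le_rfl
        _ = L * p.1 := by ring
    exact Nat.le_of_mul_le_mul_right h1 (by omega)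
  have hwin : ∀ G : ℕ → ℝ, (∀ t, 0 ≤ G t) →
      ∑ p ∈ frac R, ∑ y ∈ Ico (pos p) (pos p + W), G y ≤ ∑ t ∈ range L, G t := by
    intro G hG
    rw [← sum_biUnion]
    · refine sum_le_sum_of_subset_of_nonneg ?_ fun _ _ _ => hG _
      intro y hy
      rw [mem_biUnion] at hy
      obtain ⟨p, hp, hy⟩ := hy
      rw [mem_Ico] at hy
      rw [mem_range]
      have := hsub p hp
      omega
    · intro p hp p' hp' hne
      exact hdisj p hp p' hp' hne
  -- Gallagher
  have h1 : (W : ℝ) * ∑ p ∈ frac R, g (pos p) ≤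
      ∑ t ∈ range L, g t + W * ∑ t ∈ range L, |g (t + 1) - g t| := by
    rw [mul_sum]
    refine le_trans (sum_le_sum fun p _ => gallagher_pt g (pos p) W) ?_
    rw [sum_add_distrib, ← mul_sum]
    have h2 := hwin g (fun t => by simp only [hg]; positivity)
    have h3 := hwin (fun t => |g (t + 1) - g t|) (fun t => abs_nonneg _)
    have h4 := mul_le_mul_of_nonneg_left h3 hWr.le
    linarith
  have h2 : ∑ t ∈ range L, g t = L * S := parseval K L hLpos hKL b
  -- the shifted sums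
  have h3 : ∑ t ∈ range L, ‖F (t + 1)‖ ^ 2 = L * S := by
    have h4 := parseval K L hLpos hKL (fun n => b n * e ((n : ℝ) / L))
    have h5 : ∀ n ∈ range K, ‖b n * e ((n : ℝ) / L)‖ ^ 2 = ‖b n‖ ^ 2 := by
      intro n _
      rw [norm_mul, norm_e, mul_one]
    rw [sum_congr rfl h5] at h4
    rw [← h4]
    refine sum_congr rfl fun t _ => ?_
    congr 2
    simp only [hF]
    refine sum_congr rfl fun n _ => ?_
    rw [mul_assoc, ← e_add]
    congr 2
    push_cast
    field_simp
    ring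
  set lam : ℝ := 2 * Real.pi * K / L with hlam
  have hlam0 : 0 < lam := by positivity
  have h4 : ∑ t ∈ range L, ‖F (t + 1) - F t‖ ^ 2 ≤ L * (lam ^ 2 * S) := by
    have h5 := parseval K L hLpos hKL (fun n => b n * (e ((n : ℝ) / L) - 1))
    have h6 : ∀ t ∈ range L, ‖F (t + 1) - F t‖ ^ 2 =
        ‖∑ n ∈ range K, b n * (e ((n : ℝ) / L) - 1) * e ((n : ℝ) * t / L)‖ ^ 2 := by
      intro t _
      congr 2
      simp only [hF]
      rw [← sum_sub_distrib]
      refine sum_congr rfl fun n _ => ?_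
      have h7 : e ((n : ℝ) * ((t + 1 : ℕ) : ℝ) / L) = e ((n : ℝ) / L) * e ((n : ℝ) * t / L) := by
        rw [← e_add]
        congr 1
        push_cast
        field_simp
        ring
      rw [h7]
      ring
    rw [sum_congr rfl h6, h5]
    refine mul_le_mul_of_nonneg_left ?_ hLr.le
    rw [hS, mul_sum]
    refine sum_le_sum fun n hn => ?_
    rw [norm_mul, mul_pow, mul_comm]
    refine mul_le_mul_of_nonneg_right ?_ (by positivity)
    refine pow_le_pow_left₀ (norm_nonneg _) ?_ 2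
    refine le_trans (norm_e_sub_one_le _) ?_
    rw [mem_range] at hn
    have hn' : (n : ℝ) ≤ K := by exact_mod_cast hn.le
    rw [abs_of_nonneg (by positivity), hlam]
    rw [mul_div_assoc]
    refine mul_le_mul_of_nonneg_left ?_ (by positivity)
    exact div_le_div_of_nonneg_right hn' hLr.le
  have h5 : ∑ t ∈ range L, |g (t + 1) - g t| ≤ 5 / 2 * (lam * L * S) := by
    have h6 : ∀ t ∈ range L, |g (t + 1) - g t| ≤
        lam * ‖F (t + 1)‖ ^ 2 + lam * ‖F t‖ ^ 2 + 1 / (2 * lam) * ‖F (t + 1) - F t‖ ^ 2 := by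
      intro t _
      simp only [hg]
      have h7 : |‖F (t + 1)‖ ^ 2 - ‖F t‖ ^ 2| =
          |‖F (t + 1)‖ - ‖F t‖| * (‖F (t + 1)‖ + ‖F t‖) := by
        have h70 : ‖F (t + 1)‖ ^ 2 - ‖F t‖ ^ 2 =
            (‖F (t + 1)‖ - ‖F t‖) * (‖F (t + 1)‖ + ‖F t‖) := by ring
        rw [h70, abs_mul, abs_of_nonneg (by positivity : (0 : ℝ) ≤ ‖F (t + 1)‖ + ‖F t‖)]
      rw [h7]
      set A := ‖F (t + 1)‖
      set B := ‖F t‖
      set C := ‖F (t + 1) - F t‖ with hC
      have hC0 : 0 ≤ C := norm_nonneg _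
      have h8 : |A - B| ≤ C := abs_norm_sub_norm_le _ _
      have hA : 0 ≤ A := norm_nonneg _
      have hB : 0 ≤ B := norm_nonneg _
      have h9 : |A - B| * (A + B) ≤ C * (A + B) := mul_le_mul_of_nonneg_right h8 (by positivity)
      refine le_trans h9 ?_
      have h10 : 0 ≤ (C - lam * (A + B)) ^ 2 / (2 * lam) := by positivity
      have h11 : (C - lam * (A + B)) ^ 2 / (2 * lam) =
          1 / (2 * lam) * C ^ 2 - C * (A + B) + lam / 2 * (A + B) ^ 2 := by
        field_simp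
        ring
      have h12 : (A + B) ^ 2 ≤ 2 * A ^ 2 + 2 * B ^ 2 := by nlinarith [sq_nonneg (A - B)]
      have h13 : lam / 2 * (A + B) ^ 2 ≤ lam / 2 * (2 * A ^ 2 + 2 * B ^ 2) :=
        mul_le_mul_of_nonneg_left h12 (by positivity)
      nlinarith
    refine le_trans (sum_le_sum h6) ?_
    rw [sum_add_distrib, sum_add_distrib, ← mul_sum, ← mul_sum, ← mul_sum, h3]
    have h7 : ∑ t ∈ range L, ‖F t‖ ^ 2 = L * S := h2
    rw [h7]
    have h8 : 1 / (2 * lam) * ∑ t ∈ range L, ‖F (t + 1) - F t‖ ^ 2 ≤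
        1 / (2 * lam) * (L * (lam ^ 2 * S)) := mul_le_mul_of_nonneg_left h4 (by positivity)
    have h9 : 1 / (2 * lam) * (L * (lam ^ 2 * S)) = 1 / 2 * (lam * L * S) := by
      field_simp
    rw [h9] at h8
    nlinarith
  have h6 : lam * L = 2 * Real.pi * K := by
    rw [hlam]
    field_simp
  rw [h6] at h5
  have hpi : 5 * Real.pi ≤ 16 := by
    have := Real.pi_lt_d2
    linarith
  have h7 : ∑ t ∈ range L, |g (t + 1) - g t| ≤ 16 * K * S := by
    have h8 : 5 / 2 * (2 * Real.pi * K * S) = (5 * Real.pi) * (K * S) := by ring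
    rw [h8] at h5
    have h9 : (5 * Real.pi) * (K * S) ≤ 16 * (K * S) :=
      mul_le_mul_of_nonneg_right hpi (by positivity)
    linarith
  rw [h2] at h1
  have h8 : (W : ℝ) * ∑ p ∈ frac R, g (pos p) ≤ W * ((16 * K + (R : ℝ) ^ 2) * S) := by
    have h9 := mul_le_mul_of_nonneg_left h7 hWr.le
    have h10 : (L : ℝ) = (R : ℝ) ^ 2 * W := by rw [hL]; push_cast; ring
    rw [h10] at h1
    nlinarith
  have h9 := le_of_mul_le_mul_left h8 hWr
  have h10 : ∑ q ∈ Icc 1 R, ∑ h ∈ (range q).filter (fun h => Nat.Coprime h q),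
      ‖∑ n ∈ range K, b n * e ((n : ℝ) * h / q)‖ ^ 2 = ∑ p ∈ frac R, g (pos p) := by
    rw [← sum_congr rfl hval, frac, sum_sigma]
  rw [h10]
  exact h9

end Pool.Agent.ES
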