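import Mathlib

/-!
# Tank ES: the exceptional set of `m / n = 1 / x + 1 / y + 1 / z`

Every interval of length `N` contains at most `N exp(-(log N)^(3/4-ε))` integers `n` for which `m / n`
is not a sum of three unit fractions. The Props `R1` ... `R14`, `BV`, `Main` below are the rows.
-/

open Finset
open scoped BigOperators

namespace ES

/-- `m / n` is a sum of three unit fractions. -/
def Rep (m n : ℕ) : Prop :=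
  ∃ x y z : ℕ, 0 < x ∧ 0 < y ∧ 0 < z ∧ (m : ℚ) / n = 1 / x + 1 / y + 1 / z

/-- All prime factors of `a` are larger than `z` (false for `a = 0`). -/
def Rough (z a : ℕ) : Prop := ∀ q : ℕ, q.Prime → q ∣ a → z < q

/-! ## R1: the identity -/

/-- With `f = p u = m a c d - 1` and `f ∣ c n + a`, `b = (c n + a) / f`:
`m / n = 1 / (a b d) + 1 / (a c d n) + 1 / (b c d n)`. -/
def R1 : Prop := ∀ m a c d p u n : ℕ, 0 < m → 0 < a → 0 < c → 0 < d → 0 < n →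
  p * u + 1 = m * a * c * d → p * u ∣ c * n + a → Rep m n

/-! ## R2: the second moment product -/

/-- An event: `p u ∣ c n + a`. -/
structure Ev where
  p : ℕ
  u : ℕ
  a : ℕ
  c : ℕ
  deriving DecidableEq

/-- the event holds at `n` -/
def Ev.Holds (e : Ev) (n : ℕ) : Prop := e.p * e.u ∣ e.c * n + e.a

/-- events whose condition modulo `u` holds at `b` -/
def compat (E : Finset Ev) (b : ℕ) : Finset Ev := E.filter (fun e => e.u ∣ e.c * b + e.a)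

/-- conditional mean of the number of events, given `n = b` modulo `M` -/
noncomputable def meanW (E : Finset Ev) (b : ℕ) : ℝ := ∑ e ∈ compat E b, (1 : ℝ) / e.p

/-- The sieve lemma: `F = ∏ (1 - W_i / μ)`, second moment, blocks independent given `n` mod `M`. -/
def R2 : Prop := ∀ (k M : ℕ) (E : ℕ → Finset Ev) (μ : ℝ), 2 ≤ μ → 0 < M →
  (∀ i < k, ∀ e ∈ E i, e.p.Prime ∧ e.u ∣ M ∧ e.p.Coprime M ∧ e.c.Coprime (e.p * e.u)) →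
  (∀ i < k, ∀ j < k, i ≠ j → ∀ e ∈ E i, ∀ e' ∈ E j, e.p ≠ e'.p) →
  (∀ i < k, ∀ e ∈ E i, ∀ e' ∈ E i, e ≠ e' → e.p = e'.p → ∀ n : ℕ, ¬ (e.Holds n ∧ e'.Holds n)) →
  (∀ i < k, ∀ b : ℕ, meanW (E i) b ≤ μ / 2) →
  ∀ x N : ℕ, (({n : ℕ | x < n ∧ n ≤ x + N ∧ ∀ i < k, ∀ e ∈ E i, ¬ e.Holds n}.ncard : ℕ) : ℝ) ≤
    N * ((∑ b ∈ range M, Real.exp (-(∑ i ∈ range k, meanW (E i) b) / μ)) / M) +
      ∏ i ∈ range k, (1 + ((E i).card : ℝ)) ^ 2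

/-! ## R3: additive large sieve at Farey fractions -/

/-- exponential sum over `K0 < k ≤ K0 + K` -/
noncomputable def expSum (β : ℕ → ℝ) (K0 K : ℕ) (θ : ℝ) : ℂ :=
  ∑ k ∈ Ioc K0 (K0 + K), (β k : ℂ) * Complex.exp (2 * Real.pi * Complex.I * ((k : ℝ) * θ : ℝ))

def R3 : Prop := ∃ C : ℝ, 0 < C ∧ ∀ (R K0 K : ℕ) (β : ℕ → ℝ),
  ∑ q ∈ Icc 1 R, ∑ h ∈ (range q).filter (fun h => h.Coprime q),
      ‖expSum β K0 K ((h : ℝ) / q)‖ ^ 2 ≤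
    C * (K + (R : ℝ) ^ 2) * ∑ k ∈ Ioc K0 (K0 + K), β k ^ 2

/-! ## R4: variance over the classes modulo `r` -/

/-- sum over the classes `a` mod `r` of (sum over the class - mean)^2 -/
noncomputable def classDev (β : ℕ → ℝ) (K0 K r : ℕ) : ℝ :=
  ∑ a ∈ range r, ((∑ k ∈ (Ioc K0 (K0 + K)).filter (fun k => k % r = a), β k) -
    (∑ k ∈ Ioc K0 (K0 + K), β k) / r) ^ 2

/-- `classDev = (1/r) ∑_{h=1}^{r-1} |S(h/r)|²`; regroup by the denominator `q > 1` of `h/r`, use R3. -/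
def R4 : Prop := R3 → ∃ C : ℝ, 0 < C ∧ ∀ (ι : Type) (T : Finset ι) (r : ι → ℕ) (R K0 K : ℕ)
    (β : ℕ → ℝ) (Δ : ℝ),
  (∀ t ∈ T, 1 ≤ r t ∧ r t ≤ R) →
  (∀ q : ℕ, 2 ≤ q → ∑ t ∈ T.filter (fun t => q ∣ r t), (1 : ℝ) / r t ≤ Δ) →
  ∑ t ∈ T, classDev β K0 K (r t) ≤
    C * Δ * (K + (R : ℝ) ^ 2) * ∑ k ∈ Ioc K0 (K0 + K), β k ^ 2

/-! ## R5: Vaughan's identity -/

/-- `f` cut to `n ≤ V` -/
noncomputable def low (f : ArithmeticFunction ℝ) (V : ℕ) : ArithmeticFunction ℝ :=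
  ⟨fun n => if n ≤ V then f n else 0, by simp⟩

/-- `f` cut to `n > V` -/
noncomputable def high (f : ArithmeticFunction ℝ) (V : ℕ) : ArithmeticFunction ℝ :=
  ⟨fun n => if V < n then f n else 0, by simp⟩

/-- the von Mangoldt function -/
noncomputable abbrev vM : ArithmeticFunction ℝ := ArithmeticFunction.vonMangoldt
/-- the Möbius function with real values -/
noncomputable abbrev moe : ArithmeticFunction ℝ := ((ArithmeticFunction.moebius : ArithmeticFunction ℤ) : ArithmeticFunction ℝ)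
/-- the constant function 1 -/
noncomputable abbrev one' : ArithmeticFunction ℝ := ((ArithmeticFunction.zeta : ArithmeticFunction ℕ) : ArithmeticFunction ℝ)

def R5 : Prop := ∀ V U : ℕ,
  vM = low vM V + low moe U * ArithmeticFunction.log - low moe U * low vM V * one' +
    high vM V * (one' * high moe U)

/-! ## The weighted Bombieri-Vinogradov lemma -/

/-- sum of `f` over `y1 < n ≤ y2`, `n` in the class of `γ` mod `q` -/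
noncomputable def apSum (f : ℕ → ℝ) (y1 y2 q γ : ℕ) : ℝ :=
  ∑ n ∈ (Ioc y1 y2).filter (fun n => n % q = γ % q), f n

/-- class mod `m r` against `1/r` times the class mod `m` -/
noncomputable def disc (f : ℕ → ℝ) (y1 y2 m r γ : ℕ) : ℝ :=
  apSum f y1 y2 (m * r) γ - apSum f y1 y2 m γ / r

/-- Admissible finite family of moduli `r t ≤ x^(1/10)` with classes `γ t` mod `m r t`;
`Δ` bounds the mass `∑ 1 / r t` of the `t` with `q ∣ r t`, for every `q ≥ 2`. -/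
structure Adm {ι : Type} (m x : ℕ) (T : Finset ι) (r γ : ι → ℕ) (Δ : ℝ) : Prop where
  r1 : ∀ t ∈ T, 1 ≤ r t
  r2 : ∀ t ∈ T, r t ^ 10 ≤ x
  cop : ∀ t ∈ T, (γ t).Coprime (m * r t)
  cop' : ∀ t ∈ T, m.Coprime (r t)
  del : ∀ q : ℕ, 2 ≤ q → ∑ t ∈ T.filter (fun t => q ∣ r t), (1 : ℝ) / r t ≤ Δ

/-- total mass of the family -/
noncomputable def SS {ι : Type} (T : Finset ι) (r : ι → ℕ) : ℝ := ∑ t ∈ T, (1 : ℝ) / r t

/-- R6, type I sums. -/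
def R6 : Prop := ∀ m : ℕ, 1 ≤ m → ∃ C : ℝ, 0 < C ∧
  ∀ (ι : Type) (T : Finset ι) (r γ : ι → ℕ) (Δ G : ℝ) (x y1 y2 D : ℕ) (g h : ArithmeticFunction ℝ),
  Adm m x T r γ Δ → 2 ≤ x → x ≤ y1 → y1 ≤ y2 → y2 ≤ 2 * x → 1 ≤ D → D ≤ x →
  (∀ d, |g d| ≤ G) → (∀ d, D < d → g d = 0) → (h = ArithmeticFunction.log ∨ h = one') →
  ∑ t ∈ T, |disc (fun n => (g * h) n) y1 y2 m (r t) (γ t)| ≤
    C * G * (1 + Real.log x) ^ 3 * (T.card * D + SS T r * D + x * Δ)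

/-- one block `j H < n ≤ (j + 1) H` of a type II sum, `k` in the fixed interval `(K0, K0 + K]` -/
noncomputable def blk (α β : ℕ → ℝ) (j H K0 K m r γ : ℕ) : ℝ :=
  ∑ n ∈ (Ioc (j * H) ((j + 1) * H)).filter (fun n => n.Coprime (m * r)), α n *
    ((∑ k ∈ (Ioc K0 (K0 + K)).filter (fun k => (n * k) % (m * r) = γ % (m * r)), β k) -
      (∑ k ∈ (Ioc K0 (K0 + K)).filter (fun k => (n * k) % m = γ % m), β k) / r)

/-- R7a, block estimate: Cauchy-Schwarz over `n`; `n ↦ γ / n` hits every class mod `m r t` at most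
`2 H / r t` times; `classDev` of `β` restricted to the classes mod `m`; R4. -/
def R7a : Prop := R4 → R3 → ∃ C : ℝ, 0 < C ∧
  ∀ (ι : Type) (T : Finset ι) (r γ : ι → ℕ) (Δ A : ℝ) (m x R j H K0 K : ℕ) (α β : ℕ → ℝ),
  1 ≤ m → Adm m x T r γ Δ → (∀ t ∈ T, r t ≤ R ∧ m * r t ≤ H) → 0 ≤ A →
  (∀ n ∈ Ioc (j * H) ((j + 1) * H), |α n| ≤ A) →
  ∑ t ∈ T, |blk α β j H K0 K m (r t) (γ t)| ≤
    C * A * H * Real.sqrt (SS T r) *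
      Real.sqrt (Δ * (K + (R : ℝ) ^ 2) * ∑ k ∈ Ioc K0 (K0 + K), β k ^ 2)

/-- R7b: divisor function over a class in an interval. -/
def R7b : Prop := ∀ y L q γ : ℕ, 1 ≤ q → γ.Coprime q →
  ∑ n ∈ (Ioc y (y + L)).filter (fun n => n % q = γ % q), (n.divisors.card : ℝ) ≤
    2 * ((L : ℝ) / q * (1 + Real.log (y + L)) + Real.sqrt (y + L))

/-- R7d: mean square of the divisor function. -/
def R7d : Prop := ∀ K : ℕ, 1 ≤ K → ∑ n ∈ Icc 1 K, (n.divisors.card : ℝ) ^ 2 ≤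
  K * (1 + Real.log K) ^ 3

/-- R7, type II sums. -/
def R7 : Prop := R7a → R7b → R7d → R4 → R3 → ∀ m : ℕ, 1 ≤ m → ∃ C : ℝ, 0 < C ∧
  ∀ (ι : Type) (T : Finset ι) (r γ : ι → ℕ) (Δ : ℝ) (x y1 y2 V : ℕ) (α β : ArithmeticFunction ℝ),
  Adm m x T r γ Δ → 2 ≤ x → x ≤ y1 → y1 ≤ y2 → y2 ≤ 2 * x → V ^ 4 ≤ x → x < (V + 1) ^ 4 →
  (∀ n, |α n| ≤ vM n) → (∀ n, |β n| ≤ (n.divisors.card : ℝ)) →
  (∀ n ≤ V, α n = 0) → (∀ n ≤ V, β n = 0) →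
  ∑ t ∈ T, |disc (fun n => (α * β) n) y1 y2 m (r t) (γ t)| ≤
    C * (1 + Real.log x) ^ 6 * (x * Real.sqrt (SS T r * Δ) + SS T r * (x : ℝ) ^ ((24 : ℝ) / 25) +
      T.card * (x : ℝ) ^ ((3 : ℝ) / 4))

/-- `∑ log p` over the primes `y1 < p ≤ y2` in the class of `γ` mod `q` -/
noncomputable def thetaAP (y1 y2 q γ : ℕ) : ℝ :=
  ∑ p ∈ (Ioc y1 y2).filter (fun p => p.Prime ∧ p % q = γ % q), Real.log p

/-- The weighted Bombieri-Vinogradov lemma. -/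
def BV : Prop := ∀ m : ℕ, 1 ≤ m → ∃ C : ℝ, 0 < C ∧
  ∀ (ι : Type) (T : Finset ι) (r γ : ι → ℕ) (Δ : ℝ) (x y1 y2 : ℕ),
  Adm m x T r γ Δ → 2 ≤ x → x ≤ y1 → y1 ≤ y2 → y2 ≤ 2 * x →
  ∑ t ∈ T, |thetaAP y1 y2 (m * r t) (γ t) - thetaAP y1 y2 m (γ t) / r t| ≤
    C * (1 + Real.log x) ^ 6 * (x * (Real.sqrt (SS T r * Δ) + Δ) +
      SS T r * (x : ℝ) ^ ((24 : ℝ) / 25) + T.card * (x : ℝ) ^ ((3 : ℝ) / 4))

/-- R8: assembly of `BV` (`V = U = ⌊x^(1/4)⌋`; `low moe V * low vM V` is bounded by `log`). -/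
def R8 : Prop := R5 → R6 → R7 → R7a → R7b → R7d → R4 → R3 → BV

/-! ## The triples `t = (u, a, c)` -/

open Classical in
/-- `u, c ≤ Y`, `Y^6 < a ≤ Y^7`, all `z`-rough, `(a, c) = 1`, `(u, a c) = 1`, `u ∣ b c + a`. -/
noncomputable def TT (Y z b : ℕ) : Finset (ℕ × ℕ × ℕ) :=
  ((Icc 1 Y) ×ˢ ((Ioc (Y ^ 6) (Y ^ 7)) ×ˢ (Icc 1 Y))).filter
    (fun t => Rough z t.1 ∧ Rough z t.2.1 ∧ Rough z t.2.2 ∧ Nat.Coprime t.2.1 t.2.2 ∧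
      Nat.Coprime t.1 (t.2.1 * t.2.2) ∧ t.1 ∣ t.2.2 * b + t.2.1)

/-- the modulus `a c` of a triple -/
def rr (t : ℕ × ℕ × ℕ) : ℕ := t.2.1 * t.2.2

/-- R9a: total mass -/
def R9a : Prop := ∃ C : ℝ, 0 < C ∧ ∀ Y z b : ℕ, 2 ≤ Y →
  SS (TT Y z b) rr ≤ C * (1 + Real.log Y) ^ 3

/-- R9b: mass of the moduli divisible by `q` -/
def R9b : Prop := ∃ C : ℝ, 0 < C ∧ ∀ Y z b q : ℕ, 2 ≤ Y → 1 ≤ z → 2 ≤ q →
  ∑ t ∈ (TT Y z b).filter (fun t => q ∣ rr t), (1 : ℝ) / rr t ≤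
    C * (1 + Real.log Y) ^ 3 * (1 / Real.sqrt z + 1 / Y)

/-! ## Brun's sieve and the lower bound -/

open Classical in
/-- R10: rough numbers in a class (Brun's pure sieve). -/
def R10 : Prop := ∀ B : ℕ, ∃ c C Y0 : ℝ, 0 < c ∧ 0 < C ∧ 16 ≤ Y0 ∧ ∀ Y z q α X : ℕ, Y0 ≤ Y →
  (z : ℝ) ≤ Real.log Y ^ B → 1 ≤ q → α.Coprime q → q ^ 2 * Y ≤ X ^ 2 →
  c * X / (q * Real.log (Real.log Y) ^ C) ≤
    (((Ioc X (2 * X)).filter (fun n => n % q = α % q ∧ Rough z n)).card : ℝ)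

/-- mass of the primes `z < q ≤ Y` dividing `b` -/
noncomputable def badMass (Y z b : ℕ) : ℝ :=
  ∑ q ∈ (Ioc z Y).filter (fun q => q.Prime ∧ q ∣ b), (1 : ℝ) / q

/-- R11: lower bound for every class of `u` mod `m`, for good `b`. -/
def R11 : Prop := R10 → ∀ m B : ℕ, 1 ≤ m → ∃ c C Y0 : ℝ, 0 < c ∧ 0 < C ∧ 16 ≤ Y0 ∧
  ∀ Y z b ρ : ℕ, Y0 ≤ Y → Real.log Y ^ 20 ≤ z → (z : ℝ) ≤ Real.log Y ^ B → ρ.Coprime m →
  badMass Y z b ≤ c / Real.log (Real.log Y) ^ C →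
  c * Real.log Y ^ 3 / Real.log (Real.log Y) ^ C ≤
    ∑ t ∈ (TT Y z b).filter (fun t => t.1 % m = ρ % m), (1 : ℝ) / rr t

open Classical in
/-- R12: few bad `b`. -/
def R12 : Prop := ∀ (Y z : ℕ) (δ : ℝ), 1 ≤ z → 0 ≤ δ →
  (((range Y.factorial).filter (fun b => δ < badMass Y z b)).card : ℝ) ≤
    Y.factorial * (Y + 1) * (2 : ℝ) ^ (-(δ * z))

/-! ## Blocks of primes -/

/-- R13: blocks of primes (Chebyshev upper bound, Mertens lower bound, greedy grouping). -/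
def R13 : Prop := ∃ c C Y0 : ℝ, 0 < c ∧ 0 < C ∧ ∀ Y : ℕ, Y0 ≤ Y → ∃ (k : ℕ) (x y1 y2 : ℕ → ℕ),
  (k : ℝ) ≤ C * Real.log Y ^ 3 ∧
  (∀ i < k, Y ^ 80 ≤ x i ∧ 2 * x i ≤ Y ^ 161 ∧ x i ≤ y1 i ∧ y1 i ≤ y2 i ∧ y2 i ≤ 2 * x i ∧
    thetaAP (y1 i) (y2 i) 1 0 ≤ C * (x i * Real.log (x i) / Real.log Y ^ 3)) ∧
  (∀ i < k, ∀ j < k, i ≠ j → y2 i ≤ y1 j ∨ y2 j ≤ y1 i) ∧
  c ≤ ∑ i ∈ range k, thetaAP (y1 i) (y2 i) 1 0 / (x i * Real.log (x i))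

/-! ## Assembly -/

open Classical in
/-- the events of a block: `p` prime in `(y1, y2]`, `m a c ∣ p u + 1` -/
noncomputable def EE (m Y z y1 y2 : ℕ) : Finset Ev :=
  (((Ioc y1 y2) ×ˢ ((Icc 1 Y) ×ˢ ((Ioc (Y ^ 6) (Y ^ 7)) ×ˢ (Icc 1 Y)))).filter
    (fun t => t.1.Prime ∧ Rough z t.2.1 ∧ Rough z t.2.2.1 ∧ Rough z t.2.2.2 ∧
      Nat.Coprime t.2.2.1 t.2.2.2 ∧ m * t.2.2.1 * t.2.2.2 ∣ t.1 * t.2.1 + 1)).image
    (fun t => (⟨t.1, t.2.1, t.2.2.1, t.2.2.2⟩ : Ev))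

/-- R14a: the events satisfy the algebraic hypotheses of R2 with `M = Y!`, and imply `Rep`. -/
def R14a : Prop := R1 → ∀ m Y z y1 y2 : ℕ, 1 ≤ m → 2 ≤ Y → Y ^ 80 ≤ y1 →
  (∀ e ∈ EE m Y z y1 y2, e.p.Prime ∧ e.u ∣ Y.factorial ∧ e.p.Coprime Y.factorial ∧
    e.c.Coprime (e.p * e.u) ∧ y1 < e.p ∧ e.p ≤ y2) ∧
  (∀ e ∈ EE m Y z y1 y2, ∀ e' ∈ EE m Y z y1 y2, e ≠ e' → e.p = e'.p →
    ∀ n : ℕ, ¬ (e.Holds n ∧ e'.Holds n)) ∧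
  (∀ e ∈ EE m Y z y1 y2, ∀ n : ℕ, 0 < n → e.Holds n → Rep m n) ∧
  ((EE m Y z y1 y2).card : ℝ) ≤ (y2 : ℝ) * (Y : ℝ) ^ 9

/-- R14b: the conditional means of a block for `z = ⌊(log Y)^100⌋`: bounded for every `b`, and
bounded below for good `b`. -/
def R14b : Prop := BV → R9a → R9b → R11 → R10 → ∀ m : ℕ, 1 ≤ m → ∃ c C Y0 : ℝ, 0 < c ∧ 0 < C ∧
  16 ≤ Y0 ∧ ∀ Y z x y1 y2 b : ℕ, Y0 ≤ Y → z = ⌊Real.log Y ^ 100⌋₊ → Y ^ 80 ≤ x → 2 * x ≤ Y ^ 161 →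
  x ≤ y1 → y1 ≤ y2 → y2 ≤ 2 * x →
  meanW (EE m Y z y1 y2) b ≤ C * (thetaAP y1 y2 1 0 / (x * Real.log x) * Real.log Y ^ 3 +
    1 / Real.log Y ^ 4) ∧
  (badMass Y z b ≤ c / Real.log (Real.log Y) ^ C →
    c * (thetaAP y1 y2 1 0 / (x * Real.log x)) * Real.log Y ^ 3 / Real.log (Real.log Y) ^ C -
      1 / Real.log Y ^ 4 ≤ meanW (EE m Y z y1 y2) b)

/-- The theorem. -/
def Main : Prop := ∀ m : ℕ, 1 ≤ m → ∀ ε : ℝ, 0 < ε → ∃ N0 : ℕ, ∀ N : ℕ, N0 ≤ N → ∀ x : ℕ,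
  (({n : ℕ | x < n ∧ n ≤ x + N ∧ ¬ Rep m n}.ncard : ℕ) : ℝ) ≤
    N * Real.exp (-(Real.log N) ^ ((3 : ℝ) / 4 - ε))

/-- R14: choice of `Y = ⌊exp(c (log N)^(1/4))⌋` and assembly. -/
def R14 : Prop := R1 → R2 → R14a →
  (∀ m : ℕ, 1 ≤ m → ∃ c C Y0 : ℝ, 0 < c ∧ 0 < C ∧
  16 ≤ Y0 ∧ ∀ Y z x y1 y2 b : ℕ, Y0 ≤ Y → z = ⌊Real.log Y ^ 100⌋₊ → Y ^ 80 ≤ x → 2 * x ≤ Y ^ 161 →
  x ≤ y1 → y1 ≤ y2 → y2 ≤ 2 * x →
  meanW (EE m Y z y1 y2) b ≤ C * (thetaAP y1 y2 1 0 / (x * Real.log x) * Real.log Y ^ 3 +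
    1 / Real.log Y ^ 4) ∧
  (badMass Y z b ≤ c / Real.log (Real.log Y) ^ C →
    c * (thetaAP y1 y2 1 0 / (x * Real.log x)) * Real.log Y ^ 3 / Real.log (Real.log Y) ^ C -
      1 / Real.log Y ^ 4 ≤ meanW (EE m Y z y1 y2) b)) →
  R12 → R13 → Main

end ES
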