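import Pool.Agent.Lib.ES.Defs

namespace ES

theorem R1_proof : R1 := by
  intro m a c d p u n hm ha hc hd hn hf hdvd
  obtain ⟨b, hb⟩ := hdvd
  have hfb : 0 < p * u * b := by rw [← hb]; positivity
  have hbpos : 0 < b := Nat.pos_of_mul_pos_left hfb |> fun _ => by
    rcases Nat.eq_zero_or_pos b with h | h
    · subst h; simp at hfb
    · exact h
  refine ⟨a * b * d, a * c * d * n, b * c * d * n, by positivity, by positivity, by positivity, ?_⟩
  have h1 : c * n + a + b = b * (m * a * c * d) := by rw [← hf, hb]; ring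
  have h1' : (c : ℚ) * n + a + b = b * (m * a * c * d) := by exact_mod_cast h1
  have ha' : (a : ℚ) ≠ 0 := by positivity
  have hb' : (b : ℚ) ≠ 0 := by positivity
  have hc' : (c : ℚ) ≠ 0 := by positivity
  have hd' : (d : ℚ) ≠ 0 := by positivity
  have hn' : (n : ℚ) ≠ 0 := by positivity
  push_cast
  have e : (1 : ℚ) / (a * b * d) + 1 / (a * c * d * n) + 1 / (b * c * d * n) =
      (c * n + a + b) / (a * b * c * d * n) := by
    field_simp
    ring
  rw [e, h1']
  field_simp

end ES
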