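import Pool.Agent.Lib.ES.Defs
import Pool.Agent.Lib.MP_f9aece_nt.PrimeSums

/-! Row R10: Brun's pure sieve. -/

open Finset
open scoped BigOperators

namespace ES
namespace Br

/-- truncated alternating sum -/
noncomputable def trunc (x : ℕ → ℝ) (P : Finset ℕ) (r : ℕ) : ℝ :=
  ∑ D ∈ P.powerset, if D.card ≤ r then ∏ p ∈ D, (-x p) else 0

lemma trunc_insert (x : ℕ → ℝ) {P : Finset ℕ} {p : ℕ} (hp : p ∉ P) (r : ℕ) :
    trunc x (insert p P) (r + 1) = trunc x P (r + 1) - x p * trunc x P r := by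
  unfold trunc
  rw [sum_powerset_insert hp, sub_eq_add_neg, ← neg_mul, mul_sum]
  congr 1
  apply sum_congr rfl
  intro D hD
  have hpD : p ∉ D := fun h => hp (mem_powerset.1 hD h)
  rw [card_insert_of_notMem hpD, prod_insert hpD]
  by_cases h : D.card ≤ r
  · rw [if_pos h, if_pos (by omega)]
  · rw [if_neg h, if_neg (by omega), mul_zero]

lemma trunc_zero (x : ℕ → ℝ) (P : Finset ℕ) : trunc x P 0 = 1 := by
  unfold trunc
  rw [sum_eq_single ∅]
  · simp
  · intro D _ hD
    rw [if_neg]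
    simpa [Finset.card_eq_zero] using hD
  · intro h
    exact absurd (empty_mem_powerset P) h

/-- Bonferroni inequalities for real densities in `[0, 1]` -/
lemma bonf (x : ℕ → ℝ) (P : Finset ℕ) : (∀ p ∈ P, 0 ≤ x p ∧ x p ≤ 1) →
    ∀ r, (Even r → ∏ p ∈ P, (1 - x p) ≤ trunc x P r) ∧
      (Odd r → trunc x P r ≤ ∏ p ∈ P, (1 - x p)) := by
  induction P using Finset.induction_on with
  | empty =>
    intro _ r
    have : trunc x ∅ r = 1 := by simp [trunc]
    rw [this]; simp
  | insert p P hp ih =>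
    intro hx r
    have hx' : ∀ p ∈ P, 0 ≤ x p ∧ x p ≤ 1 := fun q hq => hx q (mem_insert_of_mem hq)
    have hxp := hx p (mem_insert_self p P)
    rw [prod_insert hp]
    have h0 : 0 ≤ ∏ p ∈ P, (1 - x p) := prod_nonneg fun q hq => by linarith [(hx' q hq).2]
    cases r with
    | zero =>
      refine ⟨fun _ => ?_, fun h => by simp at h⟩
      rw [trunc_zero]
      have h1 : ∏ p ∈ P, (1 - x p) ≤ 1 := prod_le_one (fun q hq => by linarith [(hx' q hq).2])
        (fun q hq => by linarith [(hx' q hq).1])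
      nlinarith [hxp.1, hxp.2]
    | succ r =>
      rw [trunc_insert x hp]
      have ih1 := ih hx' (r + 1)
      have ih0 := ih hx' r
      constructor
      · intro he
        have ho : Odd r := by
          rcases Nat.even_or_odd r with h | h
          · exact absurd he (by rw [Nat.even_add_one]; simpa using h)
          · exact h
        have := mul_le_mul_of_nonneg_left (ih0.2 ho) hxp.1
        linarith [ih1.1 he]
      · intro ho
        have he : Even r := by
          rcases Nat.even_or_odd r with h | h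
          · exact h
          · exact absurd ho (by rw [Nat.odd_add_one]; simpa using h)
        have := mul_le_mul_of_nonneg_left (ih0.1 he) hxp.1
        linarith [ih1.2 ho]

/-- Rankin's bound for the tail -/
lemma tail_le (x : ℕ → ℝ) (P : Finset ℕ) (hx : ∀ p ∈ P, 0 ≤ x p) (r : ℕ) :
    ∏ p ∈ P, (1 - x p) ≤ trunc x P r + (∏ p ∈ P, (1 + 8 * x p)) / 8 ^ (r + 1) := by
  have e1 : ∏ p ∈ P, (1 - x p) = ∑ D ∈ P.powerset, ∏ p ∈ D, (-x p) := by
    rw [← prod_one_add]
    exact prod_congr rfl fun p _ => by ring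
  have e2 : ∏ p ∈ P, (1 + 8 * x p) = ∑ D ∈ P.powerset, ∏ p ∈ D, (8 * x p) := prod_one_add P
  rw [e1, e2, sum_div, trunc, ← sum_add_distrib]
  apply sum_le_sum
  intro D hD
  have hD' := mem_powerset.1 hD
  have h0 : 0 ≤ ∏ p ∈ D, (8 * x p) := prod_nonneg fun p hp => by
    have := hx p (hD' hp)
    positivity
  by_cases h : D.card ≤ r
  · rw [if_pos h]
    have : 0 ≤ (∏ p ∈ D, (8 * x p)) / 8 ^ (r + 1) := by positivity
    linarith
  · rw [if_neg h, zero_add, le_div_iff₀ (by positivity)]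
    have h1 : ∏ p ∈ D, (-x p) ≤ ∏ p ∈ D, x p := by
      refine (le_abs_self _).trans (le_of_eq ?_)
      rw [abs_prod]
      exact prod_congr rfl fun p hp => by rw [abs_neg, abs_of_nonneg (hx p (hD' hp))]
    have h2 : 0 ≤ ∏ p ∈ D, x p := prod_nonneg fun p hp => hx p (hD' hp)
    have h3 : ∏ p ∈ D, (8 * x p) = 8 ^ D.card * ∏ p ∈ D, x p := by
      rw [prod_mul_distrib, prod_const]
    rw [h3]
    have h4 : (8 : ℝ) ^ (r + 1) ≤ 8 ^ D.card := pow_le_pow_right₀ (by norm_num) (by omega)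
    calc (∏ p ∈ D, (-x p)) * 8 ^ (r + 1) ≤ (∏ p ∈ D, x p) * 8 ^ (r + 1) := by gcongr
      _ ≤ (∏ p ∈ D, x p) * 8 ^ D.card := by gcongr
      _ = _ := by ring

/-- the number of small subsets -/
lemma count_le (P : Finset ℕ) (r : ℕ) :
    ∑ D ∈ P.powerset, (if D.card ≤ r then (1 : ℝ) else 0) ≤ 3 * ((P.card : ℝ) + 1) ^ r := by
  set w : ℝ := (P.card : ℝ) + 1 with hw
  have hw1 : 1 ≤ w := by rw [hw]; linarith [(Nat.cast_nonneg P.card : (0 : ℝ) ≤ P.card)]
  have hw0 : 0 < w := by linarith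
  have h1 : ∑ D ∈ P.powerset, (if D.card ≤ r then (1 : ℝ) else 0) ≤
      ∑ D ∈ P.powerset, w ^ r * ∏ _p ∈ D, (1 / w) := by
    apply sum_le_sum
    intro D _
    rw [prod_const]
    split_ifs with h
    · rw [div_pow, one_pow, mul_one_div, le_div_iff₀ (by positivity), one_mul]
      exact pow_le_pow_right₀ hw1 h
    · positivity
  refine h1.trans ?_
  rw [← mul_sum, ← prod_one_add, prod_const, mul_comm]
  have h2 : (1 + 1 / w) ^ P.card ≤ 3 := by
    calc (1 + 1 / w) ^ P.card ≤ (Real.exp (1 / w)) ^ P.card := by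
          gcongr
          linarith [Real.add_one_le_exp (1 / w)]
      _ = Real.exp (P.card * (1 / w)) := by rw [Real.exp_nat_mul]
      _ ≤ Real.exp 1 := by
          apply Real.exp_le_exp.2
          rw [mul_one_div, div_le_one hw0]
          rw [hw]; linarith
      _ ≤ 3 := by linarith [Real.exp_one_lt_d9]
  exact mul_le_mul_of_nonneg_right h2 (by positivity)

/-- counting a residue class in an interval -/
lemma card_modEq (a b v r : ℕ) (hab : a ≤ b) (hr : 0 < r) :
    |(((Ioc a b).filter (fun n => n ≡ v [MOD r])).card : ℝ) - ((b : ℝ) - a) / r| ≤ 1 := by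
  have h := Nat.Ioc_filter_modEq_card a b hr v
  have hr' : (0 : ℚ) < r := by exact_mod_cast hr
  have hab' : (a : ℚ) ≤ b := by exact_mod_cast hab
  have hle : ((a : ℚ) - v) / r ≤ ((b : ℚ) - v) / r := by gcongr
  have hfl := Int.floor_le_floor hle
  rw [max_eq_left (by linarith)] at h
  have h1 := Int.floor_le (((b : ℚ) - v) / r)
  have h2 := Int.lt_floor_add_one (((b : ℚ) - v) / r)
  have h3 := Int.floor_le (((a : ℚ) - v) / r)
  have h4 := Int.lt_floor_add_one (((a : ℚ) - v) / r)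
  have h5 : ((((Ioc a b).filter (fun n => n ≡ v [MOD r])).card : ℕ) : ℚ) =
      (⌊((b : ℚ) - v) / r⌋ : ℚ) - (⌊((a : ℚ) - v) / r⌋ : ℚ) := by
    have := congrArg (fun t : ℤ => (t : ℚ)) h
    simpa using this
  have h6 : |((((Ioc a b).filter (fun n => n ≡ v [MOD r])).card : ℕ) : ℚ) -
      ((b : ℚ) - a) / r| ≤ 1 := by
    rw [h5]
    have e : ((b : ℚ) - a) / r = ((b : ℚ) - v) / r - ((a : ℚ) - v) / r := by ring
    rw [e, abs_le]
    constructor <;> linarith
  have h7 : (((|((((Ioc a b).filter (fun n => n ≡ v [MOD r])).card : ℕ) : ℚ) -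
      ((b : ℚ) - a) / r| : ℚ)) : ℝ) ≤ ((1 : ℚ) : ℝ) := Rat.cast_le.2 h6
  push_cast at h7
  exact h7

/-- a class mod `q` and divisibility by `d` -/
lemma card_dvd (X q α d : ℕ) (hq : 0 < q) (hd : 0 < d) (hc : q.Coprime d) :
    |((((Ioc X (2 * X)).filter (fun n => n % q = α % q)).filter (fun n => d ∣ n)).card : ℝ) -
      (X : ℝ) / (q * d)| ≤ 1 := by
  obtain ⟨k, hk1, hk2⟩ := Nat.chineseRemainder hc α 0
  have h := card_modEq X (2 * X) k (q * d) (by omega) (Nat.mul_pos hq hd)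
  have e : ((Ioc X (2 * X)).filter (fun n => n % q = α % q)).filter (fun n => d ∣ n) =
      (Ioc X (2 * X)).filter (fun n => n ≡ k [MOD (q * d)]) := by
    rw [filter_filter]
    apply filter_congr
    intro n _
    rw [← Nat.modEq_and_modEq_iff_modEq_mul hc]
    constructor
    · rintro ⟨h1, h2⟩
      exact ⟨(show n ≡ α [MOD q] from h1).trans hk1.symm,
        ((Nat.modEq_zero_iff_dvd).2 h2).trans hk2.symm⟩
    · rintro ⟨h1, h2⟩
      exact ⟨(h1.trans hk1 : n ≡ α [MOD q]), (Nat.modEq_zero_iff_dvd).1 (h2.trans hk2)⟩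
  rw [e]
  have e2 : (((2 * X : ℕ) : ℝ) - X) / ((q * d : ℕ) : ℝ) = (X : ℝ) / (q * d) := by
    push_cast; ring
  rw [e2] at h
  exact h

/-- Brun's pure sieve -/
lemma brun (X q α : ℕ) (hq : 0 < q) (P : Finset ℕ) (hP : ∀ p ∈ P, p.Prime)
    (hPq : ∀ p ∈ P, ¬ p ∣ q) (r : ℕ) (hr : Odd r) :
    (X : ℝ) / q * (∏ p ∈ P, (1 - (1 : ℝ) / p) - (∏ p ∈ P, (1 + 8 * ((1 : ℝ) / p))) / 8 ^ (r + 1)) -
      3 * ((P.card : ℝ) + 1) ^ r ≤
    ((((Ioc X (2 * X)).filter (fun n => n % q = α % q)).filter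
      (fun n => ∀ p ∈ P, ¬ p ∣ n)).card : ℝ) := by
  classical
  set A := (Ioc X (2 * X)).filter (fun n => n % q = α % q) with hA
  set y : ℕ → ℕ → ℝ := fun n p => if p ∣ n then 1 else 0 with hy
  have hqR : (0 : ℝ) < q := by exact_mod_cast hq
  -- the count as a sum of products
  have e1 : ((A.filter (fun n => ∀ p ∈ P, ¬ p ∣ n)).card : ℝ) =
      ∑ n ∈ A, ∏ p ∈ P, (1 - y n p) := by
    rw [card_filter, Nat.cast_sum]
    apply sum_congr rfl
    intro n _
    by_cases h : ∀ p ∈ P, ¬ p ∣ n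
    · rw [if_pos h]
      symm
      rw [Nat.cast_one]
      apply prod_eq_one
      intro p hp
      simp [hy, h p hp]
    · rw [if_neg h]
      push Not at h
      obtain ⟨p, hp, hpn⟩ := h
      symm
      rw [Nat.cast_zero]
      apply prod_eq_zero hp
      simp [hy, hpn]
  have h1 : ∑ n ∈ A, trunc (y n) P r ≤ ∑ n ∈ A, ∏ p ∈ P, (1 - y n p) := by
    apply sum_le_sum
    intro n _
    refine (bonf (y n) P (fun p _ => ?_) r).2 hr
    simp only [hy]
    split_ifs <;> norm_num
  -- exchange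
  have h2 : ∑ n ∈ A, trunc (y n) P r = ∑ D ∈ P.powerset, if D.card ≤ r then
      (-1) ^ D.card * ((A.filter (fun n => (∏ p ∈ D, p) ∣ n)).card : ℝ) else 0 := by
    unfold trunc
    rw [sum_comm]
    apply sum_congr rfl
    intro D hD
    have hD' := mem_powerset.1 hD
    split_ifs with h
    · rw [card_filter, Nat.cast_sum, mul_sum]
      apply sum_congr rfl
      intro n _
      have e3 : ∏ p ∈ D, (-y n p) = (-1) ^ D.card * ∏ p ∈ D, y n p := by
        rw [← prod_const, ← prod_mul_distrib]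
        exact prod_congr rfl fun p _ => by ring
      rw [e3]
      congr 1
      have hdv : (∏ p ∈ D, p) ∣ n ↔ ∀ p ∈ D, p ∣ n := by
        constructor
        · intro hh p hp
          exact (dvd_prod_of_mem _ hp).trans hh
        · intro hh
          exact Finset.prod_primes_dvd n (fun p hp => (hP p (hD' hp)).prime) hh
      by_cases hh : ∀ p ∈ D, p ∣ n
      · rw [if_pos (hdv.2 hh), Nat.cast_one]
        apply prod_eq_one
        intro p hp
        simp [hy, hh p hp]
      · rw [if_neg (fun h' => hh (hdv.1 h'))]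
        push Not at hh
        obtain ⟨p, hp, hpn⟩ := hh
        rw [Nat.cast_zero]
        apply prod_eq_zero hp
        simp [hy, hpn]
    · simp
  have h3 : (X : ℝ) / q * trunc (fun p => (1 : ℝ) / p) P r -
      ∑ D ∈ P.powerset, (if D.card ≤ r then (1 : ℝ) else 0) ≤ ∑ n ∈ A, trunc (y n) P r := by
    rw [h2, trunc, mul_sum, ← sum_sub_distrib]
    apply sum_le_sum
    intro D hD
    have hD' := mem_powerset.1 hD
    split_ifs with h
    · have hpos : 0 < ∏ p ∈ D, p := prod_pos fun p hp => (hP p (hD' hp)).pos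
      have hcop : q.Coprime (∏ p ∈ D, p) := by
        apply Nat.Coprime.prod_right
        intro p hp
        exact ((Nat.Prime.coprime_iff_not_dvd (hP p (hD' hp))).2 (hPq p (hD' hp))).symm
      have hc := card_dvd X q α (∏ p ∈ D, p) hq hpos hcop
      have e3 : ∏ p ∈ D, (-((1 : ℝ) / p)) = (-1) ^ D.card * (1 / ((∏ p ∈ D, p : ℕ) : ℝ)) := by
        rw [← prod_const, Nat.cast_prod, one_div, ← prod_inv_distrib, ← prod_mul_distrib]
        exact prod_congr rfl fun p _ => by ring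
      rw [e3]
      have hs : |((-1 : ℝ)) ^ D.card| = 1 := by rw [abs_pow, abs_neg, abs_one, one_pow]
      have h4 : |(-1 : ℝ) ^ D.card * (((A.filter (fun n => (∏ p ∈ D, p) ∣ n)).card : ℝ) -
          (X : ℝ) / (q * ((∏ p ∈ D, p : ℕ) : ℝ)))| ≤ 1 := by
        rw [abs_mul, hs, one_mul]
        exact hc
      have h5 := (abs_le.1 h4).1
      have e4 : (X : ℝ) / q * ((-1) ^ D.card * (1 / ((∏ p ∈ D, p : ℕ) : ℝ))) =
          (-1 : ℝ) ^ D.card * ((X : ℝ) / (q * ((∏ p ∈ D, p : ℕ) : ℝ))) := by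
        have : (0 : ℝ) < ((∏ p ∈ D, p : ℕ) : ℝ) := by exact_mod_cast hpos
        field_simp
      rw [e4]
      linarith
    · simp
  have h4 := tail_le (fun p => (1 : ℝ) / p) P (fun p _ => by positivity) r
  have h5 := count_le P r
  have h6 : (X : ℝ) / q * (∏ p ∈ P, (1 - (1 : ℝ) / p) -
      (∏ p ∈ P, (1 + 8 * ((1 : ℝ) / p))) / 8 ^ (r + 1)) ≤
      (X : ℝ) / q * trunc (fun p => (1 : ℝ) / p) P r := by
    apply mul_le_mul_of_nonneg_left _ (by positivity)
    linarith
  rw [e1]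
  linarith

lemma sum_inv_le (J : ℕ) :
    ∑ p ∈ (Ioc 0 (2 ^ (2 ^ J))).filter Nat.Prime, (1 : ℝ) / p ≤ 4 * J + 1 := by
  induction J with
  | zero =>
    have : (Ioc 0 (2 ^ (2 ^ 0))).filter Nat.Prime = {2} := by decide
    rw [this]; norm_num
  | succ J ih =>
    set a := 2 ^ (2 ^ J) with ha
    set b := 2 ^ (2 ^ (J + 1)) with hb
    have hab : a ≤ b := Nat.pow_le_pow_right (by norm_num) (Nat.pow_le_pow_right (by norm_num)
      (by omega))
    have ha2 : 2 ≤ a := by
      rw [ha]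
      calc 2 = 2 ^ 1 := rfl
        _ ≤ 2 ^ (2 ^ J) := Nat.pow_le_pow_right (by norm_num) Nat.one_le_two_pow
    have hb1 : 1 ≤ b := by omega
    have e1 : (Ioc 0 b).filter Nat.Prime = (Ioc 0 a).filter Nat.Prime ∪
        (Ioc a b).filter Nat.Prime := by
      rw [← filter_union, Ioc_union_Ioc_eq_Ioc (by omega) hab]
    have hdis : Disjoint ((Ioc 0 a).filter Nat.Prime) ((Ioc a b).filter Nat.Prime) := by
      apply disjoint_filter_filter
      rw [disjoint_left]
      intro n h1 h2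
      rw [mem_Ioc] at h1 h2
      omega
    rw [e1, sum_union hdis]
    have hla : Real.log a = 2 ^ J * Real.log 2 := by
      rw [ha]; push_cast; rw [Real.log_pow]; push_cast; ring
    have hlb : Real.log b = 2 * 2 ^ J * Real.log 2 := by
      rw [hb]; push_cast; rw [Real.log_pow]; push_cast; ring
    have hl2 : 0 < Real.log 2 := Real.log_pos (by norm_num)
    have hpw : (1 : ℝ) ≤ 2 ^ J := one_le_pow₀ (by norm_num)
    have hla0 : 0 < Real.log a := by rw [hla]; positivity
    have h1 : ∑ p ∈ (Ioc a b).filter Nat.Prime, (1 : ℝ) / p ≤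
        ∑ p ∈ (Ioc a b).filter Nat.Prime, (Real.log p / p) / Real.log a := by
      apply sum_le_sum
      intro p hp
      have hp' := mem_Ioc.1 (mem_filter.1 hp).1
      have hp0 : (0 : ℝ) < p := by exact_mod_cast (by omega : 0 < p)
      have haR : (0 : ℝ) < a := by exact_mod_cast (by omega : 0 < a)
      have hlp : Real.log a ≤ Real.log p := Real.log_le_log haR (by exact_mod_cast hp'.1.le)
      rw [div_div, div_le_div_iff₀ hp0 (by positivity)]
      nlinarith
    have h2 : ∑ p ∈ (Ioc a b).filter Nat.Prime, (Real.log p / p) ≤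
        ∑ p ∈ (Ioc 0 b).filter Nat.Prime, (Real.log p / p) := by
      apply sum_le_sum_of_subset_of_nonneg
      · intro p hp
        rw [mem_filter, mem_Ioc] at hp ⊢
        exact ⟨⟨by omega, hp.1.2⟩, hp.2⟩
      · intro p hp _
        have := (mem_filter.1 hp).2.one_le
        have : (1 : ℝ) ≤ p := by exact_mod_cast this
        have := Real.log_nonneg this
        positivity
    have h3 := Pool.Agent.Lib.MP_f9aece_nt.sum_log_div_le hb1
    have h4 : Real.log 4 = 2 * Real.log 2 := by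
      rw [show (4 : ℝ) = 2 ^ 2 by norm_num, Real.log_pow]; norm_num
    rw [← sum_div] at h1
    have h5 : (∑ p ∈ (Ioc a b).filter Nat.Prime, (Real.log p / p)) / Real.log a ≤ 4 := by
      rw [div_le_iff₀ hla0, hla]
      rw [hlb, h4] at h3
      nlinarith
    push_cast
    linarith

lemma exp_neg_two_mul_le {x : ℝ} (h0 : 0 ≤ x) (h1 : x ≤ 1 / 2) : Real.exp (-(2 * x)) ≤ 1 - x := by
  rw [Real.exp_neg]
  have h2 := Real.add_one_le_exp (2 * x)
  have h3 : 0 < 2 * x + 1 := by linarith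
  calc (Real.exp (2 * x))⁻¹ ≤ (2 * x + 1)⁻¹ := inv_anti₀ h3 h2
    _ ≤ 1 - x := by
        rw [inv_le_iff_one_le_mul₀ h3]
        nlinarith

open Classical in
/-- Brun's pure sieve with explicit parameter `J`, `z ≤ 2 ^ 2 ^ J`. -/
lemma brun' (X q α z J : ℕ) (hq : 0 < q) (hα : α.Coprime q) (hz : z ≤ 2 ^ (2 ^ J))
    (hX : 4 * (3 * (2 : ℝ) ^ ((2 ^ J + 1) * (40 * J + 11))) * Real.exp (2 * (4 * J + 1)) ≤
      (X : ℝ) / q) :
    (X : ℝ) / q * (Real.exp (-(2 * (4 * J + 1))) / 4) ≤
    ((((Ioc X (2 * X)).filter (fun n => n % q = α % q ∧ Rough z n))).card : ℝ) := by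
  have hqR : (0 : ℝ) < q := by exact_mod_cast hq
  set P := ((Ioc 0 z).filter Nat.Prime).filter (fun p => ¬ p ∣ q) with hPd
  have hP : ∀ p ∈ P, p.Prime := fun p hp => (mem_filter.1 (mem_filter.1 hp).1).2
  have hPq : ∀ p ∈ P, ¬ p ∣ q := fun p hp => (mem_filter.1 hp).2
  have hb := brun X q α hq P hP hPq (40 * J + 11) (by
    rw [Nat.odd_iff]; omega)
  -- the sum over P
  have hsum : ∑ p ∈ P, (1 : ℝ) / p ≤ 4 * J + 1 := by
    refine le_trans ?_ (sum_inv_le J)
    apply sum_le_sum_of_subset_of_nonneg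
    · intro p hp
      have h1 := mem_filter.1 (mem_filter.1 hp).1
      have h2 := mem_Ioc.1 h1.1
      rw [mem_filter, mem_Ioc]
      exact ⟨⟨h2.1, h2.2.trans hz⟩, h1.2⟩
    · intros; positivity
  have hlow : Real.exp (-(2 * (4 * J + 1))) ≤ ∏ p ∈ P, (1 - (1 : ℝ) / p) := by
    calc Real.exp (-(2 * (4 * J + 1))) ≤ Real.exp (∑ p ∈ P, (-(2 * ((1 : ℝ) / p)))) := by
          apply Real.exp_le_exp.2
          rw [sum_neg_distrib, ← mul_sum]
          linarith
      _ = ∏ p ∈ P, Real.exp (-(2 * ((1 : ℝ) / p))) := Real.exp_sum _ _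
      _ ≤ _ := by
          apply prod_le_prod
          · intros; positivity
          · intro p hp
            have h2 : (2 : ℝ) ≤ p := by exact_mod_cast (hP p hp).two_le
            apply exp_neg_two_mul_le (by positivity)
            rw [div_le_div_iff₀ (by linarith) (by norm_num)]
            linarith
  have hup : ∏ p ∈ P, (1 + 8 * ((1 : ℝ) / p)) ≤ Real.exp (8 * (4 * J + 1)) := by
    calc ∏ p ∈ P, (1 + 8 * ((1 : ℝ) / p)) ≤ ∏ p ∈ P, Real.exp (8 * ((1 : ℝ) / p)) := by
          apply prod_le_prod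
          · intros; positivity
          · intro p _
            linarith [Real.add_one_le_exp (8 * ((1 : ℝ) / p))]
      _ = Real.exp (∑ p ∈ P, (8 * ((1 : ℝ) / p))) := (Real.exp_sum _ _).symm
      _ ≤ _ := by
          apply Real.exp_le_exp.2
          rw [← mul_sum]
          linarith
  have h8 : Real.exp (2 * (40 * J + 12)) ≤ (8 : ℝ) ^ (40 * J + 11 + 1) := by
    have : Real.exp 2 ≤ 8 := by
      have h := Real.exp_one_lt_d9
      have h0 := Real.exp_pos 1
      have : Real.exp 2 = Real.exp 1 * Real.exp 1 := by rw [← Real.exp_add]; norm_num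
      rw [this]; nlinarith
    calc Real.exp (2 * (40 * J + 12)) = Real.exp 2 ^ (40 * J + 12) := by
          rw [← Real.exp_nat_mul]; congr 1; push_cast; ring
      _ ≤ 8 ^ (40 * J + 12) := by gcongr
  have htail : (∏ p ∈ P, (1 + 8 * ((1 : ℝ) / p))) / 8 ^ (40 * J + 11 + 1) ≤
      Real.exp (-(2 * (4 * J + 1))) / 2 := by
    have hJ : (0 : ℝ) ≤ J := Nat.cast_nonneg J
    calc (∏ p ∈ P, (1 + 8 * ((1 : ℝ) / p))) / 8 ^ (40 * J + 11 + 1) ≤
        Real.exp (8 * (4 * J + 1)) / Real.exp (2 * (40 * J + 12)) := by gcongr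
      _ = Real.exp (8 * (4 * J + 1) - 2 * (40 * J + 12)) := by rw [Real.exp_sub]
      _ ≤ Real.exp (-(2 * (4 * J + 1)) - 1) := by
          apply Real.exp_le_exp.2; linarith
      _ = Real.exp (-(2 * (4 * J + 1))) / Real.exp 1 := by rw [Real.exp_sub]
      _ ≤ _ := by
          have : (2 : ℝ) ≤ Real.exp 1 := by linarith [Real.exp_one_gt_d9]
          gcongr
  have hcard : (P.card : ℝ) + 1 ≤ 2 ^ (2 ^ J + 1) := by
    have h1 : P.card ≤ z := by
      calc P.card ≤ (Ioc 0 z).card := card_le_card ((filter_subset _ _).trans (filter_subset _ _))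
        _ = z := by simp
    have h2 : P.card + 1 ≤ 2 ^ (2 ^ J + 1) := by
      have : 1 ≤ 2 ^ (2 ^ J) := Nat.one_le_two_pow
      rw [pow_succ]; omega
    exact_mod_cast h2
  have hcnt : 3 * ((P.card : ℝ) + 1) ^ (40 * J + 11) ≤
      3 * (2 : ℝ) ^ ((2 ^ J + 1) * (40 * J + 11)) := by
    rw [pow_mul]
    gcongr
  have hmain : (X : ℝ) / q * (Real.exp (-(2 * (4 * J + 1))) / 2) ≤
      (X : ℝ) / q * (∏ p ∈ P, (1 - (1 : ℝ) / p) -
        (∏ p ∈ P, (1 + 8 * ((1 : ℝ) / p))) / 8 ^ (40 * J + 11 + 1)) := by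
    apply mul_le_mul_of_nonneg_left _ (by positivity)
    linarith
  have hX' : 3 * (2 : ℝ) ^ ((2 ^ J + 1) * (40 * J + 11)) ≤
      (X : ℝ) / q * (Real.exp (-(2 * (4 * J + 1))) / 4) := by
    have h0 := Real.exp_pos (2 * (4 * (J : ℝ) + 1))
    have h1 := mul_le_mul_of_nonneg_right hX (Real.exp_pos (-(2 * (4 * (J : ℝ) + 1)))).le
    rw [mul_assoc, ← Real.exp_add, add_neg_cancel, Real.exp_zero, mul_one] at h1
    linarith
  have heq : ((Ioc X (2 * X)).filter (fun n => n % q = α % q)).filter (fun n => ∀ p ∈ P, ¬ p ∣ n) =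
      (Ioc X (2 * X)).filter (fun n => n % q = α % q ∧ Rough z n) := by
    rw [filter_filter]
    apply filter_congr
    intro n hn
    have hn' := mem_Ioc.1 hn
    refine and_congr_right fun hmod => ?_
    constructor
    · intro h p hp hpn
      by_contra hlt
      push Not at hlt
      have hpq : ¬ p ∣ q := by
        intro hpq
        have h1 : p ∣ α := by
          have h2 : n ≡ α [MOD p] := (show n ≡ α [MOD q] from hmod).of_dvd hpq
          exact (Nat.modEq_zero_iff_dvd).1 (h2.symm.trans ((Nat.modEq_zero_iff_dvd).2 hpn))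
        have h3 := Nat.dvd_gcd h1 hpq
        rw [hα] at h3
        exact hp.one_lt.ne' (Nat.dvd_one.1 h3)
      exact h p (by
        rw [hPd, mem_filter, mem_filter, mem_Ioc]
        exact ⟨⟨⟨hp.pos, hlt⟩, hp⟩, hpq⟩) hpn
    · intro h p hp hpn
      have h1 := mem_filter.1 (mem_filter.1 hp).1
      have h2 := mem_Ioc.1 h1.1
      have := h p h1.2 hpn
      omega
  rw [heq] at hb
  linarith

end Br

open Br in
theorem r10 : R10 := by
  intro B
  set M : ℝ := 4 * (B : ℝ) + 4 with hM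
  have hM0 : 0 < M := by positivity
  have hlo := (Real.isLittleO_pow_log_id_atTop (n := 2)).def (c := 1 / (230 * M ^ 2)) (by positivity)
  rw [Filter.eventually_atTop] at hlo
  obtain ⟨L0, hL0⟩ := hlo
  refine ⟨Real.exp (-2) / 4 / M ^ 12, 12, max (Real.exp (max L0 3)) 16, by positivity, by norm_num,
    le_max_right _ _, ?_⟩
  intro Y z q α X hY hz hq hα hX
  classical
  have hY1 : Real.exp (max L0 3) ≤ Y := (le_max_left _ _).trans hY
  have hY16 : (16 : ℝ) ≤ Y := (le_max_right _ _).trans hY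
  have hY0 : (0 : ℝ) < Y := by linarith
  have hL : max L0 3 ≤ Real.log Y := by rwa [Real.le_log_iff_exp_le hY0]
  set L := Real.log Y with hLdef
  have hL3 : 3 ≤ L := (le_max_right _ _).trans hL
  set l := Real.log L with hl
  have hl1 : 1 ≤ l := by
    rw [hl, Real.le_log_iff_exp_le (by linarith)]
    linarith [Real.exp_one_lt_d9]
  have hlsq : 230 * M ^ 2 * l ^ 2 ≤ L := by
    have := hL0 L ((le_max_left _ _).trans hL)
    simp only [id, Real.norm_eq_abs] at this
    rw [abs_of_nonneg (by positivity), abs_of_nonneg (by linarith : (0 : ℝ) ≤ L)] at this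
    rw [one_div, ← div_eq_inv_mul, le_div_iff₀ (by positivity)] at this
    linarith
  -- choice of J
  set N := ⌈2 * (B : ℝ) * l⌉₊ + 1 with hN
  set J := Nat.clog 2 N with hJ
  have hN1 : N ≤ 2 ^ J := Nat.le_pow_clog (by norm_num) N
  have hN2 : 2 ^ J ≤ 2 * N := by
    rcases Nat.lt_or_ge 1 N with h | h
    · have h1 := Nat.pow_pred_clog_lt_self (b := 2) (by norm_num) h
      have h2 : 0 < J := Nat.clog_pos (by norm_num) h
      have h3 : J = (J - 1) + 1 := by omega
      rw [h3, pow_succ]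
      have h4 : (Nat.clog 2 N).pred = J - 1 := rfl
      rw [h4] at h1
      omega
    · have : N = 1 := by omega
      have h2 : J = 0 := by rw [hJ, this]; simp
      rw [h2, this]; norm_num
  have hNle : (N : ℝ) ≤ 2 * B * l + 2 := by
    have := Nat.ceil_lt_add_one (a := 2 * (B : ℝ) * l) (by positivity)
    rw [hN]; push_cast; linarith
  have hW : ((2 : ℝ) ^ J) ≤ M * l := by
    have h1 : ((2 : ℝ) ^ J) ≤ 2 * N := by exact_mod_cast hN2
    rw [hM]; nlinarith
  have hW1 : (1 : ℝ) ≤ 2 ^ J := one_le_pow₀ (by norm_num)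
  have hJW : (J : ℝ) ≤ 2 ^ J := by exact_mod_cast (Nat.lt_two_pow_self (n := J)).le
  have hBl : 2 * (B : ℝ) * l ≤ 2 ^ J := by
    have h1 : (N : ℝ) ≤ 2 ^ J := by exact_mod_cast hN1
    have h2 := Nat.le_ceil (2 * (B : ℝ) * l)
    have h3 : ((N : ℕ) : ℝ) = (⌈2 * (B : ℝ) * l⌉₊ : ℝ) + 1 := by rw [hN]; push_cast; rfl
    linarith
  have hzJ : z ≤ 2 ^ (2 ^ J) := by
    have h1 : (z : ℝ) ≤ 2 ^ (2 ^ J) := by
      refine hz.trans ?_
      have h2 : L ^ B = Real.exp (B * l) := by
        rw [hl, ← Real.log_pow, Real.exp_log (by positivity)]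
      have h3 : ((2 : ℝ) ^ (2 ^ J)) = Real.exp (2 ^ J * Real.log 2) := by
        rw [← Real.rpow_natCast, Real.rpow_def_of_pos (by norm_num)]
        push_cast; ring_nf
      rw [h2, h3]
      apply Real.exp_le_exp.2
      have h4 : (1 : ℝ) / 2 ≤ Real.log 2 := by linarith [Real.log_two_gt_d9]
      nlinarith
    exact_mod_cast h1
  have hqR : (0 : ℝ) < q := by exact_mod_cast (by omega : 0 < q)
  have hXq : Real.exp (L / 2) ≤ (X : ℝ) / q := by
    rw [le_div_iff₀ hqR]
    have h1 : (q : ℝ) ^ 2 * Y ≤ (X : ℝ) ^ 2 := by exact_mod_cast hX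
    have h2 : (Real.exp (L / 2) * q) ^ 2 = (q : ℝ) ^ 2 * Y := by
      rw [mul_pow, ← Real.exp_nat_mul]
      have : ((2 : ℕ) : ℝ) * (L / 2) = L := by push_cast; ring
      rw [this, hLdef, Real.exp_log hY0]; ring
    exact le_of_sq_le_sq (by rw [h2]; exact h1) (by positivity)
  have hcond : 4 * (3 * (2 : ℝ) ^ ((2 ^ J + 1) * (40 * J + 11))) * Real.exp (2 * (4 * J + 1)) ≤
      (X : ℝ) / q := by
    refine le_trans ?_ hXq
    have h1 : (4 * 3 : ℝ) ≤ Real.exp 3 := by
      have h := Real.exp_one_gt_d9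
      have : Real.exp 3 = Real.exp 1 * Real.exp 1 * Real.exp 1 := by
        rw [← Real.exp_add, ← Real.exp_add]; norm_num
      rw [this]
      have h2 : (2.7 : ℝ) ≤ Real.exp 1 := by linarith
      have h3 : (2.7 : ℝ) * 2.7 ≤ Real.exp 1 * Real.exp 1 := by gcongr
      have h4 : (2.7 : ℝ) * 2.7 * 2.7 ≤ Real.exp 1 * Real.exp 1 * Real.exp 1 := by gcongr
      linarith
    have h2 : (2 : ℝ) ^ ((2 ^ J + 1) * (40 * J + 11)) ≤
        Real.exp ((2 ^ J + 1) * (40 * J + 11)) := by
      have : (2 : ℝ) ≤ Real.exp 1 := by linarith [Real.exp_one_gt_d9]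
      calc (2 : ℝ) ^ ((2 ^ J + 1) * (40 * J + 11)) ≤
          Real.exp 1 ^ ((2 ^ J + 1) * (40 * J + 11)) := by gcongr
        _ = _ := by rw [← Real.exp_nat_mul]; congr 1; push_cast; ring
    calc 4 * (3 * (2 : ℝ) ^ ((2 ^ J + 1) * (40 * J + 11))) * Real.exp (2 * (4 * J + 1))
        = (4 * 3) * (2 : ℝ) ^ ((2 ^ J + 1) * (40 * J + 11)) * Real.exp (2 * (4 * J + 1)) := by ring
      _ ≤ Real.exp 3 * Real.exp ((2 ^ J + 1) * (40 * J + 11)) * Real.exp (2 * (4 * J + 1)) := by
          gcongr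
      _ = Real.exp (3 + (2 ^ J + 1) * (40 * J + 11) + 2 * (4 * J + 1)) := by
          rw [Real.exp_add, Real.exp_add]
      _ ≤ Real.exp (L / 2) := by
          apply Real.exp_le_exp.2
          set W : ℝ := 2 ^ J with hWd
          have h3 : (W + 1) * (40 * J + 11) ≤ (2 * W) * (51 * W) := by
            apply mul_le_mul (by linarith) (by linarith) (by positivity) (by positivity)
          have h4 : 3 + (W + 1) * (40 * J + 11) + 2 * (4 * J + 1) ≤ 115 * W ^ 2 := by
            nlinarith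
          have h5 : W ^ 2 ≤ (M * l) ^ 2 := by gcongr
          have h6 : (M * l) ^ 2 = M ^ 2 * l ^ 2 := by ring
          linarith
  have hb := brun' X q α z J (by omega) hα hzJ hcond
  refine le_trans ?_ hb
  have e1 : (l : ℝ) ^ (12 : ℝ) = l ^ 12 := by
    rw [← Real.rpow_natCast]; norm_num
  rw [e1]
  have h1 : Real.exp (-2) / (M * l) ^ 12 ≤ Real.exp (-(2 * (4 * J + 1))) := by
    have h2 : Real.exp (8 * J) ≤ (M * l) ^ 12 := by
      have h3 : Real.exp 8 ≤ 2 ^ 12 := by
        have h := Real.exp_one_lt_d9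
        have h0 := Real.exp_pos 1
        have : Real.exp 8 = Real.exp 1 ^ 8 := by rw [← Real.exp_nat_mul]; norm_num
        rw [this]
        calc Real.exp 1 ^ 8 ≤ 2.72 ^ 8 := by gcongr; linarith
          _ ≤ _ := by norm_num
      calc Real.exp (8 * J) = Real.exp 8 ^ J := by rw [← Real.exp_nat_mul]; ring_nf
        _ ≤ (2 ^ 12) ^ J := by gcongr
        _ = (2 ^ J) ^ 12 := by rw [← pow_mul, ← pow_mul, mul_comm]
        _ ≤ (M * l) ^ 12 := by gcongr
    have h4 : -(2 * (4 * (J : ℝ) + 1)) = -2 - 8 * J := by ring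
    rw [h4, Real.exp_sub]
    gcongr
  have h5 : Real.exp (-2) / 4 / M ^ 12 * X / (q * l ^ 12) =
      (X : ℝ) / q * (Real.exp (-2) / (M * l) ^ 12 / 4) := by
    field_simp
  rw [h5]
  gcongr

end ES
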