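import Pool.Agent.Lib.ES.Defs

/-! Tank ES, row R11: lower bound for every class of `u` mod `m`, for good `b`. helper43. -/

set_option autoImplicit false

open Finset
open scoped BigOperators

namespace ES

namespace R11P

/-- a set inside one class mod `M`, beyond `M`: the sum of the reciprocals. -/
theorem sum_class_le {M B : ℕ} (hM : 1 ≤ M) (S : Finset ℕ)
    (hS : ∀ n ∈ S, M ≤ n ∧ n ≤ B) (hmod : ∀ n ∈ S, ∀ n' ∈ S, n ≡ n' [MOD M]) :
    ∑ n ∈ S, (1 : ℝ) / n ≤ 1 / M * (1 + Real.log B) := by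
  classical
  have hM0 : (0 : ℝ) < M := by exact_mod_cast hM
  have h1 : ∀ n ∈ S, (1 : ℝ) / n ≤ 1 / M * (1 / ((n / M : ℕ) : ℝ)) := by
    intro n hn
    have h := hS n hn
    have hd : 1 ≤ n / M := (Nat.one_le_div_iff (by omega)).2 h.1
    have hd0 : (0 : ℝ) < ((n / M : ℕ) : ℝ) := by exact_mod_cast hd
    rw [one_div_mul_one_div]
    apply one_div_le_one_div_of_le (by positivity)
    exact_mod_cast Nat.mul_div_le n M
  have hinj : Set.InjOn (fun n => n / M) (S : Set ℕ) := by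
    intro n hn n' hn' he
    have h2 := hmod n hn n' hn'
    simp only at he
    rw [← Nat.div_add_mod n M, ← Nat.div_add_mod n' M, he, h2]
  refine (sum_le_sum h1).trans ?_
  rw [← mul_sum]
  apply mul_le_mul_of_nonneg_left _ (by positivity)
  have h3 : ∑ n ∈ S, (1 : ℝ) / ((n / M : ℕ) : ℝ) = ∑ t ∈ S.image (fun n => n / M), (1 : ℝ) / t := by
    rw [sum_image hinj]
  rw [h3]
  have h4 : S.image (fun n => n / M) ⊆ Icc 1 B := by
    intro t ht
    obtain ⟨n, hn, rfl⟩ := mem_image.1 ht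
    have h := hS n hn
    exact mem_Icc.2 ⟨(Nat.one_le_div_iff (by omega)).2 h.1, (Nat.div_le_self _ _).trans h.2⟩
  refine (sum_le_sum_of_subset_of_nonneg h4 fun _ _ _ => by positivity).trans ?_
  have h5 := harmonic_le_one_add_log B
  rw [harmonic_eq_sum_Icc] at h5
  push_cast at h5
  simpa [one_div] using h5

/-- dyadic lower bound. -/
theorem dyadic {P : ℕ → Prop} [DecidablePred P] {κ : ℝ} {X0 : ℕ} (hX0 : 1 ≤ X0)
    (h : ∀ X : ℕ, X0 ≤ X → κ * X ≤ (((Ioc X (2 * X)).filter P).card : ℝ)) (J : ℕ) :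
    κ / 2 * J ≤ ∑ n ∈ (Ioc X0 (2 ^ J * X0)).filter P, (1 : ℝ) / n := by
  induction J with
  | zero => simp
  | succ J ih =>
    have hX : X0 ≤ 2 ^ J * X0 := Nat.le_mul_of_pos_left _ (by positivity)
    have hX' : 2 ^ J * X0 ≤ 2 * (2 ^ J * X0) := by omega
    have e : Ioc X0 (2 ^ (J + 1) * X0) =
        Ioc X0 (2 ^ J * X0) ∪ Ioc (2 ^ J * X0) (2 * (2 ^ J * X0)) := by
      rw [Finset.Ioc_union_Ioc_eq_Ioc hX hX']
      congr 1
      ring
    rw [e, filter_union, sum_union]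
    · have h2 := h (2 ^ J * X0) hX
      have hpos : (0 : ℝ) < ((2 ^ J * X0 : ℕ) : ℝ) := by
        exact_mod_cast Nat.lt_of_lt_of_le hX0 hX
      have h3 : κ / 2 ≤ ∑ n ∈ (Ioc (2 ^ J * X0) (2 * (2 ^ J * X0))).filter P, (1 : ℝ) / n := by
        have h4 : ∀ n ∈ (Ioc (2 ^ J * X0) (2 * (2 ^ J * X0))).filter P,
            1 / (2 * ((2 ^ J * X0 : ℕ) : ℝ)) ≤ (1 : ℝ) / n := by
          intro n hn
          have h5 := mem_Ioc.1 (mem_filter.1 hn).1
          apply one_div_le_one_div_of_le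
          · exact_mod_cast lt_of_le_of_lt (Nat.zero_le _) h5.1
          · exact_mod_cast h5.2
        have h6 := sum_le_sum h4
        rw [sum_const, nsmul_eq_mul] at h6
        refine le_trans ?_ h6
        rw [mul_one_div, le_div_iff₀ (by positivity)]
        linarith
      push_cast
      linarith
    · apply disjoint_filter_filter
      rw [disjoint_left]
      intro n hn hn'
      have h5 := mem_Ioc.1 hn
      have h6 := mem_Ioc.1 hn'
      omega

/-- removal of the elements with a common factor with `d`. -/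
theorem gcd_removal {Y z u d B : ℕ} (hu : 1 ≤ u) (S : Finset ℕ) (hB : ∀ a ∈ S, a ≤ B)
    (hmod : ∀ a ∈ S, ∀ a' ∈ S, a ≡ a' [MOD u])
    (hq : ∀ q : ℕ, q.Prime → z < q → q ≤ Y → q ∣ d → u.Coprime q ∧ ∀ a ∈ S, q ∣ a → u * q ≤ a)
    (hex : ∀ a ∈ S, ¬ a.Coprime d → ∃ q : ℕ, q.Prime ∧ z < q ∧ q ≤ Y ∧ q ∣ d ∧ q ∣ a) :
    ∑ a ∈ S.filter (fun a => ¬ a.Coprime d), (1 : ℝ) / a ≤
      badMass Y z d * (1 / u * (1 + Real.log B)) := by
  classical
  set Q := (Ioc z Y).filter (fun q => q.Prime ∧ q ∣ d) with hQ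
  have hu0 : (0 : ℝ) < u := by exact_mod_cast hu
  have h1 : ∑ a ∈ S.filter (fun a => ¬ a.Coprime d), (1 : ℝ) / a ≤
      ∑ a ∈ S, ∑ q ∈ Q, (if q ∣ a then (1 : ℝ) / a else 0) := by
    rw [sum_filter]
    refine sum_le_sum fun a ha => ?_
    by_cases h : ¬ a.Coprime d
    · rw [if_pos h]
      obtain ⟨q, h2, h3, h4, h5, h6⟩ := hex a ha h
      have hqQ : q ∈ Q := mem_filter.2 ⟨mem_Ioc.2 ⟨h3, h4⟩, h2, h5⟩
      have h7 := single_le_sum (f := fun q => (if q ∣ a then (1 : ℝ) / a else 0))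
        (fun q _ => by split_ifs <;> positivity) hqQ
      simpa [h6] using h7
    · rw [if_neg h]
      exact sum_nonneg fun q _ => by split_ifs <;> positivity
  refine h1.trans ?_
  rw [sum_comm, badMass, sum_mul]
  refine sum_le_sum fun q hqQ => ?_
  have h2 := mem_filter.1 hqQ
  have h3 := mem_Ioc.1 h2.1
  obtain ⟨h4, h5⟩ := hq q h2.2.1 h3.1 h3.2 h2.2.2
  rw [← sum_filter]
  have hq0 : (0 : ℝ) < q := by exact_mod_cast h2.2.1.pos
  have h6 := sum_class_le (M := u * q) (B := B) (Nat.mul_pos hu h2.2.1.pos)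
    (S.filter (fun a => q ∣ a))
    (fun n hn => by
      have h7 := mem_filter.1 hn
      exact ⟨h5 n h7.1 h7.2, hB n h7.1⟩)
    (fun n hn n' hn' => by
      have h7 := mem_filter.1 hn
      have h8 := mem_filter.1 hn'
      exact (Nat.modEq_and_modEq_iff_modEq_mul h4).1 ⟨hmod n h7.1 n' h8.1,
        ((Nat.modEq_zero_iff_dvd.2 h7.2).trans (Nat.modEq_zero_iff_dvd.2 h8.2).symm)⟩)
  refine h6.trans (le_of_eq ?_)
  push_cast
  field_simp

theorem log_facts {Y : ℕ} (hY : 16 ≤ Y) : 2 ≤ Real.log Y ∧ 1 ≤ Real.log (Real.log Y) := by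
  have h1 : Real.log 16 ≤ Real.log Y := Real.log_le_log (by norm_num) (by exact_mod_cast hY)
  have h2 : Real.log 16 = 4 * Real.log 2 := by
    rw [show (16 : ℝ) = 2 ^ 4 by norm_num, Real.log_pow]
    norm_num
  have h3 := Real.log_two_gt_d9
  have h4 := Real.exp_one_lt_d9
  refine ⟨by linarith, ?_⟩
  rw [Real.le_log_iff_exp_le (by linarith)]
  linarith

/-- the mass of the prime factors of `c ≤ Y`. -/
theorem badMass_le {Y z c : ℕ} (hz : 1 ≤ z) (hc : 1 ≤ c) (hcY : c ≤ Y) :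
    badMass Y z c ≤ 2 * Real.log Y / z := by
  classical
  have hz0 : (0 : ℝ) < z := by exact_mod_cast hz
  have hQ : (Ioc z Y).filter (fun q => q.Prime ∧ q ∣ c) ⊆ c.primeFactors := by
    intro q hq
    have h := mem_filter.1 hq
    exact Nat.mem_primeFactors.2 ⟨h.2.1, h.2.2, by omega⟩
  have h1 : badMass Y z c ≤ ((c.primeFactors.card : ℕ) : ℝ) * (1 / z) := by
    have h2 : badMass Y z c ≤ (((Ioc z Y).filter (fun q => q.Prime ∧ q ∣ c)).card : ℝ) * (1 / z) := by
      rw [badMass, ← nsmul_eq_mul, ← sum_const]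
      refine sum_le_sum fun q hq => ?_
      have h := mem_Ioc.1 (mem_filter.1 hq).1
      exact one_div_le_one_div_of_le hz0 (by exact_mod_cast h.1.le)
    refine h2.trans (mul_le_mul_of_nonneg_right ?_ (by positivity))
    exact_mod_cast card_le_card hQ
  have h3 : 2 ^ c.primeFactors.card ≤ c := by
    calc 2 ^ c.primeFactors.card ≤ ∏ p ∈ c.primeFactors, p :=
          pow_card_le_prod _ _ _ fun p hp => (Nat.prime_of_mem_primeFactors hp).two_le
      _ ≤ c := Nat.le_of_dvd hc (Nat.prod_primeFactors_dvd c)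
  have h4 : (c.primeFactors.card : ℝ) * Real.log 2 ≤ Real.log Y := by
    rw [← Real.log_pow]
    apply Real.log_le_log (by positivity)
    exact_mod_cast h3.trans hcY
  have h5 := Real.log_two_gt_d9
  have h6 : (c.primeFactors.card : ℝ) ≤ 2 * Real.log Y := by
    have : (0 : ℝ) ≤ c.primeFactors.card := by positivity
    nlinarith
  refine h1.trans ?_
  rw [mul_one_div]
  exact div_le_div_of_nonneg_right h6 hz0.le

/-- `log Y / 2 ≤ log_2 Y`. -/
theorem natlog_ge {Y : ℕ} (hY : 16 ≤ Y) : Real.log Y / 2 ≤ (Nat.log 2 Y : ℝ) := by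
  have h1 : Y < 2 ^ (Nat.log 2 Y + 1) := Nat.lt_pow_succ_log_self (by norm_num) Y
  have h2 : Real.log Y ≤ ((Nat.log 2 Y + 1 : ℕ) : ℝ) * Real.log 2 := by
    rw [← Real.log_pow]
    apply Real.log_le_log (by positivity)
    exact_mod_cast h1.le
  have h3 := Real.log_two_lt_d9
  have h4 := (log_facts hY).1
  push_cast at h2
  have h5 : (0 : ℝ) ≤ (Nat.log 2 Y : ℝ) := by positivity
  nlinarith

/-- **the sum over `a`.** -/
theorem a_sum {Y z b u c : ℕ} {κ : ℝ} (hκ : 0 < κ) (hY : 16 ≤ Y) (hz : 1 ≤ z) (hu : 1 ≤ u)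
    (huY : u ≤ Y) (hc : 1 ≤ c) (hcY : c ≤ Y) (huc : u.Coprime c)
    (hub : u.Coprime b) (hRc : Rough z c) {P : ℕ → ℕ → Prop} [∀ α, DecidablePred (P α)]
    (hP : ∀ α n, P α n ↔ n % u = α % u ∧ Rough z n)
    (h10 : ∀ α X : ℕ, α.Coprime u → u ^ 2 * Y ≤ X ^ 2 →
      κ / u * X ≤ (((Ioc X (2 * X)).filter (P α)).card : ℝ))
    (hbig : 16 * Real.log Y ^ 2 / z ≤ κ * Real.log Y / 8)
    {G : ℕ → Prop} [DecidablePred G] (hG : ∀ a : ℕ, a.Coprime c → u.Coprime (a * c) →
      u ∣ c * b + a → Rough z a → G a) :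
    κ * Real.log Y / 8 / u ≤ ∑ a ∈ (Ioc (Y ^ 6) (Y ^ 7)).filter G, (1 : ℝ) / a := by
  classical
  have hu0 : (0 : ℝ) < u := by exact_mod_cast hu
  have hY0 : 0 < Y := by omega
  have hz0 : (0 : ℝ) < z := by exact_mod_cast hz
  obtain ⟨hL, _⟩ := log_facts hY
  set α := (u - 1) * (c * b) with hα
  have hαu : α.Coprime u := by
    have h1 : (u - 1).Coprime u := by
      rcases Nat.lt_or_ge 1 u with h | h
      · have := Nat.coprime_self_sub_left (m := 1) (n := u) (by omega)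
        simpa using this.2 (Nat.coprime_one_left u)
      · have : u = 1 := by omega
        subst this
        exact Nat.coprime_one_right _
    exact Nat.Coprime.mul_left h1 (Nat.Coprime.mul_left huc.symm hub.symm)
  have hαd : ∀ a, a % u = α % u → u ∣ c * b + a := by
    intro a ha
    have h1 : c * b + a ≡ c * b + α [MOD u] := Nat.ModEq.add_left _ ha
    have h2 : c * b + α = u * (c * b) := by
      rw [hα]
      obtain ⟨v, rfl⟩ : ∃ v, u = v + 1 := ⟨u - 1, by omega⟩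
      simp
      ring
    rw [h2] at h1
    exact (Nat.modEq_zero_iff_dvd.1 (h1.trans (Nat.modEq_zero_iff_dvd.2 ⟨_, rfl⟩)))
  set J := Nat.log 2 Y with hJ
  have hJY : 2 ^ J ≤ Y := Nat.pow_log_le_self 2 hY0.ne'
  have hmain := dyadic (P := P α) (κ := κ / u) (X0 := Y ^ 6) (Nat.pos_of_ne_zero (by positivity))
    (fun X hX => h10 α X hαu (by
      calc u ^ 2 * Y ≤ Y ^ 2 * Y := by gcongr
        _ = Y ^ 3 := by ring
        _ ≤ Y ^ 12 := Nat.pow_le_pow_right hY0 (by norm_num)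
        _ = (Y ^ 6) ^ 2 := by ring
        _ ≤ X ^ 2 := by gcongr)) J
  set S := (Ioc (Y ^ 6) (2 ^ J * Y ^ 6)).filter (P α) with hS
  have hSmem : ∀ a ∈ S, Y ^ 6 < a ∧ a ≤ Y ^ 7 ∧ a % u = α % u ∧ Rough z a := by
    intro a ha
    have h1 := mem_filter.1 ha
    have h2 := mem_Ioc.1 h1.1
    have h3 := (hP α a).1 h1.2
    refine ⟨h2.1, h2.2.trans ?_, h3.1, h3.2⟩
    calc 2 ^ J * Y ^ 6 ≤ Y * Y ^ 6 := Nat.mul_le_mul_right _ hJY
      _ = Y ^ 7 := by ring
  have hbad := gcd_removal (Y := Y) (z := z) (d := c) (B := Y ^ 7) hu S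
    (fun a ha => (hSmem a ha).2.1)
    (fun a ha a' ha' => ((hSmem a ha).2.2.1.trans (hSmem a' ha').2.2.1.symm))
    (fun q hq hzq hqY hqc => ⟨Nat.Coprime.coprime_dvd_right hqc huc, fun a ha _ => by
      calc u * q ≤ Y * Y := Nat.mul_le_mul huY hqY
        _ = Y ^ 2 := by ring
        _ ≤ Y ^ 6 := Nat.pow_le_pow_right hY0 (by norm_num)
        _ ≤ a := (hSmem a ha).1.le⟩)
    (fun a ha hac => by
      obtain ⟨q, hq, h1, h2⟩ := Nat.Prime.not_coprime_iff_dvd.1 hac
      exact ⟨q, hq, hRc q hq h2, (Nat.le_of_dvd hc h2).trans hcY, h2, h1⟩)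
  have hgood : ∑ a ∈ S.filter (fun a => a.Coprime c), (1 : ℝ) / a ≤
      ∑ a ∈ (Ioc (Y ^ 6) (Y ^ 7)).filter G, (1 : ℝ) / a := by
    apply sum_le_sum_of_subset_of_nonneg
    · intro a ha
      have h1 := mem_filter.1 ha
      obtain ⟨h2, h3, h4, h5⟩ := hSmem a h1.1
      refine mem_filter.2 ⟨mem_Ioc.2 ⟨h2, h3⟩, hG a h1.2 ?_ (hαd a h4) h5⟩
      have h6 : u.Coprime a := by
        have h7 : Nat.gcd a u = Nat.gcd α u := Nat.ModEq.gcd_eq h4
        rw [Nat.coprime_comm, Nat.Coprime, h7]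
        exact hαu
      exact Nat.Coprime.mul_right h6 huc
    · intro _ _ _
      positivity
  have hsplit : ∑ a ∈ S, (1 : ℝ) / a = ∑ a ∈ S.filter (fun a => a.Coprime c), (1 : ℝ) / a +
      ∑ a ∈ S.filter (fun a => ¬ a.Coprime c), (1 : ℝ) / a := (sum_filter_add_sum_filter_not _ _ _).symm
  have hlog7 : Real.log ((Y ^ 7 : ℕ) : ℝ) = 7 * Real.log Y := by
    push_cast
    rw [Real.log_pow]
    norm_num
  rw [hlog7] at hbad
  have hbm := badMass_le (z := z) hz hc hcY
  have hbad2 : ∑ a ∈ S.filter (fun a => ¬ a.Coprime c), (1 : ℝ) / a ≤ κ * Real.log Y / 8 / u := by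
    refine hbad.trans ?_
    calc badMass Y z c * (1 / u * (1 + 7 * Real.log Y))
        ≤ 2 * Real.log Y / z * (1 / u * (8 * Real.log Y)) := by
          apply mul_le_mul hbm _ (by positivity) (by positivity)
          apply mul_le_mul_of_nonneg_left _ (by positivity)
          linarith
      _ = 16 * Real.log Y ^ 2 / z / u := by
          field_simp
          ring
      _ ≤ κ * Real.log Y / 8 / u := div_le_div_of_nonneg_right hbig hu0.le
  have hJ2 := natlog_ge hY
  have hm2 : κ * Real.log Y / 4 / u ≤ κ / u / 2 * (J : ℝ) := by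
    calc κ * Real.log Y / 4 / u = κ / u / 2 * (Real.log Y / 2) := by
          field_simp
          ring
      _ ≤ κ / u / 2 * (J : ℝ) := mul_le_mul_of_nonneg_left hJ2 (by positivity)
  have e : κ * Real.log Y / 4 / u = κ * Real.log Y / 8 / u + κ * Real.log Y / 8 / u := by
    field_simp
    ring
  linarith

theorem X0_facts {Y m : ℕ} (hY : 16 ≤ Y) (hm : 1 ≤ m)
    (h : 4 * (Real.log (2 * m) + 1) ≤ Real.log Y) :
    ∃ X0 J : ℕ, 1 ≤ X0 ∧ m ^ 2 * Y ≤ X0 ^ 2 ∧ 2 ^ J * X0 ≤ Y ∧ Real.log Y / 4 ≤ J := by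
  have hY0 : (0 : ℝ) < Y := by
    have : 0 < Y := by omega
    exact_mod_cast this
  have hm0 : (0 : ℝ) < m := by exact_mod_cast hm
  set s := Nat.sqrt Y with hs
  have hs1 : 1 ≤ s := Nat.sqrt_pos.2 (by omega)
  have hsY : s * s ≤ Y := Nat.sqrt_le Y
  have hsY' : Y < (s + 1) * (s + 1) := Nat.lt_succ_sqrt Y
  set X0 := m * (s + 1) with hX0
  have hX0pos : 1 ≤ X0 := Nat.mul_pos hm (by omega)
  have hX0r : (X0 : ℝ) ≤ 2 * m * √Y := by
    have h1 : (s : ℝ) ≤ √Y := Real.nat_sqrt_le_real_sqrt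
    have h2 : (1 : ℝ) ≤ s := by exact_mod_cast hs1
    rw [hX0]
    push_cast
    nlinarith
  have hlogX : Real.log X0 ≤ Real.log (2 * m) + Real.log Y / 2 := by
    have h1 := Real.log_le_log (by exact_mod_cast hX0pos) hX0r
    rw [Real.log_mul (by positivity) (by positivity), Real.log_sqrt hY0.le] at h1
    exact h1
  have hXY : X0 ≤ Y := by
    have h1 : Real.log X0 ≤ Real.log Y := by
      have := (log_facts hY).1
      linarith
    have h2 := (Real.log_le_log_iff (by exact_mod_cast hX0pos) hY0).1 h1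
    exact_mod_cast h2
  have hd : 1 ≤ Y / X0 := (Nat.one_le_div_iff hX0pos).2 hXY
  refine ⟨X0, Nat.log 2 (Y / X0), hX0pos, ?_, ?_, ?_⟩
  · rw [hX0]
    calc m ^ 2 * Y ≤ m ^ 2 * ((s + 1) * (s + 1)) := Nat.mul_le_mul_left _ hsY'.le
      _ = (m * (s + 1)) ^ 2 := by ring
  · calc 2 ^ Nat.log 2 (Y / X0) * X0 ≤ (Y / X0) * X0 :=
          Nat.mul_le_mul_right _ (Nat.pow_log_le_self 2 (by omega))
      _ ≤ Y := Nat.div_mul_le_self _ _
  · have h1 : Y / X0 < 2 ^ (Nat.log 2 (Y / X0) + 1) := Nat.lt_pow_succ_log_self (by norm_num) _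
    have h2 : Y ≤ 2 ^ (Nat.log 2 (Y / X0) + 1) * X0 := by
      have h3 : Y < (Y / X0 + 1) * X0 := by
        rw [mul_comm]
        exact Nat.lt_mul_div_succ Y hX0pos
      exact h3.le.trans (Nat.mul_le_mul_right _ h1)
    have h3 : Real.log Y ≤ ((Nat.log 2 (Y / X0) + 1 : ℕ) : ℝ) * Real.log 2 + Real.log X0 := by
      have hX0r0 : (X0 : ℝ) ≠ 0 := by
        have : (0 : ℝ) < X0 := by exact_mod_cast hX0pos
        exact this.ne'
      rw [← Real.log_pow, ← Real.log_mul (by positivity) hX0r0]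
      apply Real.log_le_log hY0
      exact_mod_cast h2
    have h4 := Real.log_two_lt_d9
    push_cast at h3
    have h5 : (0 : ℝ) ≤ (Nat.log 2 (Y / X0) : ℝ) := by positivity
    nlinarith

/-- **the sum over one class**, main term. -/
theorem class_sum {Y m : ℕ} {κ : ℝ} (hκ : 0 < κ) (hY : 16 ≤ Y) (hm : 1 ≤ m)
    (h : 4 * (Real.log (2 * m) + 1) ≤ Real.log Y)
    {P : ℕ → Prop} [DecidablePred P]
    (h10 : ∀ X : ℕ, m ^ 2 * Y ≤ X ^ 2 → κ / m * X ≤ (((Ioc X (2 * X)).filter P).card : ℝ)) :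
    κ * Real.log Y / 8 / m ≤ ∑ n ∈ (Icc 1 Y).filter P, (1 : ℝ) / n := by
  obtain ⟨X0, J, h1, h2, h3, h4⟩ := X0_facts hY hm h
  have hm0 : (0 : ℝ) < m := by exact_mod_cast hm
  have hd := dyadic (P := P) (κ := κ / m) h1
    (fun X hX => h10 X (h2.trans (Nat.pow_le_pow_left hX 2))) J
  refine le_trans ?_ (hd.trans (sum_le_sum_of_subset_of_nonneg ?_ fun _ _ _ => by positivity))
  · calc κ * Real.log Y / 8 / m = κ / m / 2 * (Real.log Y / 4) := by
          field_simp
          ring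
      _ ≤ κ / m / 2 * J := mul_le_mul_of_nonneg_left h4 (by positivity)
  · intro n hn
    have h5 := mem_filter.1 hn
    have h6 := mem_Ioc.1 h5.1
    exact mem_filter.2 ⟨mem_Icc.2 ⟨by omega, h6.2.trans h3⟩, h5.2⟩

/-- **the sum over `u`.** -/
theorem u_sum {Y z m ρ b c : ℕ} {κ : ℝ} (hκ : 0 < κ) (hY : 16 ≤ Y) (hz : 1 ≤ z) (hm : 1 ≤ m)
    (hc : 1 ≤ c) (hcY : c ≤ Y)
    (h : 4 * (Real.log (2 * m) + 1) ≤ Real.log Y)
    {P : ℕ → Prop} [DecidablePred P] (hP : ∀ n, P n ↔ n % m = ρ % m ∧ Rough z n)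
    (h10 : ∀ X : ℕ, m ^ 2 * Y ≤ X ^ 2 → κ / m * X ≤ (((Ioc X (2 * X)).filter P).card : ℝ))
    (hb : badMass Y z b ≤ κ / (64 * m)) (hbig : 4 * Real.log Y ^ 2 / z ≤ κ * Real.log Y / (32 * m)) :
    κ * Real.log Y / 16 / m ≤
      ∑ n ∈ (Icc 1 Y).filter (fun n => P n ∧ n.Coprime c ∧ n.Coprime b), (1 : ℝ) / n := by
  classical
  have hm0 : (0 : ℝ) < m := by exact_mod_cast hm
  have hz0 : (0 : ℝ) < z := by exact_mod_cast hz
  obtain ⟨hL, _⟩ := log_facts hY
  have hmain := class_sum hκ hY hm h h10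
  set S := (Icc 1 Y).filter P with hS
  have hSm : ∀ a ∈ S, 1 ≤ a ∧ a ≤ Y ∧ Rough z a := by
    intro a ha
    have h1 := mem_filter.1 ha
    have h2 := mem_Icc.1 h1.1
    exact ⟨h2.1, h2.2, ((hP a).1 h1.2).2⟩
  have hrem : ∀ d : ℕ, ∑ a ∈ S.filter (fun a => ¬ a.Coprime d), (1 : ℝ) / a ≤
      badMass Y z d * (1 + Real.log Y) := by
    intro d
    have h1 := gcd_removal (Y := Y) (z := z) (u := 1) (d := d) (B := Y) le_rfl S
      (fun a ha => (hSm a ha).2.1) (fun a _ a' _ => Nat.modEq_one)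
      (fun q hq _ _ _ => ⟨Nat.coprime_one_left q, fun a ha hqa => by
        rw [one_mul]
        exact Nat.le_of_dvd (hSm a ha).1 hqa⟩)
      (fun a ha had => by
        obtain ⟨q, hq, h2, h3⟩ := Nat.Prime.not_coprime_iff_dvd.1 had
        exact ⟨q, hq, (hSm a ha).2.2 q hq h2, (Nat.le_of_dvd (hSm a ha).1 h2).trans (hSm a ha).2.1,
          h3, h2⟩)
    simpa using h1
  have hsplit : ∑ a ∈ S, (1 : ℝ) / a ≤
      ∑ n ∈ (Icc 1 Y).filter (fun n => P n ∧ n.Coprime c ∧ n.Coprime b), (1 : ℝ) / n +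
      ∑ a ∈ S.filter (fun a => ¬ a.Coprime c), (1 : ℝ) / a +
      ∑ a ∈ S.filter (fun a => ¬ a.Coprime b), (1 : ℝ) / a := by
    rw [hS, sum_filter, sum_filter, sum_filter, sum_filter, sum_filter, sum_filter,
      ← sum_add_distrib, ← sum_add_distrib]
    refine sum_le_sum fun a _ => ?_
    have hp : (0 : ℝ) ≤ 1 / a := by positivity
    by_cases h1 : P a
    · by_cases h2 : a.Coprime c
      · by_cases h3 : a.Coprime b
        · rw [if_pos h1, if_pos ⟨h1, h2, h3⟩, if_pos h1, if_pos h1, if_neg (not_not.2 h2),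
            if_neg (not_not.2 h3)]
          linarith
        · rw [if_pos h1, if_neg (fun h => h3 h.2.2), if_pos h1, if_pos h1, if_neg (not_not.2 h2),
            if_pos h3]
          linarith
      · rw [if_pos h1, if_neg (fun h => h2 h.2.1), if_pos h1, if_pos h1, if_pos h2]
        have : (0 : ℝ) ≤ if ¬ a.Coprime b then (1 : ℝ) / a else 0 := by split_ifs <;> positivity
        linarith
    · rw [if_neg h1, if_neg (fun h => h1 h.1), if_neg h1, if_neg h1]
      linarith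
  have hr1 := hrem c
  have hr2 := hrem b
  have hbm := badMass_le (z := z) hz hc hcY
  have h5 : badMass Y z c * (1 + Real.log Y) ≤ κ * Real.log Y / (32 * m) := by
    refine le_trans ?_ hbig
    calc badMass Y z c * (1 + Real.log Y) ≤ 2 * Real.log Y / z * (2 * Real.log Y) := by
          apply mul_le_mul hbm _ (by positivity) (by positivity)
          linarith
      _ = 4 * Real.log Y ^ 2 / z := by
          field_simp
          ring
  have h6 : badMass Y z b * (1 + Real.log Y) ≤ κ * Real.log Y / (32 * m) := by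
    calc badMass Y z b * (1 + Real.log Y) ≤ κ / (64 * m) * (2 * Real.log Y) := by
          apply mul_le_mul hb _ (by positivity) (by positivity)
          linarith
      _ = κ * Real.log Y / (32 * m) := by
          field_simp
          ring
  have e : κ * Real.log Y / 8 / m = κ * Real.log Y / 16 / m + κ * Real.log Y / (32 * m) +
      κ * Real.log Y / (32 * m) := by
    field_simp
    ring
  linarith

end R11P

open R11P

/-- **Row R11.** -/
theorem r11 : R11 := by
  classical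
  intro h10 m B hm
  obtain ⟨c0, C0, Y00, hc0, hC0, hY00, h⟩ := h10 B
  have hm0 : (0 : ℝ) < m := by exact_mod_cast hm
  obtain ⟨T0, hT0⟩ : ∃ T0 : ℝ, ∀ T : ℝ, T0 ≤ T → 128 * m * Real.log T ^ C0 ≤ c0 * T := by
    have h1 := (isLittleO_log_rpow_rpow_atTop (s := 1) C0 one_pos).bound
      (show (0 : ℝ) < c0 / (128 * m) by positivity)
    obtain ⟨T0, h2⟩ := Filter.eventually_atTop.1 (h1.and (Filter.eventually_ge_atTop (1 : ℝ)))
    refine ⟨T0, fun T hT => ?_⟩
    obtain ⟨h3, h4⟩ := h2 T hT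
    rw [Real.rpow_one, Real.norm_eq_abs, Real.norm_eq_abs,
      abs_of_nonneg (Real.rpow_nonneg (Real.log_nonneg h4) _), abs_of_nonneg (by linarith)] at h3
    calc 128 * m * Real.log T ^ C0 ≤ 128 * m * (c0 / (128 * m) * T) := by gcongr
      _ = c0 * T := by field_simp
  refine ⟨min (c0 / (64 * m)) (c0 ^ 3 / (1024 * m)), C0 * 3,
    max (max Y00 (Real.exp T0)) (Real.exp (4 * (Real.log (2 * m) + 1))), by positivity,
    by positivity, (hY00.trans (le_max_left _ _)).trans (le_max_left _ _), ?_⟩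
  intro Y z b ρ hY hz hzB hρ hbad
  have hY1 : Y00 ≤ Y := ((le_max_left _ _).trans (le_max_left _ _)).trans hY
  have hY16 : 16 ≤ Y := by exact_mod_cast hY00.trans hY1
  obtain ⟨hL, hLL⟩ := log_facts hY16
  set T := Real.log Y with hT
  have hYpos : (0 : ℝ) < Y := by
    have : 0 < Y := by omega
    exact_mod_cast this
  have hT1 : T0 ≤ T := by
    have h1 : Real.exp T0 ≤ Y := ((le_max_right _ _).trans (le_max_left _ _)).trans hY
    exact (Real.le_log_iff_exp_le hYpos).2 h1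
  have hT2 : 4 * (Real.log (2 * m) + 1) ≤ T :=
    (Real.le_log_iff_exp_le hYpos).2 ((le_max_right _ _).trans hY)
  set κ := c0 / Real.log T ^ C0 with hκ
  have hlp : (0 : ℝ) < Real.log T ^ C0 := Real.rpow_pos_of_pos (by linarith) _
  have hκ0 : 0 < κ := div_pos hc0 hlp
  have hκT : 128 * m ≤ κ * T := by
    have h1 := hT0 T hT1
    rw [hκ, div_mul_eq_mul_div, le_div_iff₀ hlp]
    exact h1
  have hz1 : 1 ≤ z := by
    have h1 : (1 : ℝ) ≤ T ^ 20 := one_le_pow₀ (by linarith)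
    exact_mod_cast h1.trans hz
  have hz0 : (0 : ℝ) < z := by exact_mod_cast hz1
  have hT2z : T ^ 2 / z ≤ 1 := by
    rw [div_le_one hz0]
    refine le_trans ?_ hz
    exact pow_le_pow_right₀ (by linarith) (by norm_num)
  have hm1 : (1 : ℝ) ≤ m := by exact_mod_cast hm
  have hbig1 : 16 * T ^ 2 / z ≤ κ * T / 8 := by
    rw [mul_div_assoc]
    linarith
  have hbig2 : 4 * T ^ 2 / z ≤ κ * T / (32 * m) := by
    rw [mul_div_assoc, le_div_iff₀ (by positivity)]
    nlinarith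
  -- R10 in the form used
  have h10' : ∀ q α X : ℕ, 1 ≤ q → α.Coprime q → q ^ 2 * Y ≤ X ^ 2 → κ / q * X ≤
      (((Ioc X (2 * X)).filter (fun n => n % q = α % q ∧ Rough z n)).card : ℝ) := by
    intro q α X hq hα hX
    have h1 := h Y z q α X hY1 hzB hq hα hX
    have hq0 : (0 : ℝ) < q := by exact_mod_cast hq
    have h2 : κ / q * X = c0 * X / (q * Real.log (Real.log Y) ^ C0) := by
      rw [hκ, ← hT]
      field_simp
    rw [h2]
    convert h1
  have hbadb : badMass Y z b ≤ κ / (64 * m) := by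
    refine hbad.trans ?_
    have h1 : Real.log T ^ C0 ≤ Real.log T ^ (C0 * 3) :=
      Real.rpow_le_rpow_of_exponent_le hLL (by linarith)
    calc min (c0 / (64 * m)) (c0 ^ 3 / (1024 * m)) / Real.log T ^ (C0 * 3)
        ≤ c0 / (64 * m) / Real.log T ^ C0 :=
          div_le_div₀ (by positivity) (min_le_left _ _) hlp h1
      _ = κ / (64 * m) := by
          rw [hκ]
          field_simp
  -- the sum over c
  have hcsum : κ * T / 8 ≤ ∑ c ∈ (Icc 1 Y).filter (fun n => Rough z n), (1 : ℝ) / c := by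
    have h1 := class_sum (Y := Y) (m := 1) (κ := κ) hκ0 hY16 le_rfl
      (by
        have : Real.log (2 * (1 : ℕ)) ≤ Real.log (2 * m) := by
          apply Real.log_le_log (by norm_num)
          push_cast
          linarith
        linarith)
      (P := fun n => Rough z n)
      (fun X hX => by
        have h2 := h10' 1 0 X le_rfl (by simp) hX
        simpa [Nat.mod_one] using h2)
    simpa using h1
  -- the inner double sum
  have hinner : ∀ c ∈ (Icc 1 Y).filter (fun n => Rough z n),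
      (κ * T / 8) * (κ * T / 16 / m) * (1 / c) ≤
      ∑ u ∈ Icc 1 Y, ∑ a ∈ Ioc (Y ^ 6) (Y ^ 7),
        (if (Rough z u ∧ Rough z a ∧ Rough z c ∧ Nat.Coprime a c ∧ Nat.Coprime u (a * c) ∧
          u ∣ c * b + a) ∧ u % m = ρ % m then (1 : ℝ) / ((a * c : ℕ) : ℝ) else 0) := by
    intro c hc
    have hc1 := mem_filter.1 hc
    have hc2 := mem_Icc.1 hc1.1
    have hc0' : (0 : ℝ) < c := by exact_mod_cast hc2.1
    have husum := u_sum (Y := Y) (z := z) (m := m) (ρ := ρ) (b := b) (c := c) hκ0 hY16 hz1 hm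
      hc2.1 hc2.2 hT2 (P := fun n => n % m = ρ % m ∧ Rough z n) (fun n => Iff.rfl)
      (fun X hX => h10' m ρ X hm hρ hX) hbadb hbig2
    set U := (Icc 1 Y).filter (fun n => (n % m = ρ % m ∧ Rough z n) ∧ n.Coprime c ∧ n.Coprime b)
      with hU
    have hUsub : U ⊆ Icc 1 Y := filter_subset _ _
    refine le_trans ?_ (sum_le_sum_of_subset_of_nonneg hUsub fun u _ _ =>
      sum_nonneg fun a _ => by split_ifs <;> positivity)
    have hu : ∀ u ∈ U, (κ * T / 8) * (1 / c) * (1 / u) ≤ ∑ a ∈ Ioc (Y ^ 6) (Y ^ 7),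
        (if (Rough z u ∧ Rough z a ∧ Rough z c ∧ Nat.Coprime a c ∧ Nat.Coprime u (a * c) ∧
          u ∣ c * b + a) ∧ u % m = ρ % m then (1 : ℝ) / ((a * c : ℕ) : ℝ) else 0) := by
      intro u hu
      have hu1 := mem_filter.1 hu
      have hu2 := mem_Icc.1 hu1.1
      obtain ⟨⟨hum, hur⟩, huc, hub⟩ := hu1.2
      have hu0 : (0 : ℝ) < u := by exact_mod_cast hu2.1
      have has := a_sum (Y := Y) (z := z) (b := b) (u := u) (c := c) hκ0 hY16 hz1 hu2.1 hu2.2
        hc2.1 hc2.2 huc hub hc1.2 (P := fun α n => n % u = α % u ∧ Rough z n)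
        (fun α n => Iff.rfl) (fun α X hα hX => h10' u α X hu2.1 hα hX) hbig1
        (G := fun a => (Rough z u ∧ Rough z a ∧ Rough z c ∧ Nat.Coprime a c ∧
          Nat.Coprime u (a * c) ∧ u ∣ c * b + a) ∧ u % m = ρ % m)
        (fun a h1 h2 h3 h4 => ⟨⟨hur, h4, hc1.2, h1, h2, h3⟩, hum⟩)
      rw [← sum_filter]
      calc (κ * T / 8) * (1 / c) * (1 / u) = (1 / (c : ℝ)) * (κ * T / 8 / u) := by
            field_simp
        _ ≤ (1 / (c : ℝ)) * _ := mul_le_mul_of_nonneg_left has (by positivity)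
        _ = _ := by
            rw [mul_sum]
            refine sum_congr rfl fun a _ => ?_
            push_cast
            rw [one_div_mul_one_div, mul_comm]
    refine le_trans ?_ (sum_le_sum hu)
    rw [← mul_sum]
    calc (κ * T / 8) * (κ * T / 16 / m) * (1 / c) = (κ * T / 8) * (1 / c) * (κ * T / 16 / m) := by
          ring
      _ ≤ (κ * T / 8) * (1 / c) * _ := mul_le_mul_of_nonneg_left husum (by positivity)
  -- the triple sum
  have htriple : ∑ t ∈ (TT Y z b).filter (fun t => t.1 % m = ρ % m), (1 : ℝ) / rr t =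
      ∑ c ∈ Icc 1 Y, ∑ u ∈ Icc 1 Y, ∑ a ∈ Ioc (Y ^ 6) (Y ^ 7),
        (if (Rough z u ∧ Rough z a ∧ Rough z c ∧ Nat.Coprime a c ∧ Nat.Coprime u (a * c) ∧
          u ∣ c * b + a) ∧ u % m = ρ % m then (1 : ℝ) / ((a * c : ℕ) : ℝ) else 0) := by
    rw [TT, filter_filter, sum_filter, sum_product]
    simp_rw [sum_product]
    rw [sum_comm' (s := Icc 1 Y) (t := fun _ => Icc 1 Y) (s' := fun _ => Icc 1 Y) (t' := Icc 1 Y)
      (by simp [and_comm])]
    refine sum_congr rfl fun u _ => ?_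
    rw [sum_comm]
    refine sum_congr rfl fun c _ => sum_congr rfl fun a _ => ?_
    simp only [rr]
  rw [htriple]
  have hsub : (Icc 1 Y).filter (fun n => Rough z n) ⊆ Icc 1 Y := filter_subset _ _
  refine le_trans ?_ (sum_le_sum_of_subset_of_nonneg hsub fun c _ _ =>
    sum_nonneg fun u _ => sum_nonneg fun a _ => by split_ifs <;> positivity)
  refine le_trans ?_ (sum_le_sum hinner)
  rw [← mul_sum]
  refine le_trans ?_ (mul_le_mul_of_nonneg_left hcsum (by positivity))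
  have e3 : Real.log T ^ (C0 * 3) = (Real.log T ^ C0) ^ 3 := by
    rw [Real.rpow_mul (by linarith)]
    norm_cast
  rw [e3]
  calc min (c0 / (64 * m)) (c0 ^ 3 / (1024 * m)) * T ^ 3 / (Real.log T ^ C0) ^ 3
      ≤ c0 ^ 3 / (1024 * m) * T ^ 3 / (Real.log T ^ C0) ^ 3 := by
        gcongr
        exact min_le_right _ _
    _ = (κ * T / 8) * (κ * T / 16 / m) * (κ * T / 8) := by
        rw [hκ]
        field_simp
        ring

end ES
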