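import Pool.Agent.Lib.ES.Defs

/-! Row R12: few bad `b`. -/

open Finset
open scoped BigOperators

namespace ES
namespace Bad

/-- primes of `(z, Y]` -/
def PZ (z Y : ℕ) : Finset ℕ := (Ioc z Y).filter Nat.Prime

lemma prod_le (z Y : ℕ) : ∏ q ∈ PZ z Y, (1 + (1 : ℝ) / q) ≤ Y + 1 := by
  induction Y with
  | zero => simp [PZ]
  | succ Y ih =>
    have hY : (0 : ℝ) ≤ Y := Nat.cast_nonneg Y
    by_cases hz : z ≤ Y
    · have e : Ioc z (Y + 1) = insert (Y + 1) (Ioc z Y) :=
        (Finset.insert_Ioc_right_eq_Ioc_add_one hz).symm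
      unfold PZ at ih ⊢
      rw [e, filter_insert]
      split_ifs with hp
      · rw [prod_insert (by simp)]
        push_cast
        calc (1 + 1 / ((Y : ℝ) + 1)) * ∏ q ∈ (Ioc z Y).filter Nat.Prime, (1 + (1 : ℝ) / q) ≤
            (1 + 1 / ((Y : ℝ) + 1)) * (Y + 1) := by gcongr
          _ = (Y : ℝ) + 1 + 1 := by field_simp
      · push_cast; linarith
    · have e : PZ z (Y + 1) = ∅ := by
        unfold PZ
        rw [Ioc_eq_empty (by omega)]; rfl
      rw [e]; push_cast; simp; linarith

lemma card_dvd_range (N d : ℕ) (hd : d ∣ N) :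
    (((range N).filter (fun b => d ∣ b)).card : ℝ) ≤ (N : ℝ) * (1 / d) := by
  obtain ⟨m, rfl⟩ := hd
  rcases Nat.eq_zero_or_pos d with h0 | h0
  · subst h0; simp
  · have h1 : ((range (d * m)).filter (fun b => d ∣ b)) ⊆ (range m).image (fun j => d * j) := by
      intro b hb
      obtain ⟨hb1, j, rfl⟩ := mem_filter.1 hb
      rw [mem_range] at hb1
      rw [mem_image]
      exact ⟨j, mem_range.2 (lt_of_mul_lt_mul_left hb1 (Nat.zero_le d)), rfl⟩
    have h2 : ((range (d * m)).filter (fun b => d ∣ b)).card ≤ m := by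
      refine (card_le_card h1).trans (card_image_le.trans ?_)
      simp
    have hdR : (0 : ℝ) < d := by exact_mod_cast h0
    have e : ((d * m : ℕ) : ℝ) * (1 / d) = m := by push_cast; field_simp
    rw [e]; exact_mod_cast h2

end Bad

open Bad in
theorem r12 : R12 := by
  intro Y z δ hz hδ
  classical
  set Q : ℕ → Finset ℕ := fun b => (PZ z Y).filter (fun q => q ∣ b) with hQ
  have hzR : (0 : ℝ) < z := by exact_mod_cast (by omega : 0 < z)
  have h1 : ∀ b, badMass Y z b ≤ (Q b).card / z := by
    intro b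
    unfold badMass
    have e : (Ioc z Y).filter (fun q => q.Prime ∧ q ∣ b) = Q b := by
      simp only [hQ, PZ, filter_filter]
    rw [e, div_eq_mul_one_div, ← nsmul_eq_mul]
    apply sum_le_card_nsmul
    intro q hq
    have hq' := mem_Ioc.1 (mem_filter.1 (mem_filter.1 hq).1).1
    have : (z : ℝ) ≤ q := by exact_mod_cast hq'.1.le
    gcongr
  have h2 : ∀ b, δ < badMass Y z b → (2 : ℝ) ^ (δ * z) ≤ (2 : ℝ) ^ (Q b).card := by
    intro b hb
    rw [← Real.rpow_natCast]
    apply Real.rpow_le_rpow_of_exponent_le (by norm_num)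
    have h3 := hb.le.trans (h1 b)
    rwa [le_div_iff₀ hzR] at h3
  have h3 : ∑ b ∈ range Y.factorial, (2 : ℝ) ^ (Q b).card ≤ Y.factorial * (Y + 1) := by
    have e1 : ∀ b, (2 : ℝ) ^ (Q b).card =
        ∑ D ∈ (PZ z Y).powerset, if (∏ q ∈ D, q) ∣ b then (1 : ℝ) else 0 := by
      intro b
      have e2 : (Q b).powerset = (PZ z Y).powerset.filter (fun D => (∏ q ∈ D, q) ∣ b) := by
        ext D
        rw [mem_powerset, mem_filter, mem_powerset]
        constructor
        · intro h
          refine ⟨fun q hq => (mem_filter.1 (h hq)).1, ?_⟩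
          apply Finset.prod_primes_dvd
          · intro q hq
            exact (mem_filter.1 (mem_filter.1 (h hq)).1).2.prime
          · intro q hq
            exact (mem_filter.1 (h hq)).2
        · rintro ⟨h, h'⟩ q hq
          exact mem_filter.2 ⟨h hq, (dvd_prod_of_mem _ hq).trans h'⟩
      rw [← sum_filter, ← e2, sum_const, card_powerset, nsmul_eq_mul, mul_one]
      push_cast; rfl
    simp only [e1]
    rw [sum_comm]
    calc ∑ D ∈ (PZ z Y).powerset, ∑ b ∈ range Y.factorial,
          (if (∏ q ∈ D, q) ∣ b then (1 : ℝ) else 0)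
        ≤ ∑ D ∈ (PZ z Y).powerset, (Y.factorial : ℝ) * ∏ q ∈ D, ((1 : ℝ) / q) := by
          apply sum_le_sum
          intro D hD
          have hD' := mem_powerset.1 hD
          rw [← sum_filter, sum_const, nsmul_eq_mul, mul_one]
          have hdv : (∏ q ∈ D, q) ∣ Y.factorial := by
            apply Finset.prod_primes_dvd
            · intro q hq
              exact (mem_filter.1 (hD' hq)).2.prime
            · intro q hq
              have h5 := mem_filter.1 (hD' hq)
              exact (Nat.Prime.dvd_factorial h5.2).2 (mem_Ioc.1 h5.1).2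
          have h6 := card_dvd_range Y.factorial (∏ q ∈ D, q) hdv
          refine h6.trans (le_of_eq ?_)
          congr 1
          rw [Nat.cast_prod, one_div, ← prod_inv_distrib]
          exact prod_congr rfl fun q _ => by rw [one_div]
      _ = Y.factorial * ∏ q ∈ PZ z Y, (1 + (1 : ℝ) / q) := by
          rw [← mul_sum, ← prod_one_add]
      _ ≤ _ := by
          have := prod_le z Y
          gcongr
  have h4 : (((range Y.factorial).filter (fun b => δ < badMass Y z b)).card : ℝ) *
      (2 : ℝ) ^ (δ * z) ≤ ∑ b ∈ range Y.factorial, (2 : ℝ) ^ (Q b).card := by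
    rw [← nsmul_eq_mul]
    calc _ ≤ ∑ b ∈ (range Y.factorial).filter (fun b => δ < badMass Y z b),
          (2 : ℝ) ^ (Q b).card := by
          apply card_nsmul_le_sum
          intro b hb
          exact h2 b (mem_filter.1 hb).2
      _ ≤ _ := sum_le_sum_of_subset_of_nonneg (filter_subset _ _) (fun _ _ _ => by positivity)
  rw [Real.rpow_neg (by norm_num), ← div_eq_mul_inv, le_div_iff₀ (by positivity)]
  exact h4.trans h3

end ES
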