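import Pool.Agent.Lib.ES.Defs

/-!
# R13: blocks of primes
-/

open Finset

namespace ES

/-- theta at a natural number -/
noncomputable def th13 (n : ℕ) : ℝ := Chebyshev.theta (n : ℝ)

theorem th13_eq (n : ℕ) : th13 n = ∑ p ∈ (Ioc 0 n).filter (fun p => p.Prime), Real.log p := by
  rw [th13, Chebyshev.theta]
  simp

theorem th13_mono {a b : ℕ} (h : a ≤ b) : th13 a ≤ th13 b :=
  Chebyshev.theta_mono (by exact_mod_cast h)

theorem R13_theta {y1 y2 : ℕ} (h : y1 ≤ y2) : thetaAP y1 y2 1 0 = th13 y2 - th13 y1 := by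
  rw [th13_eq, th13_eq, thetaAP]
  have h1 : (Ioc 0 y2).filter (fun p => p.Prime) =
      (Ioc 0 y1).filter (fun p => p.Prime) ∪
        (Ioc y1 y2).filter (fun p => p.Prime ∧ p % 1 = 0 % 1) := by
    ext p
    simp only [mem_filter, mem_union, mem_Ioc, Nat.mod_one, and_true]
    constructor
    · rintro ⟨⟨h1, h2⟩, h3⟩
      rcases le_or_gt p y1 with h4 | h4
      · exact Or.inl ⟨⟨h1, h4⟩, h3⟩
      · exact Or.inr ⟨⟨h4, h2⟩, h3⟩
    · rintro (⟨⟨h1, h2⟩, h3⟩ | ⟨⟨h1, h2⟩, h3⟩)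
      · exact ⟨⟨h1, h2.trans h⟩, h3⟩
      · exact ⟨⟨by omega, h2⟩, h3⟩
  have h2 : Disjoint ((Ioc 0 y1).filter (fun p => p.Prime))
      ((Ioc y1 y2).filter (fun p => p.Prime ∧ p % 1 = 0 % 1)) := by
    rw [Finset.disjoint_left]
    intro p hp hq
    rw [mem_filter, mem_Ioc] at hp hq
    omega
  rw [h1, sum_union h2]
  ring

theorem th13_succ (n : ℕ) : th13 (n + 1) ≤ th13 n + Real.log (n + 1 : ℕ) := by
  have h := R13_theta (Nat.le_succ n)
  have h1 : thetaAP n (n + 1) 1 0 ≤ Real.log (n + 1 : ℕ) := by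
    rw [thetaAP]
    calc ∑ p ∈ (Ioc n (n + 1)).filter (fun p => p.Prime ∧ p % 1 = 0 % 1), Real.log p
        ≤ ∑ p ∈ Ioc n (n + 1), Real.log p :=
          sum_le_sum_of_subset_of_nonneg (filter_subset _ _)
            (fun i _ _ => Real.log_natCast_nonneg i)
      _ = Real.log (n + 1 : ℕ) := by
          have : Ioc n (n + 1) = {n + 1} := by
            ext p
            simp only [mem_Ioc, mem_singleton]
            omega
          rw [this, sum_singleton]
  linarith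

/-- greedy cutting of `[A, B]` -/
theorem R13_cut (g : ℕ → ℝ) (hg : ∀ a b, a ≤ b → g a ≤ g b) {A B K : ℕ} (hAB : A ≤ B) {T D : ℝ}
    (hT : 0 ≤ T) (hD : 0 ≤ D) (hK : g B - g A ≤ K * T)
    (hj : ∀ n, n + 1 ≤ B → g (n + 1) ≤ g n + D) :
    ∃ t : ℕ → ℕ, Monotone t ∧ (∀ j, A ≤ t j) ∧ (∀ j, t j ≤ B) ∧ g (t 0) = g A ∧ t K = B ∧
      ∀ j, g (t (j + 1)) - g (t j) ≤ T + D := by
  classical
  let t : ℕ → ℕ := fun j => Nat.findGreatest (fun n => g n - g A ≤ j * T) B
  have hA : ∀ j : ℕ, g A - g A ≤ j * T := fun j => by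
    rw [sub_self]
    positivity
  have h1 : ∀ j, A ≤ t j := fun j => Nat.le_findGreatest hAB (hA j)
  have h2 : ∀ j, t j ≤ B := fun j => Nat.findGreatest_le B
  have hs : ∀ j : ℕ, g (t j) - g A ≤ j * T := fun j =>
    Nat.findGreatest_spec (P := fun n => g n - g A ≤ j * T) hAB (hA j)
  have hm : Monotone t := by
    apply monotone_nat_of_le_succ
    intro j
    refine Nat.le_findGreatest (h2 j) ?_
    have := hs j
    push_cast
    linarith
  have hK' : t K = B := le_antisymm (h2 K) (Nat.le_findGreatest le_rfl hK)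
  refine ⟨t, hm, h1, h2, ?_, hK', ?_⟩
  · have h3 := hs 0
    have h4 := hg _ _ (h1 0)
    simp only [Nat.cast_zero, zero_mul] at h3
    linarith
  · intro j
    rcases (h2 j).lt_or_eq with h3 | h3
    · have h4 : ¬ (g (t j + 1) - g A ≤ j * T) :=
        Nat.findGreatest_is_greatest (P := fun n => g n - g A ≤ j * T) (Nat.lt_succ_self _) h3
      have h5 := hs (j + 1)
      have h6 := hj (t j) h3
      push_cast at h5
      push Not at h4
      linarith
    · have h4 : t (j + 1) = B := le_antisymm (h2 _) (h3 ▸ hm (Nat.le_succ j))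
      rw [h4, h3, sub_self]
      positivity

theorem sum_mul13 (f : ℕ → ℝ) (a K : ℕ) :
    ∑ i ∈ range (a * K), f i = ∑ s ∈ range a, ∑ j ∈ range K, f (s * K + j) := by
  induction a with
  | zero => simp
  | succ a ih => rw [Nat.succ_mul, sum_range_add, ih, sum_range_succ]

theorem sum_blk13 (g : ℕ → ℝ) (K : ℕ) : ∑ j ∈ range K, (g (j + 1) - g j) = g K - g 0 :=
  sum_range_sub g K

theorem pow13 (s : ℕ) (hs : 20 ≤ s) : 400 * (s + 3) ^ 2 ≤ 2 ^ s := by
  induction s, hs using Nat.le_induction with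
  | base => norm_num
  | succ s hs ih =>
    rw [pow_succ 2 s]
    nlinarith

/-- two neighbouring dyadic intervals contain many primes -/
theorem th13_low (s : ℕ) (hs : 20 ≤ s) :
    (2 : ℝ) ^ s ≤ th13 (2 ^ (s + 2)) - th13 (2 ^ s) := by
  have h1 := Chebyshev.theta_ge (2 ^ (s + 2))
  have h2 := Chebyshev.theta_le_log4_mul_x (x := ((2 ^ s : ℕ) : ℝ)) (by positivity)
  have hl4 : Real.log 4 = 2 * Real.log 2 := by
    rw [show (4 : ℝ) = 2 ^ 2 by norm_num, Real.log_pow]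
    norm_num
  have hl2 := Real.log_two_gt_d9
  have hl2' := Real.log_two_lt_d9
  set w := Real.sqrt ((2 : ℝ) ^ s) with hw
  have hw2 : w * w = 2 ^ s := Real.mul_self_sqrt (by positivity)
  have hw0 : 0 ≤ w := Real.sqrt_nonneg _
  have hws : 20 * ((s : ℝ) + 3) ≤ w := by
    apply Real.le_sqrt_of_sq_le
    have := pow13 s hs
    have h : (400 : ℝ) * (s + 3) ^ 2 ≤ 2 ^ s := by exact_mod_cast this
    nlinarith
  have hn : ((2 ^ (s + 2) : ℕ) : ℝ) = 4 * (w * w) := by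
    rw [hw2]
    push_cast
    ring
  have hsq : Real.sqrt ((2 ^ (s + 2) : ℕ) : ℝ) = 2 * w := by
    rw [hn, show 4 * (w * w) = (2 * w) * (2 * w) by ring]
    exact Real.sqrt_mul_self (by positivity)
  have hlog : Real.log ((2 ^ (s + 2) : ℕ) : ℝ) ≤ s + 2 := by
    push_cast
    rw [Real.log_pow]
    push_cast
    nlinarith [(Nat.cast_nonneg s : (0 : ℝ) ≤ s)]
  have hlog' : Real.log (((2 ^ (s + 2) : ℕ) : ℝ) + 1) ≤ s + 3 := by
    have h : (((2 ^ (s + 2) : ℕ) : ℝ) + 1) ≤ 2 ^ (s + 3) := by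
      have : 2 ^ (s + 2) + 1 ≤ 2 ^ (s + 3) := by
        have : 1 ≤ 2 ^ (s + 2) := Nat.one_le_two_pow
        rw [pow_succ 2 (s + 2)]
        omega
      exact_mod_cast this
    calc Real.log (((2 ^ (s + 2) : ℕ) : ℝ) + 1) ≤ Real.log (2 ^ (s + 3)) :=
          Real.log_le_log (by positivity) h
      _ = ((s + 3 : ℕ) : ℝ) * Real.log 2 := by rw [Real.log_pow]
      _ ≤ s + 3 := by
          push_cast
          nlinarith [(Nat.cast_nonneg s : (0 : ℝ) ≤ s)]
  rw [hsq] at h1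
  rw [hl4] at h2
  have h3 : 2 * (2 * w) * Real.log ((2 ^ (s + 2) : ℕ) : ℝ) ≤ 2 * (2 * w) * (s + 2) :=
    mul_le_mul_of_nonneg_left hlog (by positivity)
  have h4 : ((2 ^ s : ℕ) : ℝ) = w * w := by
    rw [hw2]
    push_cast
    ring
  have h5 : ((2 ^ (s + 2) : ℕ) : ℝ) * Real.log 2 = 4 * (w * w) * Real.log 2 := by rw [hn]
  have h6 : 0.6931 * (w * w) ≤ Real.log 2 * (w * w) :=
    mul_le_mul_of_nonneg_right (by linarith) (by positivity)
  have h7 : 20 * ((s : ℝ) + 3) * w ≤ w * w := mul_le_mul_of_nonneg_right hws hw0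
  have h8 : (1 : ℝ) ≤ w := by
    have : (0 : ℝ) ≤ s := Nat.cast_nonneg s
    linarith
  have h9 : ((s : ℝ) + 3) * 1 ≤ ((s : ℝ) + 3) * w :=
    mul_le_mul_of_nonneg_left h8 (by positivity)
  rw [← hw2]
  unfold th13
  rw [h5] at h1
  rw [h4] at h2 ⊢
  have h10 : (0 : ℝ) ≤ s := Nat.cast_nonneg s
  linarith

/-- the cutting of one dyadic interval -/
theorem R13_step {L : ℝ} (hL : 1 ≤ L) {K : ℕ} (hK : L ^ 2 ≤ K) {s : ℕ} (hs : 1 ≤ s)
    (hs1 : 80 * L ≤ Real.log ((2 ^ s : ℕ) : ℝ)) (hs2 : 2 * L ^ 3 ≤ ((2 ^ s : ℕ) : ℝ)) :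
    ∃ t : ℕ → ℕ, Monotone t ∧ (∀ j, 2 ^ s ≤ t j) ∧ (∀ j, t j ≤ 2 ^ (s + 1)) ∧
      th13 (t 0) = th13 (2 ^ s) ∧ t K = 2 ^ (s + 1) ∧
      ∀ j, th13 (t (j + 1)) - th13 (t j) ≤
        2 * (((2 ^ s : ℕ) : ℝ) * Real.log ((2 ^ s : ℕ) : ℝ) / L ^ 3) := by
  set x : ℝ := ((2 ^ s : ℕ) : ℝ) with hx
  have hx0 : 0 < x := by
    rw [hx]
    positivity
  have hL3 : 0 < L ^ 3 := by positivity
  have hlx : 0 < Real.log x := by linarith
  have hT : 0 ≤ x * Real.log x / L ^ 3 := by positivity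
  have hD : Real.log ((2 ^ (s + 1) : ℕ) : ℝ) ≤ x * Real.log x / L ^ 3 := by
    have h1 : Real.log ((2 ^ (s + 1) : ℕ) : ℝ) ≤ 2 * Real.log x := by
      rw [hx]
      push_cast
      rw [Real.log_pow, Real.log_pow]
      have h2 : (1 : ℝ) ≤ s := by exact_mod_cast hs
      have h3 := Real.log_pos (show (1 : ℝ) < 2 by norm_num)
      push_cast
      nlinarith
    have h4 : 2 * Real.log x ≤ x * Real.log x / L ^ 3 := by
      rw [le_div_iff₀ hL3]
      nlinarith
    exact h1.trans h4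
  have hD0 : 0 ≤ Real.log ((2 ^ (s + 1) : ℕ) : ℝ) := Real.log_natCast_nonneg _
  have hKT : th13 (2 ^ (s + 1)) - th13 (2 ^ s) ≤ K * (x * Real.log x / L ^ 3) := by
    have h1 := Chebyshev.theta_le_log4_mul_x (x := ((2 ^ (s + 1) : ℕ) : ℝ)) (by positivity)
    have h2 : 0 ≤ th13 (2 ^ s) := Chebyshev.theta_nonneg _
    have hl4 : Real.log 4 = 2 * Real.log 2 := by
      rw [show (4 : ℝ) = 2 ^ 2 by norm_num, Real.log_pow]
      norm_num
    have hl2' := Real.log_two_lt_d9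
    have h3 : ((2 ^ (s + 1) : ℕ) : ℝ) = 2 * x := by
      rw [hx]
      push_cast
      ring
    have h4 : th13 (2 ^ (s + 1)) ≤ 3 * x := by
      have : th13 (2 ^ (s + 1)) ≤ Real.log 4 * (2 * x) := by
        rw [← h3]
        exact h1
      rw [hl4] at this
      nlinarith
    have h5 : 3 * x ≤ K * (x * Real.log x / L ^ 3) := by
      have h6 : L ^ 2 * (x * (80 * L) / L ^ 3) ≤ K * (x * Real.log x / L ^ 3) := by
        apply mul_le_mul hK _ (by positivity) (by positivity)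
        apply div_le_div_of_nonneg_right _ hL3.le
        exact mul_le_mul_of_nonneg_left hs1 hx0.le
      have h7 : L ^ 2 * (x * (80 * L) / L ^ 3) = 80 * x := by
        have : L ≠ 0 := by positivity
        field_simp
      linarith
    linarith
  obtain ⟨t, h1, h2, h3, h4, h5, h6⟩ := R13_cut th13 (fun a b => th13_mono)
    (Nat.pow_le_pow_right (by norm_num) (Nat.le_succ s)) hT hD0 hKT (fun n hn => by
      refine (th13_succ n).trans ?_
      have : Real.log ((n + 1 : ℕ) : ℝ) ≤ Real.log ((2 ^ (s + 1) : ℕ) : ℝ) :=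
        Real.log_le_log (by positivity) (by exact_mod_cast hn)
      linarith)
  refine ⟨t, h1, h2, h3, h4, h5, fun j => ?_⟩
  have := h6 j
  linarith

theorem w13 (s0 a : ℕ) (hs0 : 20 ≤ s0) :
    ((a : ℝ) - 1) / 4 ≤
      ∑ i ∈ range a, (th13 (2 ^ (s0 + i + 1)) - th13 (2 ^ (s0 + i))) / 2 ^ (s0 + i) := by
  rcases a with _ | a
  · norm_num
  · set w : ℕ → ℝ := fun i => (th13 (2 ^ (s0 + i + 1)) - th13 (2 ^ (s0 + i))) / 2 ^ (s0 + i)
      with hw
    have hw0 : ∀ i, 0 ≤ w i := fun i => by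
      have := th13_mono (Nat.pow_le_pow_right (show 0 < 2 by norm_num) (Nat.le_succ (s0 + i)))
      rw [hw]
      have h : 0 ≤ th13 (2 ^ (s0 + i + 1)) - th13 (2 ^ (s0 + i)) := sub_nonneg.mpr this
      positivity
    have h1 : ∀ i, 1 / 2 ≤ w i + w (i + 1) := by
      intro i
      have h2 := th13_low (s0 + i) (by omega)
      have h3 : (0 : ℝ) < 2 ^ (s0 + i) := by positivity
      have h4 : w i * 2 ^ (s0 + i) = th13 (2 ^ (s0 + i + 1)) - th13 (2 ^ (s0 + i)) := by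
        rw [hw]
        exact div_mul_cancel₀ _ h3.ne'
      have h5 : w (i + 1) * (2 * 2 ^ (s0 + i)) =
          th13 (2 ^ (s0 + i + 2)) - th13 (2 ^ (s0 + i + 1)) := by
        rw [hw]
        have : (2 : ℝ) * 2 ^ (s0 + i) = 2 ^ (s0 + (i + 1)) := by ring
        rw [this]
        exact div_mul_cancel₀ _ (by positivity)
      have h6 : 1 ≤ w i + 2 * w (i + 1) := by
        by_contra h
        push Not at h
        nlinarith
      have := hw0 i
      linarith
    have h2 := sum_range_succ w a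
    have h3 := sum_range_succ' w a
    have h4 : ∑ i ∈ range a, (1 / 2 : ℝ) ≤ ∑ i ∈ range a, (w i + w (i + 1)) :=
      sum_le_sum (fun i _ => h1 i)
    rw [sum_add_distrib, sum_const, card_range, nsmul_eq_mul] at h4
    have h5 := hw0 a
    have h6 := hw0 0
    push_cast
    linarith

theorem R13_proof : R13 := by
  refine ⟨1 / 2000, 4, 8, by norm_num, by norm_num, ?_⟩
  intro Y hY
  have hY8 : 8 ≤ Y := by exact_mod_cast hY
  have hY0 : Y ≠ 0 := by omega
  set L : ℝ := Real.log Y with hLdef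
  set a : ℕ := Nat.log 2 Y with ha
  set K : ℕ := ⌈L ^ 2⌉₊ with hKdef
  have hl2 := Real.log_two_gt_d9
  have hl2' := Real.log_two_lt_d9
  have hL : 1 ≤ L := by
    have h1 : Real.log (2 ^ 3) ≤ L := Real.log_le_log (by norm_num) (by norm_num; exact hY8)
    rw [Real.log_pow] at h1
    push_cast at h1
    linarith
  have ha1 : Y < 2 ^ (a + 1) := Nat.lt_pow_succ_log_self (by norm_num) Y
  have ha2 : 2 ^ a ≤ Y := Nat.pow_log_le_self 2 hY0
  have ha3 : 3 ≤ a := by
    by_contra h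
    have : 2 ^ (a + 1) ≤ 2 ^ 3 := Nat.pow_le_pow_right (by norm_num) (by omega)
    omega
  have haL : (a : ℝ) ≤ 2 * L := by
    have h1 : Real.log ((2 : ℝ) ^ a) ≤ L :=
      Real.log_le_log (by positivity) (by exact_mod_cast ha2)
    rw [Real.log_pow] at h1
    nlinarith [(Nat.cast_nonneg a : (0 : ℝ) ≤ a)]
  have hK : L ^ 2 ≤ K := Nat.le_ceil _
  have hK2 : (K : ℝ) ≤ 2 * L ^ 2 := by
    have h1 := (Nat.ceil_lt_add_one (show (0 : ℝ) ≤ L ^ 2 by positivity)).le
    have h2 : 1 ≤ L ^ 2 := one_le_pow₀ hL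
    linarith
  have hK0 : 0 < K := by
    have h2 : 1 ≤ L ^ 2 := one_le_pow₀ hL
    have : (0 : ℝ) < K := by linarith
    exact_mod_cast this
  have hYs : ∀ i, Y ^ 80 ≤ 2 ^ (80 * (a + 1) + i) := fun i => by
    calc Y ^ 80 ≤ (2 ^ (a + 1)) ^ 80 := Nat.pow_le_pow_left ha1.le _
      _ = 2 ^ (80 * (a + 1)) := by rw [← pow_mul, mul_comm]
      _ ≤ 2 ^ (80 * (a + 1) + i) := Nat.pow_le_pow_right (by norm_num) (by omega)
  have hYt : ∀ i, i < a → 2 ^ (80 * (a + 1) + i + 1) ≤ Y ^ 161 := fun i hi => by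
    calc 2 ^ (80 * (a + 1) + i + 1) ≤ 2 ^ (a * 161) :=
          Nat.pow_le_pow_right (by norm_num) (by omega)
      _ = (2 ^ a) ^ 161 := by rw [pow_mul]
      _ ≤ Y ^ 161 := Nat.pow_le_pow_left ha2 _
  have hLY : L ≤ Y := Real.log_le_self (Nat.cast_nonneg Y)
  have hs1 : ∀ i, 80 * L ≤ Real.log ((2 ^ (80 * (a + 1) + i) : ℕ) : ℝ) := fun i => by
    have h1 : Real.log ((Y ^ 80 : ℕ) : ℝ) ≤ Real.log ((2 ^ (80 * (a + 1) + i) : ℕ) : ℝ) :=
      Real.log_le_log (by positivity) (by exact_mod_cast hYs i)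
    have h2 : Real.log ((Y ^ 80 : ℕ) : ℝ) = 80 * L := by
      rw [Nat.cast_pow, Real.log_pow]
      norm_num [hLdef]
    linarith
  have hs2 : ∀ i, 2 * L ^ 3 ≤ ((2 ^ (80 * (a + 1) + i) : ℕ) : ℝ) := fun i => by
    have h1 : ((Y ^ 80 : ℕ) : ℝ) ≤ ((2 ^ (80 * (a + 1) + i) : ℕ) : ℝ) := by
      exact_mod_cast hYs i
    have h2 : 2 * L ^ 3 ≤ ((Y ^ 80 : ℕ) : ℝ) := by
      have h3 : L ^ 3 ≤ (Y : ℝ) ^ 3 := pow_le_pow_left₀ (by linarith) hLY 3
      have h4 : 2 * Y ^ 3 ≤ Y ^ 80 := by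
        calc 2 * Y ^ 3 ≤ Y * Y ^ 3 := Nat.mul_le_mul_right _ (by omega)
          _ = Y ^ 4 := by ring
          _ ≤ Y ^ 80 := Nat.pow_le_pow_right (by omega) (by norm_num)
      have h5 : (2 : ℝ) * Y ^ 3 ≤ ((Y ^ 80 : ℕ) : ℝ) := by exact_mod_cast h4
      linarith
    linarith
  have hex : ∀ i : ℕ, ∃ t : ℕ → ℕ, Monotone t ∧ (∀ j, 2 ^ (80 * (a + 1) + i) ≤ t j) ∧
      (∀ j, t j ≤ 2 ^ (80 * (a + 1) + i + 1)) ∧
      th13 (t 0) = th13 (2 ^ (80 * (a + 1) + i)) ∧ t K = 2 ^ (80 * (a + 1) + i + 1) ∧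
      ∀ j, th13 (t (j + 1)) - th13 (t j) ≤
        2 * (((2 ^ (80 * (a + 1) + i) : ℕ) : ℝ) *
          Real.log ((2 ^ (80 * (a + 1) + i) : ℕ) : ℝ) / L ^ 3) :=
    fun i => R13_step hL hK (by omega) (hs1 i) (hs2 i)
  choose t t1 t2 t3 t4 t5 t6 using hex
  have hdiv : ∀ i, i < a * K → i / K < a := fun i hi =>
    (Nat.div_lt_iff_lt_mul hK0).mpr hi
  refine ⟨a * K, fun i => 2 ^ (80 * (a + 1) + i / K), fun i => t (i / K) (i % K),
    fun i => t (i / K) (i % K + 1), ?_, ?_, ?_, ?_⟩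
  · push_cast
    calc (a : ℝ) * K ≤ (2 * L) * (2 * L ^ 2) :=
          mul_le_mul haL hK2 (by positivity) (by positivity)
      _ = 4 * L ^ 3 := by ring
  · intro i hi
    have h1 := hdiv i hi
    refine ⟨hYs _, ?_, t2 _ _, t1 _ (Nat.le_succ _), ?_, ?_⟩
    · have := hYt _ h1
      rw [pow_succ] at this
      linarith
    · have := t3 (i / K) (i % K + 1)
      rw [pow_succ] at this
      linarith
    · rw [R13_theta (t1 _ (Nat.le_succ _))]
      have h2 := t6 (i / K) (i % K)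
      have h3 : 0 ≤ (((2 ^ (80 * (a + 1) + i / K) : ℕ) : ℝ) *
          Real.log ((2 ^ (80 * (a + 1) + i / K) : ℕ) : ℝ) / L ^ 3) := by
        have := Real.log_natCast_nonneg (2 ^ (80 * (a + 1) + i / K))
        positivity
      linarith
  · intro i hi j hj hij
    have hkey : ∀ i j : ℕ, i / K < j / K →
        t (i / K) (i % K + 1) ≤ t (j / K) (j % K) := by
      intro i j h
      calc t (i / K) (i % K + 1) ≤ 2 ^ (80 * (a + 1) + i / K + 1) := t3 _ _
        _ ≤ 2 ^ (80 * (a + 1) + j / K) := Nat.pow_le_pow_right (by norm_num) (by omega)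
        _ ≤ t (j / K) (j % K) := t2 _ _
    rcases lt_trichotomy (i / K) (j / K) with h | h | h
    · exact Or.inl (hkey i j h)
    · have hne : i % K ≠ j % K := by
        intro h'
        apply hij
        rw [← Nat.div_add_mod i K, ← Nat.div_add_mod j K, h, h']
      rcases lt_or_gt_of_ne hne with h' | h'
      · left
        show t (i / K) (i % K + 1) ≤ t (j / K) (j % K)
        rw [h]
        exact t1 _ h'
      · right
        show t (j / K) (j % K + 1) ≤ t (i / K) (i % K)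
        rw [h]
        exact t1 _ h'
    · exact Or.inr (hkey j i h)
  · rw [sum_mul13]
    have h1 : ∀ s ∈ range a, (th13 (2 ^ (80 * (a + 1) + s + 1)) - th13 (2 ^ (80 * (a + 1) + s))) /
        2 ^ (80 * (a + 1) + s) / (161 * a) ≤
        ∑ j ∈ range K, thetaAP (t ((s * K + j) / K) ((s * K + j) % K))
          (t ((s * K + j) / K) ((s * K + j) % K + 1)) 1 0 /
          (((2 ^ (80 * (a + 1) + (s * K + j) / K) : ℕ) : ℝ) *
            Real.log ((2 ^ (80 * (a + 1) + (s * K + j) / K) : ℕ) : ℝ)) := by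
      intro s hs
      rw [mem_range] at hs
      have h2 : ∀ j ∈ range K, thetaAP (t ((s * K + j) / K) ((s * K + j) % K))
          (t ((s * K + j) / K) ((s * K + j) % K + 1)) 1 0 /
          (((2 ^ (80 * (a + 1) + (s * K + j) / K) : ℕ) : ℝ) *
            Real.log ((2 ^ (80 * (a + 1) + (s * K + j) / K) : ℕ) : ℝ)) =
          (th13 (t s (j + 1)) - th13 (t s j)) / (((2 ^ (80 * (a + 1) + s) : ℕ) : ℝ) *
            Real.log ((2 ^ (80 * (a + 1) + s) : ℕ) : ℝ)) := by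
        intro j hj
        rw [mem_range] at hj
        have e1 : (s * K + j) / K = s := by
          rw [add_comm, Nat.add_mul_div_right _ _ hK0, Nat.div_eq_of_lt hj, zero_add]
        have e2 : (s * K + j) % K = j := by
          rw [add_comm, Nat.add_mul_mod_self_right, Nat.mod_eq_of_lt hj]
        rw [e1, e2, R13_theta (t1 _ (Nat.le_succ _))]
      rw [sum_congr rfl h2, ← sum_div, sum_range_sub (fun j => th13 (t s j)) K, t4, t5]
      have h3 : 0 ≤ th13 (2 ^ (80 * (a + 1) + s + 1)) - th13 (2 ^ (80 * (a + 1) + s)) :=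
        sub_nonneg.mpr (th13_mono (Nat.pow_le_pow_right (by norm_num) (Nat.le_succ _)))
      rw [div_div]
      have h4 : (0 : ℝ) < ((2 ^ (80 * (a + 1) + s) : ℕ) : ℝ) := by positivity
      have h5 : 0 < Real.log ((2 ^ (80 * (a + 1) + s) : ℕ) : ℝ) := by
        have := hs1 s
        linarith
      apply div_le_div_of_nonneg_left h3 (by positivity)
      have h6 : ((2 ^ (80 * (a + 1) + s) : ℕ) : ℝ) = (2 : ℝ) ^ (80 * (a + 1) + s) := by
        push_cast
        rfl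
      rw [h6] at h4 ⊢
      apply mul_le_mul_of_nonneg_left _ h4.le
      rw [Real.log_pow]
      have h7 : (80 * (a + 1) + s : ℕ) ≤ 161 * a := by omega
      have h8 : ((80 * (a + 1) + s : ℕ) : ℝ) ≤ 161 * a := by exact_mod_cast h7
      have h9 : (0 : ℝ) ≤ ((80 * (a + 1) + s : ℕ) : ℝ) := Nat.cast_nonneg _
      nlinarith
    refine le_trans ?_ (sum_le_sum h1)
    rw [← sum_div]
    have h2 := w13 (80 * (a + 1)) a (by omega)
    have h3 : (3 : ℝ) ≤ a := by exact_mod_cast ha3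
    rw [le_div_iff₀ (by positivity)]
    linarith

end ES
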