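import Pool.Agent.Lib.ES.Defs

/-!
# Row R14: the final assembly

From the second moment product (R2), the conditional means (R14b), the count of the bad classes
(R12) and the blocks of primes (R13): the bound for a given `Y`, then the choice of `Y`.
-/

set_option autoImplicit false

open Finset
open scoped BigOperators

namespace ES

/-- The average over the classes: good classes are bounded by `A`, bad classes are few. -/
theorem R14_avg {M : ℕ} (hM : 0 < M) (f : ℕ → ℝ) (bad : ℕ → Prop) [DecidablePred bad] {A B : ℝ}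
    (hA : 0 ≤ A) (h1 : ∀ b ∈ range M, f b ≤ 1) (h2 : ∀ b ∈ range M, ¬ bad b → f b ≤ A)
    (h3 : (((range M).filter bad).card : ℝ) ≤ M * B) :
    (∑ b ∈ range M, f b) / M ≤ A + B := by
  have hM' : (0 : ℝ) < M := by exact_mod_cast hM
  rw [div_le_iff₀ hM']
  have h4 : ∑ b ∈ range M, f b =
      ∑ b ∈ (range M).filter bad, f b + ∑ b ∈ (range M).filter (fun b => ¬ bad b), f b :=
    (sum_filter_add_sum_filter_not (range M) bad f).symm
  have h5 : ∑ b ∈ (range M).filter bad, f b ≤ M * B := by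
    refine le_trans (sum_le_sum (g := fun _ => (1 : ℝ)) ?_) ?_
    · intro b hb
      exact h1 b (mem_filter.1 hb).1
    · rw [sum_const, nsmul_eq_mul, mul_one]
      exact h3
  have h6 : ∑ b ∈ (range M).filter (fun b => ¬ bad b), f b ≤ M * A := by
    refine le_trans (sum_le_sum (g := fun _ => A) ?_) ?_
    · intro b hb
      exact h2 b (mem_filter.1 hb).1 (mem_filter.1 hb).2
    · rw [sum_const, nsmul_eq_mul]
      refine mul_le_mul_of_nonneg_right ?_ hA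
      have h7 : ((range M).filter (fun b => ¬ bad b)).card ≤ M := by
        refine le_trans (card_filter_le _ _) ?_
        rw [card_range]
      exact_mod_cast h7
  rw [h4]
  linarith

/-- The size of the product of the blocks. -/
theorem R14_prod {k Y : ℕ} (hY : 2 ≤ Y) (E : ℕ → Finset Ev) (y2 : ℕ → ℕ)
    (h1 : ∀ i < k, y2 i ≤ Y ^ 161) (h2 : ∀ i < k, ((E i).card : ℝ) ≤ (y2 i : ℝ) * (Y : ℝ) ^ 9) :
    ∏ i ∈ range k, (1 + ((E i).card : ℝ)) ^ 2 ≤ Real.exp (342 * k * Real.log Y) := by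
  have hY' : (2 : ℝ) ≤ Y := by exact_mod_cast hY
  have hY0 : (0 : ℝ) < Y := by linarith
  have h3 : ∀ i ∈ range k, (1 + ((E i).card : ℝ)) ^ 2 ≤ (Y : ℝ) ^ 342 := by
    intro i hi
    have hi' := mem_range.1 hi
    have h4 : ((E i).card : ℝ) ≤ (Y : ℝ) ^ 170 := by
      refine le_trans (h2 i hi') ?_
      have h5 : (y2 i : ℝ) ≤ (Y : ℝ) ^ 161 := by exact_mod_cast h1 i hi'
      calc (y2 i : ℝ) * (Y : ℝ) ^ 9 ≤ (Y : ℝ) ^ 161 * (Y : ℝ) ^ 9 :=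
            mul_le_mul_of_nonneg_right h5 (by positivity)
        _ = (Y : ℝ) ^ 170 := by rw [← pow_add]
    have h6 : (1 : ℝ) ≤ (Y : ℝ) ^ 170 := one_le_pow₀ (by linarith)
    have h7 : 1 + ((E i).card : ℝ) ≤ (Y : ℝ) ^ 171 := by
      have h8 : (Y : ℝ) ^ 171 = (Y : ℝ) ^ 170 * Y := pow_succ _ _
      rw [h8]
      nlinarith
    calc (1 + ((E i).card : ℝ)) ^ 2 ≤ ((Y : ℝ) ^ 171) ^ 2 :=
          pow_le_pow_left₀ (by positivity) h7 2
      _ = (Y : ℝ) ^ 342 := by rw [← pow_mul]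
  refine le_trans (prod_le_prod (fun i _ => by positivity) h3) ?_
  rw [prod_const, card_range, ← pow_mul]
  have h9 : (Y : ℝ) = Real.exp (Real.log Y) := (Real.exp_log hY0).symm
  conv_lhs => rw [h9]
  rw [← Real.exp_nat_mul]
  push_cast
  exact le_of_eq rfl

/-- The bound for a given `Y`. -/
theorem R14_core (h2 : R2) (h14a' : ∀ m Y z y1 y2 : ℕ, 1 ≤ m → 2 ≤ Y → Y ^ 80 ≤ y1 →
    (∀ e ∈ EE m Y z y1 y2, e.p.Prime ∧ e.u ∣ Y.factorial ∧ e.p.Coprime Y.factorial ∧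
      e.c.Coprime (e.p * e.u) ∧ y1 < e.p ∧ e.p ≤ y2) ∧
    (∀ e ∈ EE m Y z y1 y2, ∀ e' ∈ EE m Y z y1 y2, e ≠ e' → e.p = e'.p →
      ∀ n : ℕ, ¬ (e.Holds n ∧ e'.Holds n)) ∧
    (∀ e ∈ EE m Y z y1 y2, ∀ n : ℕ, 0 < n → e.Holds n → Rep m n) ∧
    ((EE m Y z y1 y2).card : ℝ) ≤ (y2 : ℝ) * (Y : ℝ) ^ 9) (h12 : R12) {m : ℕ} (hm : 1 ≤ m)
    {c₁ C₁ C₂ c₂ μ : ℝ} (hc₁ : 0 < c₁) (hC₁ : 0 < C₁) (_hc₂ : 0 < c₂) (hC₂ : 0 < C₂)
    (hμ2 : 2 ≤ μ) (hμ : 2 * (C₁ * (C₂ + 1)) ≤ μ)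
    {Y z k : ℕ} (hY : 16 ≤ Y) (hz : 1 ≤ z)
    (hb : ∀ x y1 y2 b : ℕ, Y ^ 80 ≤ x → 2 * x ≤ Y ^ 161 → x ≤ y1 → y1 ≤ y2 → y2 ≤ 2 * x →
      meanW (EE m Y z y1 y2) b ≤ C₁ * (thetaAP y1 y2 1 0 / (x * Real.log x) * Real.log Y ^ 3 +
        1 / Real.log Y ^ 4) ∧
      (badMass Y z b ≤ c₁ / Real.log (Real.log Y) ^ C₁ →
        c₁ * (thetaAP y1 y2 1 0 / (x * Real.log x)) * Real.log Y ^ 3 /
          Real.log (Real.log Y) ^ C₁ - 1 / Real.log Y ^ 4 ≤ meanW (EE m Y z y1 y2) b))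
    (x y1 y2 : ℕ → ℕ) (hk : (k : ℝ) ≤ C₂ * Real.log Y ^ 3)
    (hx : ∀ i < k, Y ^ 80 ≤ x i ∧ 2 * x i ≤ Y ^ 161 ∧ x i ≤ y1 i ∧ y1 i ≤ y2 i ∧
      y2 i ≤ 2 * x i ∧ thetaAP (y1 i) (y2 i) 1 0 ≤ C₂ * (x i * Real.log (x i) / Real.log Y ^ 3))
    (hdisj : ∀ i < k, ∀ j < k, i ≠ j → y2 i ≤ y1 j ∨ y2 j ≤ y1 i)
    (hsum : c₂ ≤ ∑ i ∈ range k, thetaAP (y1 i) (y2 i) 1 0 / (x i * Real.log (x i)))
    (x₀ N : ℕ) :
    (({n : ℕ | x₀ < n ∧ n ≤ x₀ + N ∧ ¬ Rep m n}.ncard : ℕ) : ℝ) ≤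
      N * (Real.exp (-((c₁ * c₂ * Real.log Y ^ 3 / Real.log (Real.log Y) ^ C₁ -
        C₂ / Real.log Y) / μ)) +
        ((Y : ℝ) + 1) * (2 : ℝ) ^ (-(c₁ / Real.log (Real.log Y) ^ C₁ * z))) +
      Real.exp (342 * C₂ * Real.log Y ^ 4) := by
  classical
  have hY' : (16 : ℝ) ≤ Y := by exact_mod_cast hY
  have hY0 : (0 : ℝ) < Y := by linarith
  set ℓ := Real.log Y with hℓ
  have hℓ1 : 1 < ℓ := by
    rw [hℓ, Real.lt_log_iff_exp_lt hY0]
    have := Real.exp_one_lt_d9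
    linarith
  have hℓ0 : 0 < ℓ := by linarith
  have hll : 0 < Real.log ℓ := Real.log_pos hℓ1
  have hllC : 0 < Real.log ℓ ^ C₁ := Real.rpow_pos_of_pos hll _
  have hμ0 : 0 < μ := by linarith
  -- the events
  set E : ℕ → Finset Ev := fun i => EE m Y z (y1 i) (y2 i) with hE
  have hY80 : ∀ i < k, Y ^ 80 ≤ y1 i := fun i hi => le_trans (hx i hi).1 (hx i hi).2.2.1
  have ha := fun (i : ℕ) (hi : i < k) => h14a' m Y z (y1 i) (y2 i) hm (by omega) (hY80 i hi)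
  have hmean : ∀ i < k, ∀ b : ℕ, meanW (E i) b ≤ μ / 2 := by
    intro i hi b
    obtain ⟨q1, q2, q3, q4, q5, q6⟩ := hx i hi
    have h3 := (hb (x i) (y1 i) (y2 i) b q1 q2 q3 q4 q5).1
    refine le_trans h3 ?_
    have hx16 : (16 : ℝ) ≤ x i := by
      have h4 : Y ≤ x i := le_trans (Nat.le_self_pow (by norm_num) Y) q1
      exact_mod_cast le_trans hY h4
    have hxl : 0 < (x i : ℝ) * Real.log (x i) :=
      mul_pos (by linarith) (Real.log_pos (by linarith))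
    have h5 : thetaAP (y1 i) (y2 i) 1 0 / (x i * Real.log (x i)) * ℓ ^ 3 ≤ C₂ := by
      rw [div_mul_eq_mul_div, div_le_iff₀ hxl]
      have h6 := mul_le_mul_of_nonneg_right q6 (pow_nonneg hℓ0.le 3)
      refine le_trans h6 (le_of_eq ?_)
      field_simp
    have h7 : 1 / ℓ ^ 4 ≤ 1 := by
      rw [div_le_one (by positivity)]
      exact one_le_pow₀ hℓ1.le
    have h8 : C₁ * (thetaAP (y1 i) (y2 i) 1 0 / (x i * Real.log (x i)) * ℓ ^ 3 + 1 / ℓ ^ 4) ≤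
        C₁ * (C₂ + 1) := mul_le_mul_of_nonneg_left (by linarith) hC₁.le
    linarith
  have hM : 0 < Y.factorial := Nat.factorial_pos Y
  have hR2 := h2 k Y.factorial E μ hμ2 hM
    (fun i hi e he => ⟨((ha i hi).1 e he).1, ((ha i hi).1 e he).2.1, ((ha i hi).1 e he).2.2.1,
      ((ha i hi).1 e he).2.2.2.1⟩)
    (by
      intro i hi j hj hij e he e' he' hp
      have h3 := (ha i hi).1 e he
      have h4 := (ha j hj).1 e' he'
      have h5 := h3.2.2.2.2.1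
      have h6 := h3.2.2.2.2.2
      have h7 := h4.2.2.2.2.1
      have h8 := h4.2.2.2.2.2
      rcases hdisj i hi j hj hij with h9 | h9 <;> omega)
    (fun i hi e he e' he' hne hp n => (ha i hi).2.1 e he e' he' hne hp n)
    hmean x₀ N
  -- the exceptional set is contained in the set of the sieve
  have hsub : (({n : ℕ | x₀ < n ∧ n ≤ x₀ + N ∧ ¬ Rep m n}.ncard : ℕ) : ℝ) ≤
      (({n : ℕ | x₀ < n ∧ n ≤ x₀ + N ∧ ∀ i < k, ∀ e ∈ E i, ¬ e.Holds n}.ncard : ℕ) : ℝ) := by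
    have h3 : {n : ℕ | x₀ < n ∧ n ≤ x₀ + N ∧ ¬ Rep m n} ⊆
        {n : ℕ | x₀ < n ∧ n ≤ x₀ + N ∧ ∀ i < k, ∀ e ∈ E i, ¬ e.Holds n} := by
      rintro n ⟨h4, h5, h6⟩
      refine ⟨h4, h5, ?_⟩
      intro i hi e he hh
      exact h6 ((ha i hi).2.2.1 e he n (by omega) hh)
    have h4 : ({n : ℕ | x₀ < n ∧ n ≤ x₀ + N ∧ ∀ i < k, ∀ e ∈ E i, ¬ e.Holds n}).Finite := by
      refine (Set.finite_Ioc x₀ (x₀ + N)).subset ?_
      rintro n ⟨h5, h6, -⟩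
      exact ⟨h5, h6⟩
    exact_mod_cast Set.ncard_le_ncard h3 h4
  refine le_trans hsub (le_trans hR2 ?_)
  -- the product
  have hprod : ∏ i ∈ range k, (1 + ((E i).card : ℝ)) ^ 2 ≤
      Real.exp (342 * C₂ * ℓ ^ 4) := by
    refine le_trans (R14_prod (k := k) (Y := Y) (le_trans (by norm_num) hY) E y2 ?_ ?_) ?_
    · intro i hi
      obtain ⟨q1, q2, q3, q4, q5, q6⟩ := hx i hi
      omega
    · intro i hi
      exact (ha i hi).2.2.2
    · rw [Real.exp_le_exp]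
      have h3 : (342 : ℝ) * k * ℓ ≤ 342 * (C₂ * ℓ ^ 3) * ℓ := by gcongr
      calc (342 : ℝ) * k * ℓ ≤ 342 * (C₂ * ℓ ^ 3) * ℓ := h3
        _ = 342 * C₂ * ℓ ^ 4 := by ring
  -- the average
  have havg : (∑ b ∈ range Y.factorial,
      Real.exp (-(∑ i ∈ range k, meanW (E i) b) / μ)) / Y.factorial ≤
      Real.exp (-((c₁ * c₂ * ℓ ^ 3 / Real.log ℓ ^ C₁ - C₂ / ℓ) / μ)) +
        ((Y : ℝ) + 1) * (2 : ℝ) ^ (-(c₁ / Real.log ℓ ^ C₁ * z)) := by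
    refine R14_avg hM _ (fun b => c₁ / Real.log ℓ ^ C₁ < badMass Y z b) (Real.exp_pos _).le
      ?_ ?_ ?_
    · intro b _
      rw [Real.exp_le_one_iff]
      have h3 : 0 ≤ ∑ i ∈ range k, meanW (E i) b :=
        sum_nonneg fun i _ => sum_nonneg fun e _ => by positivity
      rw [neg_div]
      have := div_nonneg h3 hμ0.le
      linarith
    · intro b _ hbad
      rw [Real.exp_le_exp, neg_div, neg_le_neg_iff]
      refine div_le_div_of_nonneg_right ?_ hμ0.le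
      have h3 : ∀ i ∈ range k, c₁ * (thetaAP (y1 i) (y2 i) 1 0 / (x i * Real.log (x i))) *
          ℓ ^ 3 / Real.log ℓ ^ C₁ - 1 / ℓ ^ 4 ≤ meanW (E i) b := by
        intro i hi
        obtain ⟨q1, q2, q3, q4, q5, q6⟩ := hx i (mem_range.1 hi)
        exact (hb (x i) (y1 i) (y2 i) b q1 q2 q3 q4 q5).2 (not_lt.1 hbad)
      refine le_trans ?_ (sum_le_sum h3)
      rw [sum_sub_distrib, sum_const, card_range, nsmul_eq_mul]
      have h4 : ∑ i ∈ range k, c₁ * (thetaAP (y1 i) (y2 i) 1 0 / (x i * Real.log (x i))) *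
          ℓ ^ 3 / Real.log ℓ ^ C₁ =
          c₁ * (∑ i ∈ range k, thetaAP (y1 i) (y2 i) 1 0 / (x i * Real.log (x i))) *
          ℓ ^ 3 / Real.log ℓ ^ C₁ := by
        rw [mul_sum, sum_mul, sum_div]
      rw [h4]
      have h5 : c₁ * c₂ * ℓ ^ 3 / Real.log ℓ ^ C₁ ≤
          c₁ * (∑ i ∈ range k, thetaAP (y1 i) (y2 i) 1 0 / (x i * Real.log (x i))) *
          ℓ ^ 3 / Real.log ℓ ^ C₁ := by
        gcongr
      have h6 : (k : ℝ) * (1 / ℓ ^ 4) ≤ C₂ / ℓ := by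
        calc (k : ℝ) * (1 / ℓ ^ 4) ≤ (C₂ * ℓ ^ 3) * (1 / ℓ ^ 4) := by gcongr
          _ = C₂ / ℓ := by field_simp
      linarith
    · have h3 := h12 Y z (c₁ / Real.log ℓ ^ C₁) hz (div_pos hc₁ hllC).le
      exact le_trans h3 (le_of_eq (by ring))
  have hN : (0 : ℝ) ≤ N := Nat.cast_nonneg N
  have h9 := mul_le_mul_of_nonneg_left havg hN
  linarith

end ES
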