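import Pool.Agent.Lib.ES.R14Final

/-!
# Row R14 with the explicit bound
-/

set_option autoImplicit false

open Finset Filter
open scoped BigOperators

namespace ES

/-- The theorem with the explicit bound. -/
def MainE : Prop := ∀ m : ℕ, 1 ≤ m → ∃ c C : ℝ, 0 < c ∧ 0 < C ∧ ∃ N0 : ℕ, ∀ N : ℕ, N0 ≤ N →
  ∀ x : ℕ, (({n : ℕ | x < n ∧ n ≤ x + N ∧ ¬ Rep m n}.ncard : ℕ) : ℝ) ≤
    N * Real.exp (-(c * Real.log N ^ ((3 : ℝ) / 4) / Real.log (Real.log N) ^ C))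

/-- `L ^ (3/4) / (log L) ^ C` tends to infinity. -/
theorem R14E_asy (C K : ℝ) :
    ∀ᶠ L : ℝ in atTop, K ≤ L ^ ((3 : ℝ) / 4) / Real.log L ^ C := by
  have h1 : ∀ᶠ L : ℝ in atTop, ‖Real.log L ^ C‖ ≤ 1 * ‖L ^ ((1 : ℝ) / 4)‖ :=
    (isLittleO_log_rpow_rpow_atTop C (by norm_num)).bound one_pos
  have h2 : ∀ᶠ L : ℝ in atTop, K ≤ L ^ ((1 : ℝ) / 2) :=
    (tendsto_rpow_atTop (by norm_num)).eventually_ge_atTop _
  filter_upwards [h1, h2, eventually_gt_atTop (Real.exp 1)] with L hL1 hL2 hL3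
  have hL0 : 0 < L := lt_trans (Real.exp_pos 1) hL3
  have hlog : 0 < Real.log L := Real.log_pos (lt_trans (by
    have := Real.exp_one_gt_d9
    linarith) hL3)
  have hlogC : 0 < Real.log L ^ C := Real.rpow_pos_of_pos hlog _
  have hr : 0 < L ^ ((1 : ℝ) / 4) := Real.rpow_pos_of_pos hL0 _
  rw [one_mul, Real.norm_of_nonneg hlogC.le, Real.norm_of_nonneg hr.le] at hL1
  refine le_trans hL2 ?_
  rw [le_div_iff₀ hlogC]
  calc L ^ ((1 : ℝ) / 2) * Real.log L ^ C ≤ L ^ ((1 : ℝ) / 2) * L ^ ((1 : ℝ) / 4) := by gcongr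
    _ = L ^ ((3 : ℝ) / 4) := by
      rw [← Real.rpow_add hL0]
      norm_num

/-- **R14, explicit form.** -/
theorem r14E (h1 : R1) (h2 : R2) (h14a : R14a)
    (h14b : ∀ m : ℕ, 1 ≤ m → ∃ c C Y0 : ℝ, 0 < c ∧ 0 < C ∧ 16 ≤ Y0 ∧
      ∀ Y z x y1 y2 b : ℕ, Y0 ≤ Y → z = ⌊Real.log Y ^ 100⌋₊ → Y ^ 80 ≤ x → 2 * x ≤ Y ^ 161 →
      x ≤ y1 → y1 ≤ y2 → y2 ≤ 2 * x →
      meanW (EE m Y z y1 y2) b ≤ C * (thetaAP y1 y2 1 0 / (x * Real.log x) * Real.log Y ^ 3 +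
        1 / Real.log Y ^ 4) ∧
      (badMass Y z b ≤ c / Real.log (Real.log Y) ^ C →
        c * (thetaAP y1 y2 1 0 / (x * Real.log x)) * Real.log Y ^ 3 /
          Real.log (Real.log Y) ^ C - 1 / Real.log Y ^ 4 ≤ meanW (EE m Y z y1 y2) b))
    (h12 : R12) (h13 : R13) : MainE := by
  intro m hm
  obtain ⟨c₁, C₁, Y₁, hc₁, hC₁, hY₁, hb⟩ := h14b m hm
  obtain ⟨c₂, C₂, Y₂, hc₂, hC₂, hk⟩ := h13
  -- parameters
  set μ : ℝ := max 2 (2 * (C₁ * (C₂ + 1))) with hμ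
  have hμ2 : 2 ≤ μ := le_max_left _ _
  have hμ0 : 0 < μ := by linarith
  set a : ℝ := 1 / (684 * (C₂ + 1)) with ha
  have ha0 : 0 < a := by rw [ha]; positivity
  have ha1 : a ≤ 1 := by
    rw [ha, div_le_one (by positivity)]
    linarith
  have ha4 : 342 * C₂ * a ^ 4 ≤ 1 / 2 := by
    have h3 : a ^ 4 ≤ a := pow_le_of_le_one ha0.le ha1 (by norm_num)
    have h4 : 342 * C₂ * a ≤ 1 / 2 := by
      rw [ha, mul_one_div, div_le_iff₀ (by positivity)]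
      linarith
    have h5 : 342 * C₂ * a ^ 4 ≤ 342 * C₂ * a := by gcongr
    linarith
  set c' : ℝ := c₁ * c₂ * a ^ 3 / 8 with hc'
  have hc'0 : 0 < c' := by rw [hc']; positivity
  set c : ℝ := min 1 (c' / (2 * μ)) with hcdef
  have hc0 : 0 < c := lt_min one_pos (by positivity)
  have hc1 : c ≤ 1 := min_le_left _ _
  have hc2 : c ≤ c' / (2 * μ) := min_le_right _ _
  refine ⟨c, C₁, hc0, hC₁, ?_⟩
  obtain ⟨ℓ₁, hI⟩ := eventually_atTop.1
    (R14_asyII (C₁ := C₁) (ε := 0) ha0 hc₁ le_rfl (by norm_num))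
  -- the limits
  have hlog : Tendsto (fun N : ℕ => Real.log N) atTop atTop :=
    Real.tendsto_log_atTop.comp tendsto_natCast_atTop_atTop
  have hTt : Tendsto (fun N : ℕ => a * Real.log N ^ ((1 : ℝ) / 4)) atTop atTop :=
    ((tendsto_rpow_atTop (by norm_num)).comp hlog).const_mul_atTop ha0
  have hev1 := hTt.eventually_ge_atTop
    (max (ℓ₁ + 1) (max (Real.log Y₁ + 1) (max (|Y₂| + 1) 17)))
  have hev2 := hlog.eventually ((R14_asyIII (ε := 0) le_rfl).and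
    (R14E_asy C₁ ((2 + C₂ / (16 * μ)) * (2 * μ) / c')))
  have hev3 := hlog.eventually_ge_atTop (Real.exp 1)
  obtain ⟨N₀, hN₀⟩ := eventually_atTop.1 ((hev1.and hev2).and hev3)
  refine ⟨max N₀ 1, fun N hN x₀ => ?_⟩
  obtain ⟨⟨hT, ⟨hIII, hF⟩⟩, hLe⟩ := hN₀ N (le_trans (le_max_left _ _) hN)
  have hN1 : 1 ≤ N := le_trans (le_max_right _ _) hN
  have hN0 : (0 : ℝ) < N := by exact_mod_cast hN1
  set L := Real.log N with hLdef
  have hL1 : 1 ≤ L := by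
    have := Real.exp_one_gt_d9
    linarith
  set T := a * L ^ ((1 : ℝ) / 4) with hTdef
  have hT1 : ℓ₁ + 1 ≤ T := le_trans (le_max_left _ _) hT
  have hT2 : Real.log Y₁ + 1 ≤ T :=
    le_trans (le_trans (le_max_left _ _) (le_max_right _ _)) hT
  have hT3 : |Y₂| + 1 ≤ T :=
    le_trans (le_trans (le_trans (le_max_left _ _) (le_max_right _ _)) (le_max_right _ _)) hT
  have hT4 : 17 ≤ T :=
    le_trans (le_trans (le_trans (le_max_right _ _) (le_max_right _ _)) (le_max_right _ _)) hT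
  obtain ⟨hf1, hf2⟩ := R14_floor (T := T) (by linarith)
  set Y := ⌊Real.exp T⌋₊ with hY
  have hexpT : T ≤ Real.exp (T - 1) := by
    have := Real.add_one_le_exp (T - 1)
    linarith
  have hYT : T ≤ Y := le_trans hexpT hf1
  have hY16 : 16 ≤ Y := by
    have h3 : ((16 : ℕ) : ℝ) ≤ Y := by push_cast; linarith
    exact_mod_cast h3
  have hYpos : (0 : ℝ) < Y := by linarith
  have hYY₁ : Y₁ ≤ Y := by
    refine le_trans ?_ hf1
    have h3 : 0 < Y₁ := by linarith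
    rw [← Real.log_le_iff_le_exp h3]
    linarith
  have hYY₂ : Y₂ ≤ Y := by
    have := le_abs_self Y₂
    linarith
  set ℓ := Real.log Y with hℓ
  have hℓT : ℓ ≤ T := by
    rw [hℓ, Real.log_le_iff_le_exp hYpos]
    exact hf2
  have hTℓ : T ≤ ℓ + 1 := by
    have h3 : T - 1 ≤ ℓ := by
      rw [hℓ, Real.le_log_iff_exp_le hYpos]
      exact hf1
    linarith
  have hℓ16 : 16 ≤ ℓ := by linarith
  have hI2 := hI ℓ (by linarith)
  -- the value of `z`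
  set z := ⌊ℓ ^ 100⌋₊ with hz
  have hz1 : 1 ≤ z := by
    rw [hz]
    apply Nat.le_floor
    push_cast
    exact one_le_pow₀ (by linarith)
  have hz2 : ℓ ^ 100 - 1 ≤ z := by
    have := Nat.lt_floor_add_one (ℓ ^ 100)
    linarith
  obtain ⟨k, x, y1, y2, hk1, hk2, hk3, hk4⟩ := hk Y hYY₂
  have hcore := R14_core h2 (h14a h1) h12 hm hc₁ hC₁ hc₂ hC₂ hμ2 (le_max_right _ _) hY16 hz1
    (fun x y1 y2 b q1 q2 q3 q4 q5 => hb Y z x y1 y2 b hYY₁ hz q1 q2 q3 q4 q5)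
    x y1 y2 hk1 hk2 hk3 hk4 x₀ N
  refine le_trans hcore ?_
  -- the exponents
  have hL0 : 0 < L := by linarith
  have hlogL1 : 1 ≤ Real.log L := by
    rw [Real.le_log_iff_exp_le hL0]
    exact hLe
  have hlogLC : 1 ≤ Real.log L ^ C₁ := Real.one_le_rpow hlogL1 hC₁.le
  have hL34 : 0 < L ^ ((3 : ℝ) / 4) := Real.rpow_pos_of_pos hL0 _
  set E := c * L ^ ((3 : ℝ) / 4) / Real.log L ^ C₁ with hE
  have hE1 : E ≤ L ^ ((3 : ℝ) / 4) := by
    rw [hE, div_le_iff₀ (by linarith)]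
    nlinarith
  have h34 : L ^ ((3 : ℝ) / 4) = (L ^ ((1 : ℝ) / 4)) ^ 3 := by
    rw [← Real.rpow_natCast, ← Real.rpow_mul hL0.le]
    norm_num
  have hL14 : 0 < L ^ ((1 : ℝ) / 4) := Real.rpow_pos_of_pos hL0 _
  have hQ : E ≤ ((ℓ + 1) / a) ^ ((3 : ℝ) - 4 * 0) := by
    have h3 : L ^ ((1 : ℝ) / 4) ≤ (ℓ + 1) / a := by
      rw [le_div_iff₀ ha0]
      linarith
    have h5 : ((ℓ + 1) / a) ^ ((3 : ℝ) - 4 * 0) = ((ℓ + 1) / a) ^ 3 := by
      rw [← Real.rpow_natCast]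
      norm_num
    rw [h5]
    refine le_trans hE1 ?_
    rw [h34]
    exact pow_le_pow_left₀ hL14.le h3 3
  have hD : E + 2 ≤ (c₁ * c₂ * ℓ ^ 3 / Real.log ℓ ^ C₁ - C₂ / ℓ) / μ := by
    rw [le_div_iff₀ hμ0]
    have h3 : Real.log ℓ ^ C₁ ≤ Real.log L ^ C₁ := by
      apply Real.rpow_le_rpow (Real.log_nonneg (by linarith)) _ hC₁.le
      apply Real.log_le_log (by linarith)
      refine le_trans hℓT ?_
      have h4 : L ^ ((1 : ℝ) / 4) ≤ L ^ (1 : ℝ) :=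
        Real.rpow_le_rpow_of_exponent_le hL1 (by norm_num)
      rw [Real.rpow_one] at h4
      calc T ≤ 1 * L ^ ((1 : ℝ) / 4) := by
            rw [hTdef]
            gcongr
        _ ≤ L := by linarith
    have h4 : a ^ 3 * L ^ ((3 : ℝ) / 4) / 8 ≤ ℓ ^ 3 := by
      have h5 : T / 2 ≤ ℓ := by linarith
      have h6 : (T / 2) ^ 3 ≤ ℓ ^ 3 := pow_le_pow_left₀ (by linarith) h5 3
      have h7 : (T / 2) ^ 3 = a ^ 3 * L ^ ((3 : ℝ) / 4) / 8 := by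
        rw [hTdef, h34]
        ring
      linarith
    have hlogℓ : 0 < Real.log ℓ ^ C₁ := Real.rpow_pos_of_pos (Real.log_pos (by linarith)) _
    have h5 : c' * (L ^ ((3 : ℝ) / 4) / Real.log L ^ C₁) ≤
        c₁ * c₂ * ℓ ^ 3 / Real.log ℓ ^ C₁ := by
      calc c' * (L ^ ((3 : ℝ) / 4) / Real.log L ^ C₁) =
          c₁ * c₂ * (a ^ 3 * L ^ ((3 : ℝ) / 4) / 8) / Real.log L ^ C₁ := by
            rw [hc']
            ring
        _ ≤ c₁ * c₂ * ℓ ^ 3 / Real.log L ^ C₁ := by gcongr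
        _ ≤ c₁ * c₂ * ℓ ^ 3 / Real.log ℓ ^ C₁ := by gcongr
    have h6 : C₂ / ℓ ≤ C₂ / 16 := by gcongr
    have hF' : (2 + C₂ / (16 * μ)) * (2 * μ) ≤
        c' * (L ^ ((3 : ℝ) / 4) / Real.log L ^ C₁) := by
      rw [div_le_iff₀ hc'0] at hF
      linarith
    have h7 : E * μ ≤ c' * (L ^ ((3 : ℝ) / 4) / Real.log L ^ C₁) / 2 := by
      have h8 : E = c * (L ^ ((3 : ℝ) / 4) / Real.log L ^ C₁) := by
        rw [hE]
        ring
      have h9 : 0 ≤ L ^ ((3 : ℝ) / 4) / Real.log L ^ C₁ := by positivity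
      have h10 : c * μ ≤ c' / 2 := by
        calc c * μ ≤ c' / (2 * μ) * μ := by gcongr
          _ = c' / 2 := by field_simp
      rw [h8]
      calc c * (L ^ ((3 : ℝ) / 4) / Real.log L ^ C₁) * μ =
          (c * μ) * (L ^ ((3 : ℝ) / 4) / Real.log L ^ C₁) := by ring
        _ ≤ (c' / 2) * (L ^ ((3 : ℝ) / 4) / Real.log L ^ C₁) :=
          mul_le_mul_of_nonneg_right h10 h9
        _ = c' * (L ^ ((3 : ℝ) / 4) / Real.log L ^ C₁) / 2 := by ring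
    have h8 : (2 + C₂ / (16 * μ)) * (2 * μ) = 4 * μ + C₂ / 8 := by
      field_simp
      ring
    linarith
  have hexp2 := R14_exp2
  have hE0 := Real.exp_pos (-E)
  have hsplit : Real.exp (-2 - E) ≤ 1 / 3 * Real.exp (-E) := by
    have h3 : Real.exp (-2 - E) = Real.exp (-2) * Real.exp (-E) := by
      rw [← Real.exp_add]
      ring_nf
    rw [h3]
    exact mul_le_mul_of_nonneg_right hexp2 hE0.le
  -- first term
  have hA : Real.exp (-((c₁ * c₂ * ℓ ^ 3 / Real.log ℓ ^ C₁ - C₂ / ℓ) / μ)) ≤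
      1 / 3 * Real.exp (-E) := by
    refine le_trans ?_ hsplit
    rw [Real.exp_le_exp]
    linarith
  -- second term
  have hB : ((Y : ℝ) + 1) * (2 : ℝ) ^ (-(c₁ / Real.log ℓ ^ C₁ * z)) ≤
      1 / 3 * Real.exp (-E) := by
    refine le_trans ?_ hsplit
    have h3 : (Y : ℝ) + 1 ≤ Real.exp (ℓ + 1) := by
      rw [Real.exp_add, hℓ, Real.exp_log hYpos]
      have := Real.exp_one_gt_d9
      nlinarith
    have h4 : (2 : ℝ) ^ (-(c₁ / Real.log ℓ ^ C₁ * z)) =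
        Real.exp (-(Real.log 2 * (c₁ / Real.log ℓ ^ C₁ * z))) := by
      rw [Real.rpow_def_of_pos (by norm_num)]
      congr 1
      ring
    rw [h4]
    refine le_trans (mul_le_mul_of_nonneg_right h3 (Real.exp_pos _).le) ?_
    rw [← Real.exp_add, Real.exp_le_exp]
    have h5 : 0 ≤ c₁ / Real.log ℓ ^ C₁ := by
      apply div_nonneg hc₁.le
      exact Real.rpow_nonneg (Real.log_nonneg (by linarith)) _
    have h6 : c₁ / Real.log ℓ ^ C₁ * (ℓ ^ 100 - 1) ≤ c₁ / Real.log ℓ ^ C₁ * z :=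
      mul_le_mul_of_nonneg_left hz2 h5
    have h7 : Real.log 2 * (c₁ / Real.log ℓ ^ C₁ * (ℓ ^ 100 - 1)) ≤
        Real.log 2 * (c₁ / Real.log ℓ ^ C₁ * z) :=
      mul_le_mul_of_nonneg_left h6 (Real.log_nonneg (by norm_num))
    linarith
  -- third term
  have hC : Real.exp (342 * C₂ * ℓ ^ 4) ≤ N * (1 / 3 * Real.exp (-E)) := by
    have h3 : ℓ ^ 4 ≤ a ^ 4 * L := by
      have h4 : ℓ ^ 4 ≤ T ^ 4 := pow_le_pow_left₀ (by linarith) hℓT 4
      have h5 : T ^ 4 = a ^ 4 * L := by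
        rw [hTdef, mul_pow]
        congr 1
        rw [← Real.rpow_natCast, ← Real.rpow_mul hL0.le]
        norm_num
      linarith
    have h4 : 342 * C₂ * ℓ ^ 4 ≤ L / 2 := by
      calc 342 * C₂ * ℓ ^ 4 ≤ 342 * C₂ * (a ^ 4 * L) := by gcongr
        _ = (342 * C₂ * a ^ 4) * L := by ring
        _ ≤ 1 / 2 * L := by gcongr
        _ = L / 2 := by ring
    have h5 : (N : ℝ) = Real.exp L := (Real.exp_log hN0).symm
    calc Real.exp (342 * C₂ * ℓ ^ 4) ≤ Real.exp (L + (-2 - E)) := by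
          rw [Real.exp_le_exp]
          linarith
      _ = N * Real.exp (-2 - E) := by rw [Real.exp_add, ← h5]
      _ ≤ N * (1 / 3 * Real.exp (-E)) := mul_le_mul_of_nonneg_left hsplit hN0.le
  have hfin : (N : ℝ) * (Real.exp (-((c₁ * c₂ * ℓ ^ 3 / Real.log ℓ ^ C₁ - C₂ / ℓ) / μ)) +
      ((Y : ℝ) + 1) * (2 : ℝ) ^ (-(c₁ / Real.log ℓ ^ C₁ * z))) ≤
      N * (1 / 3 * Real.exp (-E) + 1 / 3 * Real.exp (-E)) :=
    mul_le_mul_of_nonneg_left (add_le_add hA hB) hN0.le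
  calc _ ≤ (N : ℝ) * (1 / 3 * Real.exp (-E) + 1 / 3 * Real.exp (-E)) +
        N * (1 / 3 * Real.exp (-E)) := add_le_add hfin hC
    _ = N * Real.exp (-E) := by ring

end ES
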