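import Pool.Agent.Lib.ES.R14

/-!
# Row R14: the choice of `Y`
-/

set_option autoImplicit false

open Finset Filter
open scoped BigOperators

namespace ES

/-- Comparison of the main term. -/
theorem R14_asyI {a c C₁ C₂ μ ε : ℝ} (ha : 0 < a) (hc : 0 < c) (hC₂ : 0 ≤ C₂) (hμ : 0 < μ)
    (hε : 0 < ε) (hε1 : ε ≤ 1 / 4) :
    ∀ᶠ ℓ : ℝ in atTop, ((ℓ + 1) / a) ^ (3 - 4 * ε) + 2 ≤
      (c * ℓ ^ 3 / Real.log ℓ ^ C₁ - C₂ / ℓ) / μ := by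
  have h1 : ∀ᶠ ℓ : ℝ in atTop, ‖Real.log ℓ ^ C₁‖ ≤ 1 * ‖ℓ ^ (2 * ε)‖ :=
    (isLittleO_log_rpow_rpow_atTop C₁ (by linarith : 0 < 2 * ε)).bound one_pos
  have h2 : ∀ᶠ ℓ : ℝ in atTop, ((2 / a) ^ (3 - 4 * ε) + 2 + C₂ / μ) * μ / c ≤ ℓ ^ (2 * ε) :=
    (tendsto_rpow_atTop (by linarith : 0 < 2 * ε)).eventually_ge_atTop _
  filter_upwards [h1, h2, eventually_gt_atTop (Real.exp 1), eventually_ge_atTop 1]
    with ℓ hℓ1 hℓ2 hℓ3 hℓ4
  have hℓ0 : 0 < ℓ := by linarith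
  have hlog : 0 < Real.log ℓ := Real.log_pos (lt_trans (by
    have := Real.exp_one_gt_d9
    linarith) hℓ3)
  have hlogC : 0 < Real.log ℓ ^ C₁ := Real.rpow_pos_of_pos hlog _
  have hr : 0 < ℓ ^ (2 * ε) := Real.rpow_pos_of_pos hℓ0 _
  rw [one_mul, Real.norm_of_nonneg hlogC.le, Real.norm_of_nonneg hr.le] at hℓ1
  rw [le_div_iff₀ hμ]
  -- the left side
  set e := 3 - 4 * ε with he
  have he0 : 0 ≤ e := by rw [he]; linarith
  have h3 : ((ℓ + 1) / a) ^ e ≤ (2 / a) ^ e * ℓ ^ e := by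
    rw [← Real.mul_rpow (by positivity) hℓ0.le]
    apply Real.rpow_le_rpow (by positivity) _ he0
    rw [div_mul_eq_mul_div]
    gcongr
    linarith
  have h4 : 1 ≤ ℓ ^ e := Real.one_le_rpow hℓ4 he0
  have h5 : ℓ ^ (2 * ε) * ℓ ^ e * ℓ ^ (2 * ε) = ℓ ^ 3 := by
    rw [← Real.rpow_add hℓ0, ← Real.rpow_add hℓ0, he,
      show 2 * ε + (3 - 4 * ε) + 2 * ε = ((3 : ℕ) : ℝ) by push_cast; ring, Real.rpow_natCast]
  have h6 : ((2 / a) ^ e + 2 + C₂ / μ) * μ ≤ c * ℓ ^ (2 * ε) := by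
    rw [div_le_iff₀ hc] at hℓ2
    linarith
  have h7 : c * (ℓ ^ (2 * ε) * ℓ ^ e) ≤ c * ℓ ^ 3 / Real.log ℓ ^ C₁ := by
    rw [le_div_iff₀ hlogC, mul_assoc]
    apply mul_le_mul_of_nonneg_left _ hc.le
    calc ℓ ^ (2 * ε) * ℓ ^ e * Real.log ℓ ^ C₁ ≤ ℓ ^ (2 * ε) * ℓ ^ e * ℓ ^ (2 * ε) := by gcongr
      _ = ℓ ^ 3 := h5
  have h8 : C₂ / ℓ ≤ C₂ * ℓ ^ e := by
    rw [div_le_iff₀ hℓ0, mul_assoc]
    have h9 : 1 ≤ ℓ ^ e * ℓ := by nlinarith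
    nlinarith
  have h9 : C₂ / μ * μ = C₂ := by field_simp
  have h10 : ((2 / a) ^ e + 2 + C₂ / μ) * μ * ℓ ^ e ≤ c * ℓ ^ (2 * ε) * ℓ ^ e :=
    mul_le_mul_of_nonneg_right h6 (by linarith)
  have h11 : ((2 / a) ^ e + 2 + C₂ / μ) * μ * ℓ ^ e =
      ((2 / a) ^ e * ℓ ^ e + 2 * ℓ ^ e) * μ + C₂ * ℓ ^ e := by
    rw [← h9]
    ring_nf
    field_simp
  have h12 : (((ℓ + 1) / a) ^ e + 2) * μ ≤ ((2 / a) ^ e * ℓ ^ e + 2 * ℓ ^ e) * μ := by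
    apply mul_le_mul_of_nonneg_right _ hμ.le
    linarith
  have h13 : c * ℓ ^ (2 * ε) * ℓ ^ e = c * (ℓ ^ (2 * ε) * ℓ ^ e) := by ring
  linarith

/-- Comparison of the contribution of the bad classes. -/
theorem R14_asyII {a c C₁ ε : ℝ} (ha : 0 < a) (hc : 0 < c) (hε : 0 ≤ ε) (hε1 : ε ≤ 1 / 4) :
    ∀ᶠ ℓ : ℝ in atTop, ℓ + 3 + ((ℓ + 1) / a) ^ (3 - 4 * ε) ≤
      Real.log 2 * (c / Real.log ℓ ^ C₁ * (ℓ ^ 100 - 1)) := by
  have h1 : ∀ᶠ ℓ : ℝ in atTop, ‖Real.log ℓ ^ C₁‖ ≤ 1 * ‖ℓ ^ (1 : ℝ)‖ :=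
    (isLittleO_log_rpow_rpow_atTop C₁ one_pos).bound one_pos
  have h2 : ∀ᶠ ℓ : ℝ in atTop, (4 + (2 / a) ^ (3 - 4 * ε)) / (Real.log 2 * c) ≤ ℓ :=
    eventually_ge_atTop _
  filter_upwards [h1, h2, eventually_gt_atTop (Real.exp 1), eventually_ge_atTop 2]
    with ℓ hℓ1 hℓ2 hℓ3 hℓ4
  have hℓ0 : 0 < ℓ := by linarith
  have hlog : 0 < Real.log ℓ := Real.log_pos (by linarith)
  have hlogC : 0 < Real.log ℓ ^ C₁ := Real.rpow_pos_of_pos hlog _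
  rw [one_mul, Real.norm_of_nonneg hlogC.le, Real.rpow_one, Real.norm_of_nonneg hℓ0.le] at hℓ1
  have hl2 : 0 < Real.log 2 := Real.log_pos one_lt_two
  set e := 3 - 4 * ε with he
  have he0 : 0 ≤ e := by rw [he]; linarith
  have h3 : ((ℓ + 1) / a) ^ e ≤ (2 / a) ^ e * ℓ ^ 3 := by
    have h4 : ((ℓ + 1) / a) ^ e ≤ (2 / a) ^ e * ℓ ^ e := by
      rw [← Real.mul_rpow (by positivity) hℓ0.le]
      apply Real.rpow_le_rpow (by positivity) _ he0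
      rw [div_mul_eq_mul_div]
      gcongr
      linarith
    refine le_trans h4 ?_
    gcongr
    rw [← Real.rpow_natCast ℓ 3]
    apply Real.rpow_le_rpow_of_exponent_le (by linarith)
    rw [he]
    push_cast
    linarith
  have h4 : (4 + (2 / a) ^ e) ≤ Real.log 2 * c * ℓ := by
    rw [div_le_iff₀ (by positivity)] at hℓ2
    linarith
  have h5 : ℓ ^ 99 ≤ ℓ ^ 100 - 1 := by
    have h6 : (1 : ℝ) ≤ ℓ ^ 99 := one_le_pow₀ (by linarith)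
    have h7 : ℓ ^ 100 = ℓ ^ 99 * ℓ := pow_succ _ _
    nlinarith
  have h6 : c * ℓ ^ 98 ≤ c / Real.log ℓ ^ C₁ * (ℓ ^ 100 - 1) := by
    rw [div_mul_eq_mul_div, le_div_iff₀ hlogC, mul_assoc]
    apply mul_le_mul_of_nonneg_left _ hc.le
    calc ℓ ^ 98 * Real.log ℓ ^ C₁ ≤ ℓ ^ 98 * ℓ := by gcongr
      _ = ℓ ^ 99 := (pow_succ _ _).symm
      _ ≤ ℓ ^ 100 - 1 := h5
  have h7 : Real.log 2 * (c * ℓ ^ 98) ≤ Real.log 2 * (c / Real.log ℓ ^ C₁ * (ℓ ^ 100 - 1)) :=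
    mul_le_mul_of_nonneg_left h6 hl2.le
  refine le_trans ?_ h7
  have h8 : ℓ + 3 ≤ 4 * ℓ ^ 3 := by
    have h9 : ℓ ≤ ℓ ^ 3 := le_self_pow₀ (by linarith) (by norm_num)
    linarith
  have h9 : (1 : ℝ) ≤ ℓ ^ 94 := one_le_pow₀ (by linarith)
  calc ℓ + 3 + ((ℓ + 1) / a) ^ e ≤ 4 * ℓ ^ 3 + (2 / a) ^ e * ℓ ^ 3 := by linarith
    _ = (4 + (2 / a) ^ e) * ℓ ^ 3 := by ring
    _ ≤ (Real.log 2 * c * ℓ) * ℓ ^ 3 := by gcongr
    _ = (Real.log 2 * c * ℓ ^ 4) * 1 := by ring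
    _ ≤ (Real.log 2 * c * ℓ ^ 4) * ℓ ^ 94 := by gcongr
    _ = Real.log 2 * (c * ℓ ^ 98) := by ring

/-- Comparison of the error term. -/
theorem R14_asyIII {ε : ℝ} (hε : 0 ≤ ε) :
    ∀ᶠ L : ℝ in atTop, L ^ ((3 : ℝ) / 4 - ε) + 2 ≤ L / 2 := by
  have h1 : ∀ᶠ L : ℝ in atTop, (8 : ℝ) ≤ L ^ ((1 : ℝ) / 4) :=
    (tendsto_rpow_atTop (by norm_num)).eventually_ge_atTop _
  filter_upwards [h1, eventually_ge_atTop 16] with L hL1 hL2
  have hL0 : 0 < L := by linarith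
  have h2 : L ^ ((3 : ℝ) / 4 - ε) ≤ L ^ ((3 : ℝ) / 4) :=
    Real.rpow_le_rpow_of_exponent_le (by linarith) (by linarith)
  have h3 : L ^ ((3 : ℝ) / 4) * L ^ ((1 : ℝ) / 4) = L := by
    rw [← Real.rpow_add hL0]
    norm_num
  have h4 : 0 < L ^ ((3 : ℝ) / 4) := Real.rpow_pos_of_pos hL0 _
  nlinarith

/-- The floor of an exponential. -/
theorem R14_floor {T : ℝ} (hT : 1 ≤ T) :
    Real.exp (T - 1) ≤ (⌊Real.exp T⌋₊ : ℝ) ∧ (⌊Real.exp T⌋₊ : ℝ) ≤ Real.exp T := by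
  refine ⟨?_, Nat.floor_le (Real.exp_pos T).le⟩
  have h1 : Real.exp T < ⌊Real.exp T⌋₊ + 1 := Nat.lt_floor_add_one _
  have h2 : Real.exp T = Real.exp (T - 1) * Real.exp 1 := by
    rw [← Real.exp_add]
    ring_nf
  have h3 : 1 ≤ Real.exp (T - 1) := Real.one_le_exp (by linarith)
  have h4 : (2 : ℝ) ≤ Real.exp 1 := by
    have := Real.exp_one_gt_d9
    linarith
  nlinarith

/-- `exp (-2) ≤ 1 / 3`. -/
theorem R14_exp2 : Real.exp (-2) ≤ 1 / 3 := by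
  rw [Real.exp_neg, inv_eq_one_div]
  apply one_div_le_one_div_of_le (by norm_num)
  have h1 : Real.exp 2 = Real.exp 1 * Real.exp 1 := by
    rw [← Real.exp_add]
    norm_num
  have h2 := Real.exp_one_gt_d9
  rw [h1]
  nlinarith

/-- **R14.** -/
theorem r14 : R14 := by
  intro h1 h2 h14a h14b h12 h13 m hm ε hε
  obtain ⟨c₁, C₁, Y₁, hc₁, hC₁, hY₁, hb⟩ := h14b m hm
  obtain ⟨c₂, C₂, Y₂, hc₂, hC₂, hk⟩ := h13
  -- parameters
  set μ : ℝ := max 2 (2 * (C₁ * (C₂ + 1))) with hμ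
  have hμ2 : 2 ≤ μ := le_max_left _ _
  have hμ0 : 0 < μ := by linarith
  set δ : ℝ := min ε (1 / 4) with hδ
  have hδ0 : 0 < δ := lt_min hε (by norm_num)
  have hδ1 : δ ≤ 1 / 4 := min_le_right _ _
  set a : ℝ := 1 / (684 * (C₂ + 1)) with ha
  have ha0 : 0 < a := by rw [ha]; positivity
  have ha1 : a ≤ 1 := by
    rw [ha, div_le_one (by positivity)]
    linarith
  have ha4 : 342 * C₂ * a ^ 4 ≤ 1 / 2 := by
    have h3 : a ^ 4 ≤ a := pow_le_of_le_one ha0.le ha1 (by norm_num)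
    have h4 : 342 * C₂ * a ≤ 1 / 2 := by
      rw [ha, mul_one_div, div_le_iff₀ (by positivity)]
      linarith
    have h5 : 342 * C₂ * a ^ 4 ≤ 342 * C₂ * a := by gcongr
    linarith
  obtain ⟨ℓ₁, hI⟩ := eventually_atTop.1 ((R14_asyI (C₁ := C₁) (C₂ := C₂) ha0 (mul_pos hc₁ hc₂)
    hC₂.le hμ0 hδ0 hδ1).and (R14_asyII (C₁ := C₁) ha0 hc₁ hδ0.le hδ1))
  -- the limits
  have hlog : Tendsto (fun N : ℕ => Real.log N) atTop atTop :=
    Real.tendsto_log_atTop.comp tendsto_natCast_atTop_atTop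
  have hTt : Tendsto (fun N : ℕ => a * Real.log N ^ ((1 : ℝ) / 4)) atTop atTop :=
    ((tendsto_rpow_atTop (by norm_num)).comp hlog).const_mul_atTop ha0
  have hev1 := hTt.eventually_ge_atTop
    (max (ℓ₁ + 1) (max (Real.log Y₁ + 1) (max (|Y₂| + 1) 17)))
  have hev2 := hlog.eventually (R14_asyIII hδ0.le)
  have hev3 := hlog.eventually_ge_atTop 1
  obtain ⟨N₀, hN₀⟩ := eventually_atTop.1 ((hev1.and hev2).and hev3)
  refine ⟨max N₀ 1, fun N hN x₀ => ?_⟩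
  obtain ⟨⟨hT, hIII⟩, hL1⟩ := hN₀ N (le_trans (le_max_left _ _) hN)
  have hN1 : 1 ≤ N := le_trans (le_max_right _ _) hN
  have hN0 : (0 : ℝ) < N := by exact_mod_cast hN1
  set L := Real.log N with hLdef
  set T := a * L ^ ((1 : ℝ) / 4) with hTdef
  have hT1 : ℓ₁ + 1 ≤ T := le_trans (le_max_left _ _) hT
  have hT2 : Real.log Y₁ + 1 ≤ T :=
    le_trans (le_trans (le_max_left _ _) (le_max_right _ _)) hT
  have hT3 : |Y₂| + 1 ≤ T :=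
    le_trans (le_trans (le_trans (le_max_left _ _) (le_max_right _ _)) (le_max_right _ _)) hT
  have hT4 : 17 ≤ T :=
    le_trans (le_trans (le_trans (le_max_right _ _) (le_max_right _ _)) (le_max_right _ _)) hT
  obtain ⟨hf1, hf2⟩ := R14_floor (T := T) (by linarith)
  set Y := ⌊Real.exp T⌋₊ with hY
  have hexpT : T ≤ Real.exp (T - 1) := by
    have := Real.add_one_le_exp (T - 1)
    linarith
  have hYT : T ≤ Y := le_trans hexpT hf1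
  have hY16 : 16 ≤ Y := by
    have h3 : ((16 : ℕ) : ℝ) ≤ Y := by push_cast; linarith
    exact_mod_cast h3
  have hYpos : (0 : ℝ) < Y := by linarith
  have hYY₁ : Y₁ ≤ Y := by
    refine le_trans ?_ hf1
    have h3 : 0 < Y₁ := by linarith
    rw [← Real.log_le_iff_le_exp h3]
    linarith
  have hYY₂ : Y₂ ≤ Y := by
    have := le_abs_self Y₂
    linarith
  set ℓ := Real.log Y with hℓ
  have hℓT : ℓ ≤ T := by
    rw [hℓ, Real.log_le_iff_le_exp hYpos]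
    exact hf2
  have hTℓ : T ≤ ℓ + 1 := by
    have h3 : T - 1 ≤ ℓ := by
      rw [hℓ, Real.le_log_iff_exp_le hYpos]
      exact hf1
    linarith
  have hℓ16 : 16 ≤ ℓ := by linarith
  obtain ⟨hI1, hI2⟩ := hI ℓ (by linarith)
  -- the value of `z`
  set z := ⌊ℓ ^ 100⌋₊ with hz
  have hz1 : 1 ≤ z := by
    rw [hz]
    apply Nat.le_floor
    push_cast
    exact one_le_pow₀ (by linarith)
  have hz2 : ℓ ^ 100 - 1 ≤ z := by
    have := Nat.lt_floor_add_one (ℓ ^ 100)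
    linarith
  obtain ⟨k, x, y1, y2, hk1, hk2, hk3, hk4⟩ := hk Y hYY₂
  have hcore := R14_core h2 (h14a h1) h12 hm hc₁ hC₁ hc₂ hC₂ hμ2 (le_max_right _ _) hY16 hz1
    (fun x y1 y2 b q1 q2 q3 q4 q5 => hb Y z x y1 y2 b hYY₁ hz q1 q2 q3 q4 q5)
    x y1 y2 hk1 hk2 hk3 hk4 x₀ N
  refine le_trans hcore ?_
  -- the exponents
  have hL0 : 0 < L := by linarith
  set E := L ^ ((3 : ℝ) / 4 - δ) with hE
  have hQ : E ≤ ((ℓ + 1) / a) ^ (3 - 4 * δ) := by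
    have h3 : L ^ ((1 : ℝ) / 4) ≤ (ℓ + 1) / a := by
      rw [le_div_iff₀ ha0]
      linarith
    have h4 : E = (L ^ ((1 : ℝ) / 4)) ^ (3 - 4 * δ) := by
      rw [← Real.rpow_mul hL0.le, hE]
      congr 1
      ring
    rw [h4]
    exact Real.rpow_le_rpow (Real.rpow_nonneg hL0.le _) h3 (by linarith)
  have hEε : Real.exp (-E) ≤ Real.exp (-L ^ ((3 : ℝ) / 4 - ε)) := by
    rw [Real.exp_le_exp, neg_le_neg_iff, hE]
    apply Real.rpow_le_rpow_of_exponent_le hL1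
    have : δ ≤ ε := min_le_left _ _
    linarith
  have hexp2 := R14_exp2
  have hE0 := Real.exp_pos (-E)
  have hsplit : Real.exp (-2 - E) ≤ 1 / 3 * Real.exp (-E) := by
    have h3 : Real.exp (-2 - E) = Real.exp (-2) * Real.exp (-E) := by
      rw [← Real.exp_add]
      ring_nf
    rw [h3]
    exact mul_le_mul_of_nonneg_right hexp2 hE0.le
  -- first term
  have hA : Real.exp (-((c₁ * c₂ * ℓ ^ 3 / Real.log ℓ ^ C₁ - C₂ / ℓ) / μ)) ≤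
      1 / 3 * Real.exp (-E) := by
    refine le_trans ?_ hsplit
    rw [Real.exp_le_exp]
    linarith
  -- second term
  have hB : ((Y : ℝ) + 1) * (2 : ℝ) ^ (-(c₁ / Real.log ℓ ^ C₁ * z)) ≤
      1 / 3 * Real.exp (-E) := by
    refine le_trans ?_ hsplit
    have h3 : (Y : ℝ) + 1 ≤ Real.exp (ℓ + 1) := by
      rw [Real.exp_add, hℓ, Real.exp_log hYpos]
      have := Real.exp_one_gt_d9
      nlinarith
    have h4 : (2 : ℝ) ^ (-(c₁ / Real.log ℓ ^ C₁ * z)) =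
        Real.exp (-(Real.log 2 * (c₁ / Real.log ℓ ^ C₁ * z))) := by
      rw [Real.rpow_def_of_pos (by norm_num)]
      congr 1
      ring
    rw [h4]
    refine le_trans (mul_le_mul_of_nonneg_right h3 (Real.exp_pos _).le) ?_
    rw [← Real.exp_add, Real.exp_le_exp]
    have h5 : 0 ≤ c₁ / Real.log ℓ ^ C₁ := by
      apply div_nonneg hc₁.le
      exact Real.rpow_nonneg (Real.log_nonneg (by linarith)) _
    have h6 : c₁ / Real.log ℓ ^ C₁ * (ℓ ^ 100 - 1) ≤ c₁ / Real.log ℓ ^ C₁ * z :=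
      mul_le_mul_of_nonneg_left hz2 h5
    have h7 : Real.log 2 * (c₁ / Real.log ℓ ^ C₁ * (ℓ ^ 100 - 1)) ≤
        Real.log 2 * (c₁ / Real.log ℓ ^ C₁ * z) :=
      mul_le_mul_of_nonneg_left h6 (Real.log_nonneg (by norm_num))
    linarith
  -- third term
  have hC : Real.exp (342 * C₂ * ℓ ^ 4) ≤ N * (1 / 3 * Real.exp (-E)) := by
    have h3 : ℓ ^ 4 ≤ a ^ 4 * L := by
      have h4 : ℓ ^ 4 ≤ T ^ 4 := pow_le_pow_left₀ (by linarith) hℓT 4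
      have h5 : T ^ 4 = a ^ 4 * L := by
        rw [hTdef, mul_pow]
        congr 1
        rw [← Real.rpow_natCast, ← Real.rpow_mul hL0.le]
        norm_num
      linarith
    have h4 : 342 * C₂ * ℓ ^ 4 ≤ L / 2 := by
      calc 342 * C₂ * ℓ ^ 4 ≤ 342 * C₂ * (a ^ 4 * L) := by gcongr
        _ = (342 * C₂ * a ^ 4) * L := by ring
        _ ≤ 1 / 2 * L := by gcongr
        _ = L / 2 := by ring
    have h5 : (N : ℝ) = Real.exp L := (Real.exp_log hN0).symm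
    calc Real.exp (342 * C₂ * ℓ ^ 4) ≤ Real.exp (L + (-2 - E)) := by
          rw [Real.exp_le_exp]
          linarith
      _ = N * Real.exp (-2 - E) := by rw [Real.exp_add, ← h5]
      _ ≤ N * (1 / 3 * Real.exp (-E)) := mul_le_mul_of_nonneg_left hsplit hN0.le
  have hfin : (N : ℝ) * (Real.exp (-((c₁ * c₂ * ℓ ^ 3 / Real.log ℓ ^ C₁ - C₂ / ℓ) / μ)) +
      ((Y : ℝ) + 1) * (2 : ℝ) ^ (-(c₁ / Real.log ℓ ^ C₁ * z))) ≤
      N * (1 / 3 * Real.exp (-E) + 1 / 3 * Real.exp (-E)) :=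
    mul_le_mul_of_nonneg_left (add_le_add hA hB) hN0.le
  calc _ ≤ (N : ℝ) * (1 / 3 * Real.exp (-E) + 1 / 3 * Real.exp (-E)) +
        N * (1 / 3 * Real.exp (-E)) := add_le_add hfin hC
    _ = N * Real.exp (-E) := by ring
    _ ≤ N * Real.exp (-L ^ ((3 : ℝ) / 4 - ε)) := mul_le_mul_of_nonneg_left hEε hN0.le

end ES
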