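import Pool.Agent.Lib.ES.Defs

open Finset

namespace ES

lemma mem_EE {m Y z y1 y2 : ℕ} {e : Ev} : e ∈ EE m Y z y1 y2 ↔
    (y1 < e.p ∧ e.p ≤ y2) ∧ (1 ≤ e.u ∧ e.u ≤ Y) ∧ (Y ^ 6 < e.a ∧ e.a ≤ Y ^ 7) ∧
      (1 ≤ e.c ∧ e.c ≤ Y) ∧ e.p.Prime ∧ Rough z e.u ∧ Rough z e.a ∧ Rough z e.c ∧
      Nat.Coprime e.a e.c ∧ m * e.a * e.c ∣ e.p * e.u + 1 := by
  classical
  unfold EE
  simp only [mem_image, mem_filter, mem_product, mem_Ioc, mem_Icc, Prod.exists]
  constructor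
  · rintro ⟨p, u, a, c, ⟨⟨hp, hu, ha, hc⟩, h1, h2, h3, h4, h5, h6⟩, rfl⟩
    exact ⟨hp, hu, ha, hc, h1, h2, h3, h4, h5, h6⟩
  · rintro ⟨hp, hu, ha, hc, h1, h2, h3, h4, h5, h6⟩
    exact ⟨e.p, e.u, e.a, e.c, ⟨⟨hp, hu, ha, hc⟩, h1, h2, h3, h4, h5, h6⟩, rfl⟩

/-- the modulus is coprime to `p` and to `u` -/
lemma EE_coprime {m Y z y1 y2 : ℕ} {e : Ev} (h : e ∈ EE m Y z y1 y2) :
    Nat.Coprime (m * e.a * e.c) (e.p * e.u) := by
  obtain ⟨-, -, -, -, -, -, -, -, -, hd⟩ := mem_EE.1 h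
  have h1 : Nat.Coprime (e.p * e.u + 1) (e.p * e.u) := by
    rw [Nat.coprime_self_add_left]
    exact Nat.coprime_one_left _
  exact Nat.Coprime.coprime_dvd_left hd h1

theorem R14a_proof : R14a := by
  classical
  intro hR1 m Y z y1 y2 hm hY hy
  refine ⟨?_, ?_, ?_, ?_⟩
  · intro e he
    obtain ⟨hp, hu, ha, hc, hpr, hru, hra, hrc, hac, hd⟩ := mem_EE.1 he
    have hYp : Y < e.p := by
      calc Y ≤ Y ^ 80 := Nat.le_self_pow (by norm_num) Y
        _ ≤ y1 := hy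
        _ < e.p := hp.1
    refine ⟨hpr, Nat.dvd_factorial hu.1 hu.2, ?_, ?_, hp.1, hp.2⟩
    · rw [Nat.Prime.coprime_iff_not_dvd hpr]
      intro hdiv
      exact absurd ((Nat.Prime.dvd_factorial hpr).1 hdiv) (by omega)
    · exact Nat.Coprime.coprime_dvd_left (Dvd.intro_left (m * e.a) rfl) (EE_coprime he)
  · intro e he e' he' hne hpp n ⟨hn, hn'⟩
    apply hne
    obtain ⟨hp, hu, ha, hc, hpr, hru, hra, hrc, hac, hd⟩ := mem_EE.1 he
    obtain ⟨hp', hu', ha', hc', hpr', hru', hra', hrc', hac', hd'⟩ := mem_EE.1 he'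
    unfold Ev.Holds at hn hn'
    have h1 : e.p ∣ e.c * n + e.a := (Dvd.intro _ rfl : e.p ∣ e.p * e.u).trans hn
    have h2 : e.p ∣ e'.c * n + e'.a := by
      rw [hpp]
      exact (Dvd.intro _ rfl : e'.p ∣ e'.p * e'.u).trans hn'
    have h3 : (e.p : ℤ) ∣ (e.a : ℤ) * e'.c - e'.a * e.c := by
      have h1' : (e.p : ℤ) ∣ (e.c : ℤ) * n + e.a := by exact_mod_cast h1
      have h2' : (e.p : ℤ) ∣ (e'.c : ℤ) * n + e'.a := by exact_mod_cast h2
      have h4 : (e.a : ℤ) * e'.c - e'.a * e.c =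
          e'.c * ((e.c : ℤ) * n + e.a) - e.c * ((e'.c : ℤ) * n + e'.a) := by ring
      rw [h4]
      exact dvd_sub (Dvd.dvd.mul_left h1' _) (Dvd.dvd.mul_left h2' _)
    have hYp : Y ^ 8 < e.p := by
      calc Y ^ 8 ≤ Y ^ 80 := Nat.pow_le_pow_right (by omega) (by norm_num)
        _ ≤ y1 := hy
        _ < e.p := hp.1
    have hb1 : e.a * e'.c ≤ Y ^ 8 := by
      calc e.a * e'.c ≤ Y ^ 7 * Y := Nat.mul_le_mul ha.2 hc'.2
        _ = Y ^ 8 := by ring
    have hb2 : e'.a * e.c ≤ Y ^ 8 := by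
      calc e'.a * e.c ≤ Y ^ 7 * Y := Nat.mul_le_mul ha'.2 hc.2
        _ = Y ^ 8 := by ring
    have h5 : (e.a : ℤ) * e'.c - e'.a * e.c = 0 := by
      apply Int.eq_zero_of_abs_lt_dvd h3
      have hb1' : (e.a : ℤ) * e'.c ≤ (Y : ℤ) ^ 8 := by exact_mod_cast hb1
      have hb2' : (e'.a : ℤ) * e.c ≤ (Y : ℤ) ^ 8 := by exact_mod_cast hb2
      have hYp' : (Y : ℤ) ^ 8 < e.p := by exact_mod_cast hYp
      have hn1 : (0 : ℤ) ≤ (e.a : ℤ) * e'.c := by positivity
      have hn2 : (0 : ℤ) ≤ (e'.a : ℤ) * e.c := by positivity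
      rw [abs_lt]
      constructor <;> linarith
    have h6 : e.a * e'.c = e'.a * e.c := by
      have : (e.a : ℤ) * e'.c = e'.a * e.c := by linarith
      exact_mod_cast this
    have haa : e.a = e'.a := by
      apply Nat.dvd_antisymm
      · have : e.a ∣ e'.a * e.c := by rw [← h6]; exact Dvd.intro _ rfl
        exact hac.dvd_of_dvd_mul_right this
      · have : e'.a ∣ e.a * e'.c := by rw [h6]; exact Dvd.intro _ rfl
        exact hac'.dvd_of_dvd_mul_right this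
    have hapos : 0 < e.a := by omega
    have hcc : e.c = e'.c := by
      rw [← haa] at h6
      exact (Nat.eq_of_mul_eq_mul_left hapos h6).symm
    have huu : e.u = e'.u := by
      have hd2 : m * e.a * e.c ∣ e.p * e'.u + 1 := by
        rw [haa, hcc, hpp]; exact hd'
      have hcp : IsCoprime ((m * e.a * e.c : ℕ) : ℤ) (e.p : ℤ) := by
        rw [Nat.isCoprime_iff_coprime]
        exact Nat.Coprime.coprime_dvd_right (Dvd.intro _ rfl) (EE_coprime he)
      have h7 : ((m * e.a * e.c : ℕ) : ℤ) ∣ (e.p : ℤ) * ((e.u : ℤ) - e'.u) := by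
        have hd1' : ((m * e.a * e.c : ℕ) : ℤ) ∣ (e.p : ℤ) * e.u + 1 := by exact_mod_cast hd
        have hd2' : ((m * e.a * e.c : ℕ) : ℤ) ∣ (e.p : ℤ) * e'.u + 1 := by exact_mod_cast hd2
        have : (e.p : ℤ) * ((e.u : ℤ) - e'.u) =
            ((e.p : ℤ) * e.u + 1) - ((e.p : ℤ) * e'.u + 1) := by ring
        rw [this]
        exact dvd_sub hd1' hd2'
      have h8 : ((m * e.a * e.c : ℕ) : ℤ) ∣ (e.u : ℤ) - e'.u := hcp.dvd_of_dvd_mul_left h7
      have h9 : Y < m * e.a * e.c := by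
        calc Y ≤ Y ^ 6 := Nat.le_self_pow (by norm_num) Y
          _ < e.a := ha.1
          _ = 1 * e.a * 1 := by ring
          _ ≤ m * e.a * e.c := Nat.mul_le_mul (Nat.mul_le_mul hm le_rfl) hc.1
      have h10 : (e.u : ℤ) - e'.u = 0 := by
        apply Int.eq_zero_of_abs_lt_dvd h8
        have k1 : (e.u : ℤ) ≤ Y := by exact_mod_cast hu.2
        have k2 : (e'.u : ℤ) ≤ Y := by exact_mod_cast hu'.2
        have k3 : (Y : ℤ) < ((m * e.a * e.c : ℕ) : ℤ) := by exact_mod_cast h9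
        have k4 : (0 : ℤ) ≤ e.u := by positivity
        have k5 : (0 : ℤ) ≤ e'.u := by positivity
        rw [abs_lt]
        constructor <;> linarith
      omega
    cases e
    cases e'
    simp only [Ev.mk.injEq]
    exact ⟨hpp, huu, haa, hcc⟩
  · intro e he n hn hh
    obtain ⟨hp, hu, ha, hc, hpr, hru, hra, hrc, hac, hd⟩ := mem_EE.1 he
    obtain ⟨d, hd⟩ := hd
    have hdpos : 0 < d := by
      rcases Nat.eq_zero_or_pos d with h | h
      · subst h; simp at hd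
      · exact h
    exact hR1 m e.a e.c d e.p e.u n hm (by omega) hc.1 hdpos hn hd hh
  · have h1 : (EE m Y z y1 y2).card ≤ y2 * (Y * (Y ^ 7 * Y)) := by
      unfold EE
      refine card_image_le.trans ((card_filter_le _ _).trans ?_)
      rw [card_product, card_product, card_product]
      refine Nat.mul_le_mul ?_ (Nat.mul_le_mul ?_ (Nat.mul_le_mul ?_ ?_))
      · simp
      · simp
      · simp
      · simp
    have h2 : (((EE m Y z y1 y2).card : ℕ) : ℝ) ≤ ((y2 * (Y * (Y ^ 7 * Y)) : ℕ) : ℝ) := by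
      exact_mod_cast h1
    refine h2.trans (le_of_eq ?_)
    push_cast
    ring

end ES
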