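import Pool.Agent.Lib.ES.Defs

/-!
# Tank ES, row R14b: the conditional means of a block
-/

open Finset
open scoped BigOperators

namespace ES

namespace R14bAux

lemma rough_cop {z a m : ℕ} (h : Rough z a) (hm : 1 ≤ m) (hmz : m ≤ z) : Nat.Coprime m a := by
  by_contra hne
  obtain ⟨q, hq, hqd⟩ := Nat.exists_prime_and_dvd hne
  have h1 : q ∣ m := hqd.trans (Nat.gcd_dvd_left _ _)
  have h2 : q ∣ a := hqd.trans (Nat.gcd_dvd_right _ _)
  have h3 := h q hq h2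
  have h4 := Nat.le_of_dvd (by omega) h1
  omega

/-- the class `-1 / u` modulo `q` -/
lemma exists_gamma {u q : ℕ} (hq : 1 ≤ q) (hu : Nat.Coprime u q) :
    ∃ γ : ℕ, (∀ n : ℕ, q ∣ n * u + 1 ↔ n % q = γ % q) ∧ γ.Coprime q := by
  have : NeZero q := ⟨by omega⟩
  let v : (ZMod q)ˣ := ZMod.unitOfCoprime u hu
  have hv : (v : ZMod q) = (u : ZMod q) := ZMod.coe_unitOfCoprime u hu
  have key : ∀ n : ℕ, q ∣ n * u + 1 ↔ n % q = (-((v⁻¹ : (ZMod q)ˣ) : ZMod q)).val % q := by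
    intro n
    rw [← ZMod.natCast_eq_natCast_iff', ZMod.natCast_zmod_val, ← ZMod.natCast_eq_zero_iff]
    push_cast
    rw [← hv]
    constructor
    · intro h
      have h1 : (n : ZMod q) * v = -1 := by linear_combination h
      calc (n : ZMod q) = (n : ZMod q) * v * ((v⁻¹ : (ZMod q)ˣ) : ZMod q) := by
            rw [mul_assoc, Units.mul_inv, mul_one]
        _ = _ := by rw [h1]; ring
    · intro h
      rw [h]
      have : ((v⁻¹ : (ZMod q)ˣ) : ZMod q) * (v : ZMod q) = 1 := Units.inv_mul v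
      linear_combination -this
  refine ⟨_, key, ?_⟩
  have h := (key ((-((v⁻¹ : (ZMod q)ˣ) : ZMod q)).val)).2 rfl
  set γ := (-((v⁻¹ : (ZMod q)ˣ) : ZMod q)).val
  have h1 : Nat.gcd γ q ∣ γ * u := (Nat.gcd_dvd_left γ q).mul_right u
  have h2 : Nat.gcd γ q ∣ γ * u + 1 := (Nat.gcd_dvd_right γ q).trans h
  have h3 : Nat.gcd γ q ∣ 1 := (Nat.dvd_add_right h1).1 h2
  exact Nat.dvd_one.1 h3

/-- inner sum of a triple -/
noncomputable def inn (m y1 y2 : ℕ) (t : ℕ × ℕ × ℕ) : ℝ :=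
  ∑ p ∈ (Ioc y1 y2).filter (fun p => p.Prime ∧ m * t.2.1 * t.2.2 ∣ p * t.1 + 1), (1 : ℝ) / p

lemma meanW_eq (m Y z y1 y2 b : ℕ) :
    meanW (EE m Y z y1 y2) b = ∑ t ∈ TT Y z b, inn m y1 y2 t := by
  classical
  unfold meanW compat EE TT inn
  rw [Finset.filter_image, Finset.sum_image]
  · rw [Finset.filter_filter, Finset.sum_filter, Finset.sum_product, Finset.sum_comm,
      Finset.sum_filter]
    refine Finset.sum_congr rfl fun t _ => ?_
    rw [Finset.sum_filter]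
    by_cases ht : Rough z t.1 ∧ Rough z t.2.1 ∧ Rough z t.2.2 ∧ Nat.Coprime t.2.1 t.2.2 ∧
      Nat.Coprime t.1 (t.2.1 * t.2.2) ∧ t.1 ∣ t.2.2 * b + t.2.1
    · rw [if_pos ht]
      refine Finset.sum_congr rfl fun p _ => ?_
      by_cases hp : p.Prime ∧ m * t.2.1 * t.2.2 ∣ p * t.1 + 1
      · rw [if_pos hp, if_pos]
        exact ⟨⟨hp.1, ht.1, ht.2.1, ht.2.2.1, ht.2.2.2.1, hp.2⟩, ht.2.2.2.2.2⟩
      · rw [if_neg hp, if_neg]
        rintro ⟨⟨h1, _, _, _, _, h6⟩, _⟩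
        exact hp ⟨h1, h6⟩
    · rw [if_neg ht]
      refine Finset.sum_eq_zero fun p _ => ?_
      rw [if_neg]
      rintro ⟨⟨_, h2, h3, h4, h5, h6⟩, h7⟩
      refine ht ⟨h2, h3, h4, h5, ?_, h7⟩
      have h8 : t.2.1 * t.2.2 ∣ p * t.1 + 1 := (Dvd.intro_left m (by ring)).trans h6
      have h9 : Nat.gcd t.1 (t.2.1 * t.2.2) ∣ p * t.1 := (Nat.gcd_dvd_left _ _).mul_left p
      have h10 : Nat.gcd t.1 (t.2.1 * t.2.2) ∣ p * t.1 + 1 := (Nat.gcd_dvd_right _ _).trans h8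
      exact Nat.dvd_one.1 ((Nat.dvd_add_right h9).1 h10)
  · rintro ⟨p, u, a, c⟩ _ ⟨p', u', a', c'⟩ _ h
    simp only [Ev.mk.injEq] at h
    obtain ⟨h1, h2, h3, h4⟩ := h
    subst h1; subst h2; subst h3; subst h4
    rfl

lemma thetaAP_nonneg (y1 y2 q γ : ℕ) : 0 ≤ thetaAP y1 y2 q γ :=
  Finset.sum_nonneg fun p _ => Real.log_natCast_nonneg p

lemma thetaAP_le (y1 y2 q γ : ℕ) : thetaAP y1 y2 q γ ≤ thetaAP y1 y2 1 0 := by
  unfold thetaAP
  refine Finset.sum_le_sum_of_subset_of_nonneg ?_ fun p _ _ => Real.log_natCast_nonneg p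
  intro p hp
  simp only [Finset.mem_filter] at hp ⊢
  exact ⟨hp.1, hp.2.1, by rw [Nat.mod_one, Nat.mod_one]⟩

lemma inn_le {m y1 y2 x γ : ℕ} {t : ℕ × ℕ × ℕ} (hx : 2 ≤ x) (h1 : x ≤ y1)
    (hγ : ∀ n : ℕ, m * t.2.1 * t.2.2 ∣ n * t.1 + 1 ↔ n % (m * rr t) = γ % (m * rr t)) :
    inn m y1 y2 t ≤ thetaAP y1 y2 (m * rr t) γ / (x * Real.log x) := by
  unfold inn thetaAP
  rw [Finset.sum_div]
  have hlx : 0 < Real.log x := Real.log_pos (by exact_mod_cast hx)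
  have hx0 : (0 : ℝ) < x := by exact_mod_cast (by omega : 0 < x)
  rw [show (Ioc y1 y2).filter (fun p => p.Prime ∧ m * t.2.1 * t.2.2 ∣ p * t.1 + 1) =
    (Ioc y1 y2).filter (fun p => p.Prime ∧ p % (m * rr t) = γ % (m * rr t)) from
    Finset.filter_congr fun p _ => by rw [hγ p]]
  refine Finset.sum_le_sum fun p hp => ?_
  simp only [Finset.mem_filter, Finset.mem_Ioc] at hp
  have hpx : (x : ℝ) ≤ p := by exact_mod_cast (by omega : x ≤ p)
  have hlp : Real.log x ≤ Real.log p := Real.log_le_log hx0 hpx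
  rw [div_le_div_iff₀ (by linarith) (by positivity)]
  nlinarith [mul_le_mul hpx hlp hlx.le (by linarith : (0 : ℝ) ≤ p)]

lemma le_inn {m y1 y2 x γ : ℕ} {t : ℕ × ℕ × ℕ} (hx : 2 ≤ x) (h1 : x ≤ y1) (h2 : y2 ≤ 2 * x)
    (hγ : ∀ n : ℕ, m * t.2.1 * t.2.2 ∣ n * t.1 + 1 ↔ n % (m * rr t) = γ % (m * rr t)) :
    thetaAP y1 y2 (m * rr t) γ / (4 * (x * Real.log x)) ≤ inn m y1 y2 t := by
  unfold inn thetaAP
  rw [Finset.sum_div]
  have hlx : 0 < Real.log x := Real.log_pos (by exact_mod_cast hx)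
  have hx0 : (0 : ℝ) < x := by exact_mod_cast (by omega : 0 < x)
  rw [show (Ioc y1 y2).filter (fun p => p.Prime ∧ m * t.2.1 * t.2.2 ∣ p * t.1 + 1) =
    (Ioc y1 y2).filter (fun p => p.Prime ∧ p % (m * rr t) = γ % (m * rr t)) from
    Finset.filter_congr fun p _ => by rw [hγ p]]
  refine Finset.sum_le_sum fun p hp => ?_
  simp only [Finset.mem_filter, Finset.mem_Ioc] at hp
  have hpx : (p : ℝ) ≤ 2 * x := by exact_mod_cast (by omega : p ≤ 2 * x)
  have hp0 : (0 : ℝ) < p := by exact_mod_cast (by omega : 0 < p)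
  have hx2 : (2 : ℝ) ≤ x := by exact_mod_cast hx
  have hlp : Real.log p ≤ 2 * Real.log x := by
    have h3 : Real.log p ≤ Real.log (x * x) :=
      Real.log_le_log hp0 (hpx.trans (by nlinarith))
    rw [Real.log_mul hx0.ne' hx0.ne'] at h3
    linarith
  rw [div_le_div_iff₀ (by positivity) hp0]
  have h5 : Real.log p * p ≤ (2 * Real.log x) * (2 * x) :=
    mul_le_mul hlp hpx hp0.le (by positivity)
  nlinarith

lemma card_TT (Y z b : ℕ) : ((TT Y z b).card : ℝ) ≤ (Y : ℝ) ^ 9 := by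
  classical
  have h : (TT Y z b).card ≤ Y ^ 9 := by
    unfold TT
    refine (Finset.card_filter_le _ _).trans ?_
    rw [Finset.card_product, Finset.card_product, Nat.card_Icc, Nat.card_Ioc]
    have h1 : Y ^ 7 - Y ^ 6 ≤ Y ^ 7 := Nat.sub_le _ _
    calc (Y + 1 - 1) * ((Y ^ 7 - Y ^ 6) * (Y + 1 - 1)) ≤ Y * (Y ^ 7 * Y) := by
          rw [Nat.add_sub_cancel]
          exact Nat.mul_le_mul_left _ (Nat.mul_le_mul_right _ h1)
      _ = Y ^ 9 := by ring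
  exact_mod_cast h

lemma mem_TT {Y z b : ℕ} {t : ℕ × ℕ × ℕ} (ht : t ∈ TT Y z b) :
    (1 ≤ t.1 ∧ t.1 ≤ Y) ∧ (Y ^ 6 < t.2.1 ∧ t.2.1 ≤ Y ^ 7) ∧ (1 ≤ t.2.2 ∧ t.2.2 ≤ Y) ∧
    Rough z t.1 ∧ Rough z t.2.1 ∧ Rough z t.2.2 ∧ Nat.Coprime t.2.1 t.2.2 ∧
      Nat.Coprime t.1 (t.2.1 * t.2.2) ∧ t.1 ∣ t.2.2 * b + t.2.1 := by
  unfold TT at ht
  simp only [Finset.mem_filter, Finset.mem_product, Finset.mem_Icc, Finset.mem_Ioc] at ht
  tauto

/-- the classes -/
lemma exists_gam {m Y z b : ℕ} (hm : 1 ≤ m) (hmz : m ≤ z) :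
    ∃ γ : ℕ × ℕ × ℕ → ℕ, ∀ t ∈ TT Y z b,
      (∀ n : ℕ, m * t.2.1 * t.2.2 ∣ n * t.1 + 1 ↔ n % (m * rr t) = γ t % (m * rr t)) ∧
      (γ t).Coprime (m * rr t) := by
  have h : ∀ t ∈ TT Y z b, ∃ g : ℕ,
      (∀ n : ℕ, m * t.2.1 * t.2.2 ∣ n * t.1 + 1 ↔ n % (m * rr t) = g % (m * rr t)) ∧
      g.Coprime (m * rr t) := by
    intro t ht
    obtain ⟨h1, h2, h3, h4, h5, h6, h7, h8, h9⟩ := mem_TT ht
    have hc : Nat.Coprime t.1 (m * rr t) :=
      Nat.Coprime.mul_right (rough_cop h4 hm hmz).symm h8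
    have hpos : 1 ≤ m * rr t := by
      unfold rr
      have : 0 < t.2.1 := by omega
      have : 0 < t.2.2 := by omega
      have : 0 < m * (t.2.1 * t.2.2) := by positivity
      omega
    obtain ⟨g, hg1, hg2⟩ := exists_gamma hpos hc
    refine ⟨g, fun n => ?_, hg2⟩
    rw [← hg1 n]
    unfold rr
    rw [mul_assoc]
  choose! γ hγ using h
  exact ⟨γ, hγ⟩

lemma adm {m Y z b x : ℕ} {γ : ℕ × ℕ × ℕ → ℕ} {Δ : ℝ} (hm : 1 ≤ m) (hmz : m ≤ z)
    (hx : Y ^ 80 ≤ x)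
    (hγ : ∀ t ∈ TT Y z b, (γ t).Coprime (m * rr t))
    (hΔ : ∀ q : ℕ, 2 ≤ q → ∑ t ∈ (TT Y z b).filter (fun t => q ∣ rr t), (1 : ℝ) / rr t ≤ Δ) :
    Adm m x (TT Y z b) rr γ Δ := by
  refine ⟨?_, ?_, hγ, ?_, hΔ⟩
  · intro t ht
    obtain ⟨h1, h2, h3, -⟩ := mem_TT ht
    unfold rr
    have : 0 < t.2.1 := by omega
    have : 0 < t.2.2 := by omega
    have : 0 < t.2.1 * t.2.2 := by positivity
    omega
  · intro t ht
    obtain ⟨h1, h2, h3, -⟩ := mem_TT ht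
    unfold rr
    calc (t.2.1 * t.2.2) ^ 10 ≤ (Y ^ 7 * Y) ^ 10 :=
          Nat.pow_le_pow_left (Nat.mul_le_mul h2.2 h3.2) 10
      _ = Y ^ 80 := by ring
      _ ≤ x := hx
  · intro t ht
    obtain ⟨-, -, -, h4, h5, h6, -⟩ := mem_TT ht
    unfold rr
    exact Nat.Coprime.mul_right (rough_cop h5 hm hmz) (rough_cop h6 hm hmz)

/-- exchange of the sums -/
lemma sum_phi (T : Finset (ℕ × ℕ × ℕ)) (r γ : ℕ × ℕ × ℕ → ℕ) (y1 y2 m : ℕ) :
    ∑ t ∈ T, thetaAP y1 y2 m (γ t) / r t =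
      ∑ p ∈ (Ioc y1 y2).filter (fun p => p.Prime ∧ p % 1 = 0 % 1),
        Real.log p * ∑ t ∈ T.filter (fun t => p % m = γ t % m), (1 : ℝ) / r t := by
  unfold thetaAP
  simp only [Finset.sum_filter, Finset.mul_sum, Finset.sum_div]
  rw [Finset.sum_comm]
  refine Finset.sum_congr rfl fun p _ => ?_
  by_cases hp : p.Prime
  · have h1 : p.Prime ∧ p % 1 = 0 % 1 := ⟨hp, by rw [Nat.mod_one, Nat.mod_one]⟩
    rw [if_pos h1]
    refine Finset.sum_congr rfl fun t _ => ?_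
    by_cases h : p % m = γ t % m
    · rw [if_pos ⟨hp, h⟩, if_pos h]; ring
    · rw [if_neg (fun h' => h h'.2), if_neg h]; simp
  · have h1 : ¬ (p.Prime ∧ p % 1 = 0 % 1) := fun h => hp h.1
    rw [if_neg h1]
    refine Finset.sum_eq_zero fun t _ => ?_
    rw [if_neg (fun h' => hp h'.1)]; simp

/-- lower bound of the main term -/
lemma le_sum_phi {m Y z b y1 y2 : ℕ} {γ : ℕ × ℕ × ℕ → ℕ} {κ : ℝ} (hm : 1 ≤ m)
    (hy : m ≤ y1)
    (hγ : ∀ t ∈ TT Y z b,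
      (∀ n : ℕ, m * t.2.1 * t.2.2 ∣ n * t.1 + 1 ↔ n % (m * rr t) = γ t % (m * rr t)))
    (hκ : ∀ ρ : ℕ, ρ.Coprime m →
      κ ≤ ∑ t ∈ (TT Y z b).filter (fun t => t.1 % m = ρ % m), (1 : ℝ) / rr t) :
    κ * thetaAP y1 y2 1 0 ≤ ∑ t ∈ TT Y z b, thetaAP y1 y2 m (γ t) / rr t := by
  rw [sum_phi]
  unfold thetaAP
  rw [Finset.mul_sum]
  refine Finset.sum_le_sum fun p hp => ?_
  simp only [Finset.mem_filter, Finset.mem_Ioc] at hp
  rw [mul_comm]
  refine mul_le_mul_of_nonneg_left ?_ (Real.log_natCast_nonneg p)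
  -- `p` is coprime to `m`
  have hpm : Nat.Coprime p m := by
    rw [hp.2.1.coprime_iff_not_dvd]
    intro hd
    have := Nat.le_of_dvd (by omega) hd
    omega
  obtain ⟨ρ, hρ1, hρ2⟩ := exists_gamma hm hpm
  refine (hκ ρ hρ2).trans ?_
  refine Finset.sum_le_sum_of_subset_of_nonneg ?_ fun t _ _ => by positivity
  intro t ht
  simp only [Finset.mem_filter] at ht ⊢
  refine ⟨ht.1, ?_⟩
  -- `m ∣ u p + 1` and `m ∣ γ u + 1`
  have h1 : m ∣ t.1 * p + 1 := (hρ1 t.1).2 ht.2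
  have h2 : m * t.2.1 * t.2.2 ∣ γ t * t.1 + 1 := (hγ t ht.1 (γ t)).2 rfl
  have h3 : m ∣ γ t * t.1 + 1 := (Dvd.intro (t.2.1 * t.2.2) (by ring)).trans h2
  have hu : Nat.Coprime m t.1 := by
    have h4 : Nat.gcd m t.1 ∣ t.1 * p := (Nat.gcd_dvd_right _ _).mul_right p
    have h5 : Nat.gcd m t.1 ∣ t.1 * p + 1 := (Nat.gcd_dvd_left _ _).trans h1
    exact Nat.dvd_one.1 ((Nat.dvd_add_right h4).1 h5)
  have h6 : t.1 * p ≡ t.1 * γ t [MOD m] := by
    have h7 : t.1 * p + 1 ≡ t.1 * γ t + 1 [MOD m] := by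
      rw [mul_comm (γ t)] at h3
      exact ((Nat.modEq_zero_iff_dvd.2 h1).trans (Nat.modEq_zero_iff_dvd.2 h3).symm)
    exact Nat.ModEq.add_right_cancel' 1 h7
  exact Nat.ModEq.cancel_left_of_coprime hu h6

/-- upper bound of the main term -/
lemma sum_phi_le (T : Finset (ℕ × ℕ × ℕ)) (r γ : ℕ × ℕ × ℕ → ℕ) (y1 y2 m : ℕ) :
    ∑ t ∈ T, thetaAP y1 y2 m (γ t) / r t ≤ thetaAP y1 y2 1 0 * SS T r := by
  unfold SS
  rw [Finset.mul_sum]
  refine Finset.sum_le_sum fun t _ => ?_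
  rw [mul_one_div]
  exact div_le_div_of_nonneg_right (thetaAP_le _ _ _ _) (Nat.cast_nonneg _)

/-- the error term of the Bombieri-Vinogradov lemma -/
lemma err_le {Ca Cb Cc L S Δ T X Yr zr : ℝ} (hCa : 0 < Ca) (hCb : 0 < Cb) (hCc : 0 < Cc)
    (hL : 2 ≤ L) (hLY : Real.log Yr = L) (hY : 1 ≤ Yr) (hYL : L ^ 49 ≤ Yr)
    (hz : L ^ 100 / 2 ≤ zr)
    (hK : Cc * 162 ^ 6 * (Real.sqrt (128 * Ca * Cb) + 16 * Cb + 8 * Ca + 1) ≤ L)
    (hX1 : Yr ^ 80 ≤ X) (hX2 : 2 * X ≤ Yr ^ 161)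
    (hS0 : 0 ≤ S) (hS : S ≤ Ca * (1 + L) ^ 3) (hΔ : Δ = Cb * (1 + L) ^ 3 * (1 / Real.sqrt zr + 1 / Yr))
    (hT0 : 0 ≤ T) (hT : T ≤ Yr ^ 9) :
    Cc * (1 + Real.log X) ^ 6 * (X * (Real.sqrt (S * Δ) + Δ) + S * X ^ ((24 : ℝ) / 25) +
      T * X ^ ((3 : ℝ) / 4)) / (X * Real.log X) ≤ 1 / L ^ 4 := by
  have hY0 : 0 < Yr := by linarith
  have hL0 : 0 < L := by linarith
  have hX0 : 0 < X := lt_of_lt_of_le (by positivity) hX1
  -- logarithms
  have hl1 : 80 * L ≤ Real.log X := by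
    have h := Real.log_le_log (by positivity) hX1
    rw [Real.log_pow, hLY] at h
    exact_mod_cast h
  have hl2 : Real.log X ≤ 161 * L := by
    have h := Real.log_le_log hX0 (by linarith : X ≤ Yr ^ 161)
    rw [Real.log_pow, hLY] at h
    exact_mod_cast h
  have hlX : 1 ≤ Real.log X := by linarith
  -- `1 / √z ≤ L^(-49)`
  have hz1 : L ^ 98 ≤ zr := by
    refine le_trans ?_ hz
    have : L ^ 100 = L ^ 98 * L ^ 2 := by ring
    rw [this]
    nlinarith [pow_pos hL0 98, mul_le_mul hL hL (by norm_num) hL0.le]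
  have hz2 : L ^ 49 ≤ Real.sqrt zr := by
    rw [show L ^ 49 = Real.sqrt (L ^ 98) by
      rw [show L ^ 98 = (L ^ 49) ^ 2 by ring, Real.sqrt_sq (by positivity)]]
    exact Real.sqrt_le_sqrt hz1
  have hz3 : 1 / Real.sqrt zr ≤ 1 / L ^ 49 := one_div_le_one_div_of_le (by positivity) hz2
  have hY3 : 1 / Yr ≤ 1 / L ^ 49 := one_div_le_one_div_of_le (by positivity) hYL
  have h1L : (1 + L) ^ 3 ≤ 8 * L ^ 3 := by
    calc (1 + L) ^ 3 ≤ (2 * L) ^ 3 := pow_le_pow_left₀ (by linarith) (by linarith) 3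
      _ = 8 * L ^ 3 := by ring
  have hΔ0 : 0 ≤ Δ := by rw [hΔ]; positivity
  have hΔ1 : Δ ≤ 16 * Cb / L ^ 46 := by
    rw [hΔ]
    calc Cb * (1 + L) ^ 3 * (1 / Real.sqrt zr + 1 / Yr) ≤
        Cb * (8 * L ^ 3) * (1 / L ^ 49 + 1 / L ^ 49) := by
          gcongr
      _ = 16 * Cb / L ^ 46 := by
          field_simp
          ring
  have hS1 : S ≤ 8 * Ca * L ^ 3 := hS.trans (by nlinarith)
  have hSΔ : Real.sqrt (S * Δ) ≤ Real.sqrt (128 * Ca * Cb) / L ^ 21 := by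
    rw [show Real.sqrt (128 * Ca * Cb) / L ^ 21 = Real.sqrt (128 * Ca * Cb / L ^ 42) by
      rw [Real.sqrt_div' _ (by positivity), show L ^ 42 = (L ^ 21) ^ 2 by ring,
        Real.sqrt_sq (by positivity)]]
    apply Real.sqrt_le_sqrt
    calc S * Δ ≤ (8 * Ca * L ^ 3) * (16 * Cb / L ^ 46) := by gcongr
      _ = 128 * Ca * Cb / L ^ 42 / L := by
          field_simp
          ring
      _ ≤ 128 * Ca * Cb / L ^ 42 := div_le_self (by positivity) (by linarith)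
  -- powers of `X`
  have hp1 : X ^ ((24 : ℝ) / 25) ≤ X / L ^ 49 := by
    have h1 : X ^ ((24 : ℝ) / 25) = X / X ^ ((1 : ℝ) / 25) := by
      rw [eq_div_iff (by positivity), ← Real.rpow_add hX0]
      norm_num
    rw [h1]
    refine div_le_div_of_nonneg_left hX0.le (by positivity) ?_
    calc L ^ 49 ≤ Yr := hYL
      _ = Yr ^ (1 : ℝ) := (Real.rpow_one _).symm
      _ ≤ Yr ^ ((80 : ℝ) * (1 / 25)) := Real.rpow_le_rpow_of_exponent_le hY (by norm_num)
      _ = (Yr ^ 80) ^ ((1 : ℝ) / 25) := by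
          rw [Real.rpow_mul hY0.le]
          norm_num
      _ ≤ X ^ ((1 : ℝ) / 25) := Real.rpow_le_rpow (by positivity) hX1 (by norm_num)
  have hp2 : T * X ^ ((3 : ℝ) / 4) ≤ X / L ^ 49 := by
    have h1 : X ^ ((3 : ℝ) / 4) = X / X ^ ((1 : ℝ) / 4) := by
      rw [eq_div_iff (by positivity), ← Real.rpow_add hX0]
      norm_num
    rw [h1, ← mul_div_assoc, div_le_div_iff₀ (by positivity) (by positivity)]
    have h2 : Yr ^ 20 ≤ X ^ ((1 : ℝ) / 4) := by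
      calc Yr ^ 20 = (Yr ^ 80) ^ ((1 : ℝ) / 4) := by
            rw [← Real.rpow_natCast, ← Real.rpow_natCast, ← Real.rpow_mul hY0.le]
            norm_num
        _ ≤ _ := Real.rpow_le_rpow (by positivity) hX1 (by norm_num)
    have h3 : T * L ^ 49 ≤ X ^ ((1 : ℝ) / 4) := by
      calc T * L ^ 49 ≤ Yr ^ 9 * Yr := by gcongr
        _ = Yr ^ 10 := by ring
        _ ≤ Yr ^ 20 := pow_le_pow_right₀ hY (by norm_num)
        _ ≤ _ := h2
    calc T * X * L ^ 49 = X * (T * L ^ 49) := by ring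
      _ ≤ X * X ^ ((1 : ℝ) / 4) := by gcongr
  -- assembly
  set K0 := Real.sqrt (128 * Ca * Cb) + 16 * Cb + 8 * Ca + 1 with hK0
  have hin : X * (Real.sqrt (S * Δ) + Δ) + S * X ^ ((24 : ℝ) / 25) + T * X ^ ((3 : ℝ) / 4) ≤
      X * (K0 / L ^ 21) := by
    have e1 : Real.sqrt (S * Δ) + Δ ≤ Real.sqrt (128 * Ca * Cb) / L ^ 21 + 16 * Cb / L ^ 21 := by
      have : 16 * Cb / L ^ 46 ≤ 16 * Cb / L ^ 21 :=
        div_le_div_of_nonneg_left (by positivity) (by positivity)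
          (pow_le_pow_right₀ (by linarith) (by norm_num))
      linarith
    have e2 : S * X ^ ((24 : ℝ) / 25) ≤ X * (8 * Ca / L ^ 21) := by
      calc S * X ^ ((24 : ℝ) / 25) ≤ (8 * Ca * L ^ 3) * (X / L ^ 49) := by gcongr
        _ = X * (8 * Ca / L ^ 46) := by
            field_simp
        _ ≤ X * (8 * Ca / L ^ 21) := by
            gcongr
            · linarith
            · norm_num
    have e3 : T * X ^ ((3 : ℝ) / 4) ≤ X * (1 / L ^ 21) := by
      refine hp2.trans ?_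
      rw [mul_one_div]
      gcongr
      · linarith
      · norm_num
    calc _ ≤ X * (Real.sqrt (128 * Ca * Cb) / L ^ 21 + 16 * Cb / L ^ 21) +
          X * (8 * Ca / L ^ 21) + X * (1 / L ^ 21) := by
          gcongr
      _ = X * (K0 / L ^ 21) := by
          rw [hK0]
          ring
  have hK00 : 0 ≤ K0 := by positivity
  have h6 : (1 + Real.log X) ^ 6 ≤ 162 ^ 6 * L ^ 6 := by
    rw [← mul_pow]
    exact pow_le_pow_left₀ (by linarith) (by linarith) 6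
  have hnum : 0 ≤ X * (Real.sqrt (S * Δ) + Δ) + S * X ^ ((24 : ℝ) / 25) +
      T * X ^ ((3 : ℝ) / 4) := by positivity
  calc Cc * (1 + Real.log X) ^ 6 * (X * (Real.sqrt (S * Δ) + Δ) + S * X ^ ((24 : ℝ) / 25) +
      T * X ^ ((3 : ℝ) / 4)) / (X * Real.log X)
      ≤ Cc * (162 ^ 6 * L ^ 6) * (X * (K0 / L ^ 21)) / (X * 1) := by
        gcongr
    _ = (Cc * 162 ^ 6 * K0) / L ^ 15 := by
        field_simp
    _ ≤ L / L ^ 15 := by gcongr
    _ = 1 / L ^ 14 := by field_simp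
    _ ≤ 1 / L ^ 4 := by
        apply one_div_le_one_div_of_le (by positivity)
        exact pow_le_pow_right₀ (by linarith) (by norm_num)

end R14bAux

open R14bAux in
theorem R14b_proof : R14b := by
  intro hBV h9a h9b h11 h10 m hm
  obtain ⟨Cc, hCc, hbv⟩ := hBV m hm
  obtain ⟨Ca, hCa, h9a⟩ := h9a
  obtain ⟨Cb, hCb, h9b⟩ := h9b
  obtain ⟨c1, C1, Y1, hc1, hC1, hY1, h11⟩ := h11 h10 m 100 hm
  set K : ℝ := Cc * 162 ^ 6 * (Real.sqrt (128 * Ca * Cb) + 16 * Cb + 8 * Ca + 1) with hKdef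
  obtain ⟨Y2, hY2⟩ : ∃ Y2 : ℝ, ∀ Y : ℝ, Y2 ≤ Y →
      ((2 ≤ Real.log Y ∧ K ≤ Real.log Y) ∧ ((m : ℝ) + 1 ≤ Real.log Y ∧ Real.log Y ^ 49 ≤ Y)) := by
    have e1 := Real.tendsto_log_atTop.eventually_ge_atTop (2 : ℝ)
    have e2 := Real.tendsto_log_atTop.eventually_ge_atTop K
    have e3 := Real.tendsto_log_atTop.eventually_ge_atTop ((m : ℝ) + 1)
    have e4 : ∀ᶠ Y : ℝ in Filter.atTop, Real.log Y ^ 49 ≤ Y := by
      have h := (Real.isLittleO_pow_log_id_atTop (n := 49)).bound (c := 1) one_pos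
      filter_upwards [h, Filter.eventually_ge_atTop (0 : ℝ)] with Y hY hY0
      rw [Real.norm_eq_abs, Real.norm_eq_abs, one_mul] at hY
      calc Real.log Y ^ 49 ≤ |Real.log Y ^ 49| := le_abs_self _
        _ ≤ |id Y| := hY
        _ = Y := abs_of_nonneg hY0
    exact Filter.eventually_atTop.1 ((e1.and e2).and (e3.and e4))
  refine ⟨c1 / 4, max C1 (8 * Ca + 1), max (max Y1 Y2) 16, by positivity,
    lt_max_of_lt_left hC1, le_max_right _ _, ?_⟩
  intro Y z x y1 y2 b hY hz hx1 hx2 hxy hy12 hyx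
  have hYY1 : Y1 ≤ (Y : ℝ) := ((le_max_left _ _).trans (le_max_left _ _)).trans hY
  have hYY2 : Y2 ≤ (Y : ℝ) := ((le_max_right _ _).trans (le_max_left _ _)).trans hY
  have hY16 : (16 : ℝ) ≤ (Y : ℝ) := (le_max_right _ _).trans hY
  obtain ⟨⟨hL2, hKL⟩, hmL, hLY⟩ := hY2 Y hYY2
  set L : ℝ := Real.log Y with hLdef
  have hL0 : 0 < L := by linarith
  have hY16' : 16 ≤ Y := by exact_mod_cast hY16
  have hYpos : (0 : ℝ) < Y := by linarith
  -- `loglog Y ≥ 1`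
  have hLL : 1 ≤ Real.log L := by
    rw [Real.le_log_iff_exp_le hL0]
    have h1 : (4 : ℝ) * Real.log 2 ≤ L := by
      rw [hLdef, ← Real.log_rpow (by norm_num)]
      apply Real.log_le_log (by positivity)
      calc (2 : ℝ) ^ (4 : ℝ) = 16 := by norm_num
        _ ≤ Y := hY16
    have h2 := Real.log_two_gt_d9
    have h3 := Real.exp_one_lt_d9
    linarith
  -- `z`
  have hzle : (z : ℝ) ≤ L ^ 100 := by
    rw [hz]; exact Nat.floor_le (by positivity)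
  have hL100 : L ^ 2 ≤ L ^ 100 := pow_le_pow_right₀ (by linarith) (by norm_num)
  have hzge : L ^ 100 - 1 ≤ z := by
    have := Nat.lt_floor_add_one (L ^ 100)
    rw [← hz] at this
    linarith
  have hz20 : L ^ 20 ≤ z := by
    have h1 : L ^ 20 * 2 ≤ L ^ 100 := by
      calc L ^ 20 * 2 ≤ L ^ 20 * L := by gcongr
        _ = L ^ 21 := by ring
        _ ≤ L ^ 100 := pow_le_pow_right₀ (by linarith) (by norm_num)
    have h2 : 1 ≤ L ^ 20 := one_le_pow₀ (by linarith)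
    linarith
  have hzhalf : L ^ 100 / 2 ≤ z := by nlinarith
  have hmz : m ≤ z := by
    have h1 : (m : ℝ) ≤ z := by nlinarith
    exact_mod_cast h1
  have hz1 : 1 ≤ z := hm.trans hmz
  -- the data
  obtain ⟨γ, hγ⟩ := exists_gam (m := m) (Y := Y) (z := z) (b := b) hm hmz
  set T := TT Y z b with hT
  set Δ : ℝ := Cb * (1 + L) ^ 3 * (1 / Real.sqrt z + 1 / Y) with hΔ
  have hadm : Adm m x T rr γ Δ :=
    adm hm hmz hx1 (fun t ht => (hγ t ht).2) (fun q hq => h9b Y z b q (by omega) hz1 hq)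
  have hx16 : 16 ≤ x := by
    calc 16 ≤ Y := hY16'
      _ = Y ^ 1 := (pow_one Y).symm
      _ ≤ Y ^ 80 := Nat.pow_le_pow_right (by omega) (by norm_num)
      _ ≤ x := hx1
  have hS : SS T rr ≤ Ca * (1 + L) ^ 3 := h9a Y z b (by omega)
  have hS0 : 0 ≤ SS T rr := Finset.sum_nonneg fun t _ => by positivity
  have hE := hbv _ T rr γ Δ x y1 y2 hadm (by omega) hxy hy12 hyx
  set E : ℝ := Cc * (1 + Real.log x) ^ 6 * (x * (Real.sqrt (SS T rr * Δ) + Δ) +
      SS T rr * (x : ℝ) ^ ((24 : ℝ) / 25) + T.card * (x : ℝ) ^ ((3 : ℝ) / 4)) with hEdef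
  have hErr : E / (x * Real.log x) ≤ 1 / L ^ 4 :=
    err_le (Yr := Y) (zr := z) hCa hCb hCc hL2 rfl (by linarith) hLY hzhalf hKL
      (by exact_mod_cast hx1) (by exact_mod_cast hx2) hS0 hS hΔ (Nat.cast_nonneg _)
      (card_TT Y z b)
  have hx0 : (0 : ℝ) < x := by exact_mod_cast (by omega : 0 < x)
  have hlx : 0 < Real.log x := Real.log_pos (by exact_mod_cast (by omega : 1 < x))
  have hD : 0 < (x : ℝ) * Real.log x := by positivity
  set θ : ℝ := thetaAP y1 y2 1 0 with hθ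
  have hθ0 : 0 ≤ θ := thetaAP_nonneg _ _ _ _
  -- sums over `T`
  have hsum1 : ∑ t ∈ T, thetaAP y1 y2 (m * rr t) (γ t) ≤
      ∑ t ∈ T, thetaAP y1 y2 m (γ t) / rr t + E := by
    have h1 : ∑ t ∈ T, (thetaAP y1 y2 (m * rr t) (γ t) - thetaAP y1 y2 m (γ t) / rr t) ≤ E :=
      (Finset.sum_le_sum fun t _ => le_abs_self _).trans hE
    rw [Finset.sum_sub_distrib] at h1
    linarith
  have hsum2 : ∑ t ∈ T, thetaAP y1 y2 m (γ t) / rr t - E ≤
      ∑ t ∈ T, thetaAP y1 y2 (m * rr t) (γ t) := by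
    have h1 : ∑ t ∈ T, (thetaAP y1 y2 m (γ t) / rr t - thetaAP y1 y2 (m * rr t) (γ t)) ≤ E :=
      (Finset.sum_le_sum fun t _ => by rw [abs_sub_comm]; exact le_abs_self _).trans hE
    rw [Finset.sum_sub_distrib] at h1
    linarith
  have hup := sum_phi_le T rr γ y1 y2 m
  rw [meanW_eq]
  constructor
  · calc ∑ t ∈ TT Y z b, inn m y1 y2 t
        ≤ ∑ t ∈ T, thetaAP y1 y2 (m * rr t) (γ t) / (x * Real.log x) :=
          Finset.sum_le_sum fun t ht => inn_le (by omega) hxy (hγ t ht).1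
      _ = (∑ t ∈ T, thetaAP y1 y2 (m * rr t) (γ t)) / (x * Real.log x) := by
          rw [Finset.sum_div]
      _ ≤ (θ * (8 * Ca * L ^ 3) + E) / (x * Real.log x) := by
          gcongr
          refine hsum1.trans ?_
          gcongr
          refine hup.trans ?_
          gcongr
          refine hS.trans ?_
          have : (1 + L) ^ 3 ≤ 8 * L ^ 3 := by
            calc (1 + L) ^ 3 ≤ (2 * L) ^ 3 := pow_le_pow_left₀ (by linarith) (by linarith) 3
              _ = 8 * L ^ 3 := by ring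
          nlinarith
      _ = 8 * Ca * (θ / (x * Real.log x) * L ^ 3) + E / (x * Real.log x) := by ring
      _ ≤ max C1 (8 * Ca + 1) * (θ / (x * Real.log x) * L ^ 3) +
            max C1 (8 * Ca + 1) * (1 / L ^ 4) := by
          have h1 : 8 * Ca ≤ max C1 (8 * Ca + 1) := (by linarith : 8 * Ca ≤ 8 * Ca + 1).trans
            (le_max_right _ _)
          have h2 : 1 ≤ max C1 (8 * Ca + 1) := (by linarith : 1 ≤ 8 * Ca + 1).trans
            (le_max_right _ _)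
          have h3 : 1 / L ^ 4 ≤ max C1 (8 * Ca + 1) * (1 / L ^ 4) :=
            le_mul_of_one_le_left (by positivity) h2
          have h4 : 8 * Ca * (θ / (x * Real.log x) * L ^ 3) ≤
              max C1 (8 * Ca + 1) * (θ / (x * Real.log x) * L ^ 3) := by
            gcongr
          linarith
      _ = _ := by ring
  · intro hbad
    have hpow : Real.log L ^ C1 ≤ Real.log L ^ (max C1 (8 * Ca + 1)) :=
      Real.rpow_le_rpow_of_exponent_le hLL (le_max_left _ _)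
    have hpow0 : 0 < Real.log L ^ C1 := Real.rpow_pos_of_pos (by linarith) _
    have hbad' : badMass Y z b ≤ c1 / Real.log L ^ C1 := by
      refine hbad.trans ?_
      gcongr
      linarith
    have hκ : ∀ ρ : ℕ, ρ.Coprime m → c1 * L ^ 3 / Real.log L ^ C1 ≤
        ∑ t ∈ T.filter (fun t => t.1 % m = ρ % m), (1 : ℝ) / rr t := fun ρ hρ =>
      h11 Y z b ρ hYY1 hz20 hzle hρ hbad'
    have hmy : m ≤ y1 := by
      have h1 : m ≤ Y := by
        have h2 : (m : ℝ) ≤ Y := by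
          have h3 : L ≤ L ^ 49 := by
            calc L = L ^ 1 := (pow_one L).symm
              _ ≤ L ^ 49 := pow_le_pow_right₀ (by linarith) (by norm_num)
          linarith
        exact_mod_cast h2
      calc m ≤ Y := h1
        _ = Y ^ 1 := (pow_one Y).symm
        _ ≤ Y ^ 80 := Nat.pow_le_pow_right (by omega) (by norm_num)
        _ ≤ x := hx1
        _ ≤ y1 := hxy
    have hlow := le_sum_phi (y2 := y2) hm hmy (fun t ht => (hγ t ht).1) hκ
    calc c1 / 4 * (θ / (x * Real.log x)) * L ^ 3 / Real.log L ^ (max C1 (8 * Ca + 1)) -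
          1 / L ^ 4
        ≤ c1 / 4 * (θ / (x * Real.log x)) * L ^ 3 / Real.log L ^ C1 -
          E / (x * Real.log x) / 4 := by
          have h1 : c1 / 4 * (θ / (x * Real.log x)) * L ^ 3 /
              Real.log L ^ (max C1 (8 * Ca + 1)) ≤
              c1 / 4 * (θ / (x * Real.log x)) * L ^ 3 / Real.log L ^ C1 := by gcongr
          have h2 : E / (x * Real.log x) / 4 ≤ 1 / L ^ 4 := by
            have : 0 ≤ 1 / L ^ 4 := by positivity
            linarith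
          linarith
      _ = (c1 * L ^ 3 / Real.log L ^ C1 * θ - E) / (4 * (x * Real.log x)) := by
          field_simp
      _ ≤ (∑ t ∈ T, thetaAP y1 y2 (m * rr t) (γ t)) / (4 * (x * Real.log x)) := by
          gcongr
          linarith
      _ = ∑ t ∈ T, thetaAP y1 y2 (m * rr t) (γ t) / (4 * (x * Real.log x)) := by
          rw [Finset.sum_div]
      _ ≤ ∑ t ∈ TT Y z b, inn m y1 y2 t :=
          Finset.sum_le_sum fun t ht => le_inn (by omega) hxy hyx (hγ t ht).1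

end ES
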