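import Pool.Agent.Lib.ES.Defs

/-! # Tank ES, row R2: the second moment product -/

open Finset
open scoped BigOperators

namespace ES
namespace R2X

/-- the number of members of a class mod `L` in `(x, x+N]` is `N / L` up to `1`. -/
theorem class_count (L v x N : ℕ) (hL : 0 < L) :
    |((((Ioc x (x + N)).filter (fun n => n ≡ v [MOD L])).card : ℕ) : ℝ) - (N : ℝ) / L| ≤ 1 := by
  have h := Nat.Ioc_filter_modEq_card x (x + N) hL v
  have hLq : (0 : ℚ) < L := by exact_mod_cast hL
  have hmono : ((x : ℚ) - v) / L ≤ (((x + N : ℕ) : ℚ) - v) / L := by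
    gcongr
    linarith [(Nat.cast_nonneg N : (0 : ℚ) ≤ N)]
  have hfl := Int.floor_le_floor hmono
  rw [max_eq_left (by linarith)] at h
  have h' : (((((Ioc x (x + N)).filter (fun n => n ≡ v [MOD L])).card : ℕ) : ℤ) : ℚ) =
      (⌊(((x + N : ℕ) : ℚ) - v) / L⌋ : ℚ) - (⌊((x : ℚ) - v) / L⌋ : ℚ) := by
    rw [h]; push_cast; ring
  have e1 := Int.floor_le ((((x + N : ℕ) : ℚ) - v) / L)
  have e2 := Int.lt_floor_add_one ((((x + N : ℕ) : ℚ) - v) / L)
  have e3 := Int.floor_le (((x : ℚ) - v) / L)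
  have e4 := Int.lt_floor_add_one (((x : ℚ) - v) / L)
  have e5 : (((x + N : ℕ) : ℚ) - v) / L - ((x : ℚ) - v) / L = (N : ℚ) / L := by
    push_cast; field_simp; ring
  have key : |(((((Ioc x (x + N)).filter (fun n => n ≡ v [MOD L])).card : ℕ)) : ℚ) - (N : ℚ) / L| ≤ 1 := by
    have h'' : (((((Ioc x (x + N)).filter (fun n => n ≡ v [MOD L])).card : ℕ)) : ℚ) =
      (⌊(((x + N : ℕ) : ℚ) - v) / L⌋ : ℚ) - (⌊((x : ℚ) - v) / L⌋ : ℚ) := by
      rw [← h']; push_cast; rfl
    rw [h'', abs_le]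
    constructor <;> linarith
  have key' := (Rat.cast_le (K := ℝ)).2 key
  push_cast at key'
  exact key'

/-- the number of members of a class mod `L` in `[0, L s)` is `s`. -/
theorem class_range (L v s : ℕ) (hL : 0 < L) :
    ((range (L * s)).filter (fun n => n ≡ v [MOD L])).card = s := by
  rw [← Nat.count_eq_card_filter_range]
  have h := Nat.count_modEq_card (b := L * s) hL v
  rw [h]
  simp [Nat.mul_div_cancel_left _ hL]

/-- the discrepancy functional -/
noncomputable def D (Q x N : ℕ) (f : ℕ → ℝ) : ℝ :=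
  ∑ n ∈ Ioc x (x + N), f n - (N : ℝ) / Q * ∑ n ∈ range Q, f n

theorem D_sub (Q x N : ℕ) (f g : ℕ → ℝ) : D Q x N (fun n => f n - g n) = D Q x N f - D Q x N g := by
  unfold D
  rw [sum_sub_distrib, sum_sub_distrib]
  ring

theorem D_sum (Q x N : ℕ) (E : Finset Ev) (c : ℝ) (f : Ev → ℕ → ℝ) :
    D Q x N (fun n => c * ∑ e ∈ E, f e n) = c * ∑ e ∈ E, D Q x N (f e) := by
  unfold D
  rw [← mul_sum, ← mul_sum, sum_comm, sum_comm (s := range Q), sum_sub_distrib, ← mul_sum]
  ring

open Classical in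
/-- indicator of the simultaneous occurrence of the events of `S` -/
noncomputable def ind (S : Finset Ev) (n : ℕ) : ℝ := if ∀ e ∈ S, e.Holds n then 1 else 0

/-- valid events for the period `Q` -/
def Val (Q : ℕ) (e : Ev) : Prop := e.c.Coprime (e.p * e.u) ∧ e.p * e.u ∣ Q

theorem holds_iff {e : Ev} {n n0 : ℕ} (hc : e.c.Coprime (e.p * e.u)) (h0 : e.Holds n0) :
    e.Holds n ↔ n ≡ n0 [MOD e.p * e.u] := by
  unfold Ev.Holds at *
  constructor
  · intro h
    have h1 : e.c * n + e.a ≡ e.c * n0 + e.a [MOD e.p * e.u] := by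
      rw [Nat.ModEq, Nat.mod_eq_zero_of_dvd h, Nat.mod_eq_zero_of_dvd h0]
    have h2 : e.c * n ≡ e.c * n0 [MOD e.p * e.u] := Nat.ModEq.add_right_cancel' _ h1
    exact Nat.ModEq.cancel_left_of_coprime (by rw [Nat.gcd_comm]; exact hc) h2
  · intro h
    have h1 : e.c * n + e.a ≡ e.c * n0 + e.a [MOD e.p * e.u] := (h.mul_left _).add_right _
    exact (Nat.modEq_zero_iff_dvd).1 (h1.trans ((Nat.modEq_zero_iff_dvd).2 h0))

theorem all_iff (Q : ℕ) (S : Finset Ev) (hS : ∀ e ∈ S, Val Q e) (n0 : ℕ)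
    (h0 : ∀ e ∈ S, e.Holds n0) (n : ℕ) :
    (∀ e ∈ S, e.Holds n) ↔ n ≡ n0 [MOD S.lcm (fun e => e.p * e.u)] := by
  have h1 : (∀ e ∈ S, e.Holds n) ↔ ∀ e ∈ S, n ≡ n0 [MOD e.p * e.u] :=
    forall₂_congr fun e he => holds_iff (hS e he).1 (h0 e he)
  rw [h1, Nat.modEq_iff_dvd, Int.natCast_dvd, Finset.lcm_dvd_iff]
  exact forall₂_congr fun e he => by rw [Nat.modEq_iff_dvd, Int.natCast_dvd]

theorem D_ind (Q : ℕ) (hQ : 0 < Q) (S : Finset Ev) (hS : ∀ e ∈ S, Val Q e) (x N : ℕ) :
    |D Q x N (ind S)| ≤ 1 := by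
  classical
  by_cases hex : ∃ n0, ∀ e ∈ S, e.Holds n0
  · obtain ⟨n0, h0⟩ := hex
    set L := S.lcm (fun e => e.p * e.u) with hL
    have hLQ : L ∣ Q := Finset.lcm_dvd fun e he => (hS e he).2
    have hLpos : 0 < L := Nat.pos_of_dvd_of_pos hLQ hQ
    obtain ⟨s, hs⟩ := hLQ
    have hind : ∀ n, ind S n = if n ≡ n0 [MOD L] then (1 : ℝ) else 0 := by
      intro n
      unfold ind
      rw [if_congr (all_iff Q S hS n0 h0 n) rfl rfl]
    have hspos : 0 < s := Nat.pos_of_ne_zero (by rintro rfl; omega)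
    have e1 : ∑ n ∈ Ioc x (x + N), ind S n =
        ((((Ioc x (x + N)).filter (fun n => n ≡ n0 [MOD L])).card : ℕ) : ℝ) := by
      rw [sum_congr rfl (fun n _ => hind n), Finset.sum_boole]
    have e2 : ∑ n ∈ range Q, ind S n = (s : ℝ) := by
      rw [sum_congr rfl (fun n _ => hind n), Finset.sum_boole, hs, class_range L n0 s hLpos]
    unfold D
    rw [e1, e2]
    have e3 : (N : ℝ) / Q * s = (N : ℝ) / L := by
      have : (s : ℝ) ≠ 0 := by positivity
      have : (L : ℝ) ≠ 0 := by positivity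
      rw [hs]
      push_cast
      field_simp
    rw [e3]
    exact class_count L n0 x N hLpos
  · push Not at hex
    have hz : ∀ n, ind S n = 0 := by
      intro n
      unfold ind
      rw [if_neg]
      intro h
      obtain ⟨e, he, hne⟩ := hex n
      exact hne (h e he)
    unfold D
    rw [sum_congr rfl (fun n _ => hz n), sum_congr rfl (fun n _ => hz n)]
    simp

theorem ind_mul (S : Finset Ev) (e : Ev) (n : ℕ) : ind S n * ind {e} n = ind (insert e S) n := by
  classical
  unfold ind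
  by_cases h1 : ∀ e ∈ S, e.Holds n <;> by_cases h2 : e.Holds n <;> simp [h1, h2]

open Classical in
theorem ind_single (e : Ev) (n : ℕ) : ind {e} n = if e.Holds n then 1 else 0 := by
  unfold ind
  by_cases h : e.Holds n <;> simp [h]

/-- the number of events which hold at `n` -/
noncomputable def W (E : Finset Ev) (n : ℕ) : ℝ := ∑ e ∈ E, ind {e} n

/-- `g` times every indicator has discrepancy at most `A` -/
def Good (Q : ℕ) (g : ℕ → ℝ) (A : ℝ) : Prop := ∀ S : Finset Ev, (∀ e ∈ S, Val Q e) → ∀ x N : ℕ,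
  |D Q x N (fun n => g n * ind S n)| ≤ A

theorem good_one (Q : ℕ) (hQ : 0 < Q) : Good Q (fun _ => 1) 1 := by
  intro S hS x N
  simpa using D_ind Q hQ S hS x N

theorem good_step (Q : ℕ) (g : ℕ → ℝ) (A μ : ℝ) (hμ : 1 ≤ μ) (hg : Good Q g A)
    (E : Finset Ev) (hE : ∀ e ∈ E, Val Q e) :
    Good Q (fun n => g n * (1 - W E n / μ)) (A * (1 + (E.card : ℝ))) := by
  intro S hS x N
  have e1 : (fun n => g n * (1 - W E n / μ) * ind S n) =
      fun n => (fun n => g n * ind S n) n - (fun n => (1 / μ) * ∑ e ∈ E, g n * ind (insert e S) n) n := by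
    funext n
    simp only [W]
    have : ∑ e ∈ E, g n * ind (insert e S) n = g n * ind S n * ∑ e ∈ E, ind {e} n := by
      rw [mul_sum]
      refine sum_congr rfl fun e _ => ?_
      rw [← ind_mul]; ring
    rw [this]
    ring
  rw [e1, D_sub, D_sum Q x N E (1 / μ) (fun e n => g n * ind (insert e S) n)]
  have h1 := hg S hS x N
  have h2 : |∑ e ∈ E, D Q x N (fun n => g n * ind (insert e S) n)| ≤ E.card * A := by
    refine (abs_sum_le_sum_abs _ _).trans ?_
    refine (sum_le_card_nsmul _ _ A fun e he => ?_).trans (by rw [nsmul_eq_mul])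
    refine hg (insert e S) ?_ x N
    intro e' he'
    rcases Finset.mem_insert.1 he' with rfl | h
    · exact hE _ he
    · exact hS _ h
  have hμ0 : (0 : ℝ) < μ := by linarith
  have h3 : |(1 / μ) * ∑ e ∈ E, D Q x N (fun n => g n * ind (insert e S) n)| ≤ E.card * A := by
    rw [abs_mul, abs_of_pos (by positivity : (0 : ℝ) < 1 / μ)]
    calc 1 / μ * |∑ e ∈ E, D Q x N (fun n => g n * ind (insert e S) n)|
        ≤ 1 * (E.card * A) := by
          refine mul_le_mul ?_ h2 (abs_nonneg _) zero_le_one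
          rw [div_le_one hμ0]; exact hμ
      _ = E.card * A := one_mul _
  calc _ ≤ |D Q x N (fun n => g n * ind S n)| +
        |(1 / μ) * ∑ e ∈ E, D Q x N (fun n => g n * ind (insert e S) n)| := abs_sub _ _
    _ ≤ A + E.card * A := add_le_add h1 h3
    _ = A * (1 + E.card) := by ring

theorem good_prod (Q : ℕ) (hQ : 0 < Q) (μ : ℝ) (hμ : 1 ≤ μ) (E : ℕ → Finset Ev) (k : ℕ)
    (hE : ∀ i < k, ∀ e ∈ E i, Val Q e) :
    Good Q (fun n => ∏ i ∈ range k, (1 - W (E i) n / μ) ^ 2)
      (∏ i ∈ range k, (1 + ((E i).card : ℝ)) ^ 2) := by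
  induction k with
  | zero => simpa using good_one Q hQ
  | succ k ih =>
    have h0 := ih fun i hi => hE i (by omega)
    have h1 := good_step Q _ _ μ hμ h0 (E k) (hE k (by omega))
    have h2 := good_step Q _ _ μ hμ h1 (E k) (hE k (by omega))
    have e1 : (fun n => ∏ i ∈ range (k + 1), (1 - W (E i) n / μ) ^ 2) =
        fun n => (∏ i ∈ range k, (1 - W (E i) n / μ) ^ 2) * (1 - W (E k) n / μ) *
          (1 - W (E k) n / μ) := by
      funext n
      rw [prod_range_succ]; ring
    have e2 : (∏ i ∈ range (k + 1), (1 + ((E i).card : ℝ)) ^ 2) =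
        (∏ i ∈ range k, (1 + ((E i).card : ℝ)) ^ 2) * (1 + ((E k).card : ℝ)) *
          (1 + ((E k).card : ℝ)) := by
      rw [prod_range_succ]; ring
    rw [e1, e2]
    exact h2

/-! ### the local factors -/

/-- `p ∣ α + β t` for exactly `q / p` of the `t < q`. -/
theorem cnt1 (p q α β : ℕ) (hp : 0 < p) (hq : p ∣ q) (hβ : β.Coprime p) :
    ((((range q).filter (fun t => p ∣ α + β * t)).card : ℕ) : ℝ) = q * (1 / (p : ℝ)) := by
  obtain ⟨s, rfl⟩ := hq
  obtain ⟨t0, ht0⟩ : ∃ t0 : ℕ, p ∣ α + β * t0 := by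
    obtain ⟨y, -, hy⟩ := Nat.exists_mul_mod_eq_of_coprime ((p - 1) * α) hβ hp.ne'
    refine ⟨y, (Nat.modEq_zero_iff_dvd).1 ?_⟩
    have h1 : α + β * y ≡ α + (p - 1) * α [MOD p] := Nat.ModEq.add_left α hy
    refine h1.trans ?_
    have h2 : α + (p - 1) * α = p * α := by
      obtain ⟨p', rfl⟩ : ∃ p', p = p' + 1 := ⟨p - 1, by omega⟩
      simp; ring
    rw [h2]
    exact (Nat.modEq_zero_iff_dvd).2 (dvd_mul_right _ _)
  have h : (range (p * s)).filter (fun t => p ∣ α + β * t) =
      (range (p * s)).filter (fun n => n ≡ t0 [MOD p]) := by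
    refine filter_congr fun t _ => ?_
    constructor
    · intro h
      have h1 : α + β * t ≡ α + β * t0 [MOD p] := by
        rw [Nat.ModEq, Nat.mod_eq_zero_of_dvd h, Nat.mod_eq_zero_of_dvd ht0]
      exact Nat.ModEq.cancel_left_of_coprime (by rw [Nat.gcd_comm]; exact hβ)
        (Nat.ModEq.add_left_cancel' _ h1)
    · intro h
      exact (Nat.modEq_zero_iff_dvd).1 (((h.mul_left β).add_left α).trans
        ((Nat.modEq_zero_iff_dvd).2 ht0))
  rw [h, class_range p t0 s hp]
  have : (p : ℝ) ≠ 0 := by positivity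
  push_cast
  field_simp

/-- two coprime moduli: at most `q / (p p')`. -/
theorem cnt2 (p p' q α β α' β' : ℕ) (hp : 0 < p) (hp' : 0 < p') (hq : p * p' ∣ q)
    (hpp : p.Coprime p') (hβ : β.Coprime p) (hβ' : β'.Coprime p') :
    ((((range q).filter (fun t => p ∣ α + β * t ∧ p' ∣ α' + β' * t)).card : ℕ) : ℝ) ≤
      q * (1 / (p : ℝ) * (1 / (p' : ℝ))) := by
  obtain ⟨s, rfl⟩ := hq
  by_cases hex : ∃ t0, p ∣ α + β * t0 ∧ p' ∣ α' + β' * t0
  · obtain ⟨t0, h0, h0'⟩ := hex
    have h : (range (p * p' * s)).filter (fun t => p ∣ α + β * t ∧ p' ∣ α' + β' * t) ⊆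
        (range (p * p' * s)).filter (fun n => n ≡ t0 [MOD p * p']) := by
      intro t ht
      rw [mem_filter] at ht ⊢
      refine ⟨ht.1, ?_⟩
      obtain ⟨-, h1, h2⟩ := ht
      refine (Nat.modEq_and_modEq_iff_modEq_mul hpp).1 ⟨?_, ?_⟩
      · have h3 : α + β * t ≡ α + β * t0 [MOD p] := by
          rw [Nat.ModEq, Nat.mod_eq_zero_of_dvd h1, Nat.mod_eq_zero_of_dvd h0]
        exact Nat.ModEq.cancel_left_of_coprime (by rw [Nat.gcd_comm]; exact hβ)
          (Nat.ModEq.add_left_cancel' _ h3)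
      · have h3 : α' + β' * t ≡ α' + β' * t0 [MOD p'] := by
          rw [Nat.ModEq, Nat.mod_eq_zero_of_dvd h2, Nat.mod_eq_zero_of_dvd h0']
        exact Nat.ModEq.cancel_left_of_coprime (by rw [Nat.gcd_comm]; exact hβ')
          (Nat.ModEq.add_left_cancel' _ h3)
    have h1 := card_le_card h
    rw [class_range (p * p') t0 s (by positivity)] at h1
    have h2 : ((((range (p * p' * s)).filter
        (fun t => p ∣ α + β * t ∧ p' ∣ α' + β' * t)).card : ℕ) : ℝ) ≤ s := by exact_mod_cast h1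
    refine h2.trans (le_of_eq ?_)
    have : (p : ℝ) ≠ 0 := by positivity
    have : (p' : ℝ) ≠ 0 := by positivity
    push_cast
    field_simp
  · push Not at hex
    have h : (range (p * p' * s)).filter (fun t => p ∣ α + β * t ∧ p' ∣ α' + β' * t) = ∅ := by
      rw [filter_eq_empty_iff]
      intro t _ h
      exact hex t h.1 h.2
    rw [h]
    simp only [card_empty, Nat.cast_zero]
    positivity

theorem meanW_nonneg (E : Finset Ev) (b : ℕ) : 0 ≤ meanW E b :=
  sum_nonneg fun _ _ => by positivity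

theorem meanW_congr (E : Finset Ev) (M : ℕ) (hu : ∀ e ∈ E, e.u ∣ M) (b t : ℕ) :
    meanW E (b + M * t) = meanW E b := by
  have h : compat E (b + M * t) = compat E b := by
    unfold compat
    refine filter_congr fun e he => ?_
    have h1 : e.c * (b + M * t) + e.a = (e.c * b + e.a) + M * (e.c * t) := by ring
    rw [h1]
    exact (Nat.dvd_add_left ((hu e he).mul_right _))
  unfold meanW
  rw [h]

theorem holds_shift {e : Ev} {Q : ℕ} (h : e.p * e.u ∣ Q) (n t : ℕ) :
    e.Holds (n + Q * t) ↔ e.Holds n := by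
  unfold Ev.Holds
  have h1 : e.c * (n + Q * t) + e.a = (e.c * n + e.a) + Q * (e.c * t) := by ring
  rw [h1]
  exact (Nat.dvd_add_left (h.mul_right _))

open Classical in
theorem W_shift {E : Finset Ev} {Q : ℕ} (h : ∀ e ∈ E, e.p * e.u ∣ Q) (n t : ℕ) :
    W E (n + Q * t) = W E n := by
  unfold W
  refine sum_congr rfl fun e he => ?_
  rw [ind_single, ind_single]
  exact if_congr (holds_shift (h e he) n t) rfl rfl

theorem sum_double (Q q : ℕ) (f : ℕ → ℝ) :
    ∑ n ∈ range (Q * q), f n = ∑ n ∈ range Q, ∑ t ∈ range q, f (n + Q * t) := by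
  rw [sum_comm]
  induction q with
  | zero => simp
  | succ q ih =>
    rw [Nat.mul_succ, Finset.sum_range_add, ih, sum_range_succ]
    congr 1
    exact sum_congr rfl fun n _ => by rw [Nat.add_comm]

/-- the block sum over the classes mod `q`, the class mod `Q` being fixed -/
theorem block (E : Finset Ev) (M Q q : ℕ) (μ : ℝ) (hμ : 2 ≤ μ) (hMQ : M ∣ Q)
    (hQq : Q.Coprime q)
    (hE : ∀ e ∈ E, e.p.Prime ∧ e.u ∣ M ∧ e.p.Coprime M ∧ e.c.Coprime (e.p * e.u))
    (hpq : ∀ e ∈ E, e.p ∣ q)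
    (hdis : ∀ e ∈ E, ∀ e' ∈ E, e ≠ e' → e.p = e'.p → ∀ n : ℕ, ¬ (e.Holds n ∧ e'.Holds n))
    (n : ℕ) (hmean : meanW E n ≤ μ / 2) :
    ∑ t ∈ range q, (1 - W E (n + Q * t) / μ) ^ 2 ≤ q * Real.exp (-(meanW E n) / μ) := by
  classical
  have hμ0 : (0 : ℝ) < μ := by linarith
  set lam := meanW E n with hlam
  have hlam0 : 0 ≤ lam := meanW_nonneg E n
  set X : Ev → ℕ → ℝ := fun e t => if e.p ∣ (e.c * n + e.a) + (e.c * Q) * t then 1 else 0 with hX
  have hHolds : ∀ e ∈ E, ∀ t, (e.Holds (n + Q * t) ↔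
      (e.u ∣ e.c * n + e.a ∧ e.p ∣ (e.c * n + e.a) + (e.c * Q) * t)) := by
    intro e he t
    obtain ⟨h1, h2, h3, h4⟩ := hE e he
    unfold Ev.Holds
    have e1 : e.c * (n + Q * t) + e.a = (e.c * n + e.a) + (e.c * Q) * t := by ring
    have e2 : e.p.Coprime e.u := Nat.Coprime.coprime_dvd_right h2 h3
    have e5 : e.p * e.u ∣ (e.c * n + e.a) + (e.c * Q) * t ↔
        e.p ∣ (e.c * n + e.a) + (e.c * Q) * t ∧ e.u ∣ (e.c * n + e.a) + (e.c * Q) * t :=
      ⟨fun h => ⟨(dvd_mul_right _ _).trans h, (dvd_mul_left _ _).trans h⟩,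
        fun h => e2.mul_dvd_of_dvd_of_dvd h.1 h.2⟩
    rw [e1, e5, and_comm]
    have e3 : (e.c * n + e.a) + (e.c * Q) * t = (e.c * n + e.a) + Q * (e.c * t) := by ring
    have e4 : e.u ∣ (e.c * n + e.a) + (e.c * Q) * t ↔ e.u ∣ e.c * n + e.a := by
      rw [e3]
      exact Nat.dvd_add_left ((h2.trans hMQ).mul_right _)
    rw [e4]
  have hW : ∀ t, W E (n + Q * t) = ∑ e ∈ compat E n, X e t := by
    intro t
    unfold W compat
    rw [sum_filter]
    refine sum_congr rfl fun e he => ?_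
    rw [ind_single]
    simp only [hX]
    by_cases h1 : e.u ∣ e.c * n + e.a
    · rw [if_pos h1]
      refine if_congr ?_ rfl rfl
      rw [hHolds e he t]
      exact and_iff_right h1
    · rw [if_neg h1, if_neg]
      rw [hHolds e he t]
      exact fun h => h1 h.1
  have hmem : ∀ e ∈ compat E n, e ∈ E := fun e he => (mem_filter.1 he).1
  have hcop : ∀ e ∈ E, (e.c * Q).Coprime e.p := by
    intro e he
    obtain ⟨h1, h2, h3, h4⟩ := hE e he
    have h5 : e.c.Coprime e.p := Nat.Coprime.coprime_dvd_right (dvd_mul_right _ _) h4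
    exact Nat.Coprime.mul_left h5 (Nat.Coprime.coprime_dvd_right (hpq e he) hQq)
  have h1 : ∀ e ∈ compat E n, ∑ t ∈ range q, X e t = q * (1 / (e.p : ℝ)) := by
    intro e he
    have heE := hmem e he
    simp only [hX]
    rw [Finset.sum_boole]
    exact cnt1 e.p q _ _ (hE e heE).1.pos (hpq e heE) (hcop e heE)
  have hsum1 : ∑ t ∈ range q, ∑ e ∈ compat E n, X e t = q * lam := by
    rw [sum_comm, sum_congr rfl h1, ← mul_sum, hlam]
    rfl
  have h2 : ∀ e ∈ compat E n, ∀ e' ∈ compat E n, ∑ t ∈ range q, X e t * X e' t ≤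
      (if e = e' then q * (1 / (e.p : ℝ)) else 0) + q * (1 / (e.p : ℝ) * (1 / (e'.p : ℝ))) := by
    intro e he e' he'
    have heE := hmem e he
    have heE' := hmem e' he'
    have hpos : (0 : ℝ) ≤ q * (1 / (e.p : ℝ) * (1 / (e'.p : ℝ))) := by positivity
    by_cases hee : e = e'
    · subst hee
      rw [if_pos rfl]
      have : ∑ t ∈ range q, X e t * X e t = ∑ t ∈ range q, X e t := by
        refine sum_congr rfl fun t _ => ?_
        simp only [hX]
        split_ifs <;> simp
      rw [this, h1 e he]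
      linarith
    · rw [if_neg hee, zero_add]
      by_cases hp : e.p = e'.p
      · have : ∑ t ∈ range q, X e t * X e' t = 0 := by
          refine sum_eq_zero fun t _ => ?_
          simp only [hX]
          by_cases a1 : e.p ∣ (e.c * n + e.a) + (e.c * Q) * t
          · by_cases a2 : e'.p ∣ (e'.c * n + e'.a) + (e'.c * Q) * t
            · exfalso
              refine hdis e heE e' heE' hee hp (n + Q * t) ⟨?_, ?_⟩
              · rw [hHolds e heE t]; exact ⟨(mem_filter.1 he).2, a1⟩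
              · rw [hHolds e' heE' t]; exact ⟨(mem_filter.1 he').2, a2⟩
            · simp [a2]
          · simp [a1]
        rw [this]; exact hpos
      · have hcc : e.p.Coprime e'.p := (Nat.coprime_primes (hE e heE).1 (hE e' heE').1).2 hp
        have : ∑ t ∈ range q, X e t * X e' t = ((((range q).filter (fun t =>
            e.p ∣ (e.c * n + e.a) + (e.c * Q) * t ∧
              e'.p ∣ (e'.c * n + e'.a) + (e'.c * Q) * t)).card : ℕ) : ℝ) := by
          rw [← Finset.sum_boole]
          refine sum_congr rfl fun t _ => ?_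
          simp only [hX]
          by_cases a1 : e.p ∣ (e.c * n + e.a) + (e.c * Q) * t <;>
          by_cases a2 : e'.p ∣ (e'.c * n + e'.a) + (e'.c * Q) * t <;> simp [a1, a2]
        rw [this]
        exact cnt2 _ _ _ _ _ _ _ (hE e heE).1.pos (hE e' heE').1.pos
          (hcc.mul_dvd_of_dvd_of_dvd (hpq e heE) (hpq e' heE')) hcc (hcop e heE) (hcop e' heE')
  have hsum2 : ∑ t ∈ range q, (∑ e ∈ compat E n, X e t) ^ 2 ≤ q * lam + q * lam ^ 2 := by
    have e1 : ∑ t ∈ range q, (∑ e ∈ compat E n, X e t) ^ 2 =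
        ∑ e ∈ compat E n, ∑ e' ∈ compat E n, ∑ t ∈ range q, X e t * X e' t := by
      have : ∀ t ∈ range q, (∑ e ∈ compat E n, X e t) ^ 2 =
          ∑ e ∈ compat E n, ∑ e' ∈ compat E n, X e t * X e' t := by
        intro t _
        rw [sq, sum_mul_sum]
      rw [sum_congr rfl this, sum_comm]
      exact sum_congr rfl fun e _ => sum_comm
    rw [e1]
    calc _ ≤ ∑ e ∈ compat E n, ∑ e' ∈ compat E n,
          ((if e = e' then q * (1 / (e.p : ℝ)) else 0) + q * (1 / (e.p : ℝ) * (1 / (e'.p : ℝ)))) :=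
          sum_le_sum fun e he => sum_le_sum fun e' he' => h2 e he e' he'
      _ = q * lam + q * lam ^ 2 := by
          simp only [sum_add_distrib]
          congr 1
          · have : ∀ e ∈ compat E n, (∑ e' ∈ compat E n,
                if e = e' then q * (1 / (e.p : ℝ)) else 0) = q * (1 / (e.p : ℝ)) := by
              intro e he
              rw [sum_ite_eq, if_pos he]
            rw [sum_congr rfl this, ← mul_sum, hlam]
            rfl
          · rw [hlam, sq]
            unfold meanW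
            rw [sum_mul_sum, mul_sum]
            refine sum_congr rfl fun e _ => ?_
            rw [mul_sum]
  have hexp : ∑ t ∈ range q, (1 - W E (n + Q * t) / μ) ^ 2 =
      q - 2 / μ * ∑ t ∈ range q, ∑ e ∈ compat E n, X e t +
        1 / μ ^ 2 * ∑ t ∈ range q, (∑ e ∈ compat E n, X e t) ^ 2 := by
    have : ∀ t ∈ range q, (1 - W E (n + Q * t) / μ) ^ 2 =
        1 - 2 / μ * (∑ e ∈ compat E n, X e t) + 1 / μ ^ 2 * (∑ e ∈ compat E n, X e t) ^ 2 := by
      intro t _
      rw [hW t]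
      field_simp
      ring
    rw [sum_congr rfl this, sum_add_distrib, sum_sub_distrib, ← mul_sum, ← mul_sum]
    simp
  rw [hexp, hsum1]
  have hq0 : (0 : ℝ) ≤ q := Nat.cast_nonneg q
  have h3 : 1 / μ ^ 2 * ∑ t ∈ range q, (∑ e ∈ compat E n, X e t) ^ 2 ≤ q * (lam / μ) := by
    calc _ ≤ 1 / μ ^ 2 * (q * lam + q * lam ^ 2) :=
          mul_le_mul_of_nonneg_left hsum2 (by positivity)
      _ = q * (lam / μ) * ((1 + lam) / μ) := by field_simp
      _ ≤ q * (lam / μ) * 1 := by
          refine mul_le_mul_of_nonneg_left ?_ (by positivity)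
          rw [div_le_one hμ0]
          linarith
      _ = q * (lam / μ) := mul_one _
  have h4 : 1 - lam / μ ≤ Real.exp (-lam / μ) := by
    have := Real.add_one_le_exp (-lam / μ)
    have e : -lam / μ = -(lam / μ) := by ring
    rw [e] at this ⊢
    linarith
  calc (q : ℝ) - 2 / μ * (q * lam) + 1 / μ ^ 2 * ∑ t ∈ range q, (∑ e ∈ compat E n, X e t) ^ 2
      ≤ (q : ℝ) - 2 / μ * (q * lam) + q * (lam / μ) := by linarith
    _ = q * (1 - lam / μ) := by field_simp; ring
    _ ≤ q * Real.exp (-lam / μ) := mul_le_mul_of_nonneg_left h4 hq0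

/-- product of the primes of a block -/
noncomputable def qE (E : Finset Ev) : ℕ := ∏ p ∈ E.image (fun e => e.p), p

/-- period of the first `j` blocks -/
noncomputable def QQ (M : ℕ) (E : ℕ → Finset Ev) (j : ℕ) : ℕ := M * ∏ i ∈ range j, qE (E i)

theorem QQ_succ (M : ℕ) (E : ℕ → Finset Ev) (j : ℕ) : QQ M E (j + 1) = QQ M E j * qE (E j) := by
  unfold QQ
  rw [prod_range_succ, Nat.mul_assoc]

theorem p_dvd_qE {E : Finset Ev} {e : Ev} (he : e ∈ E) : e.p ∣ qE E :=
  dvd_prod_of_mem _ (mem_image_of_mem _ he)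

theorem qE_pos {E : Finset Ev} (h : ∀ e ∈ E, e.p.Prime) : 0 < qE E := by
  refine prod_pos fun p hp => ?_
  obtain ⟨e, he, rfl⟩ := mem_image.1 hp
  exact (h e he).pos

theorem qE_dvd_QQ (M : ℕ) (E : ℕ → Finset Ev) {i j : ℕ} (hij : i < j) : qE (E i) ∣ QQ M E j := by
  unfold QQ
  exact Dvd.dvd.mul_left (dvd_prod_of_mem _ (mem_range.2 hij)) M

end R2X

open R2X in
theorem R2_proof : R2 := by
  intro k M E μ hμ hM hE hdisj hdis hmean x N
  classical
  have hμ0 : (0 : ℝ) < μ := by linarith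
  have hQpos : ∀ j ≤ k, 0 < QQ M E j := by
    intro j hj
    unfold QQ
    refine Nat.mul_pos hM (prod_pos fun i hi => qE_pos fun e he => (hE i ?_ e he).1)
    have := mem_range.1 hi
    omega
  -- every event of the first `j` blocks has its modulus dividing `QQ M E j`
  have hmod : ∀ j ≤ k, ∀ i < j, ∀ e ∈ E i, e.p * e.u ∣ QQ M E j := by
    intro j hj i hi e he
    obtain ⟨h1, h2, h3, h4⟩ := hE i (by omega) e he
    have h5 : e.p.Coprime e.u := Nat.Coprime.coprime_dvd_right h2 h3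
    refine h5.mul_dvd_of_dvd_of_dvd ((p_dvd_qE he).trans (qE_dvd_QQ M E hi)) ?_
    exact h2.trans (dvd_mul_right _ _)
  have hcopQ : ∀ j < k, (QQ M E j).Coprime (qE (E j)) := by
    intro j hj
    unfold qE
    refine Nat.Coprime.prod_right fun p hp => ?_
    obtain ⟨e, he, rfl⟩ := mem_image.1 hp
    obtain ⟨h1, h2, h3, h4⟩ := hE j hj e he
    unfold QQ
    refine Nat.Coprime.mul_left h3.symm ?_
    refine Nat.Coprime.prod_left fun i hi => ?_
    unfold qE
    refine Nat.Coprime.prod_left fun p' hp' => ?_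
    obtain ⟨e', he', rfl⟩ := mem_image.1 hp'
    have hi' := mem_range.1 hi
    refine (Nat.coprime_primes (hE i (by omega) e' he').1 h1).2 ?_
    exact hdisj i (by omega) j hj (by omega) e' he' e he
  -- independence
  have hind : ∀ j ≤ k, ∀ H : ℕ → ℝ, (∀ n, 0 ≤ H n) → (∀ n t, H (n + M * t) = H n) →
      (∑ n ∈ range (QQ M E j), H n * ∏ i ∈ range j, (1 - W (E i) n / μ) ^ 2) / (QQ M E j : ℕ) ≤
        (∑ b ∈ range M, H b * Real.exp (-(∑ i ∈ range j, meanW (E i) b) / μ)) / M := by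
    intro j
    induction j with
    | zero =>
      intro _ H _ _
      simp [QQ]
    | succ j ih =>
      intro hj H H0 HM
      have hj' : j ≤ k := by omega
      have hjk : j < k := by omega
      have hqpos : 0 < qE (E j) := qE_pos fun e he => (hE j hjk e he).1
      have hMQ : M ∣ QQ M E j := dvd_mul_right _ _
      obtain ⟨s, hs⟩ := hMQ
      have h1 : ∑ n ∈ range (QQ M E (j + 1)), H n * ∏ i ∈ range (j + 1), (1 - W (E i) n / μ) ^ 2 ≤
          (qE (E j) : ℝ) * ∑ n ∈ range (QQ M E j), (H n * Real.exp (-(meanW (E j) n) / μ)) *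
            ∏ i ∈ range j, (1 - W (E i) n / μ) ^ 2 := by
        rw [QQ_succ, sum_double, mul_sum]
        refine sum_le_sum fun n _ => ?_
        have e1 : ∀ t ∈ range (qE (E j)), H (n + QQ M E j * t) *
            ∏ i ∈ range (j + 1), (1 - W (E i) (n + QQ M E j * t) / μ) ^ 2 =
            (H n * ∏ i ∈ range j, (1 - W (E i) n / μ) ^ 2) *
              (1 - W (E j) (n + QQ M E j * t) / μ) ^ 2 := by
          intro t _
          rw [prod_range_succ]
          have a1 : H (n + QQ M E j * t) = H n := by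
            rw [hs, Nat.mul_assoc]; exact HM n (s * t)
          have a2 : ∏ i ∈ range j, (1 - W (E i) (n + QQ M E j * t) / μ) ^ 2 =
              ∏ i ∈ range j, (1 - W (E i) n / μ) ^ 2 := by
            refine prod_congr rfl fun i hi => ?_
            rw [W_shift (fun e he => hmod j hj' i (mem_range.1 hi) e he) n t]
          rw [a1, a2]
          ring
        rw [sum_congr rfl e1, ← mul_sum]
        have h2 := block (E j) M (QQ M E j) (qE (E j)) μ hμ ⟨s, hs⟩ (hcopQ j hjk) (hE j hjk)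
          (fun e he => p_dvd_qE he) (hdis j hjk) n (hmean j hjk n)
        have h3 : 0 ≤ H n * ∏ i ∈ range j, (1 - W (E i) n / μ) ^ 2 :=
          mul_nonneg (H0 n) (prod_nonneg fun i _ => sq_nonneg _)
        calc _ ≤ (H n * ∏ i ∈ range j, (1 - W (E i) n / μ) ^ 2) *
              ((qE (E j) : ℝ) * Real.exp (-(meanW (E j) n) / μ)) :=
              mul_le_mul_of_nonneg_left h2 h3
          _ = _ := by ring
      have h2 := ih hj' (fun n => H n * Real.exp (-(meanW (E j) n) / μ))
        (fun n => mul_nonneg (H0 n) (Real.exp_pos _).le)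
        (fun n t => by
          rw [HM, meanW_congr (E j) M (fun e he => (hE j hjk e he).2.1) n t])
      have hQ0 : (0 : ℝ) < (QQ M E j : ℕ) := by exact_mod_cast hQpos j hj'
      have hq0 : (0 : ℝ) < (qE (E j) : ℕ) := by exact_mod_cast hqpos
      have h3 : ((QQ M E (j + 1) : ℕ) : ℝ) = (QQ M E j : ℕ) * (qE (E j) : ℕ) := by
        rw [QQ_succ]; push_cast; ring
      calc _ ≤ ((qE (E j) : ℝ) * ∑ n ∈ range (QQ M E j),
            (H n * Real.exp (-(meanW (E j) n) / μ)) *
            ∏ i ∈ range j, (1 - W (E i) n / μ) ^ 2) / (QQ M E (j + 1) : ℕ) := by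
            refine div_le_div_of_nonneg_right h1 (by positivity)
        _ = (∑ n ∈ range (QQ M E j), (H n * Real.exp (-(meanW (E j) n) / μ)) *
            ∏ i ∈ range j, (1 - W (E i) n / μ) ^ 2) / (QQ M E j : ℕ) := by
            rw [h3]
            field_simp
        _ ≤ _ := h2
        _ = _ := by
            congr 1
            refine sum_congr rfl fun b _ => ?_
            rw [mul_assoc, ← Real.exp_add, sum_range_succ]
            congr 2
            ring
  -- the count
  set Q := QQ M E k with hQ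
  have hQ1 : 0 < Q := hQpos k le_rfl
  set F : ℕ → ℝ := fun n => ∏ i ∈ range k, (1 - W (E i) n / μ) ^ 2 with hF
  have hF0 : ∀ n, 0 ≤ F n := fun n => prod_nonneg fun i _ => sq_nonneg _
  set S : Finset ℕ := (Ioc x (x + N)).filter (fun n => ∀ i < k, ∀ e ∈ E i, ¬ e.Holds n) with hS
  have hset : {n : ℕ | x < n ∧ n ≤ x + N ∧ ∀ i < k, ∀ e ∈ E i, ¬ e.Holds n} = (S : Set ℕ) := by
    ext n
    simp only [hS, coe_filter, mem_Ioc, Set.mem_ofPred_eq, and_assoc]
  rw [hset, Set.ncard_coe_finset]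
  have h1 : ((S.card : ℕ) : ℝ) ≤ ∑ n ∈ Ioc x (x + N), F n := by
    have e1 : ((S.card : ℕ) : ℝ) = ∑ n ∈ S, F n := by
      rw [sum_congr rfl (g := fun _ => (1 : ℝ))]
      · simp
      · intro n hn
        simp only [hF]
        refine prod_eq_one fun i hi => ?_
        have hn' := (mem_filter.1 hn).2 i (mem_range.1 hi)
        have : W (E i) n = 0 := by
          unfold W
          refine sum_eq_zero fun e he => ?_
          rw [ind_single, if_neg (hn' e he)]
        rw [this]; simp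
    rw [e1]
    exact sum_le_sum_of_subset_of_nonneg (filter_subset _ _) fun n _ _ => hF0 n
  have hgood := good_prod Q hQ1 μ (by linarith) E k (fun i hi e he =>
    ⟨(hE i hi e he).2.2.2, hmod k le_rfl i hi e he⟩)
  have h2 := hgood ∅ (by simp) x N
  have e2 : (fun n => (∏ i ∈ range k, (1 - W (E i) n / μ) ^ 2) * ind ∅ n) = F := by
    funext n
    simp [ind, hF]
  rw [e2] at h2
  have h3 : ∑ n ∈ Ioc x (x + N), F n ≤ (N : ℝ) / Q * ∑ n ∈ range Q, F n +
      ∏ i ∈ range k, (1 + ((E i).card : ℝ)) ^ 2 := by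
    have := (abs_le.1 h2).2
    unfold D at this
    linarith
  have h4 := hind k le_rfl (fun _ => 1) (fun _ => zero_le_one) (fun _ _ => rfl)
  simp only [one_mul] at h4
  have h5 : (N : ℝ) / Q * ∑ n ∈ range Q, F n ≤
      N * ((∑ b ∈ range M, Real.exp (-(∑ i ∈ range k, meanW (E i) b) / μ)) / M) := by
    have e3 : (N : ℝ) / Q * ∑ n ∈ range Q, F n = N * ((∑ n ∈ range Q, F n) / (Q : ℕ)) := by
      ring
    rw [e3]
    exact mul_le_mul_of_nonneg_left h4 (Nat.cast_nonneg N)
  linarith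

end ES
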