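import Pool.Agent.Lib.ES.Defs
import Pool.Agent.Lib.ES.LS

/-! Row R3 of tank ES. -/

open Finset

theorem ES.R3_proof : ES.R3 := by
  refine ⟨16, by norm_num, ?_⟩
  intro R K0 K β
  rcases Nat.eq_zero_or_pos R with hR | hR
  · subst hR
    have : ∑ q ∈ Icc 1 0, ∑ h ∈ (range q).filter (fun h => h.Coprime q),
        ‖ES.expSum β K0 K ((h : ℝ) / q)‖ ^ 2 = 0 := by
      rw [Icc_eq_empty (by omega), sum_empty]
    rw [this]
    have h2 : 0 ≤ ∑ k ∈ Ioc K0 (K0 + K), β k ^ 2 := sum_nonneg fun _ _ => sq_nonneg _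
    positivity
  set b : ℕ → ℂ := fun n => (β (K0 + 1 + n) : ℂ) with hb
  have hshift : ∀ {M : Type} [AddCommMonoid M] (f : ℕ → M),
      ∑ k ∈ Ioc K0 (K0 + K), f k = ∑ n ∈ range K, f (K0 + 1 + n) := by
    intro M _ f
    have h0 : Ioc K0 (K0 + K) = Ico (K0 + 1) (K0 + 1 + K) := by
      ext k
      rw [mem_Ioc, mem_Ico]
      omega
    rw [h0, sum_Ico_eq_sum_range, Nat.add_sub_cancel_left]
  have h1 := Pool.Agent.ES.large_sieve K R hR b
  have h2 : ∑ n ∈ range K, ‖b n‖ ^ 2 = ∑ k ∈ Ioc K0 (K0 + K), β k ^ 2 := by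
    rw [hshift]
    refine sum_congr rfl fun n _ => ?_
    simp only [hb]
    rw [Complex.norm_real, Real.norm_eq_abs, sq_abs]
  have h3 : ∀ (h q : ℕ), ‖ES.expSum β K0 K ((h : ℝ) / q)‖ =
      ‖∑ n ∈ range K, b n * Pool.Agent.ES.e ((n : ℝ) * h / q)‖ := by
    intro h q
    have h4 : ES.expSum β K0 K ((h : ℝ) / q) = Pool.Agent.ES.e (((K0 : ℝ) + 1) * (h / q)) *
        ∑ n ∈ range K, b n * Pool.Agent.ES.e ((n : ℝ) * h / q) := by
      unfold ES.expSum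
      rw [hshift, mul_sum]
      refine sum_congr rfl fun n _ => ?_
      have h5 : Complex.exp (2 * Real.pi * Complex.I *
          ((((K0 + 1 + n : ℕ) : ℝ) * ((h : ℝ) / q) : ℝ) : ℂ)) =
          Pool.Agent.ES.e (((K0 : ℝ) + 1) * (h / q)) * Pool.Agent.ES.e ((n : ℝ) * h / q) := by
        rw [← Pool.Agent.ES.e_add]
        unfold Pool.Agent.ES.e
        congr 1
        push_cast
        ring
      rw [h5]
      simp only [hb]
      ring
    rw [h4, norm_mul, Pool.Agent.ES.norm_e, one_mul]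
  rw [h2] at h1
  have h5 : ∑ q ∈ Icc 1 R, ∑ h ∈ (range q).filter (fun h => h.Coprime q),
      ‖ES.expSum β K0 K ((h : ℝ) / q)‖ ^ 2 =
      ∑ q ∈ Icc 1 R, ∑ h ∈ (range q).filter (fun h => Nat.Coprime h q),
      ‖∑ n ∈ range K, b n * Pool.Agent.ES.e ((n : ℝ) * h / q)‖ ^ 2 := by
    refine sum_congr rfl fun q _ => sum_congr rfl fun h _ => ?_
    rw [h3]
  rw [h5]
  refine le_trans h1 ?_
  have h6 : 0 ≤ ∑ k ∈ Ioc K0 (K0 + K), β k ^ 2 := sum_nonneg fun _ _ => sq_nonneg _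
  refine mul_le_mul_of_nonneg_right ?_ h6
  have : (0 : ℝ) ≤ (R : ℝ) ^ 2 := by positivity
  linarith
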