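import Mathlib
import Pool.Agent.Lib.ES.Defs

/-!
# Row R4 of tank ES: variance over the classes modulo `r`
-/

open Finset
open scoped BigOperators

namespace ES

namespace R4L

/-- `e(d h / r)` -/
noncomputable def ee (r : ℕ) (d : ℤ) (h : ℕ) : ℂ :=
  Complex.exp (2 * Real.pi * Complex.I * ((d : ℂ) * ((h : ℂ) / r)))

lemma geom_exp (r : ℕ) (hr : 0 < r) (d : ℤ) :
    ∑ h ∈ range r, ee r d h = if (r : ℤ) ∣ d then (r : ℂ) else 0 := by
  have hr' : (r : ℂ) ≠ 0 := by exact_mod_cast hr.ne'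
  set ζ : ℂ := Complex.exp (2 * Real.pi * Complex.I * ((d : ℂ) / r)) with hζ
  have hterm : ∀ h ∈ range r, ee r d h = ζ ^ h := by
    intro h _
    rw [hζ, ← Complex.exp_nat_mul, ee]
    congr 1
    field_simp
  rw [Finset.sum_congr rfl hterm]
  have hpow : ζ ^ r = 1 := by
    rw [hζ, ← Complex.exp_nat_mul, Complex.exp_eq_one_iff]
    exact ⟨d, by field_simp⟩
  have hpi : (2 * Real.pi * Complex.I : ℂ) ≠ 0 := by
    simp [Real.pi_ne_zero]
  by_cases h1 : (r : ℤ) ∣ d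
  · rw [if_pos h1]
    obtain ⟨e, he⟩ := h1
    have : ζ = 1 := by
      rw [hζ, Complex.exp_eq_one_iff]
      refine ⟨e, ?_⟩
      rw [he]; push_cast; field_simp
    simp [this]
  · rw [if_neg h1]
    have hne : ζ ≠ 1 := by
      intro h
      rw [hζ, Complex.exp_eq_one_iff] at h
      obtain ⟨n, hn⟩ := h
      apply h1
      refine ⟨n, ?_⟩
      have h2 : (d : ℂ) / r = n := by
        apply mul_left_cancel₀ hpi
        rw [hn]; ring
      have h3 : (d : ℂ) = r * n := by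
        field_simp at h2
        rw [h2]
      exact_mod_cast h3
    rw [geom_sum_eq hne, hpow]; simp

/-- sum over a class -/
noncomputable def cs (β : ℕ → ℝ) (s : Finset ℕ) (r a : ℕ) : ℝ :=
  ∑ k ∈ s.filter (fun k => k % r = a), β k

lemma sum_cs (β : ℕ → ℝ) (s : Finset ℕ) (r : ℕ) (hr : 0 < r) :
    ∑ a ∈ range r, cs β s r a = ∑ k ∈ s, β k := by
  unfold cs
  exact Finset.sum_fiberwise_of_maps_to (fun k _ => mem_range.2 (Nat.mod_lt k hr)) β

lemma sum_cs_sq (β : ℕ → ℝ) (s : Finset ℕ) (r : ℕ) (hr : 0 < r) :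
    ∑ a ∈ range r, cs β s r a ^ 2 =
      ∑ k ∈ s, ∑ l ∈ s, if k % r = l % r then β k * β l else 0 := by
  have h1 : ∀ a ∈ range r, cs β s r a ^ 2 =
      ∑ k ∈ s.filter (fun k => k % r = a), ∑ l ∈ s, if k % r = l % r then β k * β l else 0 := by
    intro a _
    rw [pow_two, cs, Finset.sum_mul]
    refine Finset.sum_congr rfl fun k hk => ?_
    rw [Finset.mul_sum, Finset.sum_filter]
    refine Finset.sum_congr rfl fun l _ => ?_
    have hk' := (mem_filter.1 hk).2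
    by_cases h : l % r = a
    · rw [if_pos h, if_pos (by rw [hk', h])]
    · rw [if_neg h, if_neg (by rw [hk']; exact fun h' => h h'.symm)]
  rw [Finset.sum_congr rfl h1]
  exact Finset.sum_fiberwise_of_maps_to (fun k _ => mem_range.2 (Nat.mod_lt k hr)) _

lemma parseval (β : ℕ → ℝ) (K0 K r : ℕ) (hr : 0 < r) :
    ∑ h ∈ range r, ‖expSum β K0 K ((h : ℝ) / r)‖ ^ 2 =
      r * ∑ a ∈ range r, cs β (Ioc K0 (K0 + K)) r a ^ 2 := by
  rw [sum_cs_sq β _ r hr]
  have key : (((∑ h ∈ range r, ‖expSum β K0 K ((h : ℝ) / r)‖ ^ 2 : ℝ)) : ℂ) =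
      ((r * ∑ k ∈ Ioc K0 (K0 + K), ∑ l ∈ Ioc K0 (K0 + K),
        (if k % r = l % r then β k * β l else 0) : ℝ) : ℂ) := by
    push_cast
    have h1 : ∀ h ∈ range r, (‖expSum β K0 K ((h : ℝ) / r)‖ : ℂ) ^ 2 =
        ∑ k ∈ Ioc K0 (K0 + K), ∑ l ∈ Ioc K0 (K0 + K),
          ((β k : ℂ) * (β l : ℂ)) * ee r ((k : ℤ) - l) h := by
      intro h _
      rw [← Complex.mul_conj', expSum, map_sum, Finset.sum_mul_sum]
      refine Finset.sum_congr rfl fun k _ => Finset.sum_congr rfl fun l _ => ?_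
      rw [map_mul, Complex.conj_ofReal, ← Complex.exp_conj, mul_mul_mul_comm, ← Complex.exp_add, ee]
      congr 2
      simp only [map_mul, Complex.conj_ofReal, Complex.conj_I, map_ofNat]
      push_cast
      ring
    rw [Finset.sum_congr rfl h1, Finset.sum_comm]
    rw [Finset.mul_sum]
    refine Finset.sum_congr rfl fun k _ => ?_
    rw [Finset.sum_comm, Finset.mul_sum]
    refine Finset.sum_congr rfl fun l _ => ?_
    rw [← Finset.mul_sum, geom_exp r hr]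
    have hiff : (r : ℤ) ∣ ((k : ℤ) - l) ↔ k % r = l % r := by
      rw [← Nat.modEq_iff_dvd (n := r) (a := l) (b := k)]
      exact ⟨fun h => h.symm, fun h => h.symm⟩
    by_cases h : k % r = l % r
    · rw [if_pos (hiff.2 h), if_pos h]; push_cast; ring
    · rw [if_neg (fun h' => h (hiff.1 h')), if_neg h]; simp
  exact_mod_cast key

lemma classDev_eq (β : ℕ → ℝ) (K0 K r : ℕ) (hr : 0 < r) :
    classDev β K0 K r = (1 / r) * ∑ h ∈ (range r).erase 0, ‖expSum β K0 K ((h : ℝ) / r)‖ ^ 2 := by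
  have hr' : (r : ℝ) ≠ 0 := by exact_mod_cast hr.ne'
  have h0 : (0 : ℕ) ∈ range r := mem_range.2 hr
  have hS0 : ‖expSum β K0 K (((0 : ℕ) : ℝ) / r)‖ ^ 2 = (∑ k ∈ Ioc K0 (K0 + K), β k) ^ 2 := by
    have : expSum β K0 K (((0 : ℕ) : ℝ) / r) = ((∑ k ∈ Ioc K0 (K0 + K), β k : ℝ) : ℂ) := by
      unfold expSum; simp
    rw [this, Complex.norm_real, Real.norm_eq_abs, sq_abs]
  have hp := parseval β K0 K r hr
  rw [← Finset.add_sum_erase _ _ h0, hS0] at hp
  have hsum : ∑ h ∈ (range r).erase 0, ‖expSum β K0 K ((h : ℝ) / r)‖ ^ 2 =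
      r * ∑ a ∈ range r, cs β (Ioc K0 (K0 + K)) r a ^ 2 - (∑ k ∈ Ioc K0 (K0 + K), β k) ^ 2 := by
    linarith
  rw [hsum]
  set S := ∑ k ∈ Ioc K0 (K0 + K), β k with hS
  have e1 : classDev β K0 K r = ∑ a ∈ range r, (cs β (Ioc K0 (K0 + K)) r a - S / r) ^ 2 := rfl
  rw [e1]
  have e2 : ∀ a ∈ range r, (cs β (Ioc K0 (K0 + K)) r a - S / r) ^ 2 =
      cs β (Ioc K0 (K0 + K)) r a ^ 2 - (2 * S / r) * cs β (Ioc K0 (K0 + K)) r a + S ^ 2 / r ^ 2 := by
    intro a _; field_simp; ring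
  rw [Finset.sum_congr rfl e2, Finset.sum_add_distrib, Finset.sum_sub_distrib, ← Finset.mul_sum,
    sum_cs β _ r hr, ← hS, Finset.sum_const, card_range, nsmul_eq_mul]
  field_simp
  ring

/-- regroup by the denominator -/
lemma regroup (F : ℝ → ℝ) (hF : ∀ x, 0 ≤ F x) (r R : ℕ) (hr : 0 < r) (hR : r ≤ R) :
    ∑ h ∈ (range r).erase 0, F ((h : ℝ) / r) ≤
      ∑ q ∈ (Icc 1 R).filter (fun q => 2 ≤ q ∧ q ∣ r),
        ∑ h ∈ (range q).filter (fun h => h.Coprime q), F ((h : ℝ) / q) := by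
  classical
  rw [Finset.sum_sigma']
  have hmap : ∀ h ∈ (range r).erase 0, F ((h : ℝ) / r) =
      (fun x : (_ : ℕ) × ℕ => F ((x.2 : ℝ) / x.1)) ⟨r / h.gcd r, h / h.gcd r⟩ := by
    intro h _
    have hg : 0 < h.gcd r := Nat.gcd_pos_of_pos_right _ hr
    have hg' : (h.gcd r : ℝ) ≠ 0 := by exact_mod_cast hg.ne'
    simp only
    rw [Nat.cast_div (Nat.gcd_dvd_left h r) hg', Nat.cast_div (Nat.gcd_dvd_right h r) hg']
    rw [div_div_div_cancel_right₀ hg']
  rw [Finset.sum_congr rfl hmap]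
  have hinj : Set.InjOn (fun h : ℕ => (⟨r / h.gcd r, h / h.gcd r⟩ : (_ : ℕ) × ℕ))
      ((range r).erase 0 : Finset ℕ) := by
    intro h1 hh1 h2 hh2 heq
    simp only [Sigma.mk.injEq, heq_eq_eq] at heq
    obtain ⟨e1, e2⟩ := heq
    have g1 := Nat.gcd_dvd_right h1 r
    have g2 := Nat.gcd_dvd_right h2 r
    have p1 : 0 < h1.gcd r := Nat.gcd_pos_of_pos_right _ hr
    have p2 : 0 < h2.gcd r := Nat.gcd_pos_of_pos_right _ hr
    have m1 : r / h1.gcd r * h1.gcd r = r := Nat.div_mul_cancel g1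
    have m2 : r / h2.gcd r * h2.gcd r = r := Nat.div_mul_cancel g2
    have hq : 0 < r / h1.gcd r := Nat.div_pos (Nat.le_of_dvd hr g1) p1
    have hgg : h1.gcd r = h2.gcd r := by
      rw [← e1] at m2
      exact Nat.eq_of_mul_eq_mul_left hq (m1.trans m2.symm)
    have n1 : h1 / h1.gcd r * h1.gcd r = h1 := Nat.div_mul_cancel (Nat.gcd_dvd_left h1 r)
    have n2 : h2 / h2.gcd r * h2.gcd r = h2 := Nat.div_mul_cancel (Nat.gcd_dvd_left h2 r)
    rw [← n1, ← n2, e2, hgg]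
  rw [← Finset.sum_image (f := fun x : (_ : ℕ) × ℕ => F ((x.2 : ℝ) / x.1)) hinj]
  apply Finset.sum_le_sum_of_subset_of_nonneg
  · intro x hx
    obtain ⟨h, hh, rfl⟩ := mem_image.1 hx
    obtain ⟨hh0, hhr⟩ := mem_erase.1 hh
    have hhr := mem_range.1 hhr
    have hg : 0 < h.gcd r := Nat.gcd_pos_of_pos_right _ hr
    have hdr := Nat.gcd_dvd_right h r
    have hdl := Nat.gcd_dvd_left h r
    have m1 : r / h.gcd r * h.gcd r = r := Nat.div_mul_cancel hdr
    have n1 : h / h.gcd r * h.gcd r = h := Nat.div_mul_cancel hdl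
    have hq : 0 < r / h.gcd r := Nat.div_pos (Nat.le_of_dvd hr hdr) hg
    have hh' : 0 < h / h.gcd r := Nat.div_pos (Nat.le_of_dvd (Nat.pos_of_ne_zero hh0) hdl) hg
    have hlt : h / h.gcd r < r / h.gcd r := by
      apply Nat.div_lt_div_of_lt_of_dvd hdr hhr
    simp only [mem_sigma, mem_filter, mem_Icc, mem_range]
    refine ⟨⟨⟨hq, (Nat.div_le_self _ _).trans hR⟩, by omega, Nat.div_dvd_of_dvd hdr⟩, hlt, ?_⟩
    exact Nat.coprime_div_gcd_div_gcd hg
  · intro x _ _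
    exact hF _

end R4L

open R4L in
theorem R4_proof : R4 := by
  classical
  intro h3
  obtain ⟨C, hC, hR3⟩ := h3
  refine ⟨C, hC, ?_⟩
  intro ι T r R K0 K β Δ hT hΔ
  have hΔ0 : 0 ≤ Δ := by
    refine le_trans ?_ (hΔ 2 le_rfl)
    exact Finset.sum_nonneg fun t _ => by positivity
  set G : ℕ → ℝ := fun q => ∑ h ∈ (range q).filter (fun h => h.Coprime q),
    ‖expSum β K0 K ((h : ℝ) / q)‖ ^ 2 with hG
  have hG0 : ∀ q, 0 ≤ G q := fun q => Finset.sum_nonneg fun _ _ => by positivity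
  calc ∑ t ∈ T, classDev β K0 K (r t)
      ≤ ∑ t ∈ T, ∑ q ∈ (Icc 1 R).filter (fun q => 2 ≤ q),
          (if q ∣ r t then (1 : ℝ) / r t else 0) * G q := by
        refine Finset.sum_le_sum fun t ht => ?_
        obtain ⟨h1, h2⟩ := hT t ht
        rw [classDev_eq β K0 K (r t) h1]
        have := regroup (fun x => ‖expSum β K0 K x‖ ^ 2) (fun x => by positivity) (r t) R h1 h2
        calc (1 / (r t : ℝ)) * ∑ h ∈ (range (r t)).erase 0, ‖expSum β K0 K ((h : ℝ) / r t)‖ ^ 2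
            ≤ (1 / (r t : ℝ)) * ∑ q ∈ (Icc 1 R).filter (fun q => 2 ≤ q ∧ q ∣ r t), G q := by
              apply mul_le_mul_of_nonneg_left this (by positivity)
          _ = _ := by
              rw [Finset.mul_sum, ← Finset.filter_filter, Finset.sum_filter]
              refine Finset.sum_congr rfl fun q _ => ?_
              by_cases h : q ∣ r t <;> simp [h]
    _ = ∑ q ∈ (Icc 1 R).filter (fun q => 2 ≤ q),
          (∑ t ∈ T.filter (fun t => q ∣ r t), (1 : ℝ) / r t) * G q := by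
        rw [Finset.sum_comm]
        refine Finset.sum_congr rfl fun q _ => ?_
        rw [Finset.sum_filter, Finset.sum_mul]
    _ ≤ ∑ q ∈ (Icc 1 R).filter (fun q => 2 ≤ q), Δ * G q := by
        refine Finset.sum_le_sum fun q hq => ?_
        exact mul_le_mul_of_nonneg_right (hΔ q (mem_filter.1 hq).2) (hG0 q)
    _ = Δ * ∑ q ∈ (Icc 1 R).filter (fun q => 2 ≤ q), G q := by rw [Finset.mul_sum]
    _ ≤ Δ * ∑ q ∈ Icc 1 R, G q := by
        apply mul_le_mul_of_nonneg_left _ hΔ0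
        exact Finset.sum_le_sum_of_subset_of_nonneg (filter_subset _ _) (fun q _ _ => hG0 q)
    _ ≤ Δ * (C * (K + (R : ℝ) ^ 2) * ∑ k ∈ Ioc K0 (K0 + K), β k ^ 2) := by
        apply mul_le_mul_of_nonneg_left _ hΔ0
        exact hR3 R K0 K β
    _ = C * Δ * (K + (R : ℝ) ^ 2) * ∑ k ∈ Ioc K0 (K0 + K), β k ^ 2 := by ring

end ES
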