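import Pool.Agent.Lib.ES.Defs

/-!
# ES, row R5: Vaughan's identity in the ring of arithmetic functions
-/

namespace ES

theorem low_add_high (f : ArithmeticFunction ℝ) (V : ℕ) : low f V + high f V = f := by
  ext n
  simp only [ArithmeticFunction.add_apply, low, high, ArithmeticFunction.coe_mk]
  by_cases h : n ≤ V
  · simp [h, not_lt.mpr h]
  · simp [h, not_le.mp h]

theorem R5_proof : R5 := by
  intro V U
  have h1 := low_add_high vM V
  have h2 := low_add_high moe U
  have h3 : vM * one' = ArithmeticFunction.log := ArithmeticFunction.vonMangoldt_mul_zeta
  have h4 : moe * one' = 1 := ArithmeticFunction.coe_moebius_mul_coe_zeta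
  linear_combination (low moe U * one' - 1) * h1 - high vM V * one' * h2 + low moe U * h3 -
    high vM V * h4

end ES
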