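import Pool.Agent.Lib.ES.Defs

/-! Row R6 of tank ES: type I sums. -/

open Finset
open scoped BigOperators

namespace ES.R6aux

/-- Abel summation: tails of `w` bounded by `K`, `h` monotone. -/
theorem abel_aux (w h : ℕ → ℝ) (hh : Monotone h) (K : ℝ) (B : ℕ)
    (hK : ∀ u, u ≤ B → |∑ e ∈ Ioc u B, w e| ≤ K) :
    ∀ n A : ℕ, A + n = B → |∑ e ∈ Ioc A B, w e * (h e - h A)| ≤ K * (h B - h A) := by
  intro n
  induction n with
  | zero =>
    intro A hA
    have : A = B := by omega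
    subst this
    simp
  | succ n ih =>
    intro A hA
    have h1 := ih (A + 1) (by omega)
    have hsplit : Ioc A B = insert (A + 1) (Ioc (A + 1) B) := by
      ext e; simp only [mem_Ioc, mem_insert]; omega
    have hnot : A + 1 ∉ Ioc (A + 1) B := by simp
    have hK' := hK A (by omega)
    have e1 : ∑ e ∈ Ioc A B, w e * (h e - h A) =
        ∑ e ∈ Ioc (A + 1) B, w e * (h e - h (A + 1)) +
          (h (A + 1) - h A) * ∑ e ∈ Ioc A B, w e := by
      have e2 : ∑ e ∈ Ioc A B, w e * (h e - h A) =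
          ∑ e ∈ Ioc A B, w e * (h e - h (A + 1)) + (h (A + 1) - h A) * ∑ e ∈ Ioc A B, w e := by
        rw [mul_sum, ← sum_add_distrib]
        apply sum_congr rfl
        intro e _
        ring
      rw [e2]
      congr 1
      rw [hsplit, sum_insert hnot]
      simp
    rw [e1]
    have hm : 0 ≤ h (A + 1) - h A := sub_nonneg.2 (hh (by omega))
    calc |∑ e ∈ Ioc (A + 1) B, w e * (h e - h (A + 1)) + (h (A + 1) - h A) * ∑ e ∈ Ioc A B, w e|
        ≤ |∑ e ∈ Ioc (A + 1) B, w e * (h e - h (A + 1))| +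
            |(h (A + 1) - h A) * ∑ e ∈ Ioc A B, w e| := abs_add_le _ _
      _ ≤ K * (h B - h (A + 1)) + (h (A + 1) - h A) * K := by
          rw [abs_mul, abs_of_nonneg hm]
          exact add_le_add h1 (mul_le_mul_of_nonneg_left hK' hm)
      _ = K * (h B - h A) := by ring

theorem abel (w h : ℕ → ℝ) (hh : Monotone h) (h0 : ∀ n, 0 ≤ h n) (K : ℝ) (A B : ℕ) (hAB : A ≤ B)
    (hK : ∀ u, u ≤ B → |∑ e ∈ Ioc u B, w e| ≤ K) :
    |∑ e ∈ Ioc A B, w e * h e| ≤ K * h B := by
  have h1 := abel_aux w h hh K B hK (B - A) A (by omega)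
  have h2 := hK A hAB
  have e1 : ∑ e ∈ Ioc A B, w e * h e =
      ∑ e ∈ Ioc A B, w e * (h e - h A) + h A * ∑ e ∈ Ioc A B, w e := by
    rw [mul_sum, ← sum_add_distrib]
    apply sum_congr rfl
    intro e _
    ring
  rw [e1]
  calc |∑ e ∈ Ioc A B, w e * (h e - h A) + h A * ∑ e ∈ Ioc A B, w e|
      ≤ |∑ e ∈ Ioc A B, w e * (h e - h A)| + |h A * ∑ e ∈ Ioc A B, w e| := abs_add_le _ _
    _ ≤ K * (h B - h A) + h A * K := by
        rw [abs_mul, abs_of_nonneg (h0 A)]
        exact add_le_add h1 (mul_le_mul_of_nonneg_left h2 (h0 A))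
    _ = K * h B := by ring

/-- the number of `e` in `(u, B]` in a class mod `Q` is `(B - u) / Q` up to 1 -/
theorem count_class (u B Q c : ℕ) (huB : u ≤ B) (hQ : 0 < Q) :
    |(((Ioc u B).filter (fun e => e ≡ c [MOD Q])).card : ℝ) - ((B : ℝ) - u) / Q| ≤ 1 := by
  have h1 := Nat.Ioc_filter_modEq_card u B hQ c
  have hQ' : (0 : ℚ) < Q := by exact_mod_cast hQ
  set X : ℚ := ((B : ℚ) - c) / Q with hX
  set Y : ℚ := ((u : ℚ) - c) / Q with hY
  have hYX : Y ≤ X := by
    rw [hX, hY]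
    apply div_le_div_of_nonneg_right _ hQ'.le
    have : (u : ℚ) ≤ B := by exact_mod_cast huB
    linarith
  have hfl : ⌊Y⌋ ≤ ⌊X⌋ := Int.floor_le_floor hYX
  have h2 : (((Ioc u B).filter (fun e => e ≡ c [MOD Q])).card : ℤ) = ⌊X⌋ - ⌊Y⌋ := by
    rw [h1]
    exact max_eq_left (by omega)
  have h3 : (((Ioc u B).filter (fun e => e ≡ c [MOD Q])).card : ℚ) = (⌊X⌋ : ℚ) - (⌊Y⌋ : ℚ) := by
    have := congrArg (fun z : ℤ => (z : ℚ)) h2
    push_cast at this
    exact this
  have a1 := Int.floor_le X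
  have a2 := Int.lt_floor_add_one X
  have a3 := Int.floor_le Y
  have a4 := Int.lt_floor_add_one Y
  have h4 : |(((Ioc u B).filter (fun e => e ≡ c [MOD Q])).card : ℚ) - ((B : ℚ) - u) / Q| ≤ 1 := by
    have hd : ((B : ℚ) - u) / Q = X - Y := by rw [hX, hY]; ring
    rw [h3, hd, abs_le]
    constructor <;> linarith
  have h5 := h4
  rw [abs_le] at h5 ⊢
  constructor
  · have := h5.1
    have h6 : ((-1 : ℚ) : ℝ) ≤ (((((Ioc u B).filter (fun e => e ≡ c [MOD Q])).card : ℚ) -
      ((B : ℚ) - u) / Q : ℚ) : ℝ) := by exact_mod_cast this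
    push_cast at h6
    exact h6
  · have := h5.2
    have h6 : (((((Ioc u B).filter (fun e => e ≡ c [MOD Q])).card : ℚ) -
      ((B : ℚ) - u) / Q : ℚ) : ℝ) ≤ ((1 : ℚ) : ℝ) := by exact_mod_cast this
    push_cast at h6
    exact h6

/-- opening a Dirichlet convolution -/
theorem apSum_mul (g h : ArithmeticFunction ℝ) (y1 y2 q γ D : ℕ) (hD : D ≤ y2)
    (hg : ∀ d, D < d → g d = 0) :
    apSum (fun n => (g * h) n) y1 y2 q γ =
      ∑ d ∈ Icc 1 D, g d *
        ∑ e ∈ (Ioc (y1 / d) (y2 / d)).filter (fun e => d * e % q = γ % q), h e := by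
  have h1 : ∑ d ∈ Icc 1 D, g d *
        ∑ e ∈ (Ioc (y1 / d) (y2 / d)).filter (fun e => d * e % q = γ % q), h e =
      ∑ d ∈ Icc 1 y2, g d *
        ∑ e ∈ (Ioc (y1 / d) (y2 / d)).filter (fun e => d * e % q = γ % q), h e := by
    apply sum_subset
    · intro d hd; rw [mem_Icc] at hd ⊢; omega
    · intro d hd hd'
      rw [mem_Icc] at hd hd'
      rw [hg d (by omega), zero_mul]
  rw [h1]
  unfold apSum
  have h2 : ∀ d ∈ Icc 1 y2, g d *
        ∑ e ∈ (Ioc (y1 / d) (y2 / d)).filter (fun e => d * e % q = γ % q), h e =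
      ∑ e ∈ (Ioc (y1 / d) (y2 / d)).filter (fun e => d * e % q = γ % q), g d * h e :=
    fun d _ => mul_sum _ _ _
  rw [sum_congr rfl h2, sum_sigma']
  have h3 : ∀ n ∈ (Ioc y1 y2).filter (fun n => n % q = γ % q), (g * h) n =
      ∑ p ∈ n.divisorsAntidiagonal, g p.1 * h p.2 := fun n _ => ArithmeticFunction.mul_apply
  rw [sum_congr rfl h3, sum_sigma']
  apply sum_nbij' (fun s => ⟨s.2.1, s.2.2⟩) (fun s => ⟨s.1 * s.2, (s.1, s.2)⟩)
  · rintro ⟨n, d, e⟩ hs
    simp only [mem_sigma, mem_filter, mem_Ioc, Nat.mem_divisorsAntidiagonal, mem_Icc] at hs ⊢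
    obtain ⟨⟨⟨h1, h2⟩, h3⟩, h4, h5⟩ := hs
    subst h4
    have hd : 0 < d := Nat.pos_of_ne_zero (fun h => h5 (by rw [h, zero_mul]))
    have he : 0 < e := Nat.pos_of_ne_zero (fun h => h5 (by rw [h, mul_zero]))
    refine ⟨⟨hd, le_trans (Nat.le_mul_of_pos_right d he) h2⟩, ⟨?_, ?_⟩, h3⟩
    · rw [Nat.div_lt_iff_lt_mul hd, mul_comm]; exact h1
    · rw [Nat.le_div_iff_mul_le hd, mul_comm]; exact h2
  · rintro ⟨d, e⟩ hs
    simp only [mem_sigma, mem_filter, mem_Ioc, Nat.mem_divisorsAntidiagonal, mem_Icc] at hs ⊢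
    obtain ⟨⟨hd, hd'⟩, ⟨h1, h2⟩, h3⟩ := hs
    have hd0 : 0 < d := hd
    rw [Nat.div_lt_iff_lt_mul hd0, mul_comm] at h1
    rw [Nat.le_div_iff_mul_le hd0, mul_comm] at h2
    refine ⟨⟨⟨h1, h2⟩, h3⟩, trivial, ?_⟩
    omega
  · rintro ⟨n, d, e⟩ hs
    simp only [mem_sigma, mem_filter, mem_Ioc, Nat.mem_divisorsAntidiagonal] at hs
    obtain ⟨_, h4, _⟩ := hs
    subst h4
    rfl
  · rintro ⟨d, e⟩ _; rfl
  · rintro ⟨n, d, e⟩ _; rfl


/-- harmonic sum -/
theorem sum_inv_le (D : ℕ) : ∑ k ∈ Icc 1 D, (1 : ℝ) / k ≤ 1 + Real.log D := by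
  have h1 := harmonic_le_one_add_log D
  have h2 : ((harmonic D : ℚ) : ℝ) = ∑ k ∈ Icc 1 D, (1 : ℝ) / k := by
    rw [harmonic_eq_sum_Icc]
    push_cast
    apply sum_congr rfl
    intro k _
    rw [one_div]
  rw [← h2]; exact h1

theorem sum_inv_dvd_le (D q : ℕ) (hq : 1 ≤ q) :
    ∑ d ∈ (Icc 1 D).filter (fun d => q ∣ d), (1 : ℝ) / d ≤ (1 / q) * (1 + Real.log D) := by
  have hinj : Set.InjOn (fun k => q * k) ((Icc 1 D : Finset ℕ) : Set ℕ) := by
    intro a _ b _ hab
    exact Nat.eq_of_mul_eq_mul_left (by omega) hab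
  calc ∑ d ∈ (Icc 1 D).filter (fun d => q ∣ d), (1 : ℝ) / d
      ≤ ∑ d ∈ (Icc 1 D).image (fun k => q * k), (1 : ℝ) / d := by
        apply sum_le_sum_of_subset_of_nonneg
        · intro d hd
          rw [mem_filter, mem_Icc] at hd
          obtain ⟨⟨h1, h2⟩, k, hk⟩ := hd
          rw [mem_image]
          refine ⟨k, ?_, hk.symm⟩
          rw [mem_Icc]
          constructor
          · rcases Nat.eq_zero_or_pos k with h | h
            · rw [h, mul_zero] at hk; omega
            · exact h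
          · exact le_trans (Nat.le_mul_of_pos_left k (by omega)) (hk ▸ h2)
        · intro d _ _; positivity
    _ = ∑ k ∈ Icc 1 D, (1 : ℝ) / ((q * k : ℕ) : ℝ) := sum_image hinj
    _ = (1 / q) * ∑ k ∈ Icc 1 D, (1 : ℝ) / k := by
        rw [mul_sum]
        apply sum_congr rfl
        intro k _
        push_cast
        rw [one_div, one_div, one_div, mul_inv]
    _ ≤ (1 / q) * (1 + Real.log D) :=
        mul_le_mul_of_nonneg_left (sum_inv_le D) (by positivity)

/-- the error for one `d` -/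
noncomputable def err (h : ℕ → ℝ) (y1 y2 m r γ d : ℕ) : ℝ :=
  ∑ e ∈ (Ioc (y1 / d) (y2 / d)).filter (fun e => d * e % (m * r) = γ % (m * r)), h e -
    (∑ e ∈ (Ioc (y1 / d) (y2 / d)).filter (fun e => d * e % m = γ % m), h e) / r

theorem disc_mul (g h : ArithmeticFunction ℝ) (y1 y2 m r γ D : ℕ) (hD : D ≤ y2)
    (hg : ∀ d, D < d → g d = 0) :
    disc (fun n => (g * h) n) y1 y2 m r γ = ∑ d ∈ Icc 1 D, g d * err h y1 y2 m r γ d := by
  unfold disc err
  rw [apSum_mul g h y1 y2 (m * r) γ D hD hg, apSum_mul g h y1 y2 m γ D hD hg, sum_div,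
    ← sum_sub_distrib]
  apply sum_congr rfl
  intro d _
  ring

theorem exists_class (d Q γ : ℕ) (hQ : 0 < Q) (hd : d.Coprime Q) :
    ∃ c : ℕ, d * c ≡ γ [MOD Q] := by
  refine ⟨γ * d ^ (Nat.totient Q - 1), ?_⟩
  have h1 : 0 < Nat.totient Q := Nat.totient_pos.2 hQ
  have h2 : d * (γ * d ^ (Nat.totient Q - 1)) = γ * d ^ Nat.totient Q := by
    conv_rhs => rw [← Nat.sub_add_cancel h1, pow_succ]
    ring
  rw [h2]
  have h3 := Nat.ModEq.pow_totient hd
  simpa using h3.mul_left γ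

theorem filter_class (d Q γ c A B : ℕ) (hd : d.Coprime Q) (hc : d * c ≡ γ [MOD Q]) :
    (Ioc A B).filter (fun e => d * e % Q = γ % Q) = (Ioc A B).filter (fun e => e ≡ c [MOD Q]) := by
  apply filter_congr
  intro e _
  constructor
  · intro h
    have h1 : d * e ≡ d * c [MOD Q] := Nat.ModEq.trans h hc.symm
    exact Nat.ModEq.cancel_left_of_coprime (by rw [Nat.coprime_comm] at hd; exact hd) h1
  · intro h
    exact (h.mul_left d).trans hc

theorem err_coprime (h : ℕ → ℝ) (hh : Monotone h) (h0 : ∀ n, 0 ≤ h n) (y1 y2 m r γ d : ℕ)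
    (hm : 1 ≤ m) (hr : 1 ≤ r) (hy : y1 ≤ y2) (hd : d.Coprime (m * r)) :
    |err h y1 y2 m r γ d| ≤ 2 * h (y2 / d) := by
  have hQ : 0 < m * r := Nat.mul_pos (by omega) (by omega)
  obtain ⟨c, hc⟩ := exists_class d (m * r) γ hQ hd
  have hc' : d * c ≡ γ [MOD m] := hc.of_dvd (Dvd.intro _ rfl)
  have hdm : d.Coprime m := Nat.Coprime.coprime_mul_right_right hd
  have hr0 : (0 : ℝ) < r := by exact_mod_cast hr
  have hm0 : (0 : ℝ) < m := by exact_mod_cast hm
  have hr1 : (1 : ℝ) ≤ r := by exact_mod_cast hr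
  unfold err
  rw [filter_class d (m * r) γ c _ _ hd hc, filter_class d m γ c _ _ hdm hc']
  set w : ℕ → ℝ := fun e => (if e ≡ c [MOD m * r] then 1 else 0) -
    (if e ≡ c [MOD m] then 1 else 0) / r with hw
  have e1 : ∑ e ∈ (Ioc (y1 / d) (y2 / d)).filter (fun e => e ≡ c [MOD m * r]), h e -
      (∑ e ∈ (Ioc (y1 / d) (y2 / d)).filter (fun e => e ≡ c [MOD m]), h e) / r =
      ∑ e ∈ Ioc (y1 / d) (y2 / d), w e * h e := by
    rw [sum_filter, sum_filter, sum_div, ← sum_sub_distrib]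
    apply sum_congr rfl
    intro e _
    rw [hw]
    by_cases h1 : e ≡ c [MOD m * r] <;> by_cases h2 : e ≡ c [MOD m] <;> simp [h1, h2] <;> ring
  rw [e1]
  apply abel w h hh h0 2 _ _ (Nat.div_le_div_right hy)
  intro u hu
  have e2 : ∑ e ∈ Ioc u (y2 / d), w e =
      (((Ioc u (y2 / d)).filter (fun e => e ≡ c [MOD m * r])).card : ℝ) -
      (((Ioc u (y2 / d)).filter (fun e => e ≡ c [MOD m])).card : ℝ) / r := by
    rw [hw, sum_sub_distrib, ← sum_div]
    simp
  rw [e2]
  have c1 := count_class u (y2 / d) (m * r) c hu hQ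
  have c2 := count_class u (y2 / d) m c hu (by omega)
  set N1 : ℝ := (((Ioc u (y2 / d)).filter (fun e => e ≡ c [MOD m * r])).card : ℝ)
  set N2 : ℝ := (((Ioc u (y2 / d)).filter (fun e => e ≡ c [MOD m])).card : ℝ)
  set L : ℝ := (((y2 / d : ℕ) : ℝ) - u) with hL
  have e3 : N1 - N2 / r = (N1 - L / ((m * r : ℕ) : ℝ)) - (N2 - L / m) / r := by
    push_cast
    field_simp
    ring
  rw [e3]
  calc |(N1 - L / ((m * r : ℕ) : ℝ)) - (N2 - L / m) / r|
      ≤ |N1 - L / ((m * r : ℕ) : ℝ)| + |(N2 - L / m) / r| := abs_sub _ _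
    _ ≤ 1 + 1 := by
        apply add_le_add c1
        rw [abs_div, abs_of_pos hr0, div_le_one hr0]
        exact le_trans c2 hr1
    _ = 2 := by norm_num


theorem filter_empty (d Q γ A B : ℕ) (hd : ¬ d.Coprime Q) (hγ : γ.Coprime Q) :
    (Ioc A B).filter (fun e => d * e % Q = γ % Q) = ∅ := by
  rw [filter_eq_empty_iff]
  intro e _ h
  apply hd
  have h1 : d * e ≡ γ [MOD Q] := h
  have h2 : Nat.gcd (d * e) Q = Nat.gcd γ Q := h1.gcd_eq
  rw [hγ] at h2
  exact Nat.Coprime.coprime_mul_right h2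

theorem err_nonneg_bound (h : ℕ → ℝ) (h0 : ∀ n, 0 ≤ h n) (x y1 y2 m r γ d : ℕ) (H : ℝ)
    (hr : 1 ≤ r) (hd1 : 1 ≤ d) (hy2 : y2 ≤ 2 * x) (hx : x ≤ y1)
    (hH : ∀ e, e ≤ y2 → h e ≤ H)
    (hγ : γ.Coprime (m * r)) (hd : ¬ d.Coprime (m * r)) :
    |err h y1 y2 m r γ d| ≤ (H / r) * (1 + (x : ℝ) / d) := by
  have hr0 : (0 : ℝ) < r := by exact_mod_cast hr
  have hd0 : (0 : ℝ) < d := by exact_mod_cast hd1
  have hH0 : 0 ≤ H := le_trans (h0 0) (hH 0 (Nat.zero_le _))
  unfold err
  rw [filter_empty d (m * r) γ _ _ hd hγ, sum_empty, zero_sub, abs_neg, abs_div,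
    abs_of_pos hr0, abs_of_nonneg (sum_nonneg (fun e _ => h0 e))]
  have h1 : ∑ e ∈ (Ioc (y1 / d) (y2 / d)).filter (fun e => d * e % m = γ % m), h e ≤
      ((Ioc (y1 / d) (y2 / d)).card : ℝ) * H := by
    calc ∑ e ∈ (Ioc (y1 / d) (y2 / d)).filter (fun e => d * e % m = γ % m), h e
        ≤ ∑ e ∈ Ioc (y1 / d) (y2 / d), h e :=
          sum_le_sum_of_subset_of_nonneg (filter_subset _ _) (fun e _ _ => h0 e)
      _ ≤ ∑ e ∈ Ioc (y1 / d) (y2 / d), H := by
          apply sum_le_sum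
          intro e he
          rw [mem_Ioc] at he
          exact hH e (le_trans he.2 (Nat.div_le_self _ _))
      _ = ((Ioc (y1 / d) (y2 / d)).card : ℝ) * H := by rw [sum_const, nsmul_eq_mul]
  have h2 : ((Ioc (y1 / d) (y2 / d)).card : ℝ) ≤ 1 + (x : ℝ) / d := by
    rw [Nat.card_Ioc]
    have a1 : y2 ≤ y1 + x := by omega
    have a2 : y2 / d ≤ y1 / d + x / d + 1 := by
      have b1 : y2 / d ≤ (y1 + x) / d := Nat.div_le_div_right a1
      have b2 : (y1 + x) / d ≤ y1 / d + x / d + 1 := by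
        rw [Nat.add_div (by omega : 0 < d)]
        split_ifs <;> omega
      omega
    have a3 : y2 / d - y1 / d ≤ x / d + 1 := by
      apply Nat.sub_le_iff_le_add'.2
      rw [← add_assoc]; exact a2
    have a4 : ((y2 / d - y1 / d : ℕ) : ℝ) ≤ ((x / d + 1 : ℕ) : ℝ) := by exact_mod_cast a3
    have a5 : ((x / d : ℕ) : ℝ) ≤ (x : ℝ) / d := Nat.cast_div_le
    push_cast at a4 ⊢
    linarith
  calc (∑ e ∈ (Ioc (y1 / d) (y2 / d)).filter (fun e => d * e % m = γ % m), h e) / r
      ≤ ((1 + (x : ℝ) / d) * H) / r := by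
        apply div_le_div_of_nonneg_right _ hr0.le
        exact le_trans h1 (mul_le_mul_of_nonneg_right h2 hH0)
    _ = (H / r) * (1 + (x : ℝ) / d) := by ring

theorem err_bound (h : ℕ → ℝ) (hh : Monotone h) (h0 : ∀ n, 0 ≤ h n) (x y1 y2 m r γ d D : ℕ) (H : ℝ)
    (hm : 1 ≤ m) (hr : 1 ≤ r) (hd1 : 1 ≤ d) (hdD : d ≤ D) (hy : y1 ≤ y2) (hy2 : y2 ≤ 2 * x)
    (hx : x ≤ y1) (hH : ∀ e, e ≤ y2 → h e ≤ H) (hγ : γ.Coprime (m * r)) :
    |err h y1 y2 m r γ d| ≤ 2 * H + (H / r) *
      (1 + (x : ℝ) * ∑ q ∈ (Icc 2 D).filter (fun q => q ∣ r), if q ∣ d then (1 : ℝ) / d else 0) := by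
  have hr0 : (0 : ℝ) < r := by exact_mod_cast hr
  have hd0 : (0 : ℝ) < d := by exact_mod_cast hd1
  have hH0 : 0 ≤ H := le_trans (h0 0) (hH 0 (Nat.zero_le _))
  have hsum0 : 0 ≤ ∑ q ∈ (Icc 2 D).filter (fun q => q ∣ r), if q ∣ d then (1 : ℝ) / d else 0 := by
    apply sum_nonneg
    intro q _
    split_ifs <;> positivity
  have hrest : 0 ≤ (H / r) *
      (1 + (x : ℝ) * ∑ q ∈ (Icc 2 D).filter (fun q => q ∣ r), if q ∣ d then (1 : ℝ) / d else 0) := by
    positivity
  by_cases hc : d.Coprime (m * r)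
  · have h1 := err_coprime h hh h0 y1 y2 m r γ d hm hr hy hc
    have h2 := hH (y2 / d) (Nat.div_le_self _ _)
    linarith
  · by_cases hcm : d.Coprime m
    · have hcr : ¬ d.Coprime r := fun hcr => hc (Nat.Coprime.mul_right hcm hcr)
      have h1 := err_nonneg_bound h h0 x y1 y2 m r γ d H hr hd1 hy2 hx hH hγ hc
      have hq2 : 2 ≤ Nat.gcd d r := by
        have : 0 < Nat.gcd d r := Nat.gcd_pos_of_pos_left _ (by omega)
        have h2 : Nat.gcd d r ≠ 1 := hcr
        omega
      have hqD : Nat.gcd d r ≤ D := le_trans (Nat.le_of_dvd (by omega) (Nat.gcd_dvd_left d r)) hdD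
      have h3 : (1 : ℝ) / d ≤
          ∑ q ∈ (Icc 2 D).filter (fun q => q ∣ r), if q ∣ d then (1 : ℝ) / d else 0 := by
        have hmem : Nat.gcd d r ∈ (Icc 2 D).filter (fun q => q ∣ r) := by
          rw [mem_filter, mem_Icc]
          exact ⟨⟨hq2, hqD⟩, Nat.gcd_dvd_right d r⟩
        have h4 := single_le_sum (f := fun q : ℕ => if q ∣ d then (1 : ℝ) / d else 0)
          (s := (Icc 2 D).filter (fun q => q ∣ r))
          (fun q _ => by split_ifs <;> positivity) hmem
        simpa [Nat.gcd_dvd_left d r] using h4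
      calc |err h y1 y2 m r γ d| ≤ (H / r) * (1 + (x : ℝ) / d) := h1
        _ = (H / r) * (1 + (x : ℝ) * (1 / d)) := by ring
        _ ≤ (H / r) * (1 + (x : ℝ) *
            ∑ q ∈ (Icc 2 D).filter (fun q => q ∣ r), if q ∣ d then (1 : ℝ) / d else 0) := by
            apply mul_le_mul_of_nonneg_left _ (by positivity)
            have := mul_le_mul_of_nonneg_left h3 (Nat.cast_nonneg (α := ℝ) x)
            linarith
        _ ≤ _ := by linarith
    · have h1 : err h y1 y2 m r γ d = 0 := by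
        unfold err
        rw [filter_empty d (m * r) γ _ _ hc hγ,
          filter_empty d m γ _ _ hcm (Nat.Coprime.coprime_mul_right_right hγ)]
        simp
      rw [h1, abs_zero]
      linarith

end ES.R6aux

namespace ES
open R6aux

theorem R6_proof : R6 := by
  intro m hm
  refine ⟨2, by norm_num, ?_⟩
  intro ι T r γ Δ G x y1 y2 D g h hA hx2 hxy hy hy2 hD1 hDx hG hg hh
  have hx0 : (0 : ℝ) < x := by exact_mod_cast (by omega : 0 < x)
  have hx1 : (1 : ℝ) ≤ x := by exact_mod_cast (by omega : 1 ≤ x)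
  have hlogx : 0 ≤ Real.log x := Real.log_nonneg hx1
  have hG0 : 0 ≤ G := le_trans (abs_nonneg _) (hG 0)
  have hΔ0 : 0 ≤ Δ := le_trans (sum_nonneg (fun t _ => by positivity)) (hA.del 2 le_rfl)
  set H : ℝ := 1 + Real.log x with hHdef
  have hH1 : 1 ≤ H := by linarith
  have hmono : Monotone (fun n : ℕ => h n) := by
    rcases hh with hh | hh
    · intro a b hab
      simp only [hh, ArithmeticFunction.log_apply]
      rcases Nat.eq_zero_or_pos a with ha | ha
      · rw [ha]
        simp only [Nat.cast_zero, Real.log_zero]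
        exact Real.log_natCast_nonneg b
      · exact Real.log_le_log (by exact_mod_cast ha) (by exact_mod_cast hab)
    · intro a b hab
      simp only [hh, one', ArithmeticFunction.natCoe_apply, ArithmeticFunction.zeta_apply]
      split_ifs with h1 h2
      · simp
      · simp
      · omega
      · simp
  have hnn : ∀ n : ℕ, 0 ≤ h n := by
    intro n
    rcases hh with hh | hh
    · rw [hh, ArithmeticFunction.log_apply]; exact Real.log_natCast_nonneg n
    · rw [hh]; simp only [one', ArithmeticFunction.natCoe_apply]; positivity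
  have hHb : ∀ e, e ≤ y2 → h e ≤ H := by
    intro e he
    rcases hh with hh | hh
    · rw [hh, ArithmeticFunction.log_apply]
      rcases Nat.eq_zero_or_pos e with h0 | h0
      · rw [h0]; simp only [Nat.cast_zero, Real.log_zero]; linarith
      · have h1 : Real.log e ≤ Real.log (2 * x) := by
          apply Real.log_le_log (by exact_mod_cast h0)
          have : e ≤ 2 * x := le_trans he hy2
          exact_mod_cast this
        have h2 : Real.log (2 * x) = Real.log 2 + Real.log x :=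
          Real.log_mul (by norm_num) hx0.ne'
        have h3 : Real.log 2 ≤ 1 := by
          have := Real.log_two_lt_d9
          linarith
        linarith
    · rw [hh]
      simp only [one', ArithmeticFunction.natCoe_apply, ArithmeticFunction.zeta_apply]
      split_ifs
      · push_cast; linarith
      · push_cast; linarith
  have hDy : D ≤ y2 := le_trans hDx (le_trans hxy hy)
  have hlogD : Real.log D ≤ Real.log x :=
    Real.log_le_log (by exact_mod_cast hD1) (by exact_mod_cast hDx)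
  have hlogD0 : 0 ≤ Real.log D := Real.log_nonneg (by exact_mod_cast hD1)
  have hLD0 : 0 ≤ 1 + Real.log D := by linarith
  -- one t
  have key : ∀ t ∈ T, |disc (fun n => (g * h) n) y1 y2 m (r t) (γ t)| ≤
      G * (2 * H * D) + G * H * D * (1 / r t) +
        G * H * x * (1 + Real.log D) *
          ∑ q ∈ (Icc 2 D).filter (fun q => q ∣ r t), (1 / q) * ((1 : ℝ) / r t) := by
    intro t ht
    have hr := hA.r1 t ht
    have hr0 : (0 : ℝ) < r t := by exact_mod_cast hr
    rw [disc_mul g h y1 y2 m (r t) (γ t) D hDy hg]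
    calc |∑ d ∈ Icc 1 D, g d * err h y1 y2 m (r t) (γ t) d|
        ≤ ∑ d ∈ Icc 1 D, |g d * err h y1 y2 m (r t) (γ t) d| := abs_sum_le_sum_abs _ _
      _ ≤ ∑ d ∈ Icc 1 D, G * (2 * H + (H / r t) * (1 + (x : ℝ) *
            ∑ q ∈ (Icc 2 D).filter (fun q => q ∣ r t), if q ∣ d then (1 : ℝ) / d else 0)) := by
          apply sum_le_sum
          intro d hd
          rw [mem_Icc] at hd
          rw [abs_mul]
          exact mul_le_mul (hG d) (err_bound h hmono hnn x y1 y2 m (r t) (γ t) d D H hm hr hd.1 hd.2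
            hy hy2 hxy hHb (hA.cop t ht)) (abs_nonneg _) hG0
      _ = G * (2 * H * D) + G * H * D * (1 / r t) + G * H * x * (1 / r t) *
            ∑ d ∈ Icc 1 D, ∑ q ∈ (Icc 2 D).filter (fun q => q ∣ r t),
              (if q ∣ d then (1 : ℝ) / d else 0) := by
          have e1 : ∀ d ∈ Icc 1 D, G * (2 * H + (H / r t) * (1 + (x : ℝ) *
            ∑ q ∈ (Icc 2 D).filter (fun q => q ∣ r t), if q ∣ d then (1 : ℝ) / d else 0)) =
            (G * (2 * H) + G * H * (1 / r t)) + (G * H * x * (1 / r t)) *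
              ∑ q ∈ (Icc 2 D).filter (fun q => q ∣ r t), (if q ∣ d then (1 : ℝ) / d else 0) := by
            intro d _
            ring
          rw [sum_congr rfl e1, sum_add_distrib, ← mul_sum, sum_const, Nat.card_Icc, nsmul_eq_mul]
          simp only [Nat.add_sub_cancel]
          ring
      _ ≤ G * (2 * H * D) + G * H * D * (1 / r t) + G * H * x * (1 / r t) *
            ∑ q ∈ (Icc 2 D).filter (fun q => q ∣ r t), (1 / q) * (1 + Real.log D) := by
          gcongr
          rw [sum_comm]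
          apply sum_le_sum
          intro q hq
          rw [mem_filter, mem_Icc] at hq
          rw [← sum_filter]
          exact sum_inv_dvd_le D q (by omega)
      _ = _ := by
          rw [mul_sum, mul_sum]
          congr 1
          apply sum_congr rfl
          intro q _
          ring
  have hdouble : ∑ t ∈ T, ∑ q ∈ (Icc 2 D).filter (fun q => q ∣ r t), (1 / q) * ((1 : ℝ) / r t) ≤
      Δ * (1 + Real.log D) := by
    have e1 : ∀ t ∈ T, ∑ q ∈ (Icc 2 D).filter (fun q => q ∣ r t), (1 / q) * ((1 : ℝ) / r t) =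
        ∑ q ∈ Icc 2 D, if q ∣ r t then (1 / q) * ((1 : ℝ) / r t) else 0 := by
      intro t _
      rw [sum_filter]
    rw [sum_congr rfl e1, sum_comm]
    calc ∑ q ∈ Icc 2 D, ∑ t ∈ T, (if q ∣ r t then (1 / q) * ((1 : ℝ) / r t) else 0)
        ≤ ∑ q ∈ Icc 2 D, (1 / q) * Δ := by
          apply sum_le_sum
          intro q hq
          rw [mem_Icc] at hq
          rw [← sum_filter, ← mul_sum]
          exact mul_le_mul_of_nonneg_left (hA.del q hq.1) (by positivity)
      _ ≤ ∑ q ∈ Icc 1 D, (1 / q) * Δ := by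
          apply sum_le_sum_of_subset_of_nonneg
          · intro q hq; rw [mem_Icc] at hq ⊢; omega
          · intro q _ _; positivity
      _ = Δ * ∑ q ∈ Icc 1 D, (1 : ℝ) / q := by rw [← sum_mul, mul_comm]
      _ ≤ Δ * (1 + Real.log D) := mul_le_mul_of_nonneg_left (sum_inv_le D) hΔ0
  have hS0 : 0 ≤ SS T r := sum_nonneg (fun t _ => by positivity)
  have hT0 : (0 : ℝ) ≤ T.card := Nat.cast_nonneg _
  have hD0 : (0 : ℝ) ≤ D := Nat.cast_nonneg _
  calc ∑ t ∈ T, |disc (fun n => (g * h) n) y1 y2 m (r t) (γ t)|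
      ≤ ∑ t ∈ T, (G * (2 * H * D) + G * H * D * (1 / r t) +
        G * H * x * (1 + Real.log D) *
          ∑ q ∈ (Icc 2 D).filter (fun q => q ∣ r t), (1 / q) * ((1 : ℝ) / r t)) := sum_le_sum key
    _ = T.card * (G * (2 * H * D)) + G * H * D * SS T r + G * H * x * (1 + Real.log D) *
          ∑ t ∈ T, ∑ q ∈ (Icc 2 D).filter (fun q => q ∣ r t), (1 / q) * ((1 : ℝ) / r t) := by
        rw [sum_add_distrib, sum_add_distrib, sum_const, nsmul_eq_mul, ← mul_sum, ← mul_sum]
        rfl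
    _ ≤ T.card * (G * (2 * H * D)) + G * H * D * SS T r + G * H * x * (1 + Real.log D) *
          (Δ * (1 + Real.log D)) := by
        gcongr
    _ ≤ 2 * G * H ^ 3 * (T.card * D + SS T r * D + x * Δ) := by
        have hLH : 1 + Real.log D ≤ H := by linarith
        have hH3 : H ≤ H ^ 3 := by
          calc H = H ^ 1 := (pow_one H).symm
            _ ≤ H ^ 3 := pow_le_pow_right₀ hH1 (by norm_num)
        have hH0 : 0 ≤ H := by linarith
        have t1 : T.card * (G * (2 * H * D)) ≤ 2 * G * H ^ 3 * (T.card * D) := by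
          have : 0 ≤ 2 * G * (T.card * D) := by positivity
          calc T.card * (G * (2 * H * D)) = 2 * G * (T.card * D) * H := by ring
            _ ≤ 2 * G * (T.card * D) * H ^ 3 := mul_le_mul_of_nonneg_left hH3 this
            _ = _ := by ring
        have t2 : G * H * D * SS T r ≤ 2 * G * H ^ 3 * (SS T r * D) := by
          have : 0 ≤ G * (SS T r * D) := by positivity
          calc G * H * D * SS T r = G * (SS T r * D) * H := by ring
            _ ≤ G * (SS T r * D) * H ^ 3 := mul_le_mul_of_nonneg_left hH3 this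
            _ ≤ G * (SS T r * D) * H ^ 3 + G * (SS T r * D) * H ^ 3 := by
                have : 0 ≤ G * (SS T r * D) * H ^ 3 := by positivity
                linarith
            _ = _ := by ring
        have t3 : G * H * x * (1 + Real.log D) * (Δ * (1 + Real.log D)) ≤
            2 * G * H ^ 3 * (x * Δ) := by
          have h1 : (1 + Real.log D) * (1 + Real.log D) ≤ H * H :=
            mul_le_mul hLH hLH hLD0 hH0
          have h2 : 0 ≤ G * H * x * Δ := by positivity
          calc G * H * x * (1 + Real.log D) * (Δ * (1 + Real.log D))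
              = G * H * x * Δ * ((1 + Real.log D) * (1 + Real.log D)) := by ring
            _ ≤ G * H * x * Δ * (H * H) := mul_le_mul_of_nonneg_left h1 h2
            _ ≤ G * H * x * Δ * (H * H) + G * H * x * Δ * (H * H) := by
                have : 0 ≤ G * H * x * Δ * (H * H) := by positivity
                linarith
            _ = _ := by ring
        calc _ ≤ 2 * G * H ^ 3 * (T.card * D) + 2 * G * H ^ 3 * (SS T r * D) +
              2 * G * H ^ 3 * (x * Δ) := add_le_add (add_le_add t1 t2) t3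
          _ = _ := by ring

end ES
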