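import Pool.Agent.Lib.ES.Defs

/-! # R7: type II sums (block decomposition, edges, non coprime terms) -/

namespace ES

namespace R7P

open Finset

/-- signed weight -/
noncomputable def wgt (m r γ N : ℕ) : ℝ :=
  (if N % (m * r) = γ % (m * r) then 1 else 0) - (if N % m = γ % m then 1 else 0) / r

/-- unsigned weight -/
noncomputable def wgp (m r γ N : ℕ) : ℝ :=
  (if N % (m * r) = γ % (m * r) then 1 else 0) + (if N % m = γ % m then 1 else 0) / r

lemma wgp_nonneg (m r γ N : ℕ) : 0 ≤ wgp m r γ N := by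
  unfold wgp
  split_ifs <;> positivity

lemma abs_wgt_le (m r γ N : ℕ) : |wgt m r γ N| ≤ wgp m r γ N := by
  unfold wgt wgp
  refine (abs_sub _ _).trans ?_
  split_ifs <;> simp

lemma disc_eq (f : ℕ → ℝ) (y1 y2 m r γ : ℕ) :
    disc f y1 y2 m r γ = ∑ N ∈ Ioc y1 y2, f N * wgt m r γ N := by
  unfold disc apSum wgt
  rw [sum_filter, sum_filter, sum_div, ← sum_sub_distrib]
  refine sum_congr rfl fun N _ => ?_
  split_ifs <;> ring

lemma sum_antidiag (F : ℕ × ℕ → ℝ) {y1 y2 Z : ℕ} (hZ : y2 ≤ Z) :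
    ∑ N ∈ Ioc y1 y2, ∑ p ∈ N.divisorsAntidiagonal, F p =
      ∑ p ∈ (Icc 1 Z ×ˢ Icc 1 Z).filter (fun p => y1 < p.1 * p.2 ∧ p.1 * p.2 ≤ y2), F p := by
  rw [← sum_fiberwise_of_maps_to
    (s := (Icc 1 Z ×ˢ Icc 1 Z).filter (fun p => y1 < p.1 * p.2 ∧ p.1 * p.2 ≤ y2))
    (t := Ioc y1 y2) (g := fun p => p.1 * p.2)]
  · refine sum_congr rfl fun N hN => ?_
    refine sum_congr ?_ fun _ _ => rfl
    ext p
    simp only [Nat.mem_divisorsAntidiagonal, mem_filter, mem_product, mem_Icc, mem_Ioc] at hN ⊢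
    constructor
    · rintro ⟨h1, h2⟩
      have h0 : 0 < p.1 * p.2 := by omega
      have h3 : 0 < p.1 := Nat.pos_of_mul_pos_right h0
      have h4 : 0 < p.2 := Nat.pos_of_mul_pos_left h0
      have h5 : p.1 ≤ p.1 * p.2 := Nat.le_mul_of_pos_right _ h4
      have h6 : p.2 ≤ p.1 * p.2 := Nat.le_mul_of_pos_left _ h3
      refine ⟨⟨⟨⟨h3, by omega⟩, ⟨h4, by omega⟩⟩, by omega, by omega⟩, h1⟩
    · rintro ⟨_, h⟩
      exact ⟨h, by omega⟩
  · intro p hp
    simp only [mem_filter, mem_product, mem_Icc, mem_Ioc] at hp ⊢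
    exact hp.2

lemma sum_blocks (G : ℕ → ℕ → ℝ) (J : ℕ) (H : ℕ) :
    ∑ j ∈ range J, ∑ n ∈ Ioc (j * H) ((j + 1) * H), G j n =
      ∑ n ∈ Ioc 0 (J * H), G ((n - 1) / H) n := by
  induction J with
  | zero => simp
  | succ J ih =>
    rw [sum_range_succ, ih, ← sum_Ioc_consecutive _ (Nat.zero_le _)
      (Nat.mul_le_mul_right H (Nat.le_succ J))]
    congr 1
    refine sum_congr rfl fun n hn => ?_
    rw [mem_Ioc, Nat.succ_eq_add_one] at hn
    have : (n - 1) / H = J := by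
      apply Nat.div_eq_of_lt_le
      · omega
      · have := hn.2
        have h1 : 0 < n := by omega
        omega
    rw [this]

/-- the pointwise comparison -/
lemma key {m r γ V n k y1 y2 H J L : ℕ} (hγ : γ.Coprime (m * r))
    (hH : 0 < H) (hn : V < n) (hk : V < k) (hV : 0 < V)
    (hJ : y2 ≤ V * (J * H)) (hL : y2 * H ≤ V * L) :
    |(if y1 < n * k ∧ n * k ≤ y2 then wgt m r γ (n * k) else 0) -
      (if (n - 1) / H < J ∧ n.Coprime (m * r) ∧ y1 / (((n - 1) / H + 1) * H) < k ∧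
          k ≤ y2 / (((n - 1) / H + 1) * H) then wgt m r γ (n * k) else 0)| ≤
      (if y1 - L < n * k ∧ n * k ≤ y1 then wgp m r γ (n * k) else 0) +
      (if y2 - L < n * k ∧ n * k ≤ y2 then wgp m r γ (n * k) else 0) +
      (if n * k ≤ y2 ∧ ¬ n.Coprime r then (1 : ℝ) / r else 0) := by
  set E := ((n - 1) / H + 1) * H with hE
  have hEpos : 0 < E := by positivity
  have hnE : n ≤ E := by
    have h1 : (n - 1) / H < (n - 1) / H + 1 := Nat.lt_succ_self _
    rw [Nat.div_lt_iff_lt_mul hH] at h1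
    omega
  have hEn : E < n + H := by
    have h1 : (n - 1) / H * H ≤ n - 1 := Nat.div_mul_le_self _ _
    have h2 : E = (n - 1) / H * H + H := by rw [hE]; ring
    omega
  have hw0 := wgp_nonneg m r γ (n * k)
  have hw1 := abs_wgt_le m r γ (n * k)
  have hr0 : (0 : ℝ) ≤ 1 / r := by positivity
  have n1 : (0 : ℝ) ≤ (if y1 - L < n * k ∧ n * k ≤ y1 then wgp m r γ (n * k) else 0) := by
    split_ifs <;> simp [hw0]
  have n2 : (0 : ℝ) ≤ (if y2 - L < n * k ∧ n * k ≤ y2 then wgp m r γ (n * k) else 0) := by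
    split_ifs <;> simp [hw0]
  have n3 : (0 : ℝ) ≤ (if n * k ≤ y2 ∧ ¬ n.Coprime r then (1 : ℝ) / r else 0) := by
    split_ifs <;> simp
  have hkL : n * k ≤ y2 → k * H ≤ L := by
    intro h
    have h1 : k * V ≤ y2 := by nlinarith
    have h2 : V * (k * H) ≤ V * L := by
      calc V * (k * H) = (k * V) * H := by ring
        _ ≤ y2 * H := Nat.mul_le_mul_right H h1
        _ ≤ V * L := hL
    exact Nat.le_of_mul_le_mul_left h2 hV
  have hkE : k * E ≤ n * k + k * H := by nlinarith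
  have hkn : n * k ≤ k * E := by nlinarith
  by_cases c1 : y1 < n * k ∧ n * k ≤ y2
  · rw [if_pos c1]
    by_cases c2 : n.Coprime (m * r)
    · have hj : (n - 1) / H < J := by
        rw [Nat.div_lt_iff_lt_mul hH]
        have h1 : n * V < V * (J * H) := by nlinarith
        have h2 : n < J * H := by
          by_contra hcon
          push Not at hcon
          nlinarith
        omega
      by_cases c3 : y1 / E < k ∧ k ≤ y2 / E
      · rw [if_pos ⟨hj, c2, c3⟩, sub_self, abs_zero]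
        linarith
      · rw [if_neg (fun h => c3 h.2.2), sub_zero]
        have h1 : y1 / E < k := by
          rw [Nat.div_lt_iff_lt_mul hEpos]
          omega
        have h2 : y2 < k * E := by
          have : ¬ (k ≤ y2 / E) := fun h => c3 ⟨h1, h⟩
          rw [Nat.le_div_iff_mul_le hEpos] at this
          omega
        have h3 := hkL c1.2
        have h4 : y2 - L < n * k := by omega
        rw [if_pos (show y2 - L < n * k ∧ n * k ≤ y2 from ⟨h4, c1.2⟩)]
        linarith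
    · rw [if_neg (fun h => c2 h.2.1), sub_zero]
      have hA : ¬ (n * k) % (m * r) = γ % (m * r) := by
        intro h
        apply c2
        have h1 : (n * k).Coprime (m * r) := by
          have : Nat.gcd (n * k) (m * r) = Nat.gcd γ (m * r) := Nat.ModEq.gcd_eq h
          rw [Nat.Coprime, this]
          exact hγ
        exact Nat.Coprime.coprime_mul_right h1
      by_cases hB : (n * k) % m = γ % m
      · have hnm : n.Coprime m := by
          have h1 : (n * k).Coprime m := by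
            have : Nat.gcd (n * k) m = Nat.gcd γ m := Nat.ModEq.gcd_eq hB
            rw [Nat.Coprime, this]
            exact Nat.Coprime.coprime_mul_right_right hγ
          exact Nat.Coprime.coprime_mul_right h1
        have hnr : ¬ n.Coprime r := fun h => c2 (Nat.Coprime.mul_right hnm h)
        have hw : |wgt m r γ (n * k)| = 1 / r := by
          unfold wgt
          rw [if_neg hA, if_pos hB, zero_sub, abs_neg, abs_of_nonneg hr0]
        rw [if_pos (show n * k ≤ y2 ∧ ¬ n.Coprime r from ⟨c1.2, hnr⟩), hw]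
        linarith
      · have hw : wgt m r γ (n * k) = 0 := by
          unfold wgt
          rw [if_neg hA, if_neg hB]
          simp
        rw [hw, abs_zero]
        linarith
  · rw [if_neg c1, zero_sub, abs_neg]
    by_cases c2 : (n - 1) / H < J ∧ n.Coprime (m * r) ∧ y1 / E < k ∧ k ≤ y2 / E
    · rw [if_pos c2]
      obtain ⟨_, _, h1, h2⟩ := c2
      rw [Nat.div_lt_iff_lt_mul hEpos] at h1
      rw [Nat.le_div_iff_mul_le hEpos] at h2
      have h3 : n * k ≤ y2 := by omega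
      have h4 : n * k ≤ y1 := by
        by_contra hcon
        exact c1 ⟨by omega, h3⟩
      have h5 := hkL h3
      have h7 : 0 < n * k := Nat.mul_pos (by omega) (by omega)
      have h6 : y1 - L < n * k := by omega
      rw [if_pos (show y1 - L < n * k ∧ n * k ≤ y1 from ⟨h6, h4⟩)]
      linarith
    · rw [if_neg c2, abs_zero]
      linarith


lemma disc_box (α β : ArithmeticFunction ℝ) {y1 y2 Z : ℕ} (m r γ : ℕ) (hZ : y2 ≤ Z) :
    disc (fun n => (α * β) n) y1 y2 m r γ = ∑ n ∈ Icc 1 Z, ∑ k ∈ Icc 1 Z, α n * β k *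
      (if y1 < n * k ∧ n * k ≤ y2 then wgt m r γ (n * k) else 0) := by
  rw [disc_eq]
  have h1 : ∀ N ∈ Ioc y1 y2, (α * β) N * wgt m r γ N = ∑ p ∈ N.divisorsAntidiagonal,
      (fun p : ℕ × ℕ => α p.1 * β p.2 * wgt m r γ (p.1 * p.2)) p := by
    intro N _
    rw [ArithmeticFunction.mul_apply, sum_mul]
    refine sum_congr rfl fun p hp => ?_
    rw [Nat.mem_divisorsAntidiagonal] at hp
    rw [← hp.1]
  rw [sum_congr rfl h1, sum_antidiag _ hZ, sum_filter, sum_product]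
  refine sum_congr rfl fun n _ => sum_congr rfl fun k _ => ?_
  dsimp only
  split_ifs <;> simp

lemma blk_box (α β : ℕ → ℝ) {y1 y2 Z J H : ℕ} (m r γ : ℕ) (hZ : y2 ≤ Z) (hZ' : J * H ≤ Z)
    (hy : y1 ≤ y2) (hH : 0 < H) :
    ∑ j ∈ range J, blk α β j H (y1 / ((j + 1) * H)) (y2 / ((j + 1) * H) - y1 / ((j + 1) * H))
      m r γ = ∑ n ∈ Icc 1 Z, ∑ k ∈ Icc 1 Z, α n * β k *
        (if (n - 1) / H < J ∧ n.Coprime (m * r) ∧ y1 / (((n - 1) / H + 1) * H) < k ∧
          k ≤ y2 / (((n - 1) / H + 1) * H) then wgt m r γ (n * k) else 0) := by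
  have h1 : ∀ j ∈ range J, blk α β j H (y1 / ((j + 1) * H))
      (y2 / ((j + 1) * H) - y1 / ((j + 1) * H)) m r γ =
      ∑ n ∈ Ioc (j * H) ((j + 1) * H), (fun j n => if n.Coprime (m * r) then
        ∑ k ∈ Ioc (y1 / ((j + 1) * H)) (y2 / ((j + 1) * H)), α n * β k * wgt m r γ (n * k)
        else 0) j n := by
    intro j _
    unfold blk
    rw [sum_filter]
    refine sum_congr rfl fun n _ => ?_
    dsimp only
    split_ifs with hc
    · have h2 : y1 / ((j + 1) * H) + (y2 / ((j + 1) * H) - y1 / ((j + 1) * H)) =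
          y2 / ((j + 1) * H) := by
        have := Nat.div_le_div_right (c := (j + 1) * H) hy
        omega
      rw [h2, sum_filter, sum_filter, sum_div, ← sum_sub_distrib, mul_sum]
      refine sum_congr rfl fun k _ => ?_
      unfold wgt
      split_ifs <;> ring
    · rfl
  rw [sum_congr rfl h1, sum_blocks]
  have h3 : Ioc 0 (J * H) = (Icc 1 Z).filter (fun n => (n - 1) / H < J) := by
    ext n
    rw [mem_filter, mem_Ioc, mem_Icc, Nat.div_lt_iff_lt_mul hH]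
    omega
  rw [h3, sum_filter]
  refine sum_congr rfl fun n _ => ?_
  have hEpos : 0 < ((n - 1) / H + 1) * H := by positivity
  have h4 : Ioc (y1 / (((n - 1) / H + 1) * H)) (y2 / (((n - 1) / H + 1) * H)) =
      (Icc 1 Z).filter (fun k => y1 / (((n - 1) / H + 1) * H) < k ∧
        k ≤ y2 / (((n - 1) / H + 1) * H)) := by
    ext k
    rw [mem_filter, mem_Ioc, mem_Icc]
    have : y2 / (((n - 1) / H + 1) * H) ≤ y2 := Nat.div_le_self _ _
    generalize y2 / (((n - 1) / H + 1) * H) = a2 at this ⊢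
    generalize y1 / (((n - 1) / H + 1) * H) = a1
    omega
  by_cases c1 : (n - 1) / H < J
  · rw [if_pos c1]
    by_cases c2 : n.Coprime (m * r)
    · rw [if_pos c2, h4, sum_filter]
      refine sum_congr rfl fun k _ => ?_
      by_cases c3 : y1 / (((n - 1) / H + 1) * H) < k ∧ k ≤ y2 / (((n - 1) / H + 1) * H)
      · rw [if_pos c3, if_pos ⟨c1, c2, c3⟩]
      · rw [if_neg c3, if_neg (fun h => c3 h.2.2), mul_zero]
    · rw [if_neg c2]
      symm
      apply sum_eq_zero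
      intro k _
      rw [if_neg (fun h => c2 h.2.1), mul_zero]
  · rw [if_neg c1]
    symm
    apply sum_eq_zero
    intro k _
    rw [if_neg (fun h => c1 h.1), mul_zero]

/-- the divisor function, real -/
noncomputable def dd (n : ℕ) : ℝ := (n.divisors.card : ℝ)

lemma dd_nonneg (n : ℕ) : 0 ≤ dd n := by unfold dd; positivity

lemma compare (α β : ArithmeticFunction ℝ) {m r γ V y1 y2 Z H J L : ℕ}
    (hα : ∀ n, |α n| ≤ vM n) (hβ : ∀ n, |β n| ≤ dd n)
    (hαV : ∀ n ≤ V, α n = 0) (hβV : ∀ n ≤ V, β n = 0) (hγ : γ.Coprime (m * r))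
    (hH : 0 < H) (hV : 0 < V) (hy : y1 ≤ y2) (hZ : y2 ≤ Z) (hZ' : J * H ≤ Z)
    (hJ : y2 ≤ V * (J * H)) (hL : y2 * H ≤ V * L) :
    |disc (fun n => (α * β) n) y1 y2 m r γ - ∑ j ∈ range J, blk (fun n => α n) (fun n => β n) j H
        (y1 / ((j + 1) * H)) (y2 / ((j + 1) * H) - y1 / ((j + 1) * H)) m r γ| ≤
      ∑ n ∈ Icc 1 Z, ∑ k ∈ Icc 1 Z, vM n * dd k *
        (if y1 - L < n * k ∧ n * k ≤ y1 then wgp m r γ (n * k) else 0) +
      ∑ n ∈ Icc 1 Z, ∑ k ∈ Icc 1 Z, vM n * dd k *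
        (if y2 - L < n * k ∧ n * k ≤ y2 then wgp m r γ (n * k) else 0) +
      ∑ n ∈ Icc 1 Z, ∑ k ∈ Icc 1 Z, (if V < n then vM n * dd k *
        (if n * k ≤ y2 ∧ ¬ n.Coprime r then (1 : ℝ) / r else 0) else 0) := by
  rw [disc_box α β m r γ hZ, blk_box _ _ m r γ hZ hZ' hy hH, ← sum_sub_distrib,
    ← sum_add_distrib, ← sum_add_distrib]
  refine (abs_sum_le_sum_abs _ _).trans (sum_le_sum fun n _ => ?_)
  rw [← sum_sub_distrib, ← sum_add_distrib, ← sum_add_distrib]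
  refine (abs_sum_le_sum_abs _ _).trans (sum_le_sum fun k _ => ?_)
  have hv : 0 ≤ vM n := ArithmeticFunction.vonMangoldt_nonneg
  have hd := dd_nonneg k
  have hw0 := wgp_nonneg m r γ (n * k)
  have n1 : (0 : ℝ) ≤ (if y1 - L < n * k ∧ n * k ≤ y1 then wgp m r γ (n * k) else 0) := by
    split_ifs <;> simp [hw0]
  have n2 : (0 : ℝ) ≤ (if y2 - L < n * k ∧ n * k ≤ y2 then wgp m r γ (n * k) else 0) := by
    split_ifs <;> simp [hw0]
  have n3 : (0 : ℝ) ≤ (if n * k ≤ y2 ∧ ¬ n.Coprime r then (1 : ℝ) / r else 0) := by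
    split_ifs <;> simp
  have n4 : (0 : ℝ) ≤ (if V < n then vM n * dd k *
        (if n * k ≤ y2 ∧ ¬ n.Coprime r then (1 : ℝ) / r else 0) else 0) := by
    split_ifs
    · positivity
    · simp
    · simp
  by_cases hn : V < n
  · by_cases hk : V < k
    · rw [if_pos hn, ← mul_sub, abs_mul, abs_mul, ← mul_add, ← mul_add]
      exact mul_le_mul (mul_le_mul (hα n) (hβ k) (abs_nonneg _) hv)
        (key hγ hH hn hk hV hJ hL) (abs_nonneg _) (by positivity)
    · rw [hβV k (by omega)]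
      simp only [mul_zero, zero_mul, sub_zero, abs_zero]
      positivity
  · rw [hαV n (by omega)]
    simp only [zero_mul, sub_zero, abs_zero]
    positivity


lemma vM_dd (N : ℕ) : ∑ p ∈ N.divisorsAntidiagonal, vM p.1 * dd p.2 ≤ Real.log N * dd N := by
  rcases Nat.eq_zero_or_pos N with h0 | h0
  · subst h0
    simp
  have h1 : ∀ p ∈ N.divisorsAntidiagonal, vM p.1 * dd p.2 ≤ vM p.1 * dd N := by
    intro p hp
    rw [Nat.mem_divisorsAntidiagonal] at hp
    apply mul_le_mul_of_nonneg_left _ ArithmeticFunction.vonMangoldt_nonneg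
    unfold dd
    exact_mod_cast card_le_card (Nat.divisors_subset_of_dvd h0.ne' (Dvd.intro_left _ hp.1))
  refine (sum_le_sum h1).trans ?_
  rw [← sum_mul, Nat.sum_divisorsAntidiagonal (f := fun a _ => vM a),
    ArithmeticFunction.vonMangoldt_sum]

lemma sum_wgp_dd (hb : R7b) {y L m r γ : ℕ} (hγ : γ.Coprime (m * r)) (hm : 1 ≤ m) (hr : 1 ≤ r)
    (hy : 1 ≤ y) : ∑ N ∈ Ioc (y - L) y, dd N * wgp m r γ N ≤
      4 * ((L : ℝ) / (m * r)) * (1 + Real.log y) + 4 * Real.sqrt y := by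
  have hm' : (1 : ℝ) ≤ m := by exact_mod_cast hm
  have hr' : (1 : ℝ) ≤ r := by exact_mod_cast hr
  have hy' : (1 : ℝ) ≤ y := by exact_mod_cast hy
  have h1 : ∑ N ∈ Ioc (y - L) y, dd N * wgp m r γ N =
      ∑ N ∈ (Ioc (y - L) y).filter (fun n => n % (m * r) = γ % (m * r)), dd N +
      (∑ N ∈ (Ioc (y - L) y).filter (fun n => n % m = γ % m), dd N) / r := by
    rw [sum_filter, sum_filter, sum_div, ← sum_add_distrib]
    refine sum_congr rfl fun N _ => ?_
    unfold wgp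
    split_ifs <;> ring
  have hsum : y - L + (y - (y - L)) = y := by omega
  have hcast : ((y - L : ℕ) : ℝ) + ((y - (y - L) : ℕ) : ℝ) = y := by
    exact_mod_cast hsum
  have hLle : ((y - (y - L) : ℕ) : ℝ) ≤ L := by
    have : y - (y - L) ≤ L := by omega
    exact_mod_cast this
  have hlog : 0 ≤ Real.log y := Real.log_nonneg hy'
  have h2 := hb (y - L) (y - (y - L)) (m * r) γ (Nat.mul_pos hm hr) hγ
  have h3 := hb (y - L) (y - (y - L)) m γ hm (Nat.Coprime.coprime_mul_right_right hγ)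
  rw [hsum, hcast] at h2 h3
  rw [h1]
  have e1 : ∀ q : ℝ, 0 < q → ((y - (y - L) : ℕ) : ℝ) / q * (1 + Real.log y) ≤
      (L : ℝ) / q * (1 + Real.log y) := by
    intro q hq
    apply mul_le_mul_of_nonneg_right _ (by linarith)
    exact div_le_div_of_nonneg_right hLle hq.le
  have h4 : ∑ N ∈ (Ioc (y - L) y).filter (fun n => n % (m * r) = γ % (m * r)), dd N ≤
      2 * ((L : ℝ) / (m * r) * (1 + Real.log y) + Real.sqrt y) := by
    refine h2.trans ?_
    have := e1 ((m * r : ℕ) : ℝ) (by push_cast; positivity)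
    push_cast at this ⊢
    linarith
  have h5 : ∑ N ∈ (Ioc (y - L) y).filter (fun n => n % m = γ % m), dd N ≤
      2 * ((L : ℝ) / m * (1 + Real.log y) + Real.sqrt y) := by
    refine h3.trans ?_
    have := e1 (m : ℝ) (by positivity)
    linarith
  have h6 : (∑ N ∈ (Ioc (y - L) y).filter (fun n => n % m = γ % m), dd N) / r ≤
      2 * ((L : ℝ) / (m * r) * (1 + Real.log y) + Real.sqrt y) := by
    refine (div_le_div_of_nonneg_right h5 (by positivity)).trans ?_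
    have h7 : Real.sqrt y / r ≤ Real.sqrt y := div_le_self (Real.sqrt_nonneg _) hr'
    have h8 : 2 * ((L : ℝ) / m * (1 + Real.log y) + Real.sqrt y) / r =
      2 * ((L : ℝ) / (m * r) * (1 + Real.log y) + Real.sqrt y / r) := by
      field_simp
    rw [h8]
    linarith
  linarith

lemma edge_bound (hb : R7b) {y L m r γ Z : ℕ} (hγ : γ.Coprime (m * r)) (hm : 1 ≤ m) (hr : 1 ≤ r)
    (hy : 1 ≤ y) (hZ : y ≤ Z) :
    ∑ n ∈ Icc 1 Z, ∑ k ∈ Icc 1 Z, vM n * dd k *
        (if y - L < n * k ∧ n * k ≤ y then wgp m r γ (n * k) else 0) ≤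
      Real.log y * (4 * ((L : ℝ) / (m * r)) * (1 + Real.log y) + 4 * Real.sqrt y) := by
  have h1 : ∑ n ∈ Icc 1 Z, ∑ k ∈ Icc 1 Z, vM n * dd k *
        (if y - L < n * k ∧ n * k ≤ y then wgp m r γ (n * k) else 0) =
      ∑ N ∈ Ioc (y - L) y, ∑ p ∈ N.divisorsAntidiagonal,
        (fun p : ℕ × ℕ => vM p.1 * dd p.2 * wgp m r γ (p.1 * p.2)) p := by
    rw [sum_antidiag _ hZ, sum_filter, sum_product]
    refine sum_congr rfl fun n _ => sum_congr rfl fun k _ => ?_
    dsimp only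
    split_ifs <;> simp
  rw [h1]
  have hy' : (1 : ℝ) ≤ y := by exact_mod_cast hy
  have hlog : 0 ≤ Real.log y := Real.log_nonneg hy'
  have h2 : ∀ N ∈ Ioc (y - L) y, ∑ p ∈ N.divisorsAntidiagonal,
        (fun p : ℕ × ℕ => vM p.1 * dd p.2 * wgp m r γ (p.1 * p.2)) p ≤
      Real.log y * (dd N * wgp m r γ N) := by
    intro N hN
    rw [mem_Ioc] at hN
    have h3 : ∑ p ∈ N.divisorsAntidiagonal,
        (fun p : ℕ × ℕ => vM p.1 * dd p.2 * wgp m r γ (p.1 * p.2)) p =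
        (∑ p ∈ N.divisorsAntidiagonal, vM p.1 * dd p.2) * wgp m r γ N := by
      rw [sum_mul]
      refine sum_congr rfl fun p hp => ?_
      rw [Nat.mem_divisorsAntidiagonal] at hp
      dsimp only
      rw [hp.1]
    rw [h3, ← mul_assoc]
    apply mul_le_mul_of_nonneg_right _ (wgp_nonneg _ _ _ _)
    refine (vM_dd N).trans ?_
    apply mul_le_mul_of_nonneg_right _ (dd_nonneg N)
    apply Real.log_le_log
    · have : 0 < N := by omega
      exact_mod_cast this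
    · exact_mod_cast hN.2
  refine (sum_le_sum h2).trans ?_
  rw [← mul_sum]
  exact mul_le_mul_of_nonneg_left (sum_wgp_dd hb hγ hm hr hy) hlog

lemma sum_dd (hb : R7b) (a y : ℕ) (hay : a ≤ y) (hy : 1 ≤ y) :
    ∑ k ∈ Ioc 0 a, dd k ≤ 4 * a * (1 + Real.log y) := by
  have hy' : (1 : ℝ) ≤ y := by exact_mod_cast hy
  have hlog : 0 ≤ Real.log y := Real.log_nonneg hy'
  have h := hb 0 a 1 0 le_rfl (by simp)
  have h1 : (Ioc 0 (0 + a)).filter (fun n => n % 1 = 0 % 1) = Ioc 0 a := by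
    rw [zero_add]
    apply filter_true_of_mem
    intro n _
    simp [Nat.mod_one]
  rw [h1] at h
  refine le_trans h ?_
  rcases Nat.eq_zero_or_pos a with h0 | h0
  · subst h0
    simp
  have ha' : (1 : ℝ) ≤ a := by exact_mod_cast h0
  have hl : Real.log a ≤ Real.log y := Real.log_le_log (by linarith) (by exact_mod_cast hay)
  have hs : Real.sqrt a ≤ a := Real.sqrt_le_iff.mpr ⟨by linarith, by nlinarith⟩
  simp only [Nat.cast_zero, zero_add, Nat.cast_one, div_one]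
  nlinarith

lemma sum_vM_noncop {y r : ℕ} (hr : 1 ≤ r) :
    ∑ n ∈ (Icc 1 y).filter (fun n => ¬ n.Coprime r), vM n ≤ (Nat.log 2 y : ℝ) * Real.log r := by
  have h1 : ∑ n ∈ (Icc 1 y).filter (fun n => ¬ n.Coprime r), vM n ≤
      ∑ n ∈ (r ^ Nat.log 2 y).divisors, vM n := by
    rw [← sum_filter_ne_zero]
    apply sum_le_sum_of_subset_of_nonneg
    · intro n hn
      rw [mem_filter, mem_filter, mem_Icc] at hn
      obtain ⟨⟨⟨h1, h2⟩, h3⟩, h4⟩ := hn
      rw [ArithmeticFunction.vonMangoldt_ne_zero_iff, isPrimePow_nat_iff] at h4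
      obtain ⟨p, k, hp, hk, rfl⟩ := h4
      have hpr : p ∣ r := by
        by_contra hcon
        exact h3 (Nat.Coprime.pow_left _ ((Nat.Prime.coprime_iff_not_dvd hp).mpr hcon))
      have hk2 : k ≤ Nat.log 2 y := by
        have hy0 : y ≠ 0 := by omega
        apply Nat.le_log_of_pow_le (by norm_num)
        exact (Nat.pow_le_pow_left hp.two_le k).trans h2
      rw [Nat.mem_divisors]
      refine ⟨(pow_dvd_pow_of_dvd hpr k).trans (pow_dvd_pow r hk2), ?_⟩
      exact pow_ne_zero _ (by omega)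
    · intro n _ _
      exact ArithmeticFunction.vonMangoldt_nonneg
  refine h1.trans ?_
  rw [ArithmeticFunction.vonMangoldt_sum]
  push_cast
  rw [Real.log_pow]

lemma noncop_bound (hb : R7b) {y V r Z : ℕ} (hV : 1 ≤ V) (hr : 1 ≤ r) (hy : 1 ≤ y) (hZ : y ≤ Z) :
    ∑ n ∈ Icc 1 Z, ∑ k ∈ Icc 1 Z, (if V < n then vM n * dd k *
        (if n * k ≤ y ∧ ¬ n.Coprime r then (1 : ℝ) / r else 0) else 0) ≤
      (1 / r) * (4 * ((y : ℝ) / V) * (1 + Real.log y)) * ((Nat.log 2 y : ℝ) * Real.log r) := by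
  have hy' : (1 : ℝ) ≤ y := by exact_mod_cast hy
  have hV' : (1 : ℝ) ≤ V := by exact_mod_cast hV
  have hlog : 0 ≤ Real.log y := Real.log_nonneg hy'
  have hr' : (1 : ℝ) ≤ r := by exact_mod_cast hr
  have h1 : ∀ n ∈ Icc 1 Z, ∑ k ∈ Icc 1 Z, (if V < n then vM n * dd k *
        (if n * k ≤ y ∧ ¬ n.Coprime r then (1 : ℝ) / r else 0) else 0) ≤
      if n ≤ y ∧ ¬ n.Coprime r then
        vM n * ((1 / r) * (4 * ((y : ℝ) / V) * (1 + Real.log y))) else 0 := by
    intro n hn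
    rw [mem_Icc] at hn
    have hv : 0 ≤ vM n := ArithmeticFunction.vonMangoldt_nonneg
    by_cases c : V < n ∧ n ≤ y ∧ ¬ n.Coprime r
    · rw [if_pos c.2]
      have h2 : ∑ k ∈ Icc 1 Z, (if V < n then vM n * dd k *
          (if n * k ≤ y ∧ ¬ n.Coprime r then (1 : ℝ) / r else 0) else 0) =
          vM n * ((1 / r) * ∑ k ∈ Ioc 0 (y / n), dd k) := by
        have h3 : Ioc 0 (y / n) = (Icc 1 Z).filter (fun k => n * k ≤ y) := by
          ext k
          rw [mem_Ioc, mem_filter, mem_Icc, Nat.le_div_iff_mul_le (by omega)]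
          constructor
          · rintro ⟨h4, h5⟩
            have h6 : k ≤ k * n := Nat.le_mul_of_pos_right _ (by omega)
            have h7 : n * k = k * n := Nat.mul_comm _ _
            exact ⟨⟨h4, by omega⟩, by omega⟩
          · rintro ⟨h4, h5⟩
            have h7 : n * k = k * n := Nat.mul_comm _ _
            exact ⟨by omega, by omega⟩
        rw [h3, sum_filter, mul_sum, mul_sum]
        refine sum_congr rfl fun k _ => ?_
        rw [if_pos c.1]
        by_cases c2 : n * k ≤ y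
        · rw [if_pos ⟨c2, c.2.2⟩, if_pos c2]
          ring
        · rw [if_neg (fun h => c2 h.1), if_neg c2]
          ring
      rw [h2]
      apply mul_le_mul_of_nonneg_left _ hv
      apply mul_le_mul_of_nonneg_left _ (by positivity)
      refine (sum_dd hb (y / n) y (Nat.div_le_self _ _) hy).trans ?_
      apply mul_le_mul_of_nonneg_right _ (by linarith)
      apply mul_le_mul_of_nonneg_left _ (by norm_num)
      refine Nat.cast_div_le.trans ?_
      apply div_le_div_of_nonneg_left (by linarith) (by linarith)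
      exact_mod_cast c.1.le
    · have h2 : ∑ k ∈ Icc 1 Z, (if V < n then vM n * dd k *
          (if n * k ≤ y ∧ ¬ n.Coprime r then (1 : ℝ) / r else 0) else 0) = 0 := by
        apply sum_eq_zero
        intro k hk
        rw [mem_Icc] at hk
        by_cases c1 : V < n
        · rw [if_pos c1, if_neg, mul_zero]
          rintro ⟨h3, h4⟩
          have : n ≤ n * k := Nat.le_mul_of_pos_right _ (by omega)
          exact c ⟨c1, by omega, h4⟩
        · rw [if_neg c1]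
      rw [h2]
      split_ifs
      · positivity
      · exact le_rfl
  refine (sum_le_sum h1).trans ?_
  rw [← sum_filter, ← sum_mul, mul_comm]
  apply mul_le_mul_of_nonneg_left _ (by positivity)
  refine le_trans (le_of_eq ?_) (sum_vM_noncop hr)
  refine sum_congr ?_ fun _ _ => rfl
  ext n
  simp only [mem_filter, mem_Icc]
  constructor
  · rintro ⟨h3, h4⟩
    exact ⟨⟨h3.1, h4.1⟩, h4.2⟩
  · rintro ⟨h3, h4⟩
    exact ⟨⟨h3.1, by omega⟩, h3.2, h4⟩


/-- numerical data of the decomposition, `s = x^(1/20)` -/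
structure Num (m x y1 y2 V R H J L : ℕ) (s ℓ : ℝ) : Prop where
  hm : 1 ≤ m
  hx : 2 ≤ x
  hs : 1 ≤ s
  hsx : s ^ 20 = x
  hl : ℓ = 1 + Real.log x
  hxy : x ≤ y1
  hy : y1 ≤ y2
  hy2 : y2 ≤ 2 * x
  hV : 1 ≤ V
  hVu : (V : ℝ) ≤ s ^ 5
  hVl : s ^ 5 / 2 ≤ V
  hR : 1 ≤ R
  hRu : (R : ℝ) ≤ s ^ 2
  hH : H = m * R
  hJ : J = y2 / (V * H) + 1
  hL : L = y2 * H / V + 1

namespace Num

variable {m x y1 y2 V R H J L : ℕ} {s ℓ : ℝ} (N : Num m x y1 y2 V R H J L s ℓ)
include N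

lemma xpos : (1 : ℝ) ≤ x := by
  have := N.hx
  have h : 1 ≤ x := by omega
  exact_mod_cast h

lemma l1 : 1 ≤ ℓ := by
  rw [N.hl]
  have := Real.log_nonneg N.xpos
  linarith

lemma Hpos : 0 < H := by
  rw [N.hH]
  exact Nat.mul_pos N.hm N.hR

lemma Hu : (H : ℝ) ≤ m * s ^ 2 := by
  rw [N.hH]
  push_cast
  exact mul_le_mul_of_nonneg_left N.hRu (by positivity)

lemma ylog {y : ℕ} (h1 : 1 ≤ y) (h2 : y ≤ y2) : Real.log y ≤ ℓ := by
  have hx := N.xpos
  have h3 : (y : ℝ) ≤ 2 * x := by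
    have := N.hy2
    exact_mod_cast h2.trans this
  have h1' : (1 : ℝ) ≤ y := by exact_mod_cast h1
  have h4 : Real.log y ≤ Real.log (2 * x) := Real.log_le_log (by linarith) h3
  rw [Real.log_mul (by norm_num) (by linarith)] at h4
  have h5 : Real.log 2 ≤ 1 := by
    have := Real.log_le_sub_one_of_pos (x := 2) (by norm_num)
    linarith
  rw [N.hl]
  linarith

lemma hJ' : y2 ≤ V * (J * H) := by
  have h := Nat.lt_mul_div_succ y2 (Nat.mul_pos N.hV N.Hpos)
  rw [N.hJ]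
  have e : V * ((y2 / (V * H) + 1) * H) = V * H * (y2 / (V * H) + 1) := by ring
  rw [e]
  omega

lemma hL' : y2 * H ≤ V * L := by
  have h := Nat.lt_mul_div_succ (y2 * H) (show 0 < V from N.hV)
  rw [N.hL]
  omega

lemma spow (a b : ℕ) (h : a ≤ b) : s ^ a ≤ s ^ b := pow_le_pow_right₀ N.hs h

/-- the end of a block -/
lemma hE {j : ℕ} (hj : j < J) : (((j + 1) * H : ℕ) : ℝ) * V ≤ (2 + m) * x := by
  rw [N.hJ] at hj
  have h1 : j ≤ y2 / (V * H) := by omega
  rw [Nat.le_div_iff_mul_le (Nat.mul_pos N.hV N.Hpos)] at h1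
  have h2 : j * (V * H) ≤ 2 * x := h1.trans N.hy2
  have h3 : ((j : ℝ) * (V * H)) ≤ 2 * x := by exact_mod_cast h2
  have h4 : (H : ℝ) * V ≤ m * x := by
    calc (H : ℝ) * V ≤ (m * s ^ 2) * s ^ 5 :=
          mul_le_mul N.Hu N.hVu (by positivity) (by have := N.hs; positivity)
      _ = m * s ^ 7 := by ring
      _ ≤ m * s ^ 20 := mul_le_mul_of_nonneg_left (N.spow 7 20 (by norm_num)) (by positivity)
      _ = m * x := by rw [N.hsx]
  push_cast
  nlinarith

lemma hE1 {j : ℕ} (hj : j < J) : (((j + 1) * H : ℕ) : ℝ) ≤ (2 + m) * x := by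
  refine le_trans ?_ (N.hE hj)
  have : (1 : ℝ) ≤ V := by exact_mod_cast N.hV
  exact le_mul_of_one_le_right (by positivity) this

lemma logE {j n : ℕ} (hj : j < J) (hn : n ≤ (j + 1) * H) (h0 : 0 < n) :
    Real.log n ≤ (1 + m) * ℓ := by
  have hx := N.xpos
  have h0' : (0 : ℝ) < n := by exact_mod_cast h0
  have h1 : (n : ℝ) ≤ (2 + m) * x := le_trans (by exact_mod_cast hn) (N.hE1 hj)
  have h2 : Real.log n ≤ Real.log ((2 + m) * x) := Real.log_le_log h0' h1
  rw [Real.log_mul (by positivity) (by linarith)] at h2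
  have h3 : Real.log (2 + m) ≤ 2 + m - 1 := Real.log_le_sub_one_of_pos (by positivity)
  have h4 := Real.log_nonneg hx
  have hm : (0 : ℝ) ≤ m := by positivity
  have h5 : 0 ≤ m * Real.log x := mul_nonneg hm h4
  rw [N.hl]
  nlinarith

/-- `R² ≤ 2 (2 + m) x / E` -/
lemma R2E {j : ℕ} (hj : j < J) : (R : ℝ) ^ 2 ≤ 2 * (2 + m) * (x / (((j + 1) * H : ℕ) : ℝ)) := by
  have hE := N.hE hj
  have hEpos : (0 : ℝ) < (((j + 1) * H : ℕ) : ℝ) := by
    have := N.Hpos
    positivity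
  have h1 : (R : ℝ) ^ 2 ≤ s ^ 4 := by
    calc (R : ℝ) ^ 2 ≤ (s ^ 2) ^ 2 := pow_le_pow_left₀ (by positivity) N.hRu 2
      _ = s ^ 4 := by ring
  have h2 : s ^ 4 ≤ s ^ 5 := N.spow 4 5 (by norm_num)
  have h3 : s ^ 5 ≤ 2 * V := by have := N.hVl; linarith
  rw [← mul_div_assoc, le_div_iff₀ hEpos]
  calc (R : ℝ) ^ 2 * (((j + 1) * H : ℕ) : ℝ) ≤ (2 * V) * (((j + 1) * H : ℕ) : ℝ) :=
        mul_le_mul_of_nonneg_right (by linarith) hEpos.le
    _ = 2 * ((((j + 1) * H : ℕ) : ℝ) * V) := by ring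
    _ ≤ 2 * ((2 + m) * x) := by linarith
    _ = 2 * (2 + m) * x := by ring

lemma card2 {j : ℕ} : ((y2 / ((j + 1) * H) : ℕ) : ℝ) ≤ 2 * (x / (((j + 1) * H : ℕ) : ℝ)) := by
  refine Nat.cast_div_le.trans ?_
  rw [← mul_div_assoc]
  apply div_le_div_of_nonneg_right _ (by positivity)
  exact_mod_cast N.hy2

lemma sumsq (hd : R7d) {j : ℕ} (β : ℕ → ℝ) (hβ : ∀ n, |β n| ≤ dd n) :
    ∑ k ∈ Ioc (y1 / ((j + 1) * H)) (y2 / ((j + 1) * H)), β k ^ 2 ≤
      16 * (x / (((j + 1) * H : ℕ) : ℝ)) * ℓ ^ 3 := by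
  set E := (j + 1) * H with hE
  have hl := N.l1
  have hxE : (0 : ℝ) ≤ x / (E : ℝ) := by positivity
  have h1 : ∑ k ∈ Ioc (y1 / E) (y2 / E), β k ^ 2 ≤ ∑ k ∈ Icc 1 (y2 / E), dd k ^ 2 := by
    refine (sum_le_sum (g := fun k => dd k ^ 2) fun k _ => ?_).trans ?_
    · rw [← sq_abs]
      exact pow_le_pow_left₀ (abs_nonneg _) (hβ k) 2
    · apply sum_le_sum_of_subset_of_nonneg
      · intro k hk
        rw [mem_Ioc] at hk
        rw [mem_Icc]
        have := Nat.zero_le (y1 / E)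
        exact ⟨by omega, hk.2⟩
      · intro k _ _
        positivity
  rcases Nat.eq_zero_or_pos (y2 / E) with h0 | h0
  · refine h1.trans ?_
    rw [h0]
    simp only [Icc_eq_empty_of_lt (show (0 : ℕ) < 1 by norm_num), sum_empty]
    positivity
  · refine h1.trans ((hd (y2 / E) h0).trans ?_)
    have h2 : Real.log ((y2 / E : ℕ) : ℝ) ≤ ℓ := N.ylog h0 (Nat.div_le_self _ _)
    have h2' : 0 ≤ Real.log ((y2 / E : ℕ) : ℝ) := Real.log_nonneg (by exact_mod_cast h0)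
    have h3 : ((y2 / E : ℕ) : ℝ) ≤ 2 * (x / (E : ℝ)) := N.card2
    calc ((y2 / E : ℕ) : ℝ) * (1 + Real.log ((y2 / E : ℕ) : ℝ)) ^ 3 ≤
          (2 * (x / (E : ℝ))) * (2 * ℓ) ^ 3 := by
          apply mul_le_mul h3 _ (by positivity) (by positivity)
          exact pow_le_pow_left₀ (by linarith) (by linarith) 3
      _ = 16 * (x / (E : ℝ)) * ℓ ^ 3 := by ring

end Num


section Assembly

variable {m x y1 y2 V R H J L : ℕ} {s ℓ : ℝ}

/-- the error terms for one modulus -/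
lemma one_t (N : Num m x y1 y2 V R H J L s ℓ) (hb : R7b) (α β : ArithmeticFunction ℝ) {r γ : ℕ}
    (hα : ∀ n, |α n| ≤ vM n) (hβ : ∀ n, |β n| ≤ dd n)
    (hαV : ∀ n ≤ V, α n = 0) (hβV : ∀ n ≤ V, β n = 0) (hγ : γ.Coprime (m * r)) (hr : 1 ≤ r)
    (hrs : (r : ℝ) ≤ s ^ 2) :
    |disc (fun n => (α * β) n) y1 y2 m r γ - ∑ j ∈ range J, blk (fun n => α n) (fun n => β n) j H
        (y1 / ((j + 1) * H)) (y2 / ((j + 1) * H) - y1 / ((j + 1) * H)) m r γ| ≤
      (144 * ℓ ^ 3 * s ^ 19) * (1 / r) + 16 * ℓ * s ^ 15 := by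
  have hx := N.xpos
  have hl := N.l1
  have hs := N.hs
  have hxy1 : 1 ≤ y1 := by have := N.hx; have := N.hxy; omega
  have hy1' : 1 ≤ y2 := by have := N.hy; omega
  have hr' : (1 : ℝ) ≤ r := by exact_mod_cast hr
  have hm' : (1 : ℝ) ≤ m := by exact_mod_cast N.hm
  have hV' : (1 : ℝ) ≤ V := by exact_mod_cast N.hV
  have h := compare α β hα hβ hαV hβV hγ N.Hpos N.hV N.hy
    (show y2 ≤ J * H + y2 by omega) (show J * H ≤ J * H + y2 by omega) N.hJ' N.hL'
  have e1 := edge_bound hb (L := L) hγ N.hm hr hxy1 (show y1 ≤ J * H + y2 by have := N.hy; omega)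
  have e2 := edge_bound hb (L := L) hγ N.hm hr hy1' (show y2 ≤ J * H + y2 by omega)
  have e3 := noncop_bound hb N.hV hr hy1' (show y2 ≤ J * H + y2 by omega)
  have hy2x : (y2 : ℝ) ≤ 2 * x := by exact_mod_cast N.hy2
  have hLm : (L : ℝ) ≤ 5 * m * s ^ 17 := by
    have h1 : (L : ℝ) ≤ (y2 * H : ℝ) / V + 1 := by
      rw [N.hL]
      push_cast
      have := @Nat.cast_div_le ℝ _ _ _ (y2 * H) V
      push_cast at this
      linarith
    have h2 : (y2 * H : ℝ) / V ≤ 4 * m * s ^ 17 := by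
      rw [div_le_iff₀ (by linarith)]
      calc (y2 * H : ℝ) ≤ (2 * x) * (m * s ^ 2) :=
            mul_le_mul hy2x N.Hu (by positivity) (by positivity)
        _ = 4 * m * s ^ 17 * (s ^ 5 / 2) := by rw [← N.hsx]; ring
        _ ≤ 4 * m * s ^ 17 * V := mul_le_mul_of_nonneg_left N.hVl (by positivity)
    have h3 : (1 : ℝ) ≤ m * s ^ 17 := by
      have := one_le_pow₀ hs (n := 17)
      nlinarith
    linarith
  have hLmr : (L : ℝ) / (m * r) ≤ 5 * s ^ 17 * (1 / r) := by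
    rw [div_le_iff₀ (by positivity)]
    calc (L : ℝ) ≤ 5 * m * s ^ 17 := hLm
      _ = 5 * s ^ 17 * (1 / r) * (m * r) := by field_simp
  have edge : ∀ y : ℕ, 1 ≤ y → y ≤ y2 →
      Real.log y * (4 * ((L : ℝ) / (m * r)) * (1 + Real.log y) + 4 * Real.sqrt y) ≤
      40 * ℓ ^ 2 * s ^ 17 * (1 / r) + 8 * ℓ * s ^ 10 := by
    intro y g1 g2
    have g3 := N.ylog g1 g2
    have g1' : (1 : ℝ) ≤ y := by exact_mod_cast g1
    have g4 : 0 ≤ Real.log y := Real.log_nonneg g1'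
    have g5 : Real.sqrt y ≤ 2 * s ^ 10 := by
      apply Real.sqrt_le_iff.mpr
      refine ⟨by positivity, ?_⟩
      have : (y : ℝ) ≤ y2 := by exact_mod_cast g2
      calc (y : ℝ) ≤ 2 * x := by linarith
        _ = 2 * s ^ 20 := by rw [N.hsx]
        _ ≤ (2 * s ^ 10) ^ 2 := by
          have : 0 ≤ s ^ 20 := by positivity
          nlinarith
    have g6 : 4 * ((L : ℝ) / (m * r)) * (1 + Real.log y) ≤
        4 * (5 * s ^ 17 * (1 / r)) * (2 * ℓ) := by
      apply mul_le_mul _ (by linarith) (by linarith) (by positivity)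
      exact mul_le_mul_of_nonneg_left hLmr (by norm_num)
    calc Real.log y * (4 * ((L : ℝ) / (m * r)) * (1 + Real.log y) + 4 * Real.sqrt y)
        ≤ ℓ * (4 * (5 * s ^ 17 * (1 / r)) * (2 * ℓ) + 4 * (2 * s ^ 10)) := by
          apply mul_le_mul g3 _ (by positivity) (by linarith)
          linarith
      _ = 40 * ℓ ^ 2 * s ^ 17 * (1 / r) + 8 * ℓ * s ^ 10 := by ring
  have non : (1 / r) * (4 * ((y2 : ℝ) / V) * (1 + Real.log y2)) *
      ((Nat.log 2 y2 : ℝ) * Real.log r) ≤ 64 * ℓ ^ 3 * s ^ 15 * (1 / r) := by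
    have g3 := N.ylog hy1' le_rfl
    have g1' : (1 : ℝ) ≤ y2 := by exact_mod_cast hy1'
    have g4 : 0 ≤ Real.log y2 := Real.log_nonneg g1'
    have g5 : (y2 : ℝ) / V ≤ 4 * s ^ 15 := by
      rw [div_le_iff₀ (by linarith)]
      calc (y2 : ℝ) ≤ 2 * x := hy2x
        _ = 4 * s ^ 15 * (s ^ 5 / 2) := by rw [← N.hsx]; ring
        _ ≤ 4 * s ^ 15 * V := mul_le_mul_of_nonneg_left N.hVl (by positivity)
    have g6 : (Nat.log 2 y2 : ℝ) ≤ 2 * ℓ := by
      have k1 : 2 ^ Nat.log 2 y2 ≤ y2 := Nat.pow_log_le_self 2 (by omega)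
      have k2 : ((2 : ℝ)) ^ Nat.log 2 y2 ≤ y2 := by exact_mod_cast k1
      have k3 := Real.log_le_log (by positivity) k2
      rw [Real.log_pow] at k3
      have k4 : (1 / 2 : ℝ) ≤ Real.log 2 := by
        have := Real.log_two_gt_d9
        linarith
      have k5 : (Nat.log 2 y2 : ℝ) * (1 / 2) ≤ (Nat.log 2 y2 : ℝ) * Real.log 2 :=
        mul_le_mul_of_nonneg_left k4 (by positivity)
      linarith
    have g7 : Real.log r ≤ ℓ := by
      have k1 : (r : ℝ) ≤ x := by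
        rw [← N.hsx]
        exact hrs.trans (N.spow 2 20 (by norm_num))
      have := Real.log_le_log (by linarith) k1
      rw [N.hl]
      linarith
    have g8 : 0 ≤ Real.log r := Real.log_nonneg hr'
    have g9 : (4 * ((y2 : ℝ) / V) * (1 + Real.log y2)) ≤ 4 * (4 * s ^ 15) * (2 * ℓ) := by
      apply mul_le_mul _ (by linarith) (by linarith) (by positivity)
      linarith
    have g10 : ((Nat.log 2 y2 : ℝ) * Real.log r) ≤ (2 * ℓ) * ℓ :=
      mul_le_mul g6 g7 g8 (by linarith)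
    calc (1 / r) * (4 * ((y2 : ℝ) / V) * (1 + Real.log y2)) *
      ((Nat.log 2 y2 : ℝ) * Real.log r) ≤ (1 / r) * (4 * (4 * s ^ 15) * (2 * ℓ)) * ((2 * ℓ) * ℓ) := by
          apply mul_le_mul _ g10 (by positivity) (by positivity)
          exact mul_le_mul_of_nonneg_left g9 (by positivity)
      _ = 64 * ℓ ^ 3 * s ^ 15 * (1 / r) := by ring
  have b1 := edge y1 hxy1 N.hy
  have b2 := edge y2 hy1' le_rfl
  have p1 : ℓ ^ 2 * s ^ 17 ≤ ℓ ^ 3 * s ^ 19 :=
    mul_le_mul (pow_le_pow_right₀ hl (by norm_num)) (N.spow 17 19 (by norm_num))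
      (by positivity) (by positivity)
  have p2 : ℓ ^ 3 * s ^ 15 ≤ ℓ ^ 3 * s ^ 19 :=
    mul_le_mul_of_nonneg_left (N.spow 15 19 (by norm_num)) (by positivity)
  have p3 : ℓ * s ^ 10 ≤ ℓ * s ^ 15 :=
    mul_le_mul_of_nonneg_left (N.spow 10 15 (by norm_num)) (by positivity)
  have q0 : (0 : ℝ) ≤ 1 / r := by positivity
  have q1 := mul_le_mul_of_nonneg_right p1 q0
  have q2 := mul_le_mul_of_nonneg_right p2 q0
  refine h.trans ?_
  nlinarith

end Assembly


lemma harm (J : ℕ) : ∑ j ∈ range J, (1 : ℝ) / ((j + 1 : ℕ) : ℝ) ≤ 1 + Real.log J := by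
  have h := harmonic_le_one_add_log J
  refine le_trans (le_of_eq ?_) h
  unfold harmonic
  push_cast
  refine sum_congr rfl fun j _ => ?_
  rw [one_div]

lemma block_bound {m x y1 y2 V R H J L : ℕ} {s ℓ : ℝ} (N : Num m x y1 y2 V R H J L s ℓ)
    (hd : R7d) {C : ℝ} (hC : 0 < C)
    (h7 : ∀ (ι : Type) (T : Finset ι) (r γ : ι → ℕ) (Δ A : ℝ) (m x R j H K0 K : ℕ) (α β : ℕ → ℝ),
      1 ≤ m → Adm m x T r γ Δ → (∀ t ∈ T, r t ≤ R ∧ m * r t ≤ H) → 0 ≤ A →
      (∀ n ∈ Ioc (j * H) ((j + 1) * H), |α n| ≤ A) →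
      ∑ t ∈ T, |blk α β j H K0 K m (r t) (γ t)| ≤ C * A * H * Real.sqrt (SS T r) *
        Real.sqrt (Δ * (K + (R : ℝ) ^ 2) * ∑ k ∈ Ioc K0 (K0 + K), β k ^ 2))
    {ι : Type} (T : Finset ι) (r γ : ι → ℕ) (Δ : ℝ) (hA : Adm m x T r γ Δ) (hΔ : 0 ≤ Δ)
    (hT : ∀ t ∈ T, r t ≤ R ∧ m * r t ≤ H) (α β : ℕ → ℝ) (hα : ∀ n, |α n| ≤ vM n)
    (hβ : ∀ n, |β n| ≤ dd n) {j : ℕ} (hj : j < J) :
    ∑ t ∈ T, |blk α β j H (y1 / ((j + 1) * H)) (y2 / ((j + 1) * H) - y1 / ((j + 1) * H)) m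
      (r t) (γ t)| ≤ C * (1 + m) * (16 * (6 + 2 * m)) * ℓ ^ 3 * x * Real.sqrt (SS T r * Δ) *
        (1 / ((j + 1 : ℕ) : ℝ)) := by
  have hl := N.l1
  have hx := N.xpos
  have hHpos : (0 : ℝ) < H := by exact_mod_cast N.Hpos
  have hA' : ∀ n ∈ Ioc (j * H) ((j + 1) * H), |α n| ≤ (1 + m) * ℓ := by
    intro n hn
    rw [mem_Ioc] at hn
    refine (hα n).trans (ArithmeticFunction.vonMangoldt_le_log.trans ?_)
    exact N.logE hj hn.2 (by omega)
  have h := h7 ι T r γ Δ ((1 + m) * ℓ) m x R j H (y1 / ((j + 1) * H))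
    (y2 / ((j + 1) * H) - y1 / ((j + 1) * H)) α β N.hm hA hT (by positivity) hA'
  refine h.trans ?_
  set E := (j + 1) * H with hE
  have hEpos : (0 : ℝ) < (E : ℝ) := by
    have : 0 < E := Nat.mul_pos (Nat.succ_pos j) N.Hpos
    exact_mod_cast this
  have hsum : y1 / E + (y2 / E - y1 / E) = y2 / E := by
    have := Nat.div_le_div_right (c := E) N.hy
    omega
  rw [hsum]
  have h1 := N.sumsq hd (j := j) β hβ
  rw [← hE] at h1
  have h2 : ((y2 / E - y1 / E : ℕ) : ℝ) + (R : ℝ) ^ 2 ≤ (6 + 2 * m) * (x / (E : ℝ)) := by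
    have g1 := N.R2E hj
    have g2 := N.card2 (j := j)
    rw [← hE] at g1 g2
    have g3 : ((y2 / E - y1 / E : ℕ) : ℝ) ≤ ((y2 / E : ℕ) : ℝ) := by
      exact_mod_cast Nat.sub_le _ _
    nlinarith
  have hxE : (0 : ℝ) ≤ x / (E : ℝ) := by positivity
  have h3 : Real.sqrt (Δ * (((y2 / E - y1 / E : ℕ) : ℝ) + (R : ℝ) ^ 2) *
      ∑ k ∈ Ioc (y1 / E) (y2 / E), β k ^ 2) ≤
      (16 * (6 + 2 * m) * ℓ ^ 2 * (x / (E : ℝ))) * Real.sqrt Δ := by
    have g1 : Δ * (((y2 / E - y1 / E : ℕ) : ℝ) + (R : ℝ) ^ 2) *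
        ∑ k ∈ Ioc (y1 / E) (y2 / E), β k ^ 2 ≤
        (16 * (6 + 2 * m) * ℓ ^ 2 * (x / (E : ℝ))) ^ 2 * Δ := by
      have g2 : (((y2 / E - y1 / E : ℕ) : ℝ) + (R : ℝ) ^ 2) *
          ∑ k ∈ Ioc (y1 / E) (y2 / E), β k ^ 2 ≤
          ((6 + 2 * m) * (x / (E : ℝ))) * (16 * (x / (E : ℝ)) * ℓ ^ 3) :=
        mul_le_mul h2 h1 (sum_nonneg fun _ _ => sq_nonneg _) (by positivity)
      have g3 : ((6 + 2 * m : ℝ) * (x / (E : ℝ))) * (16 * (x / (E : ℝ)) * ℓ ^ 3) ≤
          (16 * (6 + 2 * m) * ℓ ^ 2 * (x / (E : ℝ))) ^ 2 := by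
        have k1 : ℓ ^ 3 ≤ ℓ ^ 4 := pow_le_pow_right₀ hl (by norm_num)
        have k2 : (16 * (6 + 2 * m) : ℝ) ≤ (16 * (6 + 2 * m)) ^ 2 := by
          have : (1 : ℝ) ≤ 16 * (6 + 2 * m) := by
            have : (0 : ℝ) ≤ m := by positivity
            linarith
          nlinarith
        calc ((6 + 2 * m : ℝ) * (x / (E : ℝ))) * (16 * (x / (E : ℝ)) * ℓ ^ 3)
            = (16 * (6 + 2 * m)) * ℓ ^ 3 * (x / (E : ℝ)) ^ 2 := by ring
          _ ≤ (16 * (6 + 2 * m)) ^ 2 * ℓ ^ 4 * (x / (E : ℝ)) ^ 2 := by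
            apply mul_le_mul_of_nonneg_right _ (sq_nonneg _)
            exact mul_le_mul k2 k1 (by positivity) (by positivity)
          _ = (16 * (6 + 2 * m) * ℓ ^ 2 * (x / (E : ℝ))) ^ 2 := by ring
      calc Δ * (((y2 / E - y1 / E : ℕ) : ℝ) + (R : ℝ) ^ 2) *
        ∑ k ∈ Ioc (y1 / E) (y2 / E), β k ^ 2 = Δ * ((((y2 / E - y1 / E : ℕ) : ℝ) + (R : ℝ) ^ 2) *
          ∑ k ∈ Ioc (y1 / E) (y2 / E), β k ^ 2) := by ring
        _ ≤ Δ * (16 * (6 + 2 * m) * ℓ ^ 2 * (x / (E : ℝ))) ^ 2 :=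
          mul_le_mul_of_nonneg_left (g2.trans g3) hΔ
        _ = _ := by ring
    refine (Real.sqrt_le_sqrt g1).trans (le_of_eq ?_)
    rw [Real.sqrt_mul (sq_nonneg _), Real.sqrt_sq (by positivity)]
  have hSS : 0 ≤ SS T r := sum_nonneg fun _ _ => by positivity
  calc C * ((1 + m) * ℓ) * H * Real.sqrt (SS T r) * Real.sqrt (Δ *
        (((y2 / E - y1 / E : ℕ) : ℝ) + (R : ℝ) ^ 2) * ∑ k ∈ Ioc (y1 / E) (y2 / E), β k ^ 2)
      ≤ C * ((1 + m) * ℓ) * H * Real.sqrt (SS T r) *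
        ((16 * (6 + 2 * m) * ℓ ^ 2 * (x / (E : ℝ))) * Real.sqrt Δ) :=
        mul_le_mul_of_nonneg_left h3 (by positivity)
    _ = C * (1 + m) * (16 * (6 + 2 * m)) * ℓ ^ 3 * x * Real.sqrt (SS T r * Δ) *
        (1 / ((j + 1 : ℕ) : ℝ)) := by
      rw [Real.sqrt_mul hSS, hE]
      push_cast
      field_simp

end R7P

open Finset R7P in
theorem R7_proof : R7 := by
  intro h7a hb hd h4 h3 m hm
  obtain ⟨C, hC, h7⟩ := h7a h4 h3
  refine ⟨3 * (C * (1 + m) * (16 * (6 + 2 * m))) + 144, by positivity, ?_⟩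
  intro ι T r γ Δ x y1 y2 V α β hA hx hxy hy hy2 hVx hxV hα hβ hαV hβV
  have hx1 : (1 : ℝ) ≤ x := by
    have : 1 ≤ x := by omega
    exact_mod_cast this
  have hx0 : (0 : ℝ) ≤ x := by linarith
  set s : ℝ := (x : ℝ) ^ ((1 : ℝ) / 20) with hs
  have hs1 : 1 ≤ s := Real.one_le_rpow hx1 (by norm_num)
  have hsx : s ^ 20 = x := by
    rw [hs, ← Real.rpow_natCast, ← Real.rpow_mul hx0]
    norm_num
  set ℓ : ℝ := 1 + Real.log x with hℓ
  set R : ℕ := ⌊s ^ 2⌋₊ with hR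
  set H : ℕ := m * R with hH
  set J : ℕ := y2 / (V * H) + 1 with hJ
  set L : ℕ := y2 * H / V + 1 with hL
  have hV1 : 1 ≤ V := by
    by_contra hcon
    have : V = 0 := by omega
    subst this
    simp at hxV
    omega
  have N : Num m x y1 y2 V R H J L s ℓ := by
    refine ⟨hm, hx, hs1, hsx, rfl, hxy, hy, hy2, hV1, ?_, ?_, ?_, ?_, rfl, rfl, rfl⟩
    · have h1 : ((V : ℝ)) ^ 4 ≤ (s ^ 5) ^ 4 := by
        calc ((V : ℝ)) ^ 4 ≤ x := by exact_mod_cast hVx
          _ = (s ^ 5) ^ 4 := by rw [← hsx]; ring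
      exact le_of_pow_le_pow_left₀ (by norm_num) (by positivity) h1
    · have h1 : (s ^ 5) ^ 4 < ((V : ℝ) + 1) ^ 4 := by
        calc (s ^ 5) ^ 4 = x := by rw [← hsx]; ring
          _ < ((V : ℝ) + 1) ^ 4 := by exact_mod_cast hxV
      have h2 : s ^ 5 < (V : ℝ) + 1 := lt_of_pow_lt_pow_left₀ 4 (by positivity) h1
      have h3 : (1 : ℝ) ≤ V := by exact_mod_cast hV1
      linarith
    · rw [hR]
      apply Nat.le_floor
      push_cast
      exact one_le_pow₀ hs1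
    · exact Nat.floor_le (by positivity)
  have hrs : ∀ t ∈ T, (r t : ℝ) ≤ s ^ 2 := by
    intro t ht
    have h1 : ((r t : ℝ)) ^ 10 ≤ (s ^ 2) ^ 10 := by
      calc ((r t : ℝ)) ^ 10 ≤ x := by exact_mod_cast hA.r2 t ht
        _ = (s ^ 2) ^ 10 := by rw [← hsx]; ring
    exact le_of_pow_le_pow_left₀ (by norm_num) (by positivity) h1
  have hT : ∀ t ∈ T, r t ≤ R ∧ m * r t ≤ H := by
    intro t ht
    have h1 : r t ≤ R := Nat.le_floor (hrs t ht)
    exact ⟨h1, Nat.mul_le_mul_left m h1⟩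
  have hΔ : 0 ≤ Δ := le_trans (sum_nonneg fun _ _ => by positivity) (hA.del 2 le_rfl)
  have hSS : 0 ≤ SS T r := sum_nonneg fun _ _ => by positivity
  have hl := N.l1
  -- one modulus
  have h1 : ∀ t ∈ T, |disc (fun n => (α * β) n) y1 y2 m (r t) (γ t)| ≤
      ∑ j ∈ range J, |blk (fun n => α n) (fun n => β n) j H
        (y1 / ((j + 1) * H)) (y2 / ((j + 1) * H) - y1 / ((j + 1) * H)) m (r t) (γ t)| +
      ((144 * ℓ ^ 3 * s ^ 19) * (1 / (r t : ℝ)) + 16 * ℓ * s ^ 15) := by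
    intro t ht
    have g1 := one_t N hb α β hα hβ hαV hβV (hA.cop t ht) (hA.r1 t ht) (hrs t ht)
    have g2 := abs_sum_le_sum_abs (fun j => blk (fun n => α n) (fun n => β n) j H
        (y1 / ((j + 1) * H)) (y2 / ((j + 1) * H) - y1 / ((j + 1) * H)) m (r t) (γ t)) (range J)
    have g3 := abs_sub_abs_le_abs_sub (disc (fun n => (α * β) n) y1 y2 m (r t) (γ t))
      (∑ j ∈ range J, blk (fun n => α n) (fun n => β n) j H
        (y1 / ((j + 1) * H)) (y2 / ((j + 1) * H) - y1 / ((j + 1) * H)) m (r t) (γ t))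
    linarith
  refine (sum_le_sum h1).trans ?_
  rw [sum_add_distrib, sum_add_distrib, sum_comm, ← mul_sum, sum_const, nsmul_eq_mul]
  -- the blocks
  have h2 : ∑ j ∈ range J, ∑ t ∈ T, |blk (fun n => α n) (fun n => β n) j H
        (y1 / ((j + 1) * H)) (y2 / ((j + 1) * H) - y1 / ((j + 1) * H)) m (r t) (γ t)| ≤
      3 * (C * (1 + m) * (16 * (6 + 2 * m))) * ℓ ^ 4 * (x * Real.sqrt (SS T r * Δ)) := by
    refine (sum_le_sum fun j hj => block_bound N hd hC h7 T r γ Δ hA hΔ hT _ _ hα hβ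
      (mem_range.mp hj)).trans ?_
    rw [← mul_sum]
    have g1 : ∑ j ∈ range J, (1 : ℝ) / ((j + 1 : ℕ) : ℝ) ≤ 3 * ℓ := by
      refine (harm J).trans ?_
      have k1 : (J : ℝ) ≤ 3 * x := by
        have : J ≤ 3 * x := by
          have := Nat.div_le_self y2 (V * H)
          omega
        exact_mod_cast this
      have k2 : (0 : ℝ) < J := by
        have : 0 < J := Nat.succ_pos _
        exact_mod_cast this
      have k3 := Real.log_le_log k2 k1
      rw [Real.log_mul (by norm_num) (by linarith)] at k3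
      have k4 : Real.log 3 ≤ 2 := by
        have := Real.log_le_sub_one_of_pos (x := 3) (by norm_num)
        linarith
      have k5 := Real.log_nonneg hx1
      rw [hℓ]
      linarith
    calc C * (1 + m) * (16 * (6 + 2 * m)) * ℓ ^ 3 * x * Real.sqrt (SS T r * Δ) *
          ∑ j ∈ range J, (1 : ℝ) / ((j + 1 : ℕ) : ℝ) ≤
          C * (1 + m) * (16 * (6 + 2 * m)) * ℓ ^ 3 * x * Real.sqrt (SS T r * Δ) * (3 * ℓ) :=
          mul_le_mul_of_nonneg_left g1 (by positivity)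
      _ = _ := by ring
  have h24 : s ^ 19 ≤ (x : ℝ) ^ ((24 : ℝ) / 25) := by
    rw [hs, ← Real.rpow_natCast, ← Real.rpow_mul hx0]
    apply Real.rpow_le_rpow_of_exponent_le hx1
    norm_num
  have h34 : s ^ 15 = (x : ℝ) ^ ((3 : ℝ) / 4) := by
    rw [hs, ← Real.rpow_natCast, ← Real.rpow_mul hx0]
    norm_num
  have p4 : ℓ ^ 4 ≤ ℓ ^ 6 := pow_le_pow_right₀ hl (by norm_num)
  have p3 : ℓ ^ 3 ≤ ℓ ^ 6 := pow_le_pow_right₀ hl (by norm_num)
  have p1 : ℓ ≤ ℓ ^ 6 := le_self_pow₀ hl (by norm_num)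
  have hS : ∑ t ∈ T, (1 : ℝ) / (r t : ℝ) = SS T r := rfl
  rw [hS, ← h34]
  have hC' : 0 ≤ 3 * (C * (1 + m) * (16 * (6 + 2 * m))) := by positivity
  have hX : 0 ≤ x * Real.sqrt (SS T r * Δ) := by positivity
  have t1 : 3 * (C * (1 + m) * (16 * (6 + 2 * m))) * ℓ ^ 4 * (x * Real.sqrt (SS T r * Δ)) ≤
      (3 * (C * (1 + m) * (16 * (6 + 2 * m))) + 144) * ℓ ^ 6 * (x * Real.sqrt (SS T r * Δ)) := by
    apply mul_le_mul_of_nonneg_right _ hX
    apply mul_le_mul _ p4 (by positivity) (by positivity)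
    linarith
  have t2 : (144 * ℓ ^ 3 * s ^ 19) * SS T r ≤
      (3 * (C * (1 + m) * (16 * (6 + 2 * m))) + 144) * ℓ ^ 6 *
        (SS T r * (x : ℝ) ^ ((24 : ℝ) / 25)) := by
    calc (144 * ℓ ^ 3 * s ^ 19) * SS T r ≤ (144 * ℓ ^ 6 * (x : ℝ) ^ ((24 : ℝ) / 25)) * SS T r := by
          apply mul_le_mul_of_nonneg_right _ hSS
          apply mul_le_mul _ h24 (by positivity) (by positivity)
          linarith
      _ = 144 * ℓ ^ 6 * (SS T r * (x : ℝ) ^ ((24 : ℝ) / 25)) := by ring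
      _ ≤ _ := by
          apply mul_le_mul_of_nonneg_right _ (by positivity)
          apply mul_le_mul_of_nonneg_right _ (by positivity)
          linarith
  have t3 : (T.card : ℝ) * (16 * ℓ * s ^ 15) ≤
      (3 * (C * (1 + m) * (16 * (6 + 2 * m))) + 144) * ℓ ^ 6 * ((T.card : ℝ) * s ^ 15) := by
    calc (T.card : ℝ) * (16 * ℓ * s ^ 15) = 16 * ℓ * ((T.card : ℝ) * s ^ 15) := by ring
      _ ≤ _ := by
          apply mul_le_mul_of_nonneg_right _ (by positivity)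
          apply mul_le_mul _ p1 (by positivity) (by positivity)
          linarith
  calc _ ≤ 3 * (C * (1 + m) * (16 * (6 + 2 * m))) * ℓ ^ 4 * (x * Real.sqrt (SS T r * Δ)) +
        ((144 * ℓ ^ 3 * s ^ 19) * SS T r + (T.card : ℝ) * (16 * ℓ * s ^ 15)) := by
        gcongr
    _ ≤ _ := by
      rw [mul_add, mul_add]
      linarith

end ES
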