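import Mathlib
import Pool.Agent.Lib.ES.Defs

/-!
# Row R7a of tank ES: the block estimate of the type II sums
-/

open Finset
open scoped BigOperators

namespace ES

namespace R7aL

/-- elements of an interval of length `H` in one class mod `M` -/
lemma card_class_le (y H M : ℕ) (hM : 0 < M) (s : Finset ℕ) (hs : s ⊆ Ioc y (y + H))
    (hc : ∀ n ∈ s, ∀ n' ∈ s, n % M = n' % M) : s.card ≤ H / M + 1 := by
  have h : ∀ n ∈ s, (n - (y + 1)) / M ∈ range (H / M + 1) := by
    intro n hn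
    have := mem_Ioc.1 (hs hn)
    rw [mem_range]
    have : (n - (y + 1)) / M ≤ H / M := Nat.div_le_div_right (by omega)
    omega
  have hi : Set.InjOn (fun n => (n - (y + 1)) / M) (s : Set ℕ) := by
    intro n hn n' hn' he
    have h1 := mem_Ioc.1 (hs hn)
    have h2 := mem_Ioc.1 (hs hn')
    have h3 := hc n hn n' hn'
    simp only at he
    have h4 : (n - (y + 1)) % M = (n' - (y + 1)) % M := by
      have : (n - (y + 1)) + (y + 1) ≡ (n' - (y + 1)) + (y + 1) [MOD M] := by
        rw [Nat.sub_add_cancel h1.1, Nat.sub_add_cancel h2.1]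
        exact h3
      exact Nat.ModEq.add_right_cancel' _ this
    have h5 : n - (y + 1) = n' - (y + 1) := by
      rw [← Nat.div_add_mod (n - (y + 1)) M, ← Nat.div_add_mod (n' - (y + 1)) M, he, h4]
    omega
  calc s.card = (s.image (fun n => (n - (y + 1)) / M)).card := (card_image_of_injOn hi).symm
    _ ≤ (range (H / M + 1)).card := card_le_card (image_subset_iff.2 h)
    _ = H / M + 1 := card_range _

/-- `γ / n` mod `M` -/
noncomputable def inv' (M γ n : ℕ) : ℕ := ((n : ZMod M)⁻¹ * (γ : ZMod M)).val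

lemma inv'_lt (M γ n : ℕ) (hM : 0 < M) : inv' M γ n < M := by
  haveI : NeZero M := ⟨hM.ne'⟩
  exact ZMod.val_lt _

lemma mul_inv' (M γ n : ℕ) (hM : 0 < M) (hn : n.Coprime M) : n * inv' M γ n ≡ γ [MOD M] := by
  haveI : NeZero M := ⟨hM.ne'⟩
  rw [← ZMod.natCast_eq_natCast_iff]
  push_cast
  rw [inv', ZMod.natCast_zmod_val, ← mul_assoc, ZMod.coe_mul_inv_eq_one n hn, one_mul]

lemma iff_M (M γ n k : ℕ) (hM : 0 < M) (hn : n.Coprime M) :
    (n * k) % M = γ % M ↔ k % M = inv' M γ n := by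
  have h1 := mul_inv' M γ n hM hn
  have hlt := inv'_lt M γ n hM
  constructor
  · intro h
    have h2 : n * k ≡ n * inv' M γ n [MOD M] := Nat.ModEq.trans h h1.symm
    have h3 : k ≡ inv' M γ n [MOD M] := Nat.ModEq.cancel_left_of_coprime hn.symm h2
    rw [← Nat.mod_eq_of_lt hlt]
    exact h3
  · intro h
    have h3 : k ≡ inv' M γ n [MOD M] := by
      show k % M = inv' M γ n % M
      rw [h, Nat.mod_eq_of_lt hlt]
    exact (h3.mul_left n).trans h1

lemma iff_m (m r γ n k : ℕ) (hm : 0 < m) (hr : 0 < r) (hn : n.Coprime (m * r)) :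
    (n * k) % m = γ % m ↔ k % m = inv' (m * r) γ n % m := by
  have h1 : n * inv' (m * r) γ n ≡ γ [MOD m] :=
    (mul_inv' (m * r) γ n (Nat.mul_pos hm hr) hn).of_dvd (dvd_mul_right m r)
  have hn' : n.Coprime m := hn.coprime_dvd_right (dvd_mul_right m r)
  constructor
  · intro h
    have h2 : n * k ≡ n * inv' (m * r) γ n [MOD m] := Nat.ModEq.trans h h1.symm
    exact Nat.ModEq.cancel_left_of_coprime hn'.symm h2
  · intro h
    have h3 : k ≡ inv' (m * r) γ n [MOD m] := h
    exact (h3.mul_left n).trans h1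

/-- deviation of `β` on the class `a` mod `m r` -/
noncomputable def f (β : ℕ → ℝ) (s : Finset ℕ) (m r a : ℕ) : ℝ :=
  (∑ k ∈ s.filter (fun k => k % (m * r) = a), β k) - (∑ k ∈ s.filter (fun k => k % m = a % m), β k) / r

/-- `β` cut to the class `ρ` mod `m` -/
noncomputable def cut (β : ℕ → ℝ) (m ρ : ℕ) : ℕ → ℝ := fun k => if k % m = ρ then β k else 0

lemma sum_f_sq_le (β : ℕ → ℝ) (K0 K m r : ℕ) (hm : 0 < m) (hr : 0 < r) (hc : m.Coprime r) :
    ∑ a ∈ range (m * r), f β (Ioc K0 (K0 + K)) m r a ^ 2 ≤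
      ∑ ρ ∈ range m, classDev (cut β m ρ) K0 K r := by
  classical
  unfold classDev
  rw [← Finset.sum_product']
  set g : ℕ × ℕ → ℝ := fun p => ((∑ k ∈ (Ioc K0 (K0 + K)).filter (fun k => k % r = p.2),
    cut β m p.1 k) - (∑ k ∈ Ioc K0 (K0 + K), cut β m p.1 k) / r) ^ 2 with hg
  have h1 : ∀ a ∈ range (m * r), f β (Ioc K0 (K0 + K)) m r a ^ 2 = g (a % m, a % r) := by
    intro a ha
    have ha := mem_range.1 ha
    simp only [hg, f, cut]
    congr 2
    · rw [← Finset.sum_filter, Finset.filter_filter]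
      apply Finset.sum_congr _ (fun _ _ => rfl)
      apply Finset.filter_congr
      intro k _
      constructor
      · intro h
        have h' : k ≡ a [MOD (m * r)] := by
          show k % (m * r) = a % (m * r)
          rw [h, Nat.mod_eq_of_lt ha]
        exact ⟨h'.of_dvd (dvd_mul_left r m), h'.of_dvd (dvd_mul_right m r)⟩
      · rintro ⟨h1, h2⟩
        have h' : k ≡ a [MOD (m * r)] := (Nat.modEq_and_modEq_iff_modEq_mul hc).1 ⟨h2, h1⟩
        rw [← Nat.mod_eq_of_lt ha]
        exact h'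
    · rw [← Finset.sum_filter]
  rw [Finset.sum_congr rfl h1]
  have hinj : Set.InjOn (fun a : ℕ => (a % m, a % r)) (range (m * r) : Finset ℕ) := by
    intro a ha b hb he
    have ha := mem_range.1 (mem_coe.1 ha)
    have hb := mem_range.1 (mem_coe.1 hb)
    simp only [Prod.mk.injEq] at he
    have h' : a ≡ b [MOD (m * r)] := (Nat.modEq_and_modEq_iff_modEq_mul hc).1 he
    exact Nat.ModEq.eq_of_lt_of_lt h' ha hb
  rw [← Finset.sum_image (f := g) hinj]
  apply Finset.sum_le_sum_of_subset_of_nonneg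
  · intro p hp
    obtain ⟨a, _, rfl⟩ := mem_image.1 hp
    exact mem_product.2 ⟨mem_range.2 (Nat.mod_lt _ hm), mem_range.2 (Nat.mod_lt _ hr)⟩
  · intro p _ _
    simp only [hg]
    positivity

lemma blk_sq_le (α β : ℕ → ℝ) (A : ℝ) (j H K0 K m r γ : ℕ) (hm : 0 < m) (hr : 0 < r)
    (hc : m.Coprime r) (hH : m * r ≤ H) (hγ : γ.Coprime (m * r)) (hA : 0 ≤ A)
    (hα : ∀ n ∈ Ioc (j * H) ((j + 1) * H), |α n| ≤ A) :
    |blk α β j H K0 K m r γ| ^ 2 ≤
      2 * A ^ 2 * H ^ 2 * ((1 / r) * ∑ ρ ∈ range m, classDev (cut β m ρ) K0 K r) := by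
  classical
  set M := m * r with hMdef
  have hM : 0 < M := Nat.mul_pos hm hr
  set s := (Ioc (j * H) ((j + 1) * H)).filter (fun n => n.Coprime M) with hs
  set F : ℕ → ℝ := f β (Ioc K0 (K0 + K)) m r with hF
  have hblk : blk α β j H K0 K m r γ = ∑ n ∈ s, α n * F (inv' M γ n) := by
    unfold blk
    refine Finset.sum_congr rfl fun n hn => ?_
    have hn' := (mem_filter.1 hn).2
    congr 1
    simp only [hF, f]
    congr 1
    · apply Finset.sum_congr _ (fun _ _ => rfl)
      apply Finset.filter_congr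
      intro k _
      exact iff_M M γ n k hM hn'
    · congr 1
      apply Finset.sum_congr _ (fun _ _ => rfl)
      apply Finset.filter_congr
      intro k _
      exact iff_m m r γ n k hm hr hn'
  have hcard : s.card ≤ H := by
    calc s.card ≤ (Ioc (j * H) ((j + 1) * H)).card := card_filter_le _ _
      _ = H := by rw [Nat.card_Ioc, add_mul, one_mul, Nat.add_sub_cancel_left]
  have hfib : ∀ a ∈ range M, ((s.filter (fun n => inv' M γ n = a)).card : ℝ) ≤ 2 * H / M := by
    intro a _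
    have h1 : (s.filter (fun n => inv' M γ n = a)).card ≤ H / M + 1 := by
      apply card_class_le (j * H) H M hM
      · intro n hn
        have := (mem_filter.1 (mem_filter.1 hn).1).1
        rwa [add_mul, one_mul] at this
      · intro n hn n' hn'
        obtain ⟨h1, h2⟩ := mem_filter.1 hn
        obtain ⟨h1', h2'⟩ := mem_filter.1 hn'
        have e1 := mul_inv' M γ n hM (mem_filter.1 h1).2
        have e2 := mul_inv' M γ n' hM (mem_filter.1 h1').2
        rw [h2] at e1
        rw [h2'] at e2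
        have hac : a.Coprime M := by
          have : (n * a).Coprime M := by
            have := e1.gcd_eq
            unfold Nat.Coprime at hγ ⊢
            rw [this, hγ]
          exact Nat.Coprime.coprime_mul_left this
        have e3 : n * a ≡ n' * a [MOD M] := e1.trans e2.symm
        exact Nat.ModEq.cancel_right_of_coprime hac.symm e3
    have h2 : ((H / M : ℕ) : ℝ) ≤ (H : ℝ) / M := Nat.cast_div_le
    have h3 : (1 : ℝ) ≤ (H : ℝ) / M := by
      rw [le_div_iff₀ (by exact_mod_cast hM)]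
      rw [one_mul]; exact_mod_cast hH
    calc ((s.filter (fun n => inv' M γ n = a)).card : ℝ) ≤ ((H / M + 1 : ℕ) : ℝ) := by
          exact_mod_cast h1
      _ ≤ 2 * H / M := by
          push_cast
          rw [mul_div_assoc]
          linarith
  have hsum : ∑ n ∈ s, F (inv' M γ n) ^ 2 ≤ (2 * H / M) * ∑ a ∈ range M, F a ^ 2 := by
    rw [← Finset.sum_fiberwise_of_maps_to (s := s) (t := range M) (g := fun n => inv' M γ n)
      (fun n _ => mem_range.2 (inv'_lt M γ n hM)) (fun n => F (inv' M γ n) ^ 2)]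
    rw [Finset.mul_sum]
    refine Finset.sum_le_sum fun a ha => ?_
    have : ∑ n ∈ s.filter (fun n => inv' M γ n = a), F (inv' M γ n) ^ 2 =
        (s.filter (fun n => inv' M γ n = a)).card * F a ^ 2 := by
      rw [← nsmul_eq_mul, ← Finset.sum_const]
      refine Finset.sum_congr rfl fun n hn => ?_
      rw [(mem_filter.1 hn).2]
    rw [this]
    exact mul_le_mul_of_nonneg_right (hfib a ha) (by positivity)
  have hV := sum_f_sq_le β K0 K m r hm hr hc
  set V := ∑ ρ ∈ range m, classDev (cut β m ρ) K0 K r with hVdef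
  have hV0 : 0 ≤ V := le_trans (Finset.sum_nonneg fun _ _ => by positivity) hV
  have hD : |blk α β j H K0 K m r γ| ≤ A * ∑ n ∈ s, |F (inv' M γ n)| := by
    rw [hblk, Finset.mul_sum]
    refine (abs_sum_le_sum_abs _ _).trans (Finset.sum_le_sum fun n hn => ?_)
    rw [abs_mul]
    exact mul_le_mul_of_nonneg_right (hα n (mem_filter.1 hn).1) (abs_nonneg _)
  have hCS : (∑ n ∈ s, |F (inv' M γ n)|) ^ 2 ≤ H * ((2 * H / M) * V) := by
    calc (∑ n ∈ s, |F (inv' M γ n)|) ^ 2 ≤ s.card * ∑ n ∈ s, |F (inv' M γ n)| ^ 2 :=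
          sq_sum_le_card_mul_sum_sq
      _ = s.card * ∑ n ∈ s, F (inv' M γ n) ^ 2 := by simp only [sq_abs]
      _ ≤ H * ((2 * H / M) * V) := by
          apply mul_le_mul (by exact_mod_cast hcard) _ (Finset.sum_nonneg fun _ _ => by positivity)
            (by positivity)
          exact hsum.trans (mul_le_mul_of_nonneg_left hV (by positivity))
  calc |blk α β j H K0 K m r γ| ^ 2 ≤ (A * ∑ n ∈ s, |F (inv' M γ n)|) ^ 2 :=
        pow_le_pow_left₀ (abs_nonneg _) hD 2
    _ = A ^ 2 * (∑ n ∈ s, |F (inv' M γ n)|) ^ 2 := by ring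
    _ ≤ A ^ 2 * (H * ((2 * H / M) * V)) := mul_le_mul_of_nonneg_left hCS (by positivity)
    _ = 2 * A ^ 2 * H ^ 2 * ((1 / r) * V) * (1 / m) := by
        have h1 : (m : ℝ) ≠ 0 := by exact_mod_cast hm.ne'
        have h2 : (r : ℝ) ≠ 0 := by exact_mod_cast hr.ne'
        rw [hMdef]
        push_cast
        field_simp
    _ ≤ 2 * A ^ 2 * H ^ 2 * ((1 / r) * V) * 1 := by
        apply mul_le_mul_of_nonneg_left _ (by positivity)
        rw [div_le_one (by exact_mod_cast hm)]
        exact_mod_cast hm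
    _ = _ := by ring

lemma classDev_nonneg (β : ℕ → ℝ) (K0 K r : ℕ) : 0 ≤ classDev β K0 K r :=
  Finset.sum_nonneg fun _ _ => by positivity

lemma sum_cut_sq (β : ℕ → ℝ) (s : Finset ℕ) (m : ℕ) (hm : 0 < m) :
    ∑ ρ ∈ range m, ∑ k ∈ s, cut β m ρ k ^ 2 = ∑ k ∈ s, β k ^ 2 := by
  rw [Finset.sum_comm]
  refine Finset.sum_congr rfl fun k _ => ?_
  have : ∀ ρ ∈ range m, cut β m ρ k ^ 2 = if k % m = ρ then β k ^ 2 else 0 := by
    intro ρ _
    unfold cut
    split_ifs <;> simp
  rw [Finset.sum_congr rfl this, Finset.sum_ite_eq, if_pos (mem_range.2 (Nat.mod_lt _ hm))]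

end R7aL

open R7aL in
theorem R7a_proof : R7a := by
  classical
  intro h4 h3
  obtain ⟨C, hC, hR4⟩ := h4 h3
  refine ⟨Real.sqrt (2 * C), Real.sqrt_pos.2 (by positivity), ?_⟩
  intro ι T r γ Δ A m x R j H K0 K α β hm hAdm hT hA hα
  set V : ι → ℝ := fun t => ∑ ρ ∈ range m, classDev (cut β m ρ) K0 K (r t) with hV
  have hV0 : ∀ t, 0 ≤ V t := fun t => Finset.sum_nonneg fun _ _ => classDev_nonneg _ _ _ _
  have hone : ∀ t ∈ T, |blk α β j H K0 K m (r t) (γ t)| ≤
      Real.sqrt 2 * A * H * (Real.sqrt (1 / (r t : ℝ)) * Real.sqrt (V t)) := by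
    intro t ht
    have hr := hAdm.r1 t ht
    have h := blk_sq_le α β A j H K0 K m (r t) (γ t) hm hr (hAdm.cop' t ht) (hT t ht).2
      (hAdm.cop t ht) hA hα
    have h' : |blk α β j H K0 K m (r t) (γ t)| ≤
        Real.sqrt (2 * A ^ 2 * H ^ 2 * ((1 / (r t : ℝ)) * V t)) := Real.le_sqrt_of_sq_le h
    refine h'.trans (le_of_eq ?_)
    rw [show (2 * A ^ 2 * (H : ℝ) ^ 2 * ((1 / (r t : ℝ)) * V t)) =
      2 * ((A * H) ^ 2 * ((1 / (r t : ℝ)) * V t)) by ring]
    rw [Real.sqrt_mul (by norm_num), Real.sqrt_mul (by positivity),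
      Real.sqrt_sq (by positivity), Real.sqrt_mul (by positivity)]
    ring
  have hsumV : ∑ t ∈ T, V t ≤ C * (Δ * (K + (R : ℝ) ^ 2) * ∑ k ∈ Ioc K0 (K0 + K), β k ^ 2) := by
    rw [hV, Finset.sum_comm]
    calc ∑ ρ ∈ range m, ∑ t ∈ T, classDev (cut β m ρ) K0 K (r t)
        ≤ ∑ ρ ∈ range m, C * Δ * (K + (R : ℝ) ^ 2) * ∑ k ∈ Ioc K0 (K0 + K), cut β m ρ k ^ 2 := by
          refine Finset.sum_le_sum fun ρ _ => ?_
          exact hR4 ι T r R K0 K (cut β m ρ) Δ
            (fun t ht => ⟨hAdm.r1 t ht, (hT t ht).1⟩) hAdm.del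
      _ = C * (Δ * (K + (R : ℝ) ^ 2) * ∑ k ∈ Ioc K0 (K0 + K), β k ^ 2) := by
          rw [← Finset.mul_sum, sum_cut_sq β _ m hm]
          ring
  set W := Δ * (K + (R : ℝ) ^ 2) * ∑ k ∈ Ioc K0 (K0 + K), β k ^ 2 with hW
  calc ∑ t ∈ T, |blk α β j H K0 K m (r t) (γ t)|
      ≤ ∑ t ∈ T, Real.sqrt 2 * A * H * (Real.sqrt (1 / (r t : ℝ)) * Real.sqrt (V t)) :=
        Finset.sum_le_sum hone
    _ = Real.sqrt 2 * A * H * ∑ t ∈ T, Real.sqrt (1 / (r t : ℝ)) * Real.sqrt (V t) := by
        rw [Finset.mul_sum]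
    _ ≤ Real.sqrt 2 * A * H * (Real.sqrt (∑ t ∈ T, 1 / (r t : ℝ)) * Real.sqrt (∑ t ∈ T, V t)) := by
        apply mul_le_mul_of_nonneg_left _ (by positivity)
        exact Real.sum_sqrt_mul_sqrt_le T (fun t => by positivity) hV0
    _ ≤ Real.sqrt 2 * A * H * (Real.sqrt (SS T r) * Real.sqrt (C * W)) := by
        apply mul_le_mul_of_nonneg_left _ (by positivity)
        apply mul_le_mul (le_of_eq rfl) (Real.sqrt_le_sqrt hsumV) (by positivity) (by positivity)
    _ = Real.sqrt (2 * C) * A * H * Real.sqrt (SS T r) * Real.sqrt W := by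
        rw [Real.sqrt_mul hC.le, Real.sqrt_mul (by norm_num : (0 : ℝ) ≤ 2)]
        ring

end ES
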