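import Pool.Agent.Lib.ES.Defs

/-! Tank ES, row R7d (helper87): mean square of the divisor function. -/

open Finset

namespace ES

/-- Regrouping by a divisor. -/
theorem R7d_swap (K : ℕ) (g : ℕ → ℕ → ℝ) :
    ∑ n ∈ Icc 1 K, ∑ a ∈ n.divisors, g a (n / a) =
      ∑ a ∈ Icc 1 K, ∑ m ∈ Icc 1 (K / a), g a m := by
  rw [Finset.sum_sigma', Finset.sum_sigma']
  refine Finset.sum_bij' (fun x _ => (⟨x.2, x.1 / x.2⟩ : (_ : ℕ) × ℕ))
    (fun y _ => (⟨y.1 * y.2, y.1⟩ : (_ : ℕ) × ℕ)) ?_ ?_ ?_ ?_ ?_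
  · rintro ⟨n, a⟩ h
    simp only [Finset.mem_sigma, Finset.mem_Icc, Nat.mem_divisors] at h ⊢
    obtain ⟨⟨h1, h2⟩, h3, h4⟩ := h
    have ha : 0 < a := Nat.pos_of_dvd_of_pos h3 h1
    have hle : a ≤ n := Nat.le_of_dvd h1 h3
    exact ⟨⟨ha, hle.trans h2⟩, Nat.div_pos hle ha, Nat.div_le_div_right h2⟩
  · rintro ⟨a, m⟩ h
    simp only [Finset.mem_sigma, Finset.mem_Icc, Nat.mem_divisors] at h ⊢
    obtain ⟨⟨h1, h2⟩, h3, h4⟩ := h
    have hm : a * m ≤ K := by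
      have := (Nat.le_div_iff_mul_le h1).1 h4
      rwa [mul_comm]
    have hp : 0 < a * m := Nat.mul_pos h1 h3
    exact ⟨⟨hp, hm⟩, Dvd.intro m rfl, hp.ne'⟩
  · rintro ⟨n, a⟩ h
    simp only [Finset.mem_sigma, Finset.mem_Icc, Nat.mem_divisors] at h
    obtain ⟨⟨h1, h2⟩, h3, h4⟩ := h
    simp [Nat.mul_div_cancel' h3]
  · rintro ⟨a, m⟩ h
    simp only [Finset.mem_sigma, Finset.mem_Icc] at h
    obtain ⟨⟨h1, h2⟩, h3, h4⟩ := h
    simp [Nat.mul_div_cancel_left m h1]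
  · rintro ⟨n, a⟩ h
    rfl

theorem R7d_harm (K : ℕ) : ∑ a ∈ Icc 1 K, (1 : ℝ) / a ≤ 1 + Real.log K := by
  have h := harmonic_le_one_add_log K
  rw [harmonic_eq_sum_Icc] at h
  push_cast at h
  simpa [one_div] using h

theorem R7d_harm' {K M : ℕ} (h : K ≤ M) (hM : 1 ≤ M) :
    ∑ a ∈ Icc 1 K, (1 : ℝ) / a ≤ 1 + Real.log M := by
  refine le_trans ?_ (R7d_harm M)
  refine Finset.sum_le_sum_of_subset_of_nonneg (Finset.Icc_subset_Icc le_rfl h) ?_
  intro i _ _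
  positivity

theorem R7d_first (K M : ℕ) (h : K ≤ M) (hM : 1 ≤ M) :
    ∑ n ∈ Icc 1 K, (n.divisors.card : ℝ) ≤ K * (1 + Real.log M) := by
  have e : ∑ n ∈ Icc 1 K, (n.divisors.card : ℝ) =
      ∑ a ∈ Icc 1 K, ∑ m ∈ Icc 1 (K / a), (1 : ℝ) := by
    rw [← R7d_swap K (fun _ _ => 1)]
    refine Finset.sum_congr rfl fun n _ => ?_
    simp
  rw [e]
  calc ∑ a ∈ Icc 1 K, ∑ m ∈ Icc 1 (K / a), (1 : ℝ)
      ≤ ∑ a ∈ Icc 1 K, (K : ℝ) * (1 / a) := by
        refine Finset.sum_le_sum fun a _ => ?_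
        rw [Finset.sum_const, Nat.card_Icc, Nat.add_sub_cancel, nsmul_eq_mul, mul_one, mul_one_div]
        exact Nat.cast_div_le
    _ = K * ∑ a ∈ Icc 1 K, (1 : ℝ) / a := by rw [Finset.mul_sum]
    _ ≤ K * (1 + Real.log M) := by
        refine mul_le_mul_of_nonneg_left (R7d_harm' h hM) (Nat.cast_nonneg _)

theorem R7d_recip (K : ℕ) (hK : 1 ≤ K) :
    ∑ n ∈ Icc 1 K, (n.divisors.card : ℝ) / n ≤ (1 + Real.log K) ^ 2 := by
  have hlog : 0 ≤ 1 + Real.log (K : ℝ) := by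
    have : 0 ≤ Real.log (K : ℝ) := Real.log_natCast_nonneg K
    linarith
  have e : ∑ n ∈ Icc 1 K, (n.divisors.card : ℝ) / n =
      ∑ a ∈ Icc 1 K, ∑ m ∈ Icc 1 (K / a), (1 : ℝ) / a * (1 / m) := by
    rw [← R7d_swap K (fun a m => (1 : ℝ) / a * (1 / m))]
    refine Finset.sum_congr rfl fun n hn => ?_
    rw [Finset.mem_Icc] at hn
    have : ∀ a ∈ n.divisors, (1 : ℝ) / a * (1 / ((n / a : ℕ) : ℝ)) = 1 / n := by
      intro a ha
      have h3 := (Nat.mem_divisors.1 ha).1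
      have ha0 : 0 < a := Nat.pos_of_dvd_of_pos h3 hn.1
      have hn0 : (n : ℝ) ≠ 0 := by
        have : 0 < n := hn.1
        positivity
      have ha' : (a : ℝ) ≠ 0 := by positivity
      rw [Nat.cast_div h3 ha']
      field_simp
    rw [Finset.sum_congr rfl this, Finset.sum_const, nsmul_eq_mul, mul_one_div]
  rw [e]
  calc ∑ a ∈ Icc 1 K, ∑ m ∈ Icc 1 (K / a), (1 : ℝ) / a * (1 / m)
      ≤ ∑ a ∈ Icc 1 K, (1 : ℝ) / a * (1 + Real.log K) := by
        refine Finset.sum_le_sum fun a _ => ?_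
        rw [← Finset.mul_sum]
        exact mul_le_mul_of_nonneg_left (R7d_harm' (Nat.div_le_self K a) hK) (by positivity)
    _ = (∑ a ∈ Icc 1 K, (1 : ℝ) / a) * (1 + Real.log K) := by rw [Finset.sum_mul]
    _ ≤ (1 + Real.log K) * (1 + Real.log K) :=
        mul_le_mul_of_nonneg_right (R7d_harm K) hlog
    _ = (1 + Real.log K) ^ 2 := by ring

theorem R7d_sub (a m : ℕ) : ((a * m).divisors.card : ℝ) ≤ (a.divisors.card : ℝ) * m.divisors.card := by
  rw [Nat.divisors_mul]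
  exact_mod_cast Finset.card_mul_le

theorem R7d_proof : R7d := by
  intro K hK
  have hlog : 0 ≤ 1 + Real.log (K : ℝ) := by
    have : 0 ≤ Real.log (K : ℝ) := Real.log_natCast_nonneg K
    linarith
  have e : ∑ n ∈ Icc 1 K, (n.divisors.card : ℝ) ^ 2 =
      ∑ a ∈ Icc 1 K, ∑ m ∈ Icc 1 (K / a), ((a * m).divisors.card : ℝ) := by
    rw [← R7d_swap K (fun a m => ((a * m).divisors.card : ℝ))]
    refine Finset.sum_congr rfl fun n hn => ?_
    have : ∀ a ∈ n.divisors, (((a * (n / a)).divisors.card : ℕ) : ℝ) = n.divisors.card := by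
      intro a ha
      rw [Nat.mul_div_cancel' (Nat.mem_divisors.1 ha).1]
    rw [Finset.sum_congr rfl this, Finset.sum_const, nsmul_eq_mul, sq]
  rw [e]
  calc ∑ a ∈ Icc 1 K, ∑ m ∈ Icc 1 (K / a), ((a * m).divisors.card : ℝ)
      ≤ ∑ a ∈ Icc 1 K, ((a.divisors.card : ℝ) / a) * (K * (1 + Real.log K)) := by
        refine Finset.sum_le_sum fun a ha => ?_
        rw [Finset.mem_Icc] at ha
        have ha0 : (0 : ℝ) < a := by exact_mod_cast ha.1
        calc ∑ m ∈ Icc 1 (K / a), ((a * m).divisors.card : ℝ)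
            ≤ ∑ m ∈ Icc 1 (K / a), (a.divisors.card : ℝ) * m.divisors.card :=
              Finset.sum_le_sum fun m _ => R7d_sub a m
          _ = (a.divisors.card : ℝ) * ∑ m ∈ Icc 1 (K / a), (m.divisors.card : ℝ) := by
              rw [Finset.mul_sum]
          _ ≤ (a.divisors.card : ℝ) * (((K / a : ℕ) : ℝ) * (1 + Real.log K)) :=
              mul_le_mul_of_nonneg_left (R7d_first _ K (Nat.div_le_self K a) hK)
                (Nat.cast_nonneg _)
          _ ≤ (a.divisors.card : ℝ) * (((K : ℝ) / a) * (1 + Real.log K)) := by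
              refine mul_le_mul_of_nonneg_left ?_ (Nat.cast_nonneg _)
              exact mul_le_mul_of_nonneg_right Nat.cast_div_le hlog
          _ = ((a.divisors.card : ℝ) / a) * (K * (1 + Real.log K)) := by
              field_simp
    _ = (∑ a ∈ Icc 1 K, (a.divisors.card : ℝ) / a) * (K * (1 + Real.log K)) := by
        rw [Finset.sum_mul]
    _ ≤ (1 + Real.log K) ^ 2 * (K * (1 + Real.log K)) :=
        mul_le_mul_of_nonneg_right (R7d_recip K hK) (by positivity)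
    _ = K * (1 + Real.log K) ^ 3 := by ring

end ES
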