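import Pool.Agent.Lib.ES.Defs
import Pool.Agent.Lib.ES.R7d

/-! Tank ES, row R7b (helper87): the divisor function over a class in an interval. -/

open Finset

namespace ES

/-- Elements of `(y, y + L]` which are pairwise congruent modulo `k`. -/
theorem R7b_count (y L k : ℕ) (hk : 0 < k) (S : Finset ℕ)
    (hS : ∀ n ∈ S, y < n ∧ n ≤ y + L) (hc : ∀ n ∈ S, ∀ n' ∈ S, n % k = n' % k) :
    (S.card : ℝ) ≤ (L : ℝ) / k + 1 := by
  have hinj : S.card ≤ (range (L / k + 1)).card := by
    refine Finset.card_le_card_of_injOn (fun n => (n - y - 1) / k) ?_ ?_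
    · intro n hn
      have h := hS n hn
      simp only [Finset.coe_range, Set.mem_Iio]
      have : (n - y - 1) / k ≤ L / k := Nat.div_le_div_right (by omega)
      omega
    · intro n hn n' hn' h
      have h1 := hS n hn
      have h2 := hS n' hn'
      have h3 := hc n hn n' hn'
      simp only at h
      -- write n - y - 1 = k * s + t
      have hm : (n - y - 1) % k = (n' - y - 1) % k := by
        have e : n ≡ n' [MOD k] := h3
        have e1 : (n - y - 1) + (y + 1) ≡ (n' - y - 1) + (y + 1) [MOD k] := by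
          have a1 : (n - y - 1) + (y + 1) = n := by omega
          have a2 : (n' - y - 1) + (y + 1) = n' := by omega
          rw [a1, a2]
          exact e
        exact Nat.ModEq.add_right_cancel' _ e1
      have d1 := Nat.div_add_mod (n - y - 1) k
      have d2 := Nat.div_add_mod (n' - y - 1) k
      rw [h, hm] at d1
      omega
  rw [Finset.card_range] at hinj
  have : ((S.card : ℕ) : ℝ) ≤ ((L / k + 1 : ℕ) : ℝ) := by exact_mod_cast hinj
  refine this.trans ?_
  push_cast
  have := @Nat.cast_div_le ℝ _ _ _ L k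
  linarith

/-- Divisors come in pairs. -/
theorem R7b_pair (n D : ℕ) (hn : 0 < n) (hD : ∀ d, d * d ≤ n → d ≤ D) :
    n.divisors.card ≤ 2 * ((Icc 1 D).filter (fun d => d ∣ n)).card := by
  classical
  set T := (Icc 1 D).filter (fun d => d ∣ n) with hT
  have hsub : n.divisors ⊆ T ∪ T.image (fun d => n / d) := by
    intro d hd
    have hdn := (Nat.mem_divisors.1 hd).1
    have hd0 : 0 < d := Nat.pos_of_dvd_of_pos hdn hn
    by_cases h : d * d ≤ n
    · refine Finset.mem_union_left _ ?_
      rw [hT, Finset.mem_filter, Finset.mem_Icc]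
      exact ⟨⟨hd0, hD d h⟩, hdn⟩
    · refine Finset.mem_union_right _ ?_
      rw [Finset.mem_image]
      refine ⟨n / d, ?_, Nat.div_div_self hdn hn.ne'⟩
      rw [hT, Finset.mem_filter, Finset.mem_Icc]
      refine ⟨⟨Nat.div_pos (Nat.le_of_dvd hn hdn) hd0, hD _ ?_⟩, Nat.div_dvd_of_dvd hdn⟩
      have h1 : n / d ≤ d := by
        have : n < d * d := not_le.1 h
        have := Nat.div_lt_of_lt_mul this
        omega
      calc n / d * (n / d) ≤ n / d * d := Nat.mul_le_mul_left _ h1
        _ = n := Nat.div_mul_cancel hdn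
  calc n.divisors.card ≤ (T ∪ T.image (fun d => n / d)).card := Finset.card_le_card hsub
    _ ≤ T.card + (T.image (fun d => n / d)).card := Finset.card_union_le _ _
    _ ≤ T.card + T.card := Nat.add_le_add_left Finset.card_image_le _
    _ = 2 * T.card := by ring

theorem R7b_proof : R7b := by
  intro y L q γ hq hγ
  rcases Nat.eq_zero_or_pos (y + L) with h0 | hpos
  · have hy : y = 0 := by omega
    have hL : L = 0 := by omega
    subst hy hL
    simp
  set S := (Ioc y (y + L)).filter (fun n => n % q = γ % q) with hS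
  set D := Nat.sqrt (y + L) with hDd
  have hlog : 0 ≤ Real.log ((y : ℝ) + L) := by
    refine Real.log_nonneg ?_
    exact_mod_cast hpos
  have hmemS : ∀ n ∈ S, (y < n ∧ n ≤ y + L) ∧ n % q = γ % q := by
    intro n hn
    rw [hS, Finset.mem_filter, Finset.mem_Ioc] at hn
    exact hn
  have hcop : ∀ n ∈ S, n.Coprime q := by
    intro n hn
    have h1 : n ≡ γ [MOD q] := (hmemS n hn).2
    have := h1.gcd_eq
    rw [Nat.Coprime, this]
    exact hγ
  -- the sum over divisors up to sqrt
  have h1 : ∑ n ∈ S, (n.divisors.card : ℝ) ≤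
      2 * ∑ d ∈ Icc 1 D, ((S.filter (fun n => d ∣ n)).card : ℝ) := by
    have e1 : ∀ n ∈ S, (n.divisors.card : ℝ) ≤
        2 * ∑ d ∈ Icc 1 D, (if d ∣ n then (1 : ℝ) else 0) := by
      intro n hn
      have hb := (hmemS n hn).1
      have := R7b_pair n D (by omega) (fun d hd => by
        rw [hDd]
        exact Nat.le_sqrt.2 (hd.trans hb.2))
      have h2 : (n.divisors.card : ℝ) ≤
          2 * (((Icc 1 D).filter (fun d => d ∣ n)).card : ℝ) := by exact_mod_cast this
      rw [Finset.sum_boole]
      exact h2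
    refine (Finset.sum_le_sum e1).trans (le_of_eq ?_)
    rw [← Finset.mul_sum, Finset.sum_comm]
    congr 1
    refine Finset.sum_congr rfl fun d _ => ?_
    rw [Finset.sum_boole]
  -- each divisor
  have h2 : ∀ d ∈ Icc 1 D, ((S.filter (fun n => d ∣ n)).card : ℝ) ≤ (L : ℝ) / q * (1 / d) + 1 := by
    intro d hd
    rw [Finset.mem_Icc] at hd
    have hd0 : 0 < d := hd.1
    by_cases hdq : d.Coprime q
    · have := R7b_count y L (d * q) (Nat.mul_pos hd0 hq) (S.filter (fun n => d ∣ n))
        (fun n hn => (hmemS n (Finset.mem_filter.1 hn).1).1) (by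
          intro n hn n' hn'
          rw [Finset.mem_filter] at hn hn'
          have a1 : n ≡ n' [MOD d] :=
            ((Nat.modEq_zero_iff_dvd.2 hn.2).trans (Nat.modEq_zero_iff_dvd.2 hn'.2).symm)
          have a2 : n ≡ n' [MOD q] := by
            have b1 := (hmemS n hn.1).2
            have b2 := (hmemS n' hn'.1).2
            exact b1.trans b2.symm
          exact (Nat.modEq_and_modEq_iff_modEq_mul hdq).1 ⟨a1, a2⟩)
      refine this.trans (le_of_eq ?_)
      push_cast
      rw [div_mul_div_comm, mul_one, mul_comm (d : ℝ) q]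
    · have : S.filter (fun n => d ∣ n) = ∅ := by
        rw [Finset.filter_eq_empty_iff]
        intro n hn hdn
        exact hdq ((hcop n hn).coprime_dvd_left hdn)
      rw [this]
      simp only [Finset.card_empty, Nat.cast_zero]
      positivity
  have h3 : ∑ d ∈ Icc 1 D, ((S.filter (fun n => d ∣ n)).card : ℝ) ≤
      (L : ℝ) / q * (1 + Real.log ((y : ℝ) + L)) + Real.sqrt ((y : ℝ) + L) := by
    calc ∑ d ∈ Icc 1 D, ((S.filter (fun n => d ∣ n)).card : ℝ)
        ≤ ∑ d ∈ Icc 1 D, ((L : ℝ) / q * (1 / d) + 1) := Finset.sum_le_sum h2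
      _ = (L : ℝ) / q * ∑ d ∈ Icc 1 D, (1 : ℝ) / d + D := by
          rw [Finset.sum_add_distrib, ← Finset.mul_sum]
          simp
      _ ≤ (L : ℝ) / q * (1 + Real.log ((y : ℝ) + L)) + Real.sqrt ((y : ℝ) + L) := by
          have b1 : ∑ d ∈ Icc 1 D, (1 : ℝ) / d ≤ 1 + Real.log ((y : ℝ) + L) := by
            have := R7d_harm' (K := D) (M := y + L) (Nat.sqrt_le_self _) hpos
            push_cast at this
            exact this
          have b2 : (D : ℝ) ≤ Real.sqrt ((y : ℝ) + L) := by
            refine Real.le_sqrt_of_sq_le ?_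
            have := Nat.sqrt_le' (y + L)
            exact_mod_cast this
          have b3 : (0 : ℝ) ≤ (L : ℝ) / q := by positivity
          exact add_le_add (mul_le_mul_of_nonneg_left b1 b3) b2
  calc ∑ n ∈ S, (n.divisors.card : ℝ)
      ≤ 2 * ∑ d ∈ Icc 1 D, ((S.filter (fun n => d ∣ n)).card : ℝ) := h1
    _ ≤ 2 * ((L : ℝ) / q * (1 + Real.log ((y : ℝ) + L)) + Real.sqrt ((y : ℝ) + L)) := by
        linarith

end ES
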