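import Pool.Agent.Lib.ES.Defs

/-!
# ES, row R8: assembly of the weighted Bombieri-Vinogradov lemma
-/

open Finset
open scoped BigOperators

namespace ES

namespace R8

/-- the fourth root -/
theorem exists_root (x : ℕ) (hx : 1 ≤ x) : ∃ V : ℕ, 1 ≤ V ∧ V ^ 4 ≤ x ∧ x < (V + 1) ^ 4 := by
  refine ⟨Nat.sqrt (Nat.sqrt x), ?_, ?_, ?_⟩
  · have h1 : 1 ≤ Nat.sqrt x := Nat.le_sqrt.mpr (by omega)
    exact Nat.le_sqrt.mpr (by omega)
  · have h1 := Nat.sqrt_le' (Nat.sqrt x)
    have h2 := Nat.sqrt_le' x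
    calc Nat.sqrt (Nat.sqrt x) ^ 4 = (Nat.sqrt (Nat.sqrt x) ^ 2) ^ 2 := by ring
      _ ≤ (Nat.sqrt x) ^ 2 := Nat.pow_le_pow_left h1 2
      _ ≤ x := h2
  · have h1 : Nat.sqrt x < (Nat.sqrt (Nat.sqrt x) + 1) ^ 2 := Nat.lt_succ_sqrt' _
    have h2 : x < (Nat.sqrt x + 1) ^ 2 := Nat.lt_succ_sqrt' _
    calc x < (Nat.sqrt x + 1) ^ 2 := h2
      _ ≤ ((Nat.sqrt (Nat.sqrt x) + 1) ^ 2) ^ 2 := Nat.pow_le_pow_left h1 2
      _ = (Nat.sqrt (Nat.sqrt x) + 1) ^ 4 := by ring

theorem moe_abs (n : ℕ) : |moe n| ≤ 1 := by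
  have h : moe n = ((ArithmeticFunction.moebius n : ℤ) : ℝ) := rfl
  rw [h, ← Int.cast_abs]
  exact_mod_cast ArithmeticFunction.abs_moebius_le_one

theorem low_apply (f : ArithmeticFunction ℝ) (V n : ℕ) : low f V n = if n ≤ V then f n else 0 := rfl

theorem high_apply (f : ArithmeticFunction ℝ) (V n : ℕ) : high f V n = if V < n then f n else 0 := rfl

theorem low_moe_abs (V n : ℕ) : |low moe V n| ≤ 1 := by
  rw [low_apply]
  split_ifs
  · exact moe_abs n
  · simp

theorem low_moe_zero (V n : ℕ) (h : V < n) : low moe V n = 0 := by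
  rw [low_apply, if_neg (not_le.mpr h)]

theorem vM_nonneg (n : ℕ) : 0 ≤ vM n := ArithmeticFunction.vonMangoldt_nonneg

theorem low_vM_nonneg (V n : ℕ) : 0 ≤ low vM V n := by
  rw [low_apply]
  split_ifs
  · exact vM_nonneg n
  · exact le_rfl

theorem low_vM_le (V n : ℕ) : low vM V n ≤ vM n := by
  rw [low_apply]
  split_ifs
  · exact le_rfl
  · exact vM_nonneg n

/-- the coefficients of the second type I sum vanish beyond `V^2` -/
theorem g2_zero (V d : ℕ) (h : V * V < d) : (low moe V * low vM V) d = 0 := by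
  rw [ArithmeticFunction.mul_apply]
  refine Finset.sum_eq_zero fun p hp => ?_
  rw [Nat.mem_divisorsAntidiagonal] at hp
  by_cases h1 : p.1 ≤ V
  · by_cases h2 : p.2 ≤ V
    · exfalso
      have := Nat.mul_le_mul h1 h2
      omega
    · rw [low_apply vM, if_neg h2, mul_zero]
  · rw [low_apply moe, if_neg h1, zero_mul]

theorem g2_abs (V d : ℕ) : |(low moe V * low vM V) d| ≤ Real.log d := by
  rw [ArithmeticFunction.mul_apply]
  calc |∑ p ∈ d.divisorsAntidiagonal, low moe V p.1 * low vM V p.2|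
      ≤ ∑ p ∈ d.divisorsAntidiagonal, |low moe V p.1 * low vM V p.2| := abs_sum_le_sum_abs _ _
    _ ≤ ∑ p ∈ d.divisorsAntidiagonal, vM p.2 := by
        refine Finset.sum_le_sum fun p _ => ?_
        rw [abs_mul, abs_of_nonneg (low_vM_nonneg V p.2)]
        calc |low moe V p.1| * low vM V p.2 ≤ 1 * vM p.2 :=
              mul_le_mul (low_moe_abs V p.1) (low_vM_le V p.2) (low_vM_nonneg V p.2) zero_le_one
          _ = vM p.2 := one_mul _
    _ = ∑ i ∈ d.divisors, vM i := by
        rw [Nat.sum_divisorsAntidiagonal' (f := fun _ j => vM j)]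
    _ = Real.log d := ArithmeticFunction.vonMangoldt_sum

theorem alpha_abs (V n : ℕ) : |high vM V n| ≤ vM n := by
  rw [high_apply]
  split_ifs
  · rw [abs_of_nonneg (vM_nonneg n)]
  · rw [abs_zero]
    exact vM_nonneg n

theorem alpha_zero (V n : ℕ) (h : n ≤ V) : high vM V n = 0 := by
  rw [high_apply, if_neg (not_lt.mpr h)]

theorem one_apply_abs (n : ℕ) : |one' n| ≤ 1 := by
  have h : one' n = ((ArithmeticFunction.zeta n : ℕ) : ℝ) := rfl
  rw [h, ArithmeticFunction.zeta_apply]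
  split_ifs <;> simp

theorem beta_abs (V n : ℕ) : |(one' * high moe V) n| ≤ (n.divisors.card : ℝ) := by
  rw [ArithmeticFunction.mul_apply]
  calc |∑ p ∈ n.divisorsAntidiagonal, one' p.1 * high moe V p.2|
      ≤ ∑ p ∈ n.divisorsAntidiagonal, |one' p.1 * high moe V p.2| := abs_sum_le_sum_abs _ _
    _ ≤ ∑ p ∈ n.divisorsAntidiagonal, (1 : ℝ) := by
        refine Finset.sum_le_sum fun p _ => ?_
        rw [abs_mul]
        have h2 : |high moe V p.2| ≤ 1 := by
          rw [high_apply]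
          split_ifs
          · exact moe_abs _
          · simp
        calc |one' p.1| * |high moe V p.2| ≤ 1 * 1 :=
              mul_le_mul (one_apply_abs _) h2 (abs_nonneg _) zero_le_one
          _ = 1 := one_mul _
    _ = (n.divisors.card : ℝ) := by
        rw [Finset.sum_const, nsmul_eq_mul, mul_one]
        congr 1
        rw [← Nat.map_div_right_divisors, Finset.card_map]

theorem beta_zero (V n : ℕ) (h : n ≤ V) : (one' * high moe V) n = 0 := by
  rw [ArithmeticFunction.mul_apply]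
  refine Finset.sum_eq_zero fun p hp => ?_
  rw [Nat.mem_divisorsAntidiagonal] at hp
  have h2 : p.2 ≤ V := by
    refine le_trans ?_ h
    exact Nat.le_of_dvd (Nat.pos_of_ne_zero hp.2) ⟨p.1, by rw [← hp.1, mul_comm]⟩
  rw [high_apply, if_neg (not_lt.mpr h2), mul_zero]

/-- the pointwise identity above `V` -/
theorem pointwise (h5 : R5) (V n : ℕ) (hn : V < n) :
    vM n = (low moe V * ArithmeticFunction.log) n - (low moe V * low vM V * one') n +
      (high vM V * (one' * high moe V)) n := by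
  have h' : vM + low moe V * low vM V * one' = low vM V + low moe V * ArithmeticFunction.log +
      high vM V * (one' * high moe V) := by
    linear_combination h5 V V
  have h := congrArg (fun f : ArithmeticFunction ℝ => f n) h'
  simp only [ArithmeticFunction.add_apply] at h
  rw [low_apply vM, if_neg (not_le.mpr hn)] at h
  linarith

theorem apSum_split (h5 : R5) (V y1 y2 q γ : ℕ) (hV : V ≤ y1) :
    apSum (fun n => vM n) y1 y2 q γ =
      apSum (fun n => (low moe V * ArithmeticFunction.log) n) y1 y2 q γ -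
      apSum (fun n => (low moe V * low vM V * one') n) y1 y2 q γ +
      apSum (fun n => (high vM V * (one' * high moe V)) n) y1 y2 q γ := by
  unfold apSum
  rw [← Finset.sum_sub_distrib, ← Finset.sum_add_distrib]
  refine Finset.sum_congr rfl fun n hn => ?_
  rw [mem_filter, mem_Ioc] at hn
  exact pointwise h5 V n (by omega)

theorem disc_split (h5 : R5) (V y1 y2 m r γ : ℕ) (hV : V ≤ y1) :
    disc (fun n => vM n) y1 y2 m r γ =
      disc (fun n => (low moe V * ArithmeticFunction.log) n) y1 y2 m r γ -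
      disc (fun n => (low moe V * low vM V * one') n) y1 y2 m r γ +
      disc (fun n => (high vM V * (one' * high moe V)) n) y1 y2 m r γ := by
  unfold disc
  rw [apSum_split h5 V y1 y2 (m * r) γ hV, apSum_split h5 V y1 y2 m γ hV]
  ring

/-- mass of the proper prime powers up to `y2` -/
theorem powers_bound (y2 : ℕ) (h : 1 ≤ y2) :
    ∑ n ∈ (Ioc 0 y2).filter (fun n => ¬ n.Prime), vM n ≤ 2 * Real.sqrt y2 * Real.log y2 := by
  have h1 := Chebyshev.psi_sub_theta_eq_sum_not_prime (y2 : ℝ)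
  rw [Nat.floor_natCast] at h1
  have h2 := Chebyshev.abs_psi_sub_theta_le_sqrt_mul_log (x := (y2 : ℝ)) (by exact_mod_cast h)
  rw [h1] at h2
  exact le_trans (le_abs_self _) h2

/-- `θ` and the sum of `Λ` in a class -/
theorem theta_vM (y1 y2 q γ : ℕ) (h : 1 ≤ y2) :
    |apSum (fun n => vM n) y1 y2 q γ - thetaAP y1 y2 q γ| ≤ 2 * Real.sqrt y2 * Real.log y2 := by
  have h1 : apSum (fun n => vM n) y1 y2 q γ - thetaAP y1 y2 q γ =
      ∑ n ∈ ((Ioc y1 y2).filter (fun n => n % q = γ % q)).filter (fun n => ¬ n.Prime), vM n := by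
    unfold apSum thetaAP
    rw [← Finset.sum_filter_add_sum_filter_not ((Ioc y1 y2).filter (fun n => n % q = γ % q))
      (fun n => n.Prime)]
    have h2 : ∑ n ∈ ((Ioc y1 y2).filter (fun n => n % q = γ % q)).filter (fun n => n.Prime), vM n
        = ∑ p ∈ (Ioc y1 y2).filter (fun p => p.Prime ∧ p % q = γ % q), Real.log p := by
      rw [Finset.filter_filter]
      refine Finset.sum_congr (Finset.filter_congr fun n _ => and_comm) fun n hn => ?_
      rw [mem_filter] at hn
      exact ArithmeticFunction.vonMangoldt_apply_prime hn.2.1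
    rw [h2]
    ring
  rw [h1, abs_of_nonneg (Finset.sum_nonneg fun n _ => vM_nonneg n)]
  refine le_trans (Finset.sum_le_sum_of_subset_of_nonneg ?_ fun n _ _ => vM_nonneg n)
    (powers_bound y2 h)
  intro n hn
  simp only [mem_filter, mem_Ioc] at hn ⊢
  exact ⟨⟨by omega, hn.1.1.2⟩, hn.2⟩

end R8

open R8 in
theorem R8_proof : R8 := by
  intro h5 h6 h7 h7a h7b h7d h4 h3 m hm
  obtain ⟨C6, hC6, H6⟩ := h6 m hm
  obtain ⟨C7, hC7, H7⟩ := h7 h7a h7b h7d h4 h3 m hm
  refine ⟨4 * C6 + C7 + 8, by positivity, ?_⟩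
  intro ι T r γ Δ x y1 y2 hA hx hxy hy12 hy2
  obtain ⟨V, hV1, hV4, hV5⟩ := exists_root x (by omega)
  have hVx : V ^ 2 ≤ x := le_trans (Nat.pow_le_pow_right hV1 (by norm_num)) hV4
  have hVx1 : V ≤ x := le_trans (by nlinarith) hVx
  have hΔ : 0 ≤ Δ := le_trans (Finset.sum_nonneg fun t _ => by positivity) (hA.del 2 le_rfl)
  have hS : 0 ≤ SS T r := Finset.sum_nonneg fun t _ => by positivity
  have hx1 : (1 : ℝ) ≤ x := by exact_mod_cast (by omega : 1 ≤ x)
  have hx0 : (0 : ℝ) < x := by linarith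
  have hlx : 0 ≤ Real.log x := Real.log_nonneg hx1
  set L : ℝ := 1 + Real.log x with hL
  have hL1 : 1 ≤ L := by linarith
  have hV2x : ((V ^ 2 : ℕ) : ℝ) ≤ (x : ℝ) ^ ((1 : ℝ) / 2) := by
    rw [← Real.sqrt_eq_rpow]
    refine Real.le_sqrt_of_sq_le ?_
    have : ((V ^ 2) ^ 2 : ℕ) ≤ x := by
      calc (V ^ 2) ^ 2 = V ^ 4 := by ring
        _ ≤ x := hV4
    exact_mod_cast this
  have hV1x : (V : ℝ) ≤ (x : ℝ) ^ ((1 : ℝ) / 2) := by
    refine le_trans ?_ hV2x
    have : V ≤ V ^ 2 := by nlinarith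
    exact_mod_cast this
  have hp34 : (x : ℝ) ^ ((1 : ℝ) / 2) ≤ (x : ℝ) ^ ((3 : ℝ) / 4) :=
    Real.rpow_le_rpow_of_exponent_le hx1 (by norm_num)
  have hp24 : (x : ℝ) ^ ((1 : ℝ) / 2) ≤ (x : ℝ) ^ ((24 : ℝ) / 25) :=
    Real.rpow_le_rpow_of_exponent_le hx1 (by norm_num)
  have hT : (0 : ℝ) ≤ T.card := Nat.cast_nonneg _
  -- the three main sums
  have e1 := H6 ι T r γ Δ 1 x y1 y2 V (low moe V) ArithmeticFunction.log hA hx hxy hy12 hy2 hV1 hVx1
    (low_moe_abs V) (low_moe_zero V) (Or.inl rfl)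
  have e2 := H6 ι T r γ Δ L x y1 y2 (V ^ 2) (low moe V * low vM V) one' hA hx hxy hy12 hy2
    (Nat.one_le_pow _ _ hV1) hVx
    (by
      intro d
      rcases lt_or_ge (V * V) d with hd | hd
      · rw [g2_zero V d hd, abs_zero]
        linarith
      · refine le_trans (g2_abs V d) ?_
        rcases Nat.eq_zero_or_pos d with h0 | h0
        · subst h0
          simp only [Nat.cast_zero, Real.log_zero]
          linarith
        · have : Real.log d ≤ Real.log x := by
            apply Real.log_le_log (by exact_mod_cast h0)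
            have : d ≤ x := by nlinarith
            exact_mod_cast this
          linarith)
    (by
      intro d hd
      exact g2_zero V d (by nlinarith)) (Or.inr rfl)
  have e3 := H7 ι T r γ Δ x y1 y2 V (high vM V) (one' * high moe V) hA hx hxy hy12 hy2 hV4 hV5
    (alpha_abs V) (beta_abs V) (alpha_zero V) (beta_zero V)
  -- prime powers
  set P : ℝ := 2 * Real.sqrt y2 * Real.log y2 with hP
  have hy2pos : 1 ≤ y2 := by omega
  have hy2r : (y2 : ℝ) ≤ 2 * x := by exact_mod_cast hy2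
  have hP4 : P ≤ 8 * L * (x : ℝ) ^ ((1 : ℝ) / 2) := by
    have a1 : Real.sqrt y2 ≤ 2 * (x : ℝ) ^ ((1 : ℝ) / 2) := by
      rw [← Real.sqrt_eq_rpow]
      rw [Real.sqrt_le_left (by positivity)]
      rw [mul_pow, Real.sq_sqrt hx0.le]
      linarith
    have a2 : Real.log y2 ≤ 2 * L := by
      have : Real.log y2 ≤ Real.log (2 * x) := Real.log_le_log (by exact_mod_cast hy2pos) hy2r
      rw [Real.log_mul (by norm_num) hx0.ne'] at this
      have h2 : Real.log 2 ≤ 1 := by
        have := Real.log_two_lt_d9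
        linarith
      linarith
    have a3 : 0 ≤ Real.log y2 := Real.log_nonneg (by exact_mod_cast hy2pos)
    calc P = 2 * (Real.sqrt y2 * Real.log y2) := by rw [hP]; ring
      _ ≤ 2 * ((2 * (x : ℝ) ^ ((1 : ℝ) / 2)) * (2 * L)) := by
          gcongr
      _ = 8 * L * (x : ℝ) ^ ((1 : ℝ) / 2) := by ring
  -- each term
  have hterm : ∀ t ∈ T, |thetaAP y1 y2 (m * r t) (γ t) - thetaAP y1 y2 m (γ t) / r t| ≤
      |disc (fun n => (low moe V * ArithmeticFunction.log) n) y1 y2 m (r t) (γ t)| +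
      |disc (fun n => (low moe V * low vM V * one') n) y1 y2 m (r t) (γ t)| +
      |disc (fun n => (high vM V * (one' * high moe V)) n) y1 y2 m (r t) (γ t)| +
      (P + P * (1 / r t)) := by
    intro t ht
    have b1 := theta_vM y1 y2 (m * r t) (γ t) hy2pos
    have b2 := theta_vM y1 y2 m (γ t) hy2pos
    have b3 := disc_split h5 V y1 y2 m (r t) (γ t) (by omega)
    have hr : (0 : ℝ) < r t := by exact_mod_cast hA.r1 t ht
    have b4 : |(apSum (fun n => vM n) y1 y2 m (γ t) - thetaAP y1 y2 m (γ t)) / r t| ≤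
        P * (1 / r t) := by
      rw [abs_div, abs_of_pos hr, div_eq_mul_one_div]
      exact mul_le_mul_of_nonneg_right b2 (by positivity)
    have b5 : thetaAP y1 y2 (m * r t) (γ t) - thetaAP y1 y2 m (γ t) / r t =
        disc (fun n => (low moe V * ArithmeticFunction.log) n) y1 y2 m (r t) (γ t) -
        disc (fun n => (low moe V * low vM V * one') n) y1 y2 m (r t) (γ t) +
        disc (fun n => (high vM V * (one' * high moe V)) n) y1 y2 m (r t) (γ t) -
        (apSum (fun n => vM n) y1 y2 (m * r t) (γ t) - thetaAP y1 y2 (m * r t) (γ t)) +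
        (apSum (fun n => vM n) y1 y2 m (γ t) - thetaAP y1 y2 m (γ t)) / r t := by
      rw [← b3]
      unfold disc
      ring
    rw [b5]
    refine le_trans (abs_add_le _ _) ?_
    refine le_trans (add_le_add (abs_sub _ _) le_rfl) ?_
    refine le_trans (add_le_add (add_le_add (abs_add_le _ _) le_rfl) le_rfl) ?_
    refine le_trans (add_le_add (add_le_add (add_le_add (abs_sub _ _) le_rfl) le_rfl) le_rfl) ?_
    linarith
  refine le_trans (Finset.sum_le_sum hterm) ?_
  rw [Finset.sum_add_distrib, Finset.sum_add_distrib, Finset.sum_add_distrib,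
    Finset.sum_add_distrib, Finset.sum_const, nsmul_eq_mul, ← Finset.mul_sum]
  have hSS : ∑ t ∈ T, (1 : ℝ) / r t = SS T r := rfl
  rw [hSS]
  -- collect
  set Q : ℝ := (x : ℝ) ^ ((1 : ℝ) / 2) with hQ
  set A1 : ℝ := (x : ℝ) ^ ((3 : ℝ) / 4) with hA1
  set A2 : ℝ := (x : ℝ) ^ ((24 : ℝ) / 25) with hA2
  have hQ0 : 0 ≤ Q := by positivity
  have hA10 : 0 ≤ A1 := by positivity
  have hA20 : 0 ≤ A2 := by positivity
  set B : ℝ := x * (Real.sqrt (SS T r * Δ) + Δ) + SS T r * A2 + T.card * A1 with hB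
  have hsq : 0 ≤ Real.sqrt (SS T r * Δ) := Real.sqrt_nonneg _
  have hB0 : 0 ≤ B := by positivity
  have hTQ : T.card * Q ≤ T.card * A1 := mul_le_mul_of_nonneg_left hp34 hT
  have hSQ : SS T r * Q ≤ SS T r * A2 := mul_le_mul_of_nonneg_left hp24 hS
  have hxs : 0 ≤ x * Real.sqrt (SS T r * Δ) := by positivity
  have hxd : 0 ≤ x * Δ := by positivity
  have hTA : 0 ≤ T.card * A1 := by positivity
  have hSA : 0 ≤ SS T r * A2 := by positivity
  have pL : ∀ k : ℕ, k ≤ 6 → L ^ k ≤ L ^ 6 := fun k hk => pow_le_pow_right₀ hL1 hk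
  have f1 : C6 * 1 * L ^ 3 * (T.card * V + SS T r * V + x * Δ) ≤ C6 * L ^ 6 * B := by
    have g1 : T.card * (V : ℝ) + SS T r * V + x * Δ ≤ B := by
      have i1 : T.card * (V : ℝ) ≤ T.card * Q := mul_le_mul_of_nonneg_left hV1x hT
      have i2 : SS T r * (V : ℝ) ≤ SS T r * Q := mul_le_mul_of_nonneg_left hV1x hS
      rw [hB]
      nlinarith
    rw [mul_one]
    have := pL 3 (by norm_num)
    exact mul_le_mul (mul_le_mul_of_nonneg_left this hC6.le) g1 (by positivity) (by positivity)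
  have f2 : C6 * L * L ^ 3 * (T.card * ((V ^ 2 : ℕ) : ℝ) + SS T r * ((V ^ 2 : ℕ) : ℝ) + x * Δ) ≤
      C6 * L ^ 6 * B := by
    have g1 : T.card * ((V ^ 2 : ℕ) : ℝ) + SS T r * ((V ^ 2 : ℕ) : ℝ) + x * Δ ≤ B := by
      have i1 : T.card * ((V ^ 2 : ℕ) : ℝ) ≤ T.card * Q := mul_le_mul_of_nonneg_left hV2x hT
      have i2 : SS T r * ((V ^ 2 : ℕ) : ℝ) ≤ SS T r * Q := mul_le_mul_of_nonneg_left hV2x hS
      rw [hB]
      nlinarith
    have h4' : C6 * L * L ^ 3 = C6 * L ^ 4 := by ring
    rw [h4']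
    have := pL 4 (by norm_num)
    exact mul_le_mul (mul_le_mul_of_nonneg_left this hC6.le) g1 (by positivity) (by positivity)
  have f3 : C7 * L ^ 6 * (x * Real.sqrt (SS T r * Δ) + SS T r * A2 + T.card * A1) ≤
      C7 * L ^ 6 * B := by
    refine mul_le_mul_of_nonneg_left ?_ (by positivity)
    rw [hB]
    nlinarith
  have f4 : T.card * P + P * SS T r ≤ 8 * L ^ 6 * B := by
    have i1 : T.card * P ≤ T.card * (8 * L * Q) := mul_le_mul_of_nonneg_left hP4 hT
    have i2 : P * SS T r ≤ (8 * L * Q) * SS T r := mul_le_mul_of_nonneg_right hP4 hS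
    have i3 : T.card * Q + SS T r * Q ≤ B := by
      rw [hB]
      nlinarith
    have i4 : L ≤ L ^ 6 := by simpa using pL 1 (by norm_num)
    calc T.card * P + P * SS T r ≤ T.card * (8 * L * Q) + (8 * L * Q) * SS T r := add_le_add i1 i2
      _ = 8 * L * (T.card * Q + SS T r * Q) := by ring
      _ ≤ 8 * L ^ 6 * B := mul_le_mul (mul_le_mul_of_nonneg_left i4 (by norm_num)) i3
          (by positivity) (by positivity)
  have hC : (0:ℝ) ≤ 2 * C6 * L ^ 6 * B := by positivity
  calc _ ≤ C6 * L ^ 6 * B + C6 * L ^ 6 * B + C7 * L ^ 6 * B + 8 * L ^ 6 * B := by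
        refine add_le_add (add_le_add (add_le_add (le_trans e1 f1) (le_trans e2 f2))
          (le_trans e3 f3)) f4
    _ ≤ (4 * C6 + C7 + 8) * L ^ 6 * B := by nlinarith

end ES
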