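import Pool.Agent.Lib.ES.Defs

/-!
ES, rows R9a and R9b: total mass of the triples and the mass of the moduli divisible by `q`.
-/

set_option autoImplicit false

open Finset
open scoped BigOperators

namespace ES

private theorem r9_harm (B : ℕ) : ∑ k ∈ Icc 1 B, (1 : ℝ) / k ≤ 1 + Real.log B := by
  have h := harmonic_le_one_add_log B
  rw [harmonic_eq_sum_Icc] at h
  push_cast at h
  simpa [one_div] using h

/-- sum of `1 / a` over a set inside one class modulo `m` -/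
private theorem r9_class (S : Finset ℕ) (A B m : ℕ) (hA : 1 ≤ A) (hm : 1 ≤ m)
    (hS : ∀ a ∈ S, A < a ∧ a ≤ B) (hc : ∀ a ∈ S, ∀ a' ∈ S, a % m = a' % m) :
    ∑ a ∈ S, (1 : ℝ) / a ≤ 1 / A + (1 + Real.log B) / m := by
  have hA0 : (0 : ℝ) < A := by exact_mod_cast hA
  have hm0 : (0 : ℝ) < m := by exact_mod_cast hm
  rcases S.eq_empty_or_nonempty with rfl | hne
  · rw [sum_empty]
    have := Real.log_natCast_nonneg B
    positivity
  obtain ⟨a0, ha0, hmin⟩ := S.exists_min_image id hne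
  rw [← Finset.add_sum_erase S _ ha0]
  have h1 : (1 : ℝ) / a0 ≤ 1 / A := by
    apply one_div_le_one_div_of_le hA0
    exact_mod_cast (hS a0 ha0).1.le
  refine add_le_add h1 ?_
  have hform : ∀ a ∈ S.erase a0, a0 + m * ((a - a0) / m) = a ∧ 1 ≤ (a - a0) / m ∧
      (a - a0) / m ≤ B := by
    intro a ha
    obtain ⟨hne', haS⟩ := Finset.mem_erase.mp ha
    have hle : a0 ≤ a := hmin a haS
    have hmod : m ∣ a - a0 := (Nat.modEq_iff_dvd' hle).mp (hc a0 ha0 a haS)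
    have he : m * ((a - a0) / m) = a - a0 := Nat.mul_div_cancel' hmod
    refine ⟨by rw [he]; omega, ?_, ?_⟩
    · by_contra h0
      have h0' : (a - a0) / m = 0 := Nat.lt_one_iff.mp (not_le.mp h0)
      rw [h0', mul_zero] at he
      omega
    · exact (Nat.div_le_self _ _).trans ((Nat.sub_le _ _).trans (hS a haS).2)
  have hinj : Set.InjOn (fun a => (a - a0) / m) (S.erase a0 : Set ℕ) := by
    intro a ha a' ha' h
    have e1 := (hform a ha).1
    have e2 := (hform a' ha').1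
    have h' : (a - a0) / m = (a' - a0) / m := h
    rw [← e1, ← e2, h']
  calc ∑ a ∈ S.erase a0, (1 : ℝ) / a
      ≤ ∑ a ∈ S.erase a0, (1 / (m : ℝ)) * (1 / (((a - a0) / m : ℕ) : ℝ)) := by
        refine sum_le_sum fun a ha => ?_
        obtain ⟨e1, e2, -⟩ := hform a ha
        have h2 : (0 : ℝ) < (((a - a0) / m : ℕ) : ℝ) := by exact_mod_cast e2
        rw [one_div_mul_one_div]
        apply one_div_le_one_div_of_le (by positivity)
        have : m * ((a - a0) / m) ≤ a := by omega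
        exact_mod_cast this
    _ = (1 / (m : ℝ)) * ∑ k ∈ (S.erase a0).image (fun a => (a - a0) / m), (1 : ℝ) / k := by
        rw [← mul_sum, sum_image (fun a ha a' ha' h => hinj ha ha' h)]
    _ ≤ (1 / (m : ℝ)) * ∑ k ∈ Icc 1 B, (1 : ℝ) / k := by
        refine mul_le_mul_of_nonneg_left ?_ (by positivity)
        refine sum_le_sum_of_subset_of_nonneg ?_ (fun _ _ _ => by positivity)
        intro k hk
        obtain ⟨a, ha, rfl⟩ := mem_image.mp hk
        obtain ⟨-, e2, e3⟩ := hform a ha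
        exact mem_Icc.mpr ⟨e2, e3⟩
    _ ≤ (1 / (m : ℝ)) * (1 + Real.log B) := by
        exact mul_le_mul_of_nonneg_left (r9_harm B) (by positivity)
    _ = (1 + Real.log B) / m := by ring

/-- sum over the multiples of `p` -/
private theorem r9_mult (Y p : ℕ) (hp : 1 ≤ p) :
    ∑ c ∈ (Icc 1 Y).filter (fun c => p ∣ c), (1 : ℝ) / c ≤ (1 + Real.log Y) / p := by
  have hp0 : (0 : ℝ) < p := by exact_mod_cast hp
  have hform : ∀ c ∈ (Icc 1 Y).filter (fun c => p ∣ c), p * (c / p) = c ∧ 1 ≤ c / p ∧ c / p ≤ Y := by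
    intro c hc
    obtain ⟨h1, h2⟩ := mem_filter.mp hc
    obtain ⟨h3, h4⟩ := mem_Icc.mp h1
    have he : p * (c / p) = c := Nat.mul_div_cancel' h2
    refine ⟨he, ?_, (Nat.div_le_self _ _).trans h4⟩
    by_contra h0
    have h0' : c / p = 0 := Nat.lt_one_iff.mp (not_le.mp h0)
    rw [h0', mul_zero] at he
    omega
  calc ∑ c ∈ (Icc 1 Y).filter (fun c => p ∣ c), (1 : ℝ) / c
      = ∑ c ∈ (Icc 1 Y).filter (fun c => p ∣ c), (1 / (p : ℝ)) * (1 / ((c / p : ℕ) : ℝ)) := by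
        refine sum_congr rfl fun c hc => ?_
        obtain ⟨e1, -, -⟩ := hform c hc
        rw [one_div_mul_one_div]
        congr 1
        exact_mod_cast e1.symm
    _ = (1 / (p : ℝ)) * ∑ k ∈ ((Icc 1 Y).filter (fun c => p ∣ c)).image (fun c => c / p),
          (1 : ℝ) / k := by
        rw [← mul_sum, sum_image]
        intro c hc c' hc' h
        have e1 := (hform c hc).1
        have e2 := (hform c' hc').1
        have h' : c / p = c' / p := h
        rw [← e1, ← e2, h']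
    _ ≤ (1 / (p : ℝ)) * ∑ k ∈ Icc 1 Y, (1 : ℝ) / k := by
        refine mul_le_mul_of_nonneg_left ?_ (by positivity)
        refine sum_le_sum_of_subset_of_nonneg ?_ (fun _ _ _ => by positivity)
        intro k hk
        obtain ⟨c, hc, rfl⟩ := mem_image.mp hk
        obtain ⟨-, e2, e3⟩ := hform c hc
        exact mem_Icc.mpr ⟨e2, e3⟩
    _ ≤ (1 / (p : ℝ)) * (1 + Real.log Y) :=
        mul_le_mul_of_nonneg_left (r9_harm Y) (by positivity)
    _ = (1 + Real.log Y) / p := by ring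

/-- sum over a set of triples, fibred over `(u, c)` -/
private theorem r9_fib (W : Finset (ℕ × ℕ × ℕ)) (Y : ℕ)
    (hW : ∀ t ∈ W, t.1 ∈ Icc 1 Y ∧ t.2.2 ∈ Icc 1 Y) (g : ℕ → ℕ → ℝ)
    (hg : ∀ u ∈ Icc 1 Y, ∀ c ∈ Icc 1 Y, ∀ S : Finset ℕ, (∀ a ∈ S, (u, a, c) ∈ W) →
      ∑ a ∈ S, (1 : ℝ) / a ≤ g u c) :
    ∑ t ∈ W, (1 : ℝ) / rr t ≤ ∑ u ∈ Icc 1 Y, ∑ c ∈ Icc 1 Y, (1 / (c : ℝ)) * g u c := by
  rw [← sum_product', ← sum_fiberwise_of_maps_to (g := fun t : ℕ × ℕ × ℕ => (t.1, t.2.2))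
    (t := Icc 1 Y ×ˢ Icc 1 Y) (fun t ht => mem_product.mpr (hW t ht))]
  refine sum_le_sum fun y hy => ?_
  obtain ⟨hu, hc⟩ := mem_product.mp hy
  have hmem : ∀ t ∈ W.filter (fun t => (t.1, t.2.2) = y), t = (y.1, t.2.1, y.2) ∧ t ∈ W := by
    intro t ht
    obtain ⟨h1, h2⟩ := mem_filter.mp ht
    refine ⟨?_, h1⟩
    rw [← h2]
  calc ∑ t ∈ W.filter (fun t => (t.1, t.2.2) = y), (1 : ℝ) / rr t
      = ∑ t ∈ W.filter (fun t => (t.1, t.2.2) = y), (1 / (y.2 : ℝ)) * (1 / (t.2.1 : ℝ)) := by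
        refine sum_congr rfl fun t ht => ?_
        rw [one_div_mul_one_div, (hmem t ht).1]
        simp only [rr]
        push_cast
        rw [mul_comm]
    _ = (1 / (y.2 : ℝ)) * ∑ a ∈ (W.filter (fun t => (t.1, t.2.2) = y)).image (fun t => t.2.1),
          (1 : ℝ) / a := by
        rw [← mul_sum, sum_image]
        intro t ht t' ht' h
        rw [(hmem t ht).1, (hmem t' ht').1]
        have h' : t.2.1 = t'.2.1 := h
        rw [h']
    _ ≤ (1 / (y.2 : ℝ)) * g y.1 y.2 := by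
        refine mul_le_mul_of_nonneg_left (hg y.1 hu y.2 hc _ fun a ha => ?_) (by positivity)
        obtain ⟨t, ht, rfl⟩ := mem_image.mp ha
        have := hmem t ht
        rw [← this.1]
        exact this.2

private theorem r9_tt {Y z b : ℕ} {t : ℕ × ℕ × ℕ} (ht : t ∈ TT Y z b) :
    t.1 ∈ Icc 1 Y ∧ t.2.1 ∈ Ioc (Y ^ 6) (Y ^ 7) ∧ t.2.2 ∈ Icc 1 Y ∧ Rough z t.2.1 ∧
      Rough z t.2.2 ∧ Nat.Coprime t.1 (t.2.1 * t.2.2) ∧ t.1 ∣ t.2.2 * b + t.2.1 := by
  simp only [TT, mem_filter, mem_product] at ht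
  exact ⟨ht.1.1, ht.1.2.1, ht.1.2.2, ht.2.2.1, ht.2.2.2.1, ht.2.2.2.2.2.1, ht.2.2.2.2.2.2⟩

/-- two members of one fibre are congruent modulo `u` -/
private theorem r9_mod {u c b a a' : ℕ} (h : u ∣ c * b + a) (h' : u ∣ c * b + a') :
    a % u = a' % u := by
  have h1 : c * b + a ≡ c * b + a' [MOD u] :=
    (Nat.modEq_zero_iff_dvd.mpr h).trans (Nat.modEq_zero_iff_dvd.mpr h').symm
  exact Nat.ModEq.add_left_cancel' _ h1

private theorem r9_log7 (Y : ℕ) : Real.log ((Y ^ 7 : ℕ) : ℝ) = 7 * Real.log Y := by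
  push_cast
  rw [Real.log_pow]
  norm_num

/-- the inner sum -/
private theorem r9_inner (Y z b : ℕ) (hY : 2 ≤ Y) (u c : ℕ) (hu : u ∈ Icc 1 Y) (S : Finset ℕ)
    (hS : ∀ a ∈ S, (u, a, c) ∈ TT Y z b) :
    ∑ a ∈ S, (1 : ℝ) / a ≤ 7 * (1 + Real.log Y) * (1 / u) := by
  obtain ⟨hu1, hu2⟩ := mem_Icc.mp hu
  have hu0 : (0 : ℝ) < u := by exact_mod_cast hu1
  have h := r9_class S (Y ^ 6) (Y ^ 7) u (Nat.one_le_pow _ _ (by omega)) hu1
    (fun a ha => mem_Ioc.mp (r9_tt (hS a ha)).2.1)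
    (fun a ha a' ha' => r9_mod (r9_tt (hS a ha)).2.2.2.2.2.2 (r9_tt (hS a' ha')).2.2.2.2.2.2)
  rw [r9_log7] at h
  refine h.trans ?_
  have h1 : (1 : ℝ) / ((Y ^ 6 : ℕ) : ℝ) ≤ 1 / u := by
    apply one_div_le_one_div_of_le hu0
    have : u ≤ Y ^ 6 := hu2.trans (Nat.le_self_pow (by norm_num) Y)
    exact_mod_cast this
  have h2 : 0 ≤ Real.log Y := Real.log_natCast_nonneg Y
  have h3 : (0 : ℝ) < 1 / u := by positivity
  have e : (1 + 7 * Real.log Y) / (u : ℝ) = (1 + 7 * Real.log Y) * (1 / u) := by ring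
  rw [e]
  nlinarith

/-- R9a -/
theorem r9a : R9a := by
  refine ⟨7, by norm_num, fun Y z b hY => ?_⟩
  have hL : 0 ≤ 1 + Real.log Y := by
    have := Real.log_natCast_nonneg Y
    linarith
  have h := r9_fib (TT Y z b) Y (fun t ht => ⟨(r9_tt ht).1, (r9_tt ht).2.2.1⟩)
    (fun u _ => 7 * (1 + Real.log Y) * (1 / u))
    (fun u hu c _ S hS => r9_inner Y z b hY u c hu S hS)
  refine h.trans ?_
  have e : ∑ u ∈ Icc 1 Y, ∑ c ∈ Icc 1 Y, (1 / (c : ℝ)) * (7 * (1 + Real.log Y) * (1 / (u : ℝ))) =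
      7 * (1 + Real.log Y) * ((∑ u ∈ Icc 1 Y, (1 : ℝ) / u) * ∑ c ∈ Icc 1 Y, (1 : ℝ) / c) := by
    rw [sum_mul_sum, mul_sum]
    refine sum_congr rfl fun u _ => ?_
    rw [mul_sum]
    refine sum_congr rfl fun c _ => ?_
    ring
  rw [e]
  have h1 := r9_harm Y
  have h0 : 0 ≤ ∑ u ∈ Icc 1 Y, (1 : ℝ) / u := sum_nonneg fun _ _ => by positivity
  calc 7 * (1 + Real.log Y) * ((∑ u ∈ Icc 1 Y, (1 : ℝ) / u) * ∑ c ∈ Icc 1 Y, (1 : ℝ) / c)
      ≤ 7 * (1 + Real.log Y) * ((1 + Real.log Y) * (1 + Real.log Y)) := by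
        exact mul_le_mul_of_nonneg_left (mul_le_mul h1 h1 h0 hL) (by positivity)
    _ = 7 * (1 + Real.log Y) ^ 3 := by ring

/-- case `p ∣ c` -/
private theorem r9_c (Y z b p : ℕ) (hY : 2 ≤ Y) (hp : 1 ≤ p) :
    ∑ t ∈ (TT Y z b).filter (fun t => p ∣ t.2.2), (1 : ℝ) / rr t ≤
      7 * (1 + Real.log Y) ^ 3 * (1 / p) := by
  have hL : 0 ≤ 1 + Real.log Y := by
    have := Real.log_natCast_nonneg Y
    linarith
  have h := r9_fib ((TT Y z b).filter (fun t => p ∣ t.2.2)) Y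
    (fun t ht => ⟨(r9_tt (mem_filter.mp ht).1).1, (r9_tt (mem_filter.mp ht).1).2.2.1⟩)
    (fun u c => if p ∣ c then 7 * (1 + Real.log Y) * (1 / u) else 0)
    (fun u hu c _ S hS => by
      by_cases hc : p ∣ c
      · rw [if_pos hc]
        exact r9_inner Y z b hY u c hu S (fun a ha => (mem_filter.mp (hS a ha)).1)
      · rw [if_neg hc]
        have : S = ∅ := by
          rw [Finset.eq_empty_iff_forall_notMem]
          intro a ha
          exact hc (mem_filter.mp (hS a ha)).2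
        rw [this, sum_empty])
  refine h.trans ?_
  have e : ∑ u ∈ Icc 1 Y, ∑ c ∈ Icc 1 Y, (1 / (c : ℝ)) *
      (if p ∣ c then 7 * (1 + Real.log Y) * (1 / (u : ℝ)) else 0) =
      7 * (1 + Real.log Y) * ((∑ u ∈ Icc 1 Y, (1 : ℝ) / u) *
        ∑ c ∈ (Icc 1 Y).filter (fun c => p ∣ c), (1 : ℝ) / c) := by
    rw [sum_filter, sum_mul_sum, mul_sum]
    refine sum_congr rfl fun u _ => ?_
    rw [mul_sum]
    refine sum_congr rfl fun c _ => ?_
    split_ifs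
    · ring
    · simp
  rw [e]
  have h1 := r9_harm Y
  have h2 := r9_mult Y p hp
  have h0 : 0 ≤ ∑ c ∈ (Icc 1 Y).filter (fun c => p ∣ c), (1 : ℝ) / c :=
    sum_nonneg fun _ _ => by positivity
  calc 7 * (1 + Real.log Y) * ((∑ u ∈ Icc 1 Y, (1 : ℝ) / u) *
        ∑ c ∈ (Icc 1 Y).filter (fun c => p ∣ c), (1 : ℝ) / c)
      ≤ 7 * (1 + Real.log Y) * ((1 + Real.log Y) * ((1 + Real.log Y) / p)) := by
        exact mul_le_mul_of_nonneg_left (mul_le_mul h1 h2 h0 hL) (by positivity)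
    _ = 7 * (1 + Real.log Y) ^ 3 * (1 / p) := by ring

/-- case `p ∣ a` -/
private theorem r9_a (Y z b p : ℕ) (hY : 2 ≤ Y) (hp : p.Prime) :
    ∑ t ∈ (TT Y z b).filter (fun t => p ∣ t.2.1), (1 : ℝ) / rr t ≤
      (1 + Real.log Y) ^ 3 * (7 / p + 1 / Y) := by
  have hL0 := Real.log_natCast_nonneg Y
  have hL : 1 ≤ 1 + Real.log Y := by linarith
  have hY0 : (0 : ℝ) < Y := by exact_mod_cast (by omega : 0 < Y)
  have hY1 : (1 : ℝ) ≤ Y := by exact_mod_cast (by omega : 1 ≤ Y)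
  have hp0 : (0 : ℝ) < p := by exact_mod_cast hp.pos
  have h := r9_fib ((TT Y z b).filter (fun t => p ∣ t.2.1)) Y
    (fun t ht => ⟨(r9_tt (mem_filter.mp ht).1).1, (r9_tt (mem_filter.mp ht).1).2.2.1⟩)
    (fun u c => 1 / (Y : ℝ) ^ 6 + 7 * (1 + Real.log Y) / p * (1 / u))
    (fun u hu c _ S hS => by
      obtain ⟨hu1, hu2⟩ := mem_Icc.mp hu
      have hu0 : (0 : ℝ) < u := by exact_mod_cast hu1
      rcases S.eq_empty_or_nonempty with rfl | ⟨a0, ha0⟩
      · rw [sum_empty]; positivity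
      have hcop : Nat.Coprime u p := by
        have h1 := (r9_tt (mem_filter.mp (hS a0 ha0)).1).2.2.2.2.2.1
        have h2 : p ∣ a0 := (mem_filter.mp (hS a0 ha0)).2
        exact Nat.Coprime.coprime_dvd_right (h2.trans (dvd_mul_right _ _)) h1
      have h1 := r9_class S (Y ^ 6) (Y ^ 7) (u * p) (Nat.one_le_pow _ _ (by omega))
        (Nat.mul_pos hu1 hp.pos)
        (fun a ha => mem_Ioc.mp (r9_tt (mem_filter.mp (hS a ha)).1).2.1)
        (fun a ha a' ha' => by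
          have e1 : a ≡ a' [MOD u] := r9_mod (r9_tt (mem_filter.mp (hS a ha)).1).2.2.2.2.2.2
            (r9_tt (mem_filter.mp (hS a' ha')).1).2.2.2.2.2.2
          have e2 : a ≡ a' [MOD p] :=
            (Nat.modEq_zero_iff_dvd.mpr (mem_filter.mp (hS a ha)).2).trans
              (Nat.modEq_zero_iff_dvd.mpr (mem_filter.mp (hS a' ha')).2).symm
          exact (Nat.modEq_and_modEq_iff_modEq_mul hcop).mp ⟨e1, e2⟩)
      rw [r9_log7] at h1
      refine h1.trans ?_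
      push_cast
      refine add_le_add le_rfl ?_
      have e : 7 * (1 + Real.log Y) / (p : ℝ) * (1 / u) = 7 * (1 + Real.log Y) / (u * p) := by
        field_simp
      rw [e]
      apply div_le_div_of_nonneg_right _ (by positivity)
      linarith)
  refine h.trans ?_
  have e : ∑ u ∈ Icc 1 Y, ∑ c ∈ Icc 1 Y, (1 / (c : ℝ)) *
      (1 / (Y : ℝ) ^ 6 + 7 * (1 + Real.log Y) / p * (1 / (u : ℝ))) =
      Y * (1 / (Y : ℝ) ^ 6) * (∑ c ∈ Icc 1 Y, (1 : ℝ) / c) +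
      7 * (1 + Real.log Y) / p * ((∑ u ∈ Icc 1 Y, (1 : ℝ) / u) *
        ∑ c ∈ Icc 1 Y, (1 : ℝ) / c) := by
    have e1 : ∀ u ∈ Icc 1 Y, ∑ c ∈ Icc 1 Y, (1 / (c : ℝ)) *
        (1 / (Y : ℝ) ^ 6 + 7 * (1 + Real.log Y) / p * (1 / (u : ℝ))) =
        (1 / (Y : ℝ) ^ 6) * (∑ c ∈ Icc 1 Y, (1 : ℝ) / c) +
        7 * (1 + Real.log Y) / p * (((1 : ℝ) / u) * ∑ c ∈ Icc 1 Y, (1 : ℝ) / c) := by
      intro u _
      rw [mul_sum, mul_sum, mul_sum, ← sum_add_distrib]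
      refine sum_congr rfl fun c _ => ?_
      ring
    rw [sum_congr rfl e1, sum_add_distrib, sum_const, Nat.card_Icc, nsmul_eq_mul, ← mul_sum,
      ← sum_mul]
    simp only [Nat.add_sub_cancel]
    ring
  rw [e]
  have h1 := r9_harm Y
  have h0 : 0 ≤ ∑ u ∈ Icc 1 Y, (1 : ℝ) / u := sum_nonneg fun _ _ => by positivity
  have h2 : (Y : ℝ) * (1 / (Y : ℝ) ^ 6) * (∑ c ∈ Icc 1 Y, (1 : ℝ) / c) ≤
      (1 / Y) * (1 + Real.log Y) ^ 3 := by
    have a1 : (Y : ℝ) * (1 / (Y : ℝ) ^ 6) ≤ 1 / Y := by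
      have : (Y : ℝ) * (1 / (Y : ℝ) ^ 6) = 1 / (Y : ℝ) ^ 5 := by
        field_simp
      rw [this]
      apply one_div_le_one_div_of_le hY0
      exact le_self_pow₀ hY1 (by norm_num)
    have a2 : 1 + Real.log Y ≤ (1 + Real.log Y) ^ 3 := le_self_pow₀ hL (by norm_num)
    exact mul_le_mul a1 (h1.trans a2) h0 (by positivity)
  have h3 : 7 * (1 + Real.log Y) / p * ((∑ u ∈ Icc 1 Y, (1 : ℝ) / u) *
      ∑ c ∈ Icc 1 Y, (1 : ℝ) / c) ≤ 7 * (1 + Real.log Y) / p *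
        ((1 + Real.log Y) * (1 + Real.log Y)) := by
    exact mul_le_mul_of_nonneg_left (mul_le_mul h1 h1 h0 (by linarith)) (by positivity)
  calc _ ≤ (1 / Y) * (1 + Real.log Y) ^ 3 + 7 * (1 + Real.log Y) / p *
        ((1 + Real.log Y) * (1 + Real.log Y)) := add_le_add h2 h3
    _ = (1 + Real.log Y) ^ 3 * (7 / p + 1 / Y) := by ring

/-- R9b -/
theorem r9b : R9b := by
  refine ⟨14, by norm_num, fun Y z b q hY hz hq => ?_⟩
  have hL0 := Real.log_natCast_nonneg Y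
  have hY0 : (0 : ℝ) < Y := by exact_mod_cast (by omega : 0 < Y)
  have hz0 : (1 : ℝ) ≤ z := by exact_mod_cast hz
  obtain ⟨p, hp, hpq⟩ := Nat.exists_prime_and_dvd (by omega : q ≠ 1)
  rcases ((TT Y z b).filter (fun t => q ∣ rr t)).eq_empty_or_nonempty with h0 | ⟨t0, ht0⟩
  · rw [h0, sum_empty]; positivity
  -- `p > z`
  have hpz : z < p := by
    obtain ⟨h1, h2⟩ := mem_filter.mp ht0
    have h3 : p ∣ t0.2.1 * t0.2.2 := hpq.trans h2
    obtain ⟨-, -, -, r1, r2, -, -⟩ := r9_tt h1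
    rcases (Nat.Prime.dvd_mul hp).mp h3 with h4 | h4
    · exact r1 p hp h4
    · exact r2 p hp h4
  have hp1 : (1 : ℝ) / p ≤ 1 / Real.sqrt z := by
    apply one_div_le_one_div_of_le (Real.sqrt_pos.mpr (by linarith))
    have h1 : Real.sqrt z ≤ z := by
      rw [Real.sqrt_le_left (by linarith)]
      nlinarith
    have h2 : (z : ℝ) ≤ p := by exact_mod_cast hpz.le
    linarith
  have hsub : ∑ t ∈ (TT Y z b).filter (fun t => q ∣ rr t), (1 : ℝ) / rr t ≤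
      ∑ t ∈ (TT Y z b).filter (fun t => p ∣ t.2.1), (1 : ℝ) / rr t +
      ∑ t ∈ (TT Y z b).filter (fun t => p ∣ t.2.2), (1 : ℝ) / rr t := by
    rw [← sum_union_inter]
    have h1 : ∑ t ∈ (TT Y z b).filter (fun t => q ∣ rr t), (1 : ℝ) / rr t ≤
        ∑ t ∈ (TT Y z b).filter (fun t => p ∣ t.2.1) ∪
          (TT Y z b).filter (fun t => p ∣ t.2.2), (1 : ℝ) / rr t := by
      refine sum_le_sum_of_subset_of_nonneg ?_ (fun _ _ _ => by positivity)
      intro t ht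
      obtain ⟨h2, h3⟩ := mem_filter.mp ht
      have h4 : p ∣ t.2.1 * t.2.2 := hpq.trans h3
      rcases (Nat.Prime.dvd_mul hp).mp h4 with h5 | h5
      · exact mem_union_left _ (mem_filter.mpr ⟨h2, h5⟩)
      · exact mem_union_right _ (mem_filter.mpr ⟨h2, h5⟩)
    have h2 : 0 ≤ ∑ t ∈ (TT Y z b).filter (fun t => p ∣ t.2.1) ∩
          (TT Y z b).filter (fun t => p ∣ t.2.2), (1 : ℝ) / rr t :=
      sum_nonneg fun _ _ => by positivity
    linarith
  have h1 := r9_a Y z b p hY hp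
  have h2 := r9_c Y z b p hY hp.one_lt.le
  refine hsub.trans ((add_le_add h1 h2).trans ?_)
  have h3 : 0 ≤ (1 + Real.log Y) ^ 3 := by positivity
  have h4 : (0 : ℝ) ≤ 1 / Y := by positivity
  calc (1 + Real.log Y) ^ 3 * (7 / p + 1 / Y) + 7 * (1 + Real.log Y) ^ 3 * (1 / p)
      = (1 + Real.log Y) ^ 3 * (14 * (1 / p) + 1 / Y) := by ring
    _ ≤ (1 + Real.log Y) ^ 3 * (14 * (1 / Real.sqrt z) + 14 * (1 / Y)) :=
        mul_le_mul_of_nonneg_left (by linarith) h3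
    _ = 14 * (1 + Real.log Y) ^ 3 * (1 / Real.sqrt z + 1 / Y) := by ring

end ES
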