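import Pool.Agent.Lib.ES.R1
import Pool.Agent.Lib.ES.R2
import Pool.Agent.Lib.ES.R3
import Pool.Agent.Lib.ES.R4
import Pool.Agent.Lib.ES.R5
import Pool.Agent.Lib.ES.R6
import Pool.Agent.Lib.ES.R7a
import Pool.Agent.Lib.ES.R7b
import Pool.Agent.Lib.ES.R7d
import Pool.Agent.Lib.ES.R7
import Pool.Agent.Lib.ES.R8
import Pool.Agent.Lib.ES.R9
import Pool.Agent.Lib.ES.R10
import Pool.Agent.Lib.ES.R11
import Pool.Agent.Lib.ES.R12
import Pool.Agent.Lib.ES.R13
import Pool.Agent.Lib.ES.R14a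
import Pool.Agent.Lib.ES.R14b
import Pool.Agent.Lib.ES.R14Final
import Pool.Agent.Lib.ES.R14E

namespace ES

theorem BV_proof : BV :=
  R8_proof R5_proof R6_proof R7_proof R7a_proof R7b_proof R7d_proof R4_proof R3_proof

theorem Main_proof : Main :=
  r14 R1_proof R2_proof R14a_proof (R14b_proof BV_proof r9a r9b r11 r10) r12 R13_proof

theorem MainE_proof : MainE :=
  r14E R1_proof R2_proof R14a_proof (R14b_proof BV_proof r9a r9b r11 r10) r12 R13_proof

end ES
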